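import Pool.Agent.Lib.MP_722186_nt.M4

/-!
# MP_722186_nt, module 3: choice of the normal subgroup
-/

set_option autoImplicit false

open Topology

namespace Pool.Agent.Lib.MP_722186_nt

section

variable {G : Type*} [Group G] [TopologicalSpace G]

open scoped Classical in
/-- recursive choice of elements `g i ∈ V i` outside the closed normal closure of the previous
ones (whenever possible) -/
noncomputable def gseq (V : ℕ → Subgroup G) (i : ℕ) : G :=
  if hx : ∃ x ∈ V i, x ∉ closure
      ((Subgroup.normalClosure (Set.range (fun j : Fin i => gseq V j.1)) : Subgroup G) : Set G)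
  then hx.choose else 1
termination_by i
decreasing_by exact j.2

lemma gseq_mem (V : ℕ → Subgroup G) (i : ℕ) : gseq V i ∈ V i := by
  rw [gseq]
  split_ifs with hx
  · exact hx.choose_spec.1
  · exact one_mem _

lemma gseq_notMem (V : ℕ → Subgroup G) (i : ℕ)
    (hx : ∃ x ∈ V i, x ∉ closure
      ((Subgroup.normalClosure (Set.range (fun j : Fin i => gseq V j.1)) : Subgroup G) : Set G)) :
    gseq V i ∉ closure
      ((Subgroup.normalClosure (Set.range (fun j : Fin i => gseq V j.1)) : Subgroup G) : Set G) := by
  have h := gseq.eq_1 V i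
  rw [dif_pos hx] at h
  rw [h]
  exact hx.choose_spec.2

end

theorem exists_choice (p : ℕ) [hp : Fact p.Prime] {G : Type*} [Group G] [TopologicalSpace G]
    (hG : IsProP p G) (V : ℕ → Subgroup G) (hVn : ∀ i, (V i).Normal)
    (hVo : ∀ i, IsOpen (V i : Set G)) (hV : Antitone V)
    (hmain : ∀ g : ℕ → G, (∀ i, g i ∈ V i) → ∀ N : Subgroup G, N.Normal →
      (N : Set G) = closure ((Subgroup.normalClosure (Set.range g) : Subgroup G) : Set G) →
      ¬ IsOpen (N : Set G)) :
    ∃ N : Subgroup G, N.Normal ∧ IsClosed (N : Set G) ∧ ¬ IsOpen (N : Set G) ∧ N ≤ V 0 ∧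
      ∀ X : Set G, X.Finite →
        closure ((Subgroup.normalClosure X : Subgroup G) : Set G) ≠ N := by
  have h1 := hG.topological
  have h2 := hG.compact
  have h3 := hG.totallyDisconnected
  have hG' : MP722186.M4.IsProP p G := by
    intro V hV hVo
    obtain ⟨k, hk⟩ := hG.index V hV hVo
    have hcard : Nat.card (G ⧸ V) = p ^ k := hk
    exact IsPGroup.of_card hcard
  -- closed normal closures
  let C : Set G → Subgroup G := fun X => (Subgroup.normalClosure X).topologicalClosure
  have hCn : ∀ X, (C X).Normal := fun X => Subgroup.is_normal_topologicalClosure _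
  have hCc : ∀ X, IsClosed (C X : Set G) := fun X => Subgroup.isClosed_topologicalClosure _
  have hCcoe : ∀ X, (C X : Set G) =
      closure ((Subgroup.normalClosure X : Subgroup G) : Set G) := fun X =>
    Subgroup.topologicalClosure_coe
  have hCsub : ∀ X, X ⊆ (C X : Set G) := fun X x hx =>
    Subgroup.le_topologicalClosure _ (Subgroup.subset_normalClosure hx)
  have hCle : ∀ X (N : Subgroup G), N.Normal → IsClosed (N : Set G) → X ⊆ (N : Set G) →
      C X ≤ N := by
    intro X N hN hNc hX
    exact Subgroup.topologicalClosure_minimal _ (Subgroup.normalClosure_le_normal hX) hNc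
  let g : ℕ → G := gseq V
  have hgV : ∀ i, g i ∈ V i := gseq_mem V
  -- the finite stages are not open
  have hstage : ∀ i, ¬ IsOpen (C (Set.range (fun j : Fin i => g j.1)) : Set G) := by
    intro i
    let g' : ℕ → G := fun j => if j < i then g j else 1
    have hg'V : ∀ j, g' j ∈ V j := by
      intro j
      simp only [g']
      split_ifs
      · exact hgV j
      · exact one_mem _
    have heq : C (Set.range (fun j : Fin i => g j.1)) = C (Set.range g') := by
      apply le_antisymm
      · apply hCle _ _ (hCn _) (hCc _)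
        rintro _ ⟨j, rfl⟩
        apply hCsub
        refine ⟨j.1, ?_⟩
        simp only [g']
        rw [if_pos j.2]
      · apply hCle _ _ (hCn _) (hCc _)
        rintro _ ⟨j, rfl⟩
        simp only [g']
        split_ifs with hj
        · exact hCsub _ ⟨⟨j, hj⟩, rfl⟩
        · exact one_mem _
    rw [heq]
    exact hmain g' hg'V _ (hCn _) (hCcoe _)
  have hnot : ∀ i, g i ∉ C (Set.range (fun j : Fin i => g j.1)) := by
    intro i
    have hx : ∃ x ∈ V i, x ∉ closure ((Subgroup.normalClosure
        (Set.range (fun j : Fin i => gseq V j.1)) : Subgroup G) : Set G) := by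
      by_contra hc
      push Not at hc
      apply hstage i
      refine Subgroup.isOpen_mono (H₁ := V i) ?_ (hVo i)
      intro x hx
      have := hc x hx
      rw [← hCcoe] at this
      exact this
    have := gseq_notMem V i hx
    rw [← hCcoe] at this
    exact this
  let N : Subgroup G := C (Set.range g)
  have hNn : N.Normal := hCn _
  have hNc : IsClosed (N : Set G) := hCc _
  refine ⟨N, hNn, hNc, hmain g hgV N hNn (hCcoe _), ?_, ?_⟩
  · apply hCle _ _ (hVn 0) ((V 0).isClosed_of_isOpen (hVo 0))
    rintro _ ⟨i, rfl⟩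
    exact hV (Nat.zero_le i) (hgV i)
  · intro X hX hXN
    -- a continuous invariant hom vanishing on a generating set vanishes
    have hvan : ∀ Y : Set G, (C Y : Subgroup G) = N → ∀ φ : N → ZMod p,
        (∀ a b : N, φ (a * b) = φ a + φ b) →
        (∀ (g : G) (n : N), φ ⟨g * n * g⁻¹, hNn.conj_mem n n.2 g⟩ = φ n) → Continuous φ →
        (∀ n : N, (n : G) ∈ Y → φ n = 0) → φ = 0 := by
      intro Y hY φ hadd hinv hcont hφY
      have hφ1 : φ 1 = 0 := by
        have := hadd 1 1
        rw [mul_one] at this
        linear_combination -this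
      let K : Subgroup G :=
        { carrier := {x | ∃ hx : x ∈ N, φ ⟨x, hx⟩ = 0}
          mul_mem' := by
            rintro a b ⟨ha, ha'⟩ ⟨hb, hb'⟩
            refine ⟨mul_mem ha hb, ?_⟩
            have := hadd ⟨a, ha⟩ ⟨b, hb⟩
            rw [ha', hb', add_zero] at this
            exact this
          one_mem' := ⟨one_mem _, hφ1⟩
          inv_mem' := by
            rintro a ⟨ha, ha'⟩
            refine ⟨inv_mem ha, ?_⟩
            have := hadd ⟨a, ha⟩ ⟨a, ha⟩⁻¹
            rw [mul_inv_cancel, hφ1, ha', zero_add] at this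
            exact this.symm }
      have hKn : K.Normal := by
        refine ⟨?_⟩
        rintro a ⟨ha, ha'⟩ x
        exact ⟨hNn.conj_mem a ha x, by rw [← ha']; exact hinv x ⟨a, ha⟩⟩
      have hKc : IsClosed (K : Set G) := by
        have h4 : (K : Set G) = (fun n : N => (n : G)) '' (φ ⁻¹' {0}) := by
          ext x
          constructor
          · rintro ⟨hx, hx'⟩
            exact ⟨⟨x, hx⟩, hx', rfl⟩
          · rintro ⟨n, hn, rfl⟩
            exact ⟨n.2, hn⟩
        rw [h4]
        exact hNc.isClosedEmbedding_subtypeVal.isClosedMap _ (isClosed_singleton.preimage hcont)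
      have hYN : Y ⊆ (N : Set G) := by rw [← hY]; exact hCsub Y
      have hle : C Y ≤ K := hCle _ _ hKn hKc (fun y hy => ⟨hYN hy, hφY _ hy⟩)
      funext n
      obtain ⟨_, h5⟩ := hle (by rw [hY]; exact n.2 : (n : G) ∈ C Y)
      exact h5
    have hAc : ∀ φ : N → ZMod p, MP722186.M4.Adm p N φ → Continuous φ := by
      rintro φ ⟨_, _, η, hη, hηφ⟩
      have : φ = fun n : N => η n - η 1 := by
        funext n
        have := hηφ n 1
        rw [mul_one] at this
        rw [this]; ring
      rw [this]
      exact (hη.comp continuous_subtype_val).sub continuous_const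
    have hCX : C X = N := by
      apply SetLike.coe_injective
      rw [hCcoe]; exact hXN
    -- finitely many admissible homs
    have hXN' : X ⊆ (N : Set G) := by rw [← hCX]; exact hCsub X
    have hfin : Finite {φ : N → ZMod p // MP722186.M4.Adm p N φ} := by
      have hXf : Finite X := hX
      refine Finite.of_injective (fun φ (x : X) => φ.1 ⟨x, hXN' x.2⟩ :
        {φ : N → ZMod p // MP722186.M4.Adm p N φ} → (X → ZMod p)) ?_
      intro φ φ' h
      apply Subtype.ext
      have h6 := hvan X hCX (φ.1 - φ'.1) (fun a b => by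
          simp only [Pi.sub_apply, φ.2.1 a b, φ'.2.1 a b]; ring)
        (fun g n => by simp only [Pi.sub_apply, φ.2.2.1 g n, φ'.2.2.1 g n])
        ((hAc _ φ.2).sub (hAc _ φ'.2))
        (fun n hn => by
          have := congrFun h ⟨n, hn⟩
          simp only at this
          rw [Pi.sub_apply, sub_eq_zero]
          exact this)
      exact sub_eq_zero.1 h6
    -- each nonzero admissible hom is nonzero on some `g j`
    have hj : ∀ φ : {φ : N → ZMod p // MP722186.M4.Adm p N φ}, ∃ j : ℕ, φ.1 ≠ 0 →
        ∃ hj : g j ∈ N, φ.1 ⟨g j, hj⟩ ≠ 0 := by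
      intro φ
      by_cases hφ : φ.1 = 0
      · exact ⟨0, fun h => absurd hφ h⟩
      · by_contra hc
        push Not at hc
        apply hφ
        refine hvan (Set.range g) rfl φ.1 φ.2.1 φ.2.2.1 (hAc _ φ.2) ?_
        rintro ⟨n, hn⟩ ⟨j, rfl⟩
        exact (hc j).2 hn
    choose j hj using hj
    obtain ⟨i, hi⟩ : ∃ i, ∀ φ, j φ < i := by
      have := Fintype.ofFinite {φ : N → ZMod p // MP722186.M4.Adm p N φ}
      refine ⟨Finset.univ.sup j + 1, fun φ => ?_⟩
      have := Finset.le_sup (f := j) (Finset.mem_univ φ)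
      omega
    have hBn : (C (Set.range (fun j : Fin i => g j.1))).Normal := hCn _
    obtain ⟨φ, hφ, hφ0, hφB⟩ := MP722186.M4.exists_adm_lt hG' N
      (C (Set.range (fun j : Fin i => g j.1))) (hCc _)
      (hCle _ _ hNn hNc (by
        rintro _ ⟨j, rfl⟩
        exact hCsub _ ⟨j.1, rfl⟩))
      (by
        intro h
        apply hnot i
        rw [h]
        exact hCsub _ ⟨i, rfl⟩)
    obtain ⟨h7, h8⟩ := hj ⟨φ, hφ⟩ hφ0
    apply h8
    apply hφB
    exact hCsub _ ⟨⟨j ⟨φ, hφ⟩, hi _⟩, rfl⟩

end Pool.Agent.Lib.MP_722186_nt
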