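import Mathlib

/-!
# MP_722186_nt: definitions

Continuous cohomology in degrees `1` and `2` with coefficients in `𝔽_p` (trivial action), by
continuous inhomogeneous cochains; ramification in infinite Galois extensions of number fields;
the statement of the question; the maximal unramified `2`-extension.
-/

namespace Pool.Agent.Lib.MP_722186_nt

open NumberField

/-! ### Continuous cohomology -/

section cohomology

variable (p : ℕ) (G : Type*) [Group G] [TopologicalSpace G]

/-- `H¹(G, 𝔽_p)` for the trivial action: the continuous homomorphisms from `G` to `𝔽_p`. -/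
def HomC : Submodule (ZMod p) (G → ZMod p) where
  carrier := {χ | Continuous χ ∧ ∀ g h, χ (g * h) = χ g + χ h}
  add_mem' := fun {a b} ha hb => ⟨ha.1.add hb.1, fun g h => by
    simp only [Pi.add_apply, ha.2, hb.2]; ring⟩
  zero_mem' := ⟨continuous_const, fun _ _ => by simp⟩
  smul_mem' := fun c a ha => ⟨ha.1.const_smul c, fun g h => by
    simp only [Pi.smul_apply, ha.2, smul_add]⟩

/-- The continuous `2`-cocycles of `G` with values in `𝔽_p` (trivial action). -/
def Z2 : Submodule (ZMod p) (G → G → ZMod p) where
  carrier := {f | Continuous (fun q : G × G => f q.1 q.2) ∧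
    ∀ g h k, f g h + f (g * h) k = f h k + f g (h * k)}
  add_mem' := fun {a b} ha hb => ⟨ha.1.add hb.1, fun g h k => by
    have h1 := ha.2 g h k
    have h2 := hb.2 g h k
    simp only [Pi.add_apply]
    linear_combination h1 + h2⟩
  zero_mem' := ⟨continuous_const, fun _ _ _ => by simp⟩
  smul_mem' := fun c a ha => ⟨ha.1.const_smul c, fun g h k => by
    have h1 := ha.2 g h k
    simp only [Pi.smul_apply, smul_eq_mul]
    linear_combination c * h1⟩

/-- The `2`-coboundaries of continuous `1`-cochains of `G` with values in `𝔽_p`. -/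
def B2 : Submodule (ZMod p) (G → G → ZMod p) where
  carrier := {f | ∃ η : G → ZMod p, Continuous η ∧ ∀ g h, f g h = η g + η h - η (g * h)}
  add_mem' := by
    rintro a b ⟨η, hη, h1⟩ ⟨ξ, hξ, h2⟩
    exact ⟨η + ξ, hη.add hξ, fun g h => by
      simp only [Pi.add_apply, h1, h2]; ring⟩
  zero_mem' := ⟨0, continuous_const, fun _ _ => by simp⟩
  smul_mem' := by
    rintro c a ⟨η, hη, h1⟩
    exact ⟨c • η, hη.const_smul c, fun g h => by
      simp only [Pi.smul_apply, smul_eq_mul, h1]; ring⟩

/-- `H²(G, 𝔽_p)` for the trivial action: continuous `2`-cocycles modulo coboundaries of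
continuous `1`-cochains. -/
abbrev H2 : Type _ := Z2 p G ⧸ (B2 p G).submoduleOf (Z2 p G)

/-- `G` is a pro-`p` group: a profinite group all of whose open normal subgroups have index a
power of `p`. -/
structure IsProP : Prop where
  topological : IsTopologicalGroup G
  compact : CompactSpace G
  hausdorff : T2Space G
  totallyDisconnected : TotallyDisconnectedSpace G
  index : ∀ U : Subgroup G, U.Normal → IsOpen (U : Set G) → ∃ k : ℕ, U.index = p ^ k

end cohomology

/-! ### Ramification in (possibly infinite) Galois extensions -/

section ramification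

variable (K L : Type*) [Field K] [Field L] [Algebra K L]

/-- `g` belongs to the inertia group of the ideal `P` of the ring of integers of `L`. -/
def InInertia (P : Ideal (𝓞 L)) (g : L ≃ₐ[K] L) : Prop :=
  ∀ x y : 𝓞 L, (y : L) = g (x : L) → y - x ∈ P

/-- The prime `v` of `K` is ramified in the (possibly infinite) Galois extension `L/K`: some prime
ideal of the ring of integers of `L` above `v` has a nontrivial inertia group. -/
def RamifiesIn (v : Ideal (𝓞 K)) : Prop :=
  ∃ P : Ideal (𝓞 L), P.IsPrime ∧ P.comap (algebraMap (𝓞 K) (𝓞 L)) = v ∧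
    ∃ g : L ≃ₐ[K] L, g ≠ 1 ∧ InInertia K L P g

/-- All inertia groups of the (possibly infinite) Galois extension `L/K` are trivial. -/
def UnramExt : Prop :=
  ∀ P : Ideal (𝓞 L), P.IsPrime → ∀ g : L ≃ₐ[K] L, InInertia K L P g → g = 1

/-- The extensions `L/K` of the question: Galois with infinite pro-`p` Galois group, only finitely
many primes of `K` ramify in `L`, and none of them lies above `p`. -/
structure IsTamePro (p : ℕ) : Prop where
  galois : IsGalois K L
  infinite : Infinite (L ≃ₐ[K] L)
  proP : IsProP p (L ≃ₐ[K] L)
  finite : {v : Ideal (𝓞 K) | v.IsPrime ∧ v ≠ ⊥ ∧ RamifiesIn K L v}.Finite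
  tame : ∀ v : Ideal (𝓞 K), v.IsPrime → v ≠ ⊥ → RamifiesIn K L v → (p : 𝓞 K) ∉ v

end ramification

/-- The statement of the question (virtually Golod–Shafarevich conjecture). -/
def VirtuallyGS : Prop :=
  ∀ (p : ℕ) (K : Type) [Field K] [NumberField K] (L : IntermediateField K (AlgebraicClosure K)),
    p.Prime → IsTamePro K L p →
    ∃ U : Subgroup (L ≃ₐ[K] L), IsOpen (U : Set (L ≃ₐ[K] L)) ∧
      Module.Finite (ZMod p) (HomC p U) ∧ Module.Finite (ZMod p) (H2 p U) ∧
      (Module.finrank (ZMod p) (H2 p U) : ℝ) ≤ (Module.finrank (ZMod p) (HomC p U) : ℝ) ^ 2 / 4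

/-! ### The maximal unramified `2`-extension -/

section Omega

variable (K : Type*) [Field K]

/-- The finite Galois extensions of `K` of degree a power of `2` with trivial inertia groups. -/
structure Good (F : IntermediateField K (AlgebraicClosure K)) : Prop where
  finite : FiniteDimensional K F
  galois : IsGalois K F
  degree : ∃ k : ℕ, Module.finrank K F = 2 ^ k
  unram : UnramExt K F

/-- The maximal unramified (at all finite primes) pro-`2` extension of `K`. -/
noncomputable def Omega : IntermediateField K (AlgebraicClosure K) :=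
  ⨆ F ∈ {F : IntermediateField K (AlgebraicClosure K) | Good K F}, F

end Omega

end Pool.Agent.Lib.MP_722186_nt
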