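import Mathlib

/-!
Golod-Shafarevich inequality, algebra part: the syzygy module of the augmentation ideal of a
finite-dimensional algebra.
-/

namespace Pool.Agent.Lib.MP_722186_nt

open Submodule Module

variable {k : Type*} [Field k] {A : Type*} [Ring A] [Algebra k A]

/-- powers of an ideal `I` (given as a subspace), with `F 0 = ⊤`. -/
def FI (I : Submodule k A) : ℕ → Submodule k A
  | 0 => ⊤
  | n + 1 => I * FI I n

lemma FI_zero (I : Submodule k A) : FI I 0 = ⊤ := rfl

/-- a two-sided ideal, as a predicate on subspaces -/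
structure TwoSided (I : Submodule k A) : Prop where
  left : ∀ a : A, ∀ y ∈ I, a * y ∈ I
  right : ∀ a : A, ∀ y ∈ I, y * a ∈ I

lemma FI_twoSided {I : Submodule k A} (hI : TwoSided I) (n : ℕ) : TwoSided (FI I n) := by
  induction n with
  | zero => exact ⟨fun _ _ _ => Submodule.mem_top, fun _ _ _ => Submodule.mem_top⟩
  | succ n ih =>
    constructor
    · intro a y hy
      refine Submodule.mul_induction_on hy ?_ ?_
      · intro m hm n hn
        rw [← mul_assoc]
        exact Submodule.mul_mem_mul (hI.left a m hm) hn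
      · intro x y hx hy
        rw [mul_add]; exact add_mem hx hy
    · intro a y hy
      refine Submodule.mul_induction_on hy ?_ ?_
      · intro m hm n hn
        rw [mul_assoc]
        exact Submodule.mul_mem_mul hm (ih.right a n hn)
      · intro x y hx hy
        rw [add_mul]; exact add_mem hx hy

lemma FI_succ_le {I : Submodule k A} (hI : TwoSided I) (n : ℕ) : FI I (n + 1) ≤ FI I n := by
  intro y hy
  refine Submodule.mul_induction_on hy ?_ ?_
  · intro m hm n' hn
    exact (FI_twoSided hI n).left m n' hn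
  · intro x y hx hy
    exact add_mem hx hy

lemma FI_anti {I : Submodule k A} (hI : TwoSided I) {m n : ℕ} (h : m ≤ n) : FI I n ≤ FI I m := by
  induction h with
  | refl => exact le_rfl
  | step _ ih => exact (FI_succ_le hI _).trans ih

lemma FI_one {I : Submodule k A} (hI : TwoSided I) : FI I 1 = I := by
  apply le_antisymm
  · intro y hy
    refine Submodule.mul_induction_on hy ?_ ?_
    · intro m hm n _
      exact hI.right n m hm
    · intro x y hx hy
      exact add_mem hx hy
  · intro y hy
    have : y * 1 ∈ I * FI I 0 := Submodule.mul_mem_mul hy Submodule.mem_top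
    rwa [mul_one] at this

lemma FI_mul_mem {I : Submodule k A} (hI : TwoSided I) (m n : ℕ) {a b : A} (ha : a ∈ FI I m)
    (hb : b ∈ FI I n) : a * b ∈ FI I (m + n) := by
  induction m generalizing a with
  | zero => rw [zero_add]; exact (FI_twoSided hI n).left a b hb
  | succ m ih =>
    have hmul : m + 1 + n = (m + n) + 1 := by ring
    rw [hmul]
    refine Submodule.mul_induction_on ha ?_ ?_
    · intro u hu v hv
      rw [mul_assoc]
      exact Submodule.mul_mem_mul hu (ih hv)
    · intro x y hx hy
      rw [add_mul]; exact add_mem hx hy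

section Vec

variable {d : ℕ}

/-- vectors with entries in a subspace -/
def VF (d : ℕ) (S : Submodule k A) : Submodule k (Fin d → A) where
  carrier := {v | ∀ i, v i ∈ S}
  zero_mem' := fun _ => S.zero_mem
  add_mem' := fun hv hw i => S.add_mem (hv i) (hw i)
  smul_mem' := fun c _ hv i => S.smul_mem c (hv i)

lemma mem_VF {S : Submodule k A} {v : Fin d → A} : v ∈ VF d S ↔ ∀ i, v i ∈ S := Iff.rfl

lemma VF_top : VF d (⊤ : Submodule k A) = ⊤ := by
  ext v; simp [mem_VF]

lemma VF_mono {S T : Submodule k A} (h : S ≤ T) : VF d S ≤ VF d T := fun _ hv i => h (hv i)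

lemma finrank_VF [FiniteDimensional k A] (S : Submodule k A) :
    finrank k (VF d S) = d * finrank k S := by
  have h1 : VF d S = LinearMap.range (S.subtype.compLeft (Fin d)) := by
    ext v
    rw [mem_VF, LinearMap.mem_range]
    constructor
    · intro h
      refine ⟨fun i => ⟨v i, h i⟩, ?_⟩
      ext i; rfl
    · rintro ⟨w, rfl⟩ i
      exact (w i).2
  rw [h1, LinearMap.finrank_range_of_inj]
  · rw [Module.finrank_pi_fintype]
    simp
  · intro v w h
    ext i
    exact congrFun h i

/-- the map `v ↦ ∑ x_i v_i` -/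
def mu (k : Type*) [Field k] [Algebra k A] (x : Fin d → A) : (Fin d → A) →ₗ[k] A where
  toFun v := ∑ i, x i * v i
  map_add' v w := by simp [mul_add, Finset.sum_add_distrib]
  map_smul' c v := by simp [Finset.smul_sum]

lemma mu_apply (x : Fin d → A) (v : Fin d → A) : mu k x v = ∑ i, x i * v i := rfl

/-- right multiplication of vectors by scalars -/
def rmul (k : Type*) [Field k] [Algebra k A] (d : ℕ) : (Fin d → A) →ₗ[k] A →ₗ[k] (Fin d → A) :=
  LinearMap.mk₂ k (fun v a i => v i * a)
    (by intro v w a; ext i; simp [add_mul])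
    (by intro c v a; ext i; simp)
    (by intro v a b; ext i; simp [mul_add])
    (by intro c v a; ext i; simp)

lemma rmul_apply (v : Fin d → A) (a : A) (i : Fin d) : rmul k d v a i = v i * a := rfl

lemma mu_rmul (x : Fin d → A) (v : Fin d → A) (a : A) : mu k x (rmul k d v a) = mu k x v * a := by
  simp only [mu_apply, rmul_apply, Finset.sum_mul, mul_assoc]

lemma rmul_mul (v : Fin d → A) (a b : A) : rmul k d v (a * b) = rmul k d (rmul k d v a) b := by
  ext i; simp only [rmul_apply, mul_assoc]

lemma rmul_one (v : Fin d → A) : rmul k d v 1 = v := by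
  ext i; simp only [rmul_apply, mul_one]

end Vec

/-- the data of the Golod-Shafarevich situation -/
structure GSData (k : Type*) [Field k] {A : Type*} [Ring A] [Algebra k A] (d : ℕ)
    (I : Submodule k A) (x : Fin d → A) : Prop where
  two : TwoSided I
  memI : ∀ i, x i ∈ I
  gen : ∀ y ∈ I, ∃ a : Fin d → A, y = ∑ i, x i * a i
  syz : ∀ a : Fin d → A, ∑ i, x i * a i = 0 → ∀ i, a i ∈ I
  dimI : finrank k I + 1 = finrank k A

variable {d : ℕ} {I : Submodule k A} {x : Fin d → A}

lemma map_mu_VF (h : GSData k d I x) (n : ℕ) :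
    (VF d (FI I n)).map (mu k x) = FI I (n + 1) := by
  apply le_antisymm
  · rw [Submodule.map_le_iff_le_comap]
    intro v hv
    rw [Submodule.mem_comap, mu_apply]
    exact Submodule.sum_mem _ fun i _ => Submodule.mul_mem_mul (h.memI i) (hv i)
  · intro y hy
    refine Submodule.mul_induction_on hy ?_ ?_
    · intro m hm n' hn
      obtain ⟨a, rfl⟩ := h.gen m hm
      refine ⟨fun i => a i * n', fun i => (FI_twoSided h.two n).left _ _ hn, ?_⟩
      rw [mu_apply, Finset.sum_mul]
      exact Finset.sum_congr rfl fun i _ => (mul_assoc _ _ _).symm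
    · intro x y hx hy
      exact add_mem hx hy

lemma finrank_map_add_inf {V W : Type*} [AddCommGroup V] [Module k V] [AddCommGroup W] [Module k W]
    [FiniteDimensional k V] (f : V →ₗ[k] W) (S : Submodule k V) :
    finrank k (S.map f) + finrank k (LinearMap.ker f ⊓ S : Submodule k V) = finrank k S := by
  have h1 := LinearMap.finrank_range_add_finrank_ker (f.domRestrict S)
  have h2 : LinearMap.range (f.domRestrict S) = S.map f := by
    rw [LinearMap.range_domRestrict]
  have h3 : finrank k (LinearMap.ker (f.domRestrict S)) = finrank k (LinearMap.ker f ⊓ S : Submodule k V) := by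
    have e : (LinearMap.ker (f.domRestrict S)).map S.subtype = LinearMap.ker f ⊓ S := by
      ext v
      rw [Submodule.mem_map, Submodule.mem_inf]
      constructor
      · rintro ⟨w, hw, rfl⟩
        exact ⟨hw, w.2⟩
      · rintro ⟨h1, h2⟩
        exact ⟨⟨v, h2⟩, h1, rfl⟩
    rw [← e]
    exact (LinearEquiv.finrank_eq (Submodule.equivMapOfInjective _ S.injective_subtype _))
  rw [h2, h3] at h1
  exact h1

/-- `c_n = dim A / I^n` as an integer. -/
noncomputable def cc (k : Type*) [Field k] [Algebra k A] (I : Submodule k A) (n : ℕ) : ℤ :=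
  (finrank k A : ℤ) - finrank k (FI I n)

/-- the syzygy module -/
noncomputable def KK (k : Type*) [Field k] [Algebra k A] {d : ℕ} (x : Fin d → A) :
    Submodule k (Fin d → A) := LinearMap.ker (mu k x)

lemma mem_KK {v : Fin d → A} : v ∈ KK k x ↔ ∑ i, x i * v i = 0 := by
  unfold KK; rw [LinearMap.mem_ker, mu_apply]

lemma KK_rmul {v : Fin d → A} (hv : v ∈ KK k x) (a : A) : rmul k d v a ∈ KK k x := by
  unfold KK at *
  rw [LinearMap.mem_ker] at *
  rw [mu_rmul, hv, zero_mul]

set_option linter.unusedSectionVars false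

variable [FiniteDimensional k A]

lemma cc_zero : cc k I 0 = 0 := by
  unfold cc
  rw [FI_zero, finrank_top]; ring

lemma cc_one (h : GSData k d I x) : cc k I 1 = 1 := by
  unfold cc
  rw [FI_one h.two]
  have := h.dimI
  omega

lemma cc_mono (h : GSData k d I x) {m n : ℕ} (hmn : m ≤ n) : cc k I m ≤ cc k I n := by
  unfold cc
  have := Submodule.finrank_mono (FI_anti h.two hmn)
  omega

lemma cc_nonneg (n : ℕ) : 0 ≤ cc k I n := by
  unfold cc
  have := Submodule.finrank_le (FI I n)
  omega

lemma cc_le (n : ℕ) : cc k I n ≤ finrank k A := by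
  unfold cc
  omega

/-- exact formula for `c_n`. -/
lemma cc_formula (h : GSData k d I x) (n : ℕ) :
    cc k I (n + 1) = 1 + d * cc k I n
      - ((finrank k (KK k x) : ℤ) - finrank k (KK k x ⊓ VF d (FI I n) : Submodule k (Fin d → A))) := by
  have h1 := finrank_map_add_inf (mu k x) (VF d (FI I n))
  have h2 := finrank_map_add_inf (mu k x) (VF d (FI I 0))
  rw [map_mu_VF h, finrank_VF] at h1 h2
  have h3 : LinearMap.ker (mu k x) ⊓ VF d (FI I 0) = KK k x := by
    unfold KK; rw [FI_zero, VF_top, inf_top_eq]
  rw [h3, FI_one h.two] at h2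
  have h4 : finrank k (FI I 0) = finrank k A := by rw [FI_zero, finrank_top]
  rw [h4] at h2
  have h5 := h.dimI
  unfold cc
  change _ + finrank k (KK k x ⊓ VF d (FI I n) : Submodule k (Fin d → A)) = _ at h1
  push_cast [← @Nat.cast_inj ℤ] at h1 h2 h5 ⊢
  linarith

/-- crude bound -/
lemma cc_succ_le (h : GSData k d I x) (n : ℕ) : cc k I (n + 1) ≤ 1 + d * cc k I n := by
  rw [cc_formula h n]
  have : finrank k (KK k x ⊓ VF d (FI I n) : Submodule k (Fin d → A)) ≤ finrank k (KK k x) :=
    Submodule.finrank_mono inf_le_left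
  omega

/-- `K · S` -/
noncomputable def KS (k : Type*) [Field k] [Algebra k A] {d : ℕ} (x : Fin d → A) (S : Submodule k A) :
    Submodule k (Fin d → A) := Submodule.map₂ (rmul k d) (KK k x) S

lemma KS_le (S : Submodule k A) : KS k x S ≤ KK k x := by
  unfold KS
  rw [Submodule.map₂_le]
  intro v hv a _
  exact KK_rmul hv a

lemma KS_mono {S T : Submodule k A} (h : S ≤ T) : KS k x S ≤ KS k x T :=
  Submodule.map₂_le_map₂_right h

lemma KS_top : KS k x (⊤ : Submodule k A) = KK k x := by
  apply le_antisymm (KS_le _)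
  intro v hv
  have : rmul k d v 1 ∈ KS k x (⊤ : Submodule k A) := Submodule.apply_mem_map₂ _ hv Submodule.mem_top
  rwa [rmul_one] at this

/-- `t_n = dim K / (K I + K ∩ (I^{n-1})^d)`, with `n - 1 = j`. -/
noncomputable def tt (k : Type*) [Field k] [Algebra k A] (I : Submodule k A) {d : ℕ} (x : Fin d → A)
    (j : ℕ) : ℤ :=
  (finrank k (KK k x) : ℤ)
    - finrank k (KS k x I ⊔ (KK k x ⊓ VF d (FI I j)) : Submodule k (Fin d → A))

lemma finrank_map₂_le {V W U : Type*} [AddCommGroup V] [Module k V] [AddCommGroup W] [Module k W]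
    [AddCommGroup U] [Module k U] [FiniteDimensional k V] [FiniteDimensional k W]
    (f : V →ₗ[k] W →ₗ[k] U) (S : Submodule k V) (T : Submodule k W) :
    finrank k (Submodule.map₂ f S T) ≤ finrank k S * finrank k T := by
  classical
  let b := Module.finBasis k S
  let c := Module.finBasis k T
  have h1 : Submodule.map₂ f S T = Submodule.span k (Set.range
      (fun q : Fin (finrank k S) × Fin (finrank k T) => f (b q.1 : V) (c q.2 : W))) := by
    have hS : S = Submodule.span k (Set.range (fun i => (b i : V))) := by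
      have := b.span_eq
      have h2 := congrArg (Submodule.map S.subtype) this
      rw [Submodule.map_span, Submodule.map_top, Submodule.range_subtype, ← Set.range_comp] at h2
      exact h2.symm
    have hT : T = Submodule.span k (Set.range (fun i => (c i : W))) := by
      have := c.span_eq
      have h2 := congrArg (Submodule.map T.subtype) this
      rw [Submodule.map_span, Submodule.map_top, Submodule.range_subtype, ← Set.range_comp] at h2
      exact h2.symm
    conv_lhs => rw [hS, hT]
    rw [Submodule.map₂_span_span]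
    congr 1
    ext u
    simp only [Set.mem_image2, Set.mem_range, Prod.exists]
    constructor
    · rintro ⟨_, ⟨i, rfl⟩, _, ⟨j, rfl⟩, rfl⟩
      exact ⟨i, j, rfl⟩
    · rintro ⟨i, j, rfl⟩
      exact ⟨_, ⟨i, rfl⟩, _, ⟨j, rfl⟩, rfl⟩
  rw [h1]
  have h3 := finrank_range_le_card (R := k)
    (b := fun q : Fin (finrank k S) × Fin (finrank k T) => f (b q.1 : V) (c q.2 : W))
  unfold Set.finrank at h3
  refine h3.trans ?_
  simp

/-- a relative complement -/
lemma exists_rel_compl {V : Type*} [AddCommGroup V] [Module k V] [FiniteDimensional k V]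
    {Z K : Submodule k V} (h : Z ≤ K) :
    ∃ B : Submodule k V, B ≤ K ∧ B ⊔ Z = K ∧ (finrank k B : ℤ) = finrank k K - finrank k Z := by
  obtain ⟨C, hC⟩ := Submodule.exists_isCompl Z
  refine ⟨C ⊓ K, inf_le_right, ?_, ?_⟩
  · rw [sup_comm, ← sup_inf_assoc_of_le C h]
    rw [hC.sup_eq_top, top_inf_eq]
  · have h1 := Submodule.finrank_sup_add_finrank_inf_eq Z (C ⊓ K)
    have h2 : Z ⊔ (C ⊓ K) = K := by
      rw [← sup_inf_assoc_of_le C h, hC.sup_eq_top, top_inf_eq]
    have h3 : Z ⊓ (C ⊓ K) = ⊥ := by
      rw [← inf_assoc, hC.inf_eq_bot, bot_inf_eq]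
    rw [h2, h3, finrank_bot] at h1
    omega

/-- one step of the filtration -/
lemma step_bound (h : GSData k d I x) (m j : ℕ) :
    (finrank k (KS k x (FI I m) ⊔ VF d (FI I (j + m)) : Submodule k (Fin d → A)) : ℤ)
      ≤ tt k I x j * (cc k I (m + 1) - cc k I m)
        + finrank k (KS k x (FI I (m + 1)) ⊔ VF d (FI I (j + m)) : Submodule k (Fin d → A)) := by
  have hZ : KS k x I ⊔ (KK k x ⊓ VF d (FI I j)) ≤ KK k x := sup_le (KS_le _) inf_le_left
  obtain ⟨B, hB1, hB2, hB3⟩ := exists_rel_compl hZ
  obtain ⟨Y, hY1, hY2, hY3⟩ := exists_rel_compl (FI_succ_le h.two m)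
  have key : KS k x (FI I m) ⊔ VF d (FI I (j + m))
      ≤ Submodule.map₂ (rmul k d) B Y ⊔ (KS k x (FI I (m + 1)) ⊔ VF d (FI I (j + m))) := by
    apply sup_le _ (le_sup_right.trans le_sup_right)
    unfold KS
    rw [Submodule.map₂_le]
    intro v hv a ha
    have hv' : v ∈ B ⊔ (KS k x I ⊔ (KK k x ⊓ VF d (FI I j))) := by rw [hB2]; exact hv
    obtain ⟨b, hb, z, hz, rfl⟩ := Submodule.mem_sup.1 hv'
    obtain ⟨z1, hz1, z2, hz2, rfl⟩ := Submodule.mem_sup.1 hz
    have ha' : a ∈ Y ⊔ FI I (m + 1) := by rw [hY2]; exact ha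
    obtain ⟨y, hy, w, hw, rfl⟩ := Submodule.mem_sup.1 ha'
    have e : rmul k d (b + (z1 + z2)) (y + w)
        = rmul k d b y + (rmul k d b w + rmul k d z1 (y + w) + rmul k d z2 (y + w)) := by
      simp only [map_add, LinearMap.add_apply]; abel
    rw [e]
    apply Submodule.add_mem_sup
    · exact Submodule.apply_mem_map₂ _ hb hy
    · apply Submodule.add_mem_sup
      · apply add_mem
        · exact Submodule.apply_mem_map₂ _ (hB1 hb) hw
        · -- z1 ∈ K I, y + w ∈ I^m
          unfold KS at hz1
          have : Submodule.map₂ (rmul k d) (KK k x) I ≤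
              (Submodule.map₂ (rmul k d) (KK k x) (FI I (m + 1))).comap ((rmul k d).flip (y + w)) := by
            rw [Submodule.map₂_le]
            intro u hu i hi
            rw [Submodule.mem_comap, LinearMap.flip_apply, ← rmul_mul]
            exact Submodule.apply_mem_map₂ _ hu (Submodule.mul_mem_mul hi ha)
          exact this hz1
      · intro i
        rw [rmul_apply]
        exact FI_mul_mem h.two j m (hz2.2 i) ha
  have h1 := Submodule.finrank_mono key
  have h2 := Submodule.finrank_add_le_finrank_add_finrank (Submodule.map₂ (rmul k d) B Y)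
    (KS k x (FI I (m + 1)) ⊔ VF d (FI I (j + m)))
  have h3 := finrank_map₂_le (rmul k d) B Y
  have h4 : (finrank k B : ℤ) = tt k I x j := hB3
  have h5 : (finrank k Y : ℤ) = cc k I (m + 1) - cc k I m := by
    rw [hY3]; unfold cc; ring
  rw [← h4, ← h5]
  have h6 : ((finrank k B * finrank k Y : ℕ) : ℤ) = (finrank k B : ℤ) * finrank k Y := by push_cast; ring
  rw [← h6]
  omega

/-- bound for `e_n = dim K - dim (K ∩ (I^{n-1})^d)`; here `N = n - 1`. -/
lemma e_bound (h : GSData k d I x) (N : ℕ) : ∀ s : ℕ, s ≤ N →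
    (finrank k (KS k x (FI I (N - s)) ⊔ VF d (FI I N) : Submodule k (Fin d → A)) : ℤ)
      ≤ ∑ m ∈ Finset.Ico (N - s) N, tt k I x (N - m) * (cc k I (m + 1) - cc k I m)
        + finrank k (VF d (FI I N) : Submodule k (Fin d → A)) := by
  intro s
  induction s with
  | zero =>
    intro _
    rw [Nat.sub_zero, Finset.Ico_self, Finset.sum_empty, zero_add]
    have : KS k x (FI I N) ⊔ VF d (FI I N) = VF d (FI I N) := by
      rw [sup_eq_right]
      unfold KS
      rw [Submodule.map₂_le]
      intro v _ a ha i
      rw [rmul_apply]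
      exact (FI_twoSided h.two N).left _ _ ha
    rw [this]
  | succ s ih =>
    intro hs
    have h1 := ih (by omega)
    have h2 := step_bound h (N - (s + 1)) (s + 1)
    have e1 : s + 1 + (N - (s + 1)) = N := by omega
    have e2 : N - (s + 1) + 1 = N - s := by omega
    have e3 : N - (N - (s + 1)) = s + 1 := by omega
    rw [e1, e2] at h2
    have h3 : Finset.Ico (N - (s + 1)) N = insert (N - (s + 1)) (Finset.Ico (N - s) N) := by
      ext j; simp only [Finset.mem_Ico, Finset.mem_insert]; omega
    rw [h3, Finset.sum_insert (by simp; omega), e2, e3]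
    linarith

/-- `t_n` vanishes for small `n`: `K ⊆ I^d`. -/
lemma tt_one (h : GSData k d I x) : tt k I x 1 = 0 := by
  unfold tt
  have h1 : KS k x I ⊔ (KK k x ⊓ VF d (FI I 1)) = KK k x := by
    apply le_antisymm (sup_le (KS_le _) inf_le_left)
    refine le_trans ?_ le_sup_right
    apply le_inf le_rfl
    intro v hv i
    rw [FI_one h.two]
    exact h.syz v (mem_KK.1 hv) i
  rw [h1]; ring

/-- Main recursion. -/
theorem cc_recursion (h : GSData k d I x) (b : ℕ → ℤ)
    (hb : ∀ j, 2 ≤ j → tt k I x j ≤ b j) (n : ℕ) :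
    1 + d * cc k I n - ∑ m ∈ Finset.range (n - 1), b (n - m) * (cc k I (m + 1) - cc k I m)
      ≤ cc k I (n + 1) := by
  have h1 := e_bound h n n le_rfl
  rw [Nat.sub_self, FI_zero, KS_top] at h1
  have h2 := Submodule.finrank_sup_add_finrank_inf_eq (KK k x) (VF d (FI I n))
  have h3 := cc_formula h n
  have h4 : ∑ m ∈ Finset.Ico 0 n, tt k I x (n - m) * (cc k I (m + 1) - cc k I m)
      ≤ ∑ m ∈ Finset.range (n - 1), b (n - m) * (cc k I (m + 1) - cc k I m) := by
    rw [← Finset.range_eq_Ico]
    rcases n with _ | n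
    · simp
    · rw [Finset.sum_range_succ]
      have e1 : n + 1 - n = 1 := by omega
      rw [e1, tt_one h, zero_mul, add_zero, Nat.add_sub_cancel]
      apply Finset.sum_le_sum
      intro m hm
      rw [Finset.mem_range] at hm
      apply mul_le_mul_of_nonneg_right
      · exact hb _ (by omega)
      · have := cc_mono h (Nat.le_succ m)
        rw [Nat.succ_eq_add_one] at this
        linarith
  rw [h3]
  push_cast [← @Nat.cast_inj ℤ] at h2
  linarith

end Pool.Agent.Lib.MP_722186_nt
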