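import Mathlib
import Pool.Agent.Lib.MP_722186_nt.GSAlg

/-!
Group algebras of finite `p`-groups over `𝔽_p`: augmentation ideal, nilpotency, Nakayama.
-/

namespace Pool.Agent.Lib.MP_722186_nt

open Submodule Module MonoidAlgebra

section basic

set_option linter.unusedSectionVars false

variable (k : Type*) [Field k] (P : Type*) [Group P]

/-- the augmentation -/
noncomputable def eps : MonoidAlgebra k P →ₐ[k] k := MonoidAlgebra.lift k k P 1

/-- the augmentation ideal -/
noncomputable def aug : Submodule k (MonoidAlgebra k P) := LinearMap.ker (eps k P).toLinearMap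

variable {k P}

lemma eps_single (g : P) (c : k) : eps k P (single g c) = c := by
  unfold eps; rw [lift_single]; simp

lemma mem_aug {y : MonoidAlgebra k P} : y ∈ aug k P ↔ eps k P y = 0 := by
  unfold aug; rw [LinearMap.mem_ker]; rfl

lemma single_sub_one_mem (g : P) : single g (1 : k) - 1 ∈ aug k P := by
  rw [mem_aug, map_sub, eps_single, map_one, sub_self]

lemma aug_twoSided : TwoSided (aug k P) where
  left := fun a y hy => by
    rw [mem_aug] at *; rw [map_mul, hy, mul_zero]
  right := fun a y hy => by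
    rw [mem_aug] at *; rw [map_mul, hy, zero_mul]

lemma sub_eps_mem_span (y : MonoidAlgebra k P) :
    y - algebraMap k _ (eps k P y) ∈ Submodule.span k (Set.range fun g : P => single g (1 : k) - 1) := by
  induction y using MonoidAlgebra.induction_linear with
  | zero => simp
  | add x y hx hy =>
    have : x + y - algebraMap k _ (eps k P (x + y))
        = (x - algebraMap k _ (eps k P x)) + (y - algebraMap k _ (eps k P y)) := by
      rw [map_add, map_add]; abel
    rw [this]; exact add_mem hx hy
  | single g c =>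
    rw [eps_single]
    have : single g c - algebraMap k (MonoidAlgebra k P) c = c • (single g (1 : k) - 1) := by
      rw [smul_sub, Algebra.algebraMap_eq_smul_one]
      congr 1
      rw [smul_single, smul_eq_mul, mul_one]
    rw [this]
    exact Submodule.smul_mem _ _ (Submodule.subset_span ⟨g, rfl⟩)

lemma aug_eq_span : aug k P = Submodule.span k (Set.range fun g : P => single g (1 : k) - 1) := by
  apply le_antisymm
  · intro y hy
    have := sub_eps_mem_span y
    rw [mem_aug.1 hy, map_zero, sub_zero] at this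
    exact this
  · rw [Submodule.span_le]
    rintro _ ⟨g, rfl⟩
    exact single_sub_one_mem g

lemma finrank_aug [Finite P] : finrank k (aug k P) + 1 = finrank k (MonoidAlgebra k P) := by
  have h1 := LinearMap.finrank_range_add_finrank_ker (eps k P).toLinearMap
  have h2 : LinearMap.range (eps k P).toLinearMap = ⊤ := by
    rw [LinearMap.range_eq_top]
    intro c
    exact ⟨single 1 c, eps_single 1 c⟩
  rw [h2, finrank_top, finrank_self] at h1
  unfold aug
  omega

/-- linear extension of a function on the group -/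
noncomputable def lin {V : Type*} [AddCommGroup V] [Module k V] (D : P → V) :
    MonoidAlgebra k P →ₗ[k] V := (MonoidAlgebra.basis P k).constr k D

lemma lin_single {V : Type*} [AddCommGroup V] [Module k V] (D : P → V) (g : P) :
    lin D (single g (1 : k)) = D g := by
  unfold lin
  rw [← MonoidAlgebra.basis_apply, Basis.constr_basis]

end basic

section nilp

variable {p : ℕ} [hp : Fact p.Prime] {P : Type*} [Group P] [Finite P]

/-- Nakayama for group algebras of `p`-groups. -/
lemma aug_mul_ne (hP : IsPGroup p P) {S : Submodule (ZMod p) (MonoidAlgebra (ZMod p) P)}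
    (hS : ∀ a : MonoidAlgebra (ZMod p) P, ∀ y ∈ S, a * y ∈ S) (hne : S ≠ ⊥) :
    ¬ S ≤ aug (ZMod p) P * S := by
  intro hle
  let L : MonoidAlgebra (ZMod p) P → (S →ₗ[ZMod p] S) := fun a =>
    (LinearMap.mulLeft (ZMod p) a).restrict (hS a)
  have hL1 : L 1 = LinearMap.id := by
    ext y; simp [L]
  have hLmul : ∀ a b, L (a * b) = L a ∘ₗ L b := by
    intro a b
    apply LinearMap.ext
    intro y
    apply Subtype.ext
    exact mul_assoc a b (y : MonoidAlgebra (ZMod p) P)
  letI act : MulAction P (S →ₗ[ZMod p] ZMod p) :=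
    { smul := fun g φ => φ ∘ₗ L (single g⁻¹ 1)
      one_smul := by
        intro φ
        change φ ∘ₗ L (single (1 : P)⁻¹ 1) = φ
        rw [inv_one, ← MonoidAlgebra.one_def, hL1, LinearMap.comp_id]
      mul_smul := by
        intro g h φ
        change φ ∘ₗ L (single (g * h)⁻¹ 1) = (φ ∘ₗ L (single h⁻¹ 1)) ∘ₗ L (single g⁻¹ 1)
        rw [LinearMap.comp_assoc, ← hLmul, mul_inv_rev, single_mul_single, mul_one] }
  have hfin : Finite (S →ₗ[ZMod p] ZMod p) := Module.finite_of_finite (ZMod p)
  have hcard : p ∣ Nat.card (S →ₗ[ZMod p] ZMod p) := by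
    rw [Module.natCard_eq_pow_finrank (K := ZMod p), Nat.card_zmod]
    apply dvd_pow_self
    intro h0
    have h1 : finrank (ZMod p) (S →ₗ[ZMod p] ZMod p) = finrank (ZMod p) S :=
      Subspace.dual_finrank_eq
    rw [h1] at h0
    exact hne (Submodule.finrank_eq_zero.1 h0)
  obtain ⟨φ, hφ, hφ0⟩ := hP.exists_fixed_point_of_prime_dvd_card_of_fixed_point
    (S →ₗ[ZMod p] ZMod p) hcard (a := 0) (by
      intro g
      change (0 : S →ₗ[ZMod p] ZMod p) ∘ₗ L (single g⁻¹ 1) = 0
      simp)
  have hfix : ∀ g : P, ∀ y : S, φ (L (single g 1) y) = φ y := by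
    intro g y
    have h1 := hφ g⁻¹
    change φ ∘ₗ L (single g⁻¹⁻¹ 1) = φ at h1
    rw [inv_inv] at h1
    exact LinearMap.congr_fun h1 y
  -- φ kills aug * S = S
  have hkill : ∀ y, ∀ hy : y ∈ aug (ZMod p) P * S, ∀ hy' : y ∈ S, φ ⟨y, hy'⟩ = 0 := by
    have hle2 : aug (ZMod p) P * S ≤ (LinearMap.ker φ).map S.subtype := by
      rw [aug_eq_span, Submodule.mul_le]
      intro a ha b hb
      refine Submodule.span_induction (p := fun a _ => a * b ∈ (LinearMap.ker φ).map S.subtype)
        ?_ ?_ ?_ ?_ ha
      · rintro _ ⟨g, rfl⟩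
        refine ⟨L (single g 1) ⟨b, hb⟩ - ⟨b, hb⟩, ?_, ?_⟩
        · rw [SetLike.mem_coe, LinearMap.mem_ker, map_sub, hfix, sub_self]
        · rw [Submodule.subtype_apply, Submodule.coe_sub, sub_mul, one_mul]
          rfl
      · rw [zero_mul]; exact zero_mem _
      · intro x y _ _ hx hy
        rw [add_mul]; exact add_mem hx hy
      · intro c x _ hx
        rw [smul_mul_assoc]; exact Submodule.smul_mem _ _ hx
    intro y hy hy'
    obtain ⟨z, hz, hzy⟩ := hle2 hy
    have : z = ⟨y, hy'⟩ := Subtype.ext hzy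
    rw [← this]
    exact hz
  apply hφ0
  ext y
  rw [LinearMap.zero_apply]
  exact (hkill y (hle y.2) y.2).symm

lemma exists_FI_eq_bot (hP : IsPGroup p P) : ∃ n, FI (aug (ZMod p) P) n = ⊥ := by
  by_contra hcon
  push Not at hcon
  have hstep : ∀ n, finrank (ZMod p) (FI (aug (ZMod p) P) n) + n
      ≤ finrank (ZMod p) (MonoidAlgebra (ZMod p) P) := by
    intro n
    induction n with
    | zero => rw [FI_zero, finrank_top, add_zero]
    | succ n ih =>
      have h1 : FI (aug (ZMod p) P) (n + 1) < FI (aug (ZMod p) P) n := by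
        apply lt_of_le_of_ne (FI_succ_le aug_twoSided n)
        intro heq
        apply aug_mul_ne hP (FI_twoSided aug_twoSided n).left (hcon n)
        exact heq.ge
      have h2 := Submodule.finrank_lt_finrank_of_lt h1
      omega
  have h1 := hstep (finrank (ZMod p) (MonoidAlgebra (ZMod p) P) + 1)
  omega

/-- generation by lifts of generators modulo the square -/
lemma gen_of_gen_mod_sq (hP : IsPGroup p P) {d : ℕ} {x : Fin d → MonoidAlgebra (ZMod p) P}
    (hx : aug (ZMod p) P ≤ Submodule.span (ZMod p) (Set.range x) ⊔ FI (aug (ZMod p) P) 2) :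
    ∀ y ∈ aug (ZMod p) P, ∃ a : Fin d → MonoidAlgebra (ZMod p) P, y = ∑ i, x i * a i := by
  set I := aug (ZMod p) P with hI
  set J : Submodule (ZMod p) (MonoidAlgebra (ZMod p) P) := LinearMap.range (mu (ZMod p) x) with hJ
  have hJmem : ∀ y, y ∈ J ↔ ∃ a : Fin d → MonoidAlgebra (ZMod p) P, y = ∑ i, x i * a i := by
    intro y
    rw [hJ, LinearMap.mem_range]
    constructor
    · rintro ⟨a, rfl⟩; exact ⟨a, mu_apply x a⟩
    · rintro ⟨a, rfl⟩; exact ⟨a, mu_apply x a⟩
  have hJright : ∀ y ∈ J, ∀ a, y * a ∈ J := by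
    intro y hy a
    obtain ⟨b, rfl⟩ := (hJmem y).1 hy
    rw [hJmem]
    exact ⟨fun i => b i * a, by rw [Finset.sum_mul]; exact Finset.sum_congr rfl fun i _ => mul_assoc _ _ _⟩
  have hspan : Submodule.span (ZMod p) (Set.range x) ≤ J := by
    rw [Submodule.span_le]
    rintro _ ⟨i, rfl⟩
    rw [SetLike.mem_coe, hJmem]
    refine ⟨Pi.single i 1, ?_⟩
    rw [Finset.sum_eq_single i]
    · simp
    · intro j _ hj
      rw [Pi.single_eq_of_ne hj, mul_zero]
    · intro h; exact absurd (Finset.mem_univ _) h
  have h2 : I ≤ J ⊔ FI I 2 := hx.trans (sup_le_sup_right hspan _)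
  have hall : ∀ n, I ≤ J ⊔ FI I (n + 1) := by
    intro n
    induction n with
    | zero => rw [FI_one aug_twoSided]; exact le_sup_right
    | succ n ih =>
      -- FI (n+1) ≤ J ⊔ FI (n+2)
      have h3 : FI I (n + 1) ≤ J ⊔ FI I (n + 1 + 1) := by
        intro y hy
        refine Submodule.mul_induction_on hy ?_ ?_
        · intro a ha b hb
          obtain ⟨j, hj, z, hz, rfl⟩ := Submodule.mem_sup.1 (h2 ha)
          rw [add_mul]
          apply Submodule.add_mem_sup (hJright j hj b)
          have := FI_mul_mem aug_twoSided 2 n hz hb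
          have e : 2 + n = n + 1 + 1 := by ring
          rwa [e] at this
        · intro u v hu hv
          exact add_mem hu hv
      exact ih.trans (sup_le le_sup_left h3)
  obtain ⟨n, hn⟩ := exists_FI_eq_bot (p := p) hP
  intro y hy
  have h4 := hall n hy
  have h5 : FI I (n + 1) = ⊥ := by
    rw [eq_bot_iff, ← hn]; exact FI_succ_le aug_twoSided n
  rw [h5, sup_bot_eq] at h4
  exact (hJmem y).1 h4

/-- existence of the Golod-Shafarevich data for a finite `p`-group -/
lemma exists_gsData (hP : IsPGroup p P) :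
    ∃ (d : ℕ) (x : Fin d → MonoidAlgebra (ZMod p) P), GSData (ZMod p) d (aug (ZMod p) P) x ∧
      (d : ℤ) = finrank (ZMod p) (aug (ZMod p) P) - finrank (ZMod p) (FI (aug (ZMod p) P) 2) ∧
      aug (ZMod p) P ≤ Submodule.span (ZMod p) (Set.range x) ⊔ FI (aug (ZMod p) P) 2 := by
  set I := aug (ZMod p) P with hI
  have h21 : FI I 2 ≤ I := by
    have := FI_succ_le (aug_twoSided (k := ZMod p) (P := P)) 1
    rwa [FI_one aug_twoSided] at this
  obtain ⟨Y, hY1, hY2, hY3⟩ := exists_rel_compl h21
  let b := Module.finBasis (ZMod p) Y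
  have hYI : Y ⊓ FI I 2 = ⊥ := by
    have h1 := Submodule.finrank_sup_add_finrank_inf_eq Y (FI I 2)
    rw [hY2] at h1
    apply Submodule.finrank_eq_zero.1
    omega
  have hspan : Submodule.span (ZMod p) (Set.range (fun i => (b i : MonoidAlgebra (ZMod p) P))) = Y := by
    have h2 := congrArg (Submodule.map Y.subtype) b.span_eq
    rw [Submodule.map_span, Submodule.map_top, Submodule.range_subtype, ← Set.range_comp] at h2
    exact h2
  have hle : I ≤ Submodule.span (ZMod p) (Set.range (fun i => (b i : MonoidAlgebra (ZMod p) P)))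
      ⊔ FI I 2 := by
    rw [hspan, hY2]
  refine ⟨finrank (ZMod p) Y, fun i => (b i : MonoidAlgebra (ZMod p) P), ?_, hY3, hle⟩
  refine ⟨aug_twoSided, fun i => hY1 (b i).2, gen_of_gen_mod_sq hP hle, ?_, finrank_aug⟩
  intro a ha i
  -- decompose a_i = eps a_i + a_i'
  have h1 : ∀ i, a i - algebraMap (ZMod p) _ (eps (ZMod p) P (a i)) ∈ I := by
    intro i
    rw [hI, mem_aug, map_sub, AlgHom.commutes, Algebra.algebraMap_self, RingHom.id_apply, sub_self]
  set s := ∑ i, eps (ZMod p) P (a i) • (b i : MonoidAlgebra (ZMod p) P) with hs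
  have h2 : s = - ∑ i, (b i : MonoidAlgebra (ZMod p) P)
      * (a i - algebraMap (ZMod p) _ (eps (ZMod p) P (a i))) := by
    have h3 : ∑ i, (b i : MonoidAlgebra (ZMod p) P) * a i
        = ∑ i, (b i : MonoidAlgebra (ZMod p) P)
            * (a i - algebraMap (ZMod p) _ (eps (ZMod p) P (a i))) + s := by
      rw [hs, ← Finset.sum_add_distrib]
      apply Finset.sum_congr rfl
      intro i _
      rw [mul_sub, Algebra.algebraMap_eq_smul_one, mul_smul_comm, mul_one]
      abel
    rw [h3] at ha
    exact eq_neg_of_add_eq_zero_right ha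
  have h4 : s ∈ FI I 2 := by
    rw [h2]
    apply neg_mem
    apply Submodule.sum_mem
    intro i _
    apply Submodule.mul_mem_mul (hY1 (b i).2)
    rw [FI_one aug_twoSided]
    exact h1 i
  have h5 : s ∈ Y := by
    rw [hs]
    exact Submodule.sum_mem _ fun i _ => Submodule.smul_mem _ _ (b i).2
  have h6 : s = 0 := by
    have : s ∈ Y ⊓ FI I 2 := ⟨h5, h4⟩
    rw [hYI] at this
    exact this
  have h7 : ∑ i, eps (ZMod p) P (a i) • b i = 0 := by
    apply Subtype.ext
    rw [Submodule.coe_sum]
    exact h6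
  have h8 := (Fintype.linearIndependent_iff.1 b.linearIndependent) _ h7 i
  rw [hI, mem_aug]
  exact h8

end nilp

end Pool.Agent.Lib.MP_722186_nt
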