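import Mathlib
import Pool.Agent.Lib.MP_722186_nt.GSGroup

/-!
Fox-calculus cocycles attached to functionals on the syzygy module, and the key lemma.
-/

namespace Pool.Agent.Lib.MP_722186_nt

open Submodule Module MonoidAlgebra

section alg

variable {k : Type*} [Field k] {G : Type*} [Group G] {N : Subgroup G} [N.Normal] {d : ℕ}
  {x : Fin d → MonoidAlgebra k (G ⧸ N)} {τ : G ⧸ N → Fin d → MonoidAlgebra k (G ⧸ N)}

/-- the universal cocycle with values in the syzygy module -/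
noncomputable def kap (τ : G ⧸ N → Fin d → MonoidAlgebra k (G ⧸ N)) (a b : G ⧸ N) :
    Fin d → MonoidAlgebra k (G ⧸ N) :=
  rmul k d (τ a) (single b 1) + τ b - τ (a * b)

lemma kap_mem (hτ : ∀ q, mu k x (τ q) = single q 1 - 1) (a b : G ⧸ N) : kap τ a b ∈ KK k x := by
  unfold KK kap
  rw [LinearMap.mem_ker, map_sub, map_add, mu_rmul, hτ, hτ, hτ, sub_mul, single_mul_single, one_mul,
    one_mul]
  abel

lemma kap_one_left (hτ1 : τ 1 = 0) (b : G ⧸ N) : kap τ 1 b = 0 := by
  unfold kap; rw [hτ1, one_mul, map_zero, LinearMap.zero_apply]; abel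

lemma kap_one_right (hτ1 : τ 1 = 0) (a : G ⧸ N) : kap τ a 1 = 0 := by
  unfold kap; rw [hτ1, mul_one, ← MonoidAlgebra.one_def, rmul_one]; abel

lemma kap_cocycle (a b c : G ⧸ N) :
    rmul k d (kap τ a b) (single c 1) + kap τ (a * b) c = kap τ b c + kap τ a (b * c) := by
  unfold kap
  have h1 : rmul k d (rmul k d (τ a) (single b 1)) (single c (1 : k))
      = rmul k d (τ a) (single (b * c) 1) := by
    rw [← rmul_mul, single_mul_single, mul_one]
  simp only [map_add, map_sub, LinearMap.add_apply, LinearMap.sub_apply, h1, mul_assoc]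
  abel

lemma lam_rmul {l : (Fin d → MonoidAlgebra k (G ⧸ N)) →ₗ[k] k}
    (hl : ∀ v ∈ KS k x (aug k (G ⧸ N)), l v = 0) {v : Fin d → MonoidAlgebra k (G ⧸ N)}
    (hv : v ∈ KK k x) (c : G ⧸ N) : l (rmul k d v (single c 1)) = l v := by
  have h1 : rmul k d v (single c 1 - 1) ∈ KS k x (aug k (G ⧸ N)) :=
    Submodule.apply_mem_map₂ _ hv (single_sub_one_mem c)
  have h2 := hl _ h1
  rw [map_sub, rmul_one, map_sub, sub_eq_zero] at h2
  exact h2

/-- `f_λ` is a 2-cocycle -/
lemma lam_cocycle {l : (Fin d → MonoidAlgebra k (G ⧸ N)) →ₗ[k] k}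
    (hl : ∀ v ∈ KS k x (aug k (G ⧸ N)), l v = 0) (hτ : ∀ q, mu k x (τ q) = single q 1 - 1)
    (a b c : G ⧸ N) :
    l (kap τ a b) + l (kap τ (a * b) c) = l (kap τ b c) + l (kap τ a (b * c)) := by
  rw [← map_add, ← map_add, ← kap_cocycle, map_add, map_add, lam_rmul hl (kap_mem hτ a b)]

variable {l : (Fin d → MonoidAlgebra k (G ⧸ N)) →ₗ[k] k} {η : G → k}
  {v0 : Fin d → MonoidAlgebra k (G ⧸ N)}

/-- the crossed homomorphism (modulo `ker λ`) -/
noncomputable def DD (τ : G ⧸ N → Fin d → MonoidAlgebra k (G ⧸ N)) (η : G → k)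
    (v0 : Fin d → MonoidAlgebra k (G ⧸ N)) (g : G) : Fin d → MonoidAlgebra k (G ⧸ N) :=
  τ (QuotientGroup.mk g) + η g • v0

variable (k x l) in
/-- `ker λ` on `K` -/
noncomputable def Kl : Submodule k (Fin d → MonoidAlgebra k (G ⧸ N)) := KK k x ⊓ LinearMap.ker l

lemma DD_cross (hl : ∀ v ∈ KS k x (aug k (G ⧸ N)), l v = 0)
    (hτ : ∀ q, mu k x (τ q) = single q 1 - 1) (hv0 : v0 ∈ KK k x) (hlv0 : l v0 = 1)
    (hη : ∀ g h : G, l (kap τ g h) = η (g * h) - η g - η h) (g h : G) :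
    DD τ η v0 (g * h) - (rmul k d (DD τ η v0 g) (single (QuotientGroup.mk h) 1) + DD τ η v0 h)
      ∈ Kl k x l := by
  have e : DD τ η v0 (g * h) - (rmul k d (DD τ η v0 g) (single (QuotientGroup.mk h) 1) + DD τ η v0 h)
      = - kap τ (QuotientGroup.mk g) (QuotientGroup.mk h)
        - η g • (rmul k d v0 (single (QuotientGroup.mk h) 1)) + (η (g * h) - η h) • v0 := by
    unfold DD kap
    rw [map_add, LinearMap.add_apply, map_smul, LinearMap.smul_apply, QuotientGroup.mk_mul, sub_smul]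
    abel
  rw [e]
  constructor
  · exact add_mem (sub_mem (neg_mem (kap_mem hτ _ _)) (Submodule.smul_mem _ _ (KK_rmul hv0 _)))
      (Submodule.smul_mem _ _ hv0)
  · rw [SetLike.mem_coe, LinearMap.mem_ker, map_add, map_sub, map_neg, map_smul, map_smul,
      lam_rmul hl hv0, hlv0, hη g h]
    simp only [smul_eq_mul, mul_one]
    ring

variable {U : Subgroup G} [U.Normal]

/-- the linear extension of `D` to `k[G/U]` -/
noncomputable def DL (U : Subgroup G) [U.Normal] (τ : G ⧸ N → Fin d → MonoidAlgebra k (G ⧸ N))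
    (η : G → k) (v0 : Fin d → MonoidAlgebra k (G ⧸ N)) :
    MonoidAlgebra k (G ⧸ U) →ₗ[k] (Fin d → MonoidAlgebra k (G ⧸ N)) :=
  lin (fun q : G ⧸ U => DD τ η v0 q.out)

lemma eta_mul_right (hτ1 : τ 1 = 0) (hη : ∀ g h : G, l (kap τ g h) = η (g * h) - η g - η h)
    (g : G) {u : G} (hu : u ∈ N) : η (g * u) = η g + η u := by
  have h1 := hη g u
  have h2 : ((u : G) : G ⧸ N) = 1 := (QuotientGroup.eq_one_iff u).2 hu
  rw [h2, kap_one_right hτ1, map_zero] at h1
  linear_combination -h1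

lemma eta_mul_left (hτ1 : τ 1 = 0) (hη : ∀ g h : G, l (kap τ g h) = η (g * h) - η g - η h)
    (g : G) {u : G} (hu : u ∈ N) : η (u * g) = η u + η g := by
  have h1 := hη u g
  have h2 : ((u : G) : G ⧸ N) = 1 := (QuotientGroup.eq_one_iff u).2 hu
  rw [h2, kap_one_left hτ1, map_zero] at h1
  linear_combination -h1

lemma DL_single (hτ1 : τ 1 = 0) (hη : ∀ g h : G, l (kap τ g h) = η (g * h) - η g - η h)
    (hUN : U ≤ N) (hUη : ∀ u ∈ U, η u = 0) (g : G) :
    DL U τ η v0 (single (QuotientGroup.mk g) 1) = DD τ η v0 g := by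
  unfold DL
  rw [lin_single]
  obtain ⟨u, hu⟩ := QuotientGroup.mk_out_eq_mul U g
  rw [hu]
  unfold DD
  rw [eta_mul_right hτ1 hη g (hUN u.2), hUη _ u.2, add_zero]
  congr 2
  rw [QuotientGroup.eq]
  simpa using inv_mem (hUN u.2)

/-- the projection `k[G/U] → k[G/N]` -/
noncomputable def proj (k : Type*) [Field k] {U N : Subgroup G} [U.Normal] [N.Normal] (hUN : U ≤ N) :
    MonoidAlgebra k (G ⧸ U) →ₐ[k] MonoidAlgebra k (G ⧸ N) :=
  MonoidAlgebra.lift k (MonoidAlgebra k (G ⧸ N)) (G ⧸ U)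
    ((MonoidAlgebra.of k (G ⧸ N)).comp (QuotientGroup.map U N (MonoidHom.id G) hUN))

lemma proj_single (hUN : U ≤ N) (g : G) :
    proj k hUN (single (QuotientGroup.mk g) 1) = single (QuotientGroup.mk g) (1 : k) := by
  unfold proj
  rw [lift_single, one_smul]
  rfl

lemma proj_aug (hUN : U ≤ N) {y : MonoidAlgebra k (G ⧸ U)} (hy : y ∈ aug k (G ⧸ U)) :
    proj k hUN y ∈ aug k (G ⧸ N) := by
  rw [aug_eq_span] at hy
  refine Submodule.span_induction (p := fun y _ => proj k hUN y ∈ aug k (G ⧸ N)) ?_ ?_ ?_ ?_ hy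
  · rintro _ ⟨q, rfl⟩
    obtain ⟨g, rfl⟩ := QuotientGroup.mk_surjective q
    simp only
    rw [map_sub, proj_single, map_one]
    exact single_sub_one_mem _
  · rw [map_zero]; exact zero_mem _
  · intro a b _ _ ha hb; rw [map_add]; exact add_mem ha hb
  · intro c a _ ha; rw [map_smul]; exact Submodule.smul_mem _ _ ha

lemma proj_FI (hUN : U ≤ N) (n : ℕ) {y : MonoidAlgebra k (G ⧸ U)} (hy : y ∈ FI (aug k (G ⧸ U)) n) :
    proj k hUN y ∈ FI (aug k (G ⧸ N)) n := by
  induction n generalizing y with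
  | zero => exact Submodule.mem_top
  | succ n ih =>
    refine Submodule.mul_induction_on hy ?_ ?_
    · intro a ha b hb
      rw [map_mul]
      exact Submodule.mul_mem_mul (proj_aug hUN ha) (ih hb)
    · intro a b ha hb
      rw [map_add]; exact add_mem ha hb

/-- Claim A -/
lemma DL_mul (hl : ∀ v ∈ KS k x (aug k (G ⧸ N)), l v = 0)
    (hτ : ∀ q, mu k x (τ q) = single q 1 - 1) (hτ1 : τ 1 = 0) (hv0 : v0 ∈ KK k x) (hlv0 : l v0 = 1)
    (hη : ∀ g h : G, l (kap τ g h) = η (g * h) - η g - η h)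
    (hUN : U ≤ N) (hUη : ∀ u ∈ U, η u = 0) {y : MonoidAlgebra k (G ⧸ U)}
    (hy : y ∈ aug k (G ⧸ U)) (z : MonoidAlgebra k (G ⧸ U)) :
    DL U τ η v0 (y * z) - rmul k d (DL U τ η v0 y) (proj k hUN z) ∈ Kl k x l := by
  rw [aug_eq_span] at hy
  refine Submodule.span_induction (p := fun y _ => DL U τ η v0 (y * z)
    - rmul k d (DL U τ η v0 y) (proj k hUN z) ∈ Kl k x l) ?_ ?_ ?_ ?_ hy
  · rintro _ ⟨q, rfl⟩
    obtain ⟨g, rfl⟩ := QuotientGroup.mk_surjective q
    induction z using MonoidAlgebra.induction_linear with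
    | zero => simp
    | add a b ha hb =>
      have : DL U τ η v0 ((single (QuotientGroup.mk g) (1 : k) - 1) * (a + b))
            - rmul k d (DL U τ η v0 (single (QuotientGroup.mk g) (1 : k) - 1)) (proj k hUN (a + b))
          = (DL U τ η v0 ((single (QuotientGroup.mk g) (1 : k) - 1) * a)
            - rmul k d (DL U τ η v0 (single (QuotientGroup.mk g) (1 : k) - 1)) (proj k hUN a))
          + (DL U τ η v0 ((single (QuotientGroup.mk g) (1 : k) - 1) * b)
            - rmul k d (DL U τ η v0 (single (QuotientGroup.mk g) (1 : k) - 1)) (proj k hUN b)) := by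
        rw [mul_add, map_add, map_add, map_add]; abel
      simp only at this ⊢
      rw [this]
      exact add_mem ha hb
    | single q c =>
      obtain ⟨h, rfl⟩ := QuotientGroup.mk_surjective q
      have hc : single (QuotientGroup.mk h : G ⧸ U) c = c • single (QuotientGroup.mk h) (1 : k) := by
        rw [smul_single, smul_eq_mul, mul_one]
      have h1 : DL U τ η v0 ((single (QuotientGroup.mk g) (1 : k) - 1) * single (QuotientGroup.mk h) 1)
          = DD τ η v0 (g * h) - DD τ η v0 h := by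
        rw [sub_mul, single_mul_single, one_mul, one_mul, map_sub, ← QuotientGroup.mk_mul,
          DL_single hτ1 hη hUN hUη, DL_single hτ1 hη hUN hUη]
      have h2 : DL U τ η v0 (single (QuotientGroup.mk g) (1 : k) - 1) = DD τ η v0 g := by
        have hone : (1 : MonoidAlgebra k (G ⧸ U)) = single (QuotientGroup.mk 1) 1 := rfl
        rw [map_sub, hone, DL_single hτ1 hη hUN hUη, DL_single hτ1 hη hUN hUη]
        have : DD τ η v0 1 = 0 := by
          unfold DD
          rw [hUη 1 (one_mem _), zero_smul, add_zero]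
          exact hτ1
        rw [this, sub_zero]
      simp only
      rw [hc, mul_smul_comm, map_smul, map_smul, map_smul, ← smul_sub, h1, h2, proj_single]
      apply Submodule.smul_mem
      have := DD_cross hl hτ hv0 hlv0 hη g h
      rwa [← sub_sub, sub_right_comm] at this
  · simp
  · intro a b _ _ ha hb
    have : DL U τ η v0 ((a + b) * z) - rmul k d (DL U τ η v0 (a + b)) (proj k hUN z)
        = (DL U τ η v0 (a * z) - rmul k d (DL U τ η v0 a) (proj k hUN z))
          + (DL U τ η v0 (b * z) - rmul k d (DL U τ η v0 b) (proj k hUN z)) := by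
      rw [add_mul, map_add, map_add, map_add, LinearMap.add_apply]; abel
    rw [this]; exact add_mem ha hb
  · intro c a _ ha
    rw [smul_mul_assoc, map_smul, map_smul, map_smul, LinearMap.smul_apply, ← smul_sub]
    exact Submodule.smul_mem _ _ ha

/-- Claim B -/
lemma DL_depth (hl : ∀ v ∈ KS k x (aug k (G ⧸ N)), l v = 0)
    (hτ : ∀ q, mu k x (τ q) = single q 1 - 1) (hτ1 : τ 1 = 0) (hv0 : v0 ∈ KK k x) (hlv0 : l v0 = 1)
    (hη : ∀ g h : G, l (kap τ g h) = η (g * h) - η g - η h)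
    (hUN : U ≤ N) (hUη : ∀ u ∈ U, η u = 0) (n : ℕ) {y : MonoidAlgebra k (G ⧸ U)}
    (hy : y ∈ FI (aug k (G ⧸ U)) (n + 1)) :
    ∃ w ∈ VF d (FI (aug k (G ⧸ N)) n), DL U τ η v0 y - w ∈ Kl k x l := by
  refine Submodule.mul_induction_on hy ?_ ?_
  · intro a ha b hb
    refine ⟨rmul k d (DL U τ η v0 a) (proj k hUN b), ?_, DL_mul hl hτ hτ1 hv0 hlv0 hη hUN hUη ha b⟩
    intro i
    rw [rmul_apply]
    exact (FI_twoSided aug_twoSided n).left _ _ (proj_FI hUN n hb)
  · rintro a b ⟨w, hw, hw'⟩ ⟨w2, hw2, hw2'⟩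
    refine ⟨w + w2, add_mem hw hw2, ?_⟩
    have : DL U τ η v0 (a + b) - (w + w2) = (DL U τ η v0 a - w) + (DL U τ η v0 b - w2) := by
      rw [map_add]; abel
    rw [this]; exact add_mem hw' hw2'

end alg

end Pool.Agent.Lib.MP_722186_nt
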