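import Mathlib
import Pool.Agent.Lib.MP_722186_nt.GSAlg

/-!
Golod-Shafarevich inequality, numerical part.
-/

namespace Pool.Agent.Lib.MP_722186_nt

open Finset

lemma double_sum_bound {c : ℕ → ℝ} (hc0 : c 0 = 0) {t : ℝ} (ht1 : t < 1) (M L : ℕ) :
    ∑ n ∈ range L, t ^ (n + 1) * ∑ j ∈ range (n - M + 1), c j
      + t ^ (L + 1) / (1 - t) * ∑ j ∈ range (L - M), c j
      = t ^ (M + 1) / (1 - t) * ∑ j ∈ range (L - M), c j * t ^ j := by
  have h1t : (1 : ℝ) - t ≠ 0 := by linarith
  induction L with
  | zero => simp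
  | succ L ih =>
    rw [Finset.sum_range_succ]
    rcases Nat.lt_or_ge L M with h | h
    · have e1 : L + 1 - M = 0 := by omega
      have e2 : L - M = 0 := by omega
      rw [e2] at ih
      rw [e1, e2]
      simp only [range_zero, sum_empty, mul_zero, add_zero, zero_add, range_one, sum_singleton,
        hc0] at ih ⊢
      exact ih
    · have e1 : L + 1 - M = (L - M) + 1 := by omega
      rw [e1, Finset.sum_range_succ, Finset.sum_range_succ]
      have e3 : t ^ (M + 1) * t ^ (L - M) = t ^ (L + 1) := by
        rw [← pow_add]; congr 1; omega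
      set E := ∑ n ∈ range L, t ^ (n + 1) * ∑ j ∈ range (n - M + 1), c j
      set P := ∑ j ∈ range (L - M), c j
      set R := ∑ j ∈ range (L - M), c j * t ^ j
      have e4 : t ^ (M + 1) / (1 - t) * (R + c (L - M) * t ^ (L - M))
          = t ^ (M + 1) / (1 - t) * R + c (L - M) * (t ^ (M + 1) * t ^ (L - M)) / (1 - t) := by
        ring
      rw [e4, e3, ← ih]
      field_simp
      ring

/-- no bounded solution of the Golod-Shafarevich recursion -/
theorem gs_numeric {c : ℕ → ℝ} {B d r t : ℝ} {M : ℕ} (hc0 : c 0 = 0) (hc : ∀ n, 0 ≤ c n)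
    (hB : ∀ n, c n ≤ B) (hr : 0 ≤ r) (ht0 : 0 < t) (ht1 : t < 1)
    (hneg : 1 - d * t + r * t ^ 2 + t ^ (M + 1) / (1 - t) ≤ 0)
    (hrec : ∀ n, 1 + d * c n - r * c (n - 1) - ∑ j ∈ range (n - M + 1), c j ≤ c (n + 1)) : False := by
  have h1t : 0 < 1 - t := by linarith
  -- the key inequality for every L ≥ 1
  have key : ∀ L, 1 ≤ L → t ≤ c L * t ^ L := by
    intro L hL
    have s1 : ∑ n ∈ range L, t ^ (n + 1) * (1 + d * c n - r * c (n - 1)
        - ∑ j ∈ range (n - M + 1), c j) ≤ ∑ n ∈ range L, t ^ (n + 1) * c (n + 1) :=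
      Finset.sum_le_sum fun n _ => mul_le_mul_of_nonneg_left (hrec n) (by positivity)
    set S := ∑ n ∈ range L, c n * t ^ n with hS
    have s2 : ∑ n ∈ range L, t ^ (n + 1) * c (n + 1) = S + c L * t ^ L := by
      have h2 : ∑ n ∈ range (L + 1), c n * t ^ n = ∑ n ∈ range L, c (n + 1) * t ^ (n + 1) + c 0 * t ^ 0 :=
        Finset.sum_range_succ' _ _
      rw [Finset.sum_range_succ, hc0, zero_mul, add_zero] at h2
      rw [hS, h2]
      exact Finset.sum_congr rfl fun n _ => mul_comm _ _
    have s3 : ∑ n ∈ range L, t ^ (n + 1) * (1 + d * c n - r * c (n - 1)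
        - ∑ j ∈ range (n - M + 1), c j)
        = ∑ n ∈ range L, t ^ (n + 1) + d * t * S - r * ∑ n ∈ range L, t ^ (n + 1) * c (n - 1)
          - ∑ n ∈ range L, t ^ (n + 1) * ∑ j ∈ range (n - M + 1), c j := by
      rw [hS, Finset.mul_sum, Finset.mul_sum, ← Finset.sum_add_distrib, ← Finset.sum_sub_distrib,
        ← Finset.sum_sub_distrib]
      apply Finset.sum_congr rfl
      intro n _
      ring
    have s4 : ∑ n ∈ range L, t ^ (n + 1) * c (n - 1) ≤ t ^ 2 * S := by
      obtain ⟨L', rfl⟩ : ∃ L', L = L' + 1 := ⟨L - 1, by omega⟩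
      rw [Finset.sum_range_succ']
      simp only [Nat.add_sub_cancel, Nat.zero_sub, hc0, mul_zero, add_zero]
      rw [hS, Finset.sum_range_succ, mul_add, Finset.mul_sum]
      have : 0 ≤ t ^ 2 * (c L' * t ^ L') := by have := hc L'; positivity
      have h5 : ∑ n ∈ range L', t ^ (n + 1 + 1) * c n = ∑ n ∈ range L', t ^ 2 * (c n * t ^ n) :=
        Finset.sum_congr rfl fun n _ => by ring
      rw [h5]
      linarith
    have s5 : ∑ n ∈ range L, t ^ (n + 1) * ∑ j ∈ range (n - M + 1), c j
        ≤ t ^ (M + 1) / (1 - t) * S := by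
      have h6 := double_sum_bound hc0 ht1 M L
      have h7 : 0 ≤ t ^ (L + 1) / (1 - t) * ∑ j ∈ range (L - M), c j := by
        apply mul_nonneg (by positivity)
        exact Finset.sum_nonneg fun j _ => hc j
      have h8 : ∑ j ∈ range (L - M), c j * t ^ j ≤ S := by
        apply Finset.sum_le_sum_of_subset_of_nonneg
        · intro j; simp only [mem_range]; omega
        · intro j _ _; have := hc j; positivity
      have h9 : t ^ (M + 1) / (1 - t) * ∑ j ∈ range (L - M), c j * t ^ j
          ≤ t ^ (M + 1) / (1 - t) * S := mul_le_mul_of_nonneg_left h8 (by positivity)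
      linarith
    have s6 : t ≤ ∑ n ∈ range L, t ^ (n + 1) := by
      have := Finset.single_le_sum (f := fun n => t ^ (n + 1)) (s := range L)
        (fun n _ => by positivity) (Finset.mem_range.2 (show 0 < L by omega))
      simpa using this
    have hS0 : 0 ≤ S := Finset.sum_nonneg fun n _ => by have := hc n; positivity
    have s7 : (1 - d * t + r * t ^ 2 + t ^ (M + 1) / (1 - t)) * S ≤ 0 :=
      mul_nonpos_of_nonpos_of_nonneg hneg hS0
    have s8 : r * ∑ n ∈ range L, t ^ (n + 1) * c (n - 1) ≤ r * (t ^ 2 * S) :=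
      mul_le_mul_of_nonneg_left s4 hr
    rw [s3, s2] at s1
    nlinarith
  have hB0 : 0 ≤ B := (hc 0).trans (hB 0)
  have hlim : Filter.Tendsto (fun L : ℕ => B * t ^ L) Filter.atTop (nhds (B * 0)) :=
    (tendsto_pow_atTop_nhds_zero_of_lt_one ht0.le ht1).const_mul B
  rw [mul_zero] at hlim
  obtain ⟨L, hL1, hL2⟩ := ((hlim.eventually_lt_const ht0).and (Filter.eventually_ge_atTop 1)).exists
  have h1 := key L hL2
  have h2 : c L * t ^ L ≤ B * t ^ L := mul_le_mul_of_nonneg_right (hB L) (by positivity)
  linarith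

open Module in
/-- Golod-Shafarevich for finite-dimensional algebras, contradiction form. -/
theorem gs_alg_false {k : Type*} [Field k] {A : Type*} [Ring A] [Algebra k A] [FiniteDimensional k A]
    {d : ℕ} {I : Submodule k A} {x : Fin d → A} (h : GSData k d I x) (r M : ℕ) (hM : 1 ≤ M) {t : ℝ}
    (ht0 : 0 < t) (ht1 : t < 1)
    (hneg : 1 - d * t + r * t ^ 2 + t ^ (M + 1) / (1 - t) ≤ 0)
    (hb : ∀ j, 2 ≤ j → tt k I x j ≤ r + ((j - M : ℕ) : ℤ)) : False := by
  apply gs_numeric (c := fun n => (cc k I n : ℝ)) (B := finrank k A) (d := d) (r := r) (t := t) (M := M)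
  · simp [cc_zero]
  · intro n; exact_mod_cast cc_nonneg n
  · intro n; exact_mod_cast cc_le n
  · positivity
  · exact ht0
  · exact ht1
  · exact hneg
  · intro n
    have h1 := cc_recursion h (fun j => (r : ℤ) + ((j - M : ℕ) : ℤ)) hb n
    have h2 : ∑ m ∈ Finset.range (n - 1), ((r : ℤ) + ((n - m - M : ℕ) : ℤ)) * (cc k I (m + 1) - cc k I m)
        = r * cc k I (n - 1) + ∑ j ∈ range (n - M + 1), cc k I j := by
      have h3 : ∑ m ∈ Finset.range (n - 1), ((r : ℤ) + ((n - m - M : ℕ) : ℤ)) * (cc k I (m + 1) - cc k I m)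
          = r * ∑ m ∈ Finset.range (n - 1), (cc k I (m + 1) - cc k I m)
            + ∑ m ∈ Finset.range (n - 1), ((n - m - M : ℕ) : ℤ) * (cc k I (m + 1) - cc k I m) := by
        rw [Finset.mul_sum, ← Finset.sum_add_distrib]
        exact Finset.sum_congr rfl fun m _ => by ring
      rw [h3, Finset.sum_range_sub, cc_zero, sub_zero]
      congr 1
      -- Abel summation
      have h4 : ∀ K L : ℕ, K ≤ L → ∑ m ∈ Finset.range L, ((K - m : ℕ) : ℤ) * (cc k I (m + 1) - cc k I m)
          = ∑ j ∈ range (K + 1), cc k I j := by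
        intro K
        induction K with
        | zero =>
          intro L _
          simp [cc_zero]
        | succ K ih =>
          intro L hL
          have h5 : ∑ m ∈ Finset.range L, ((K + 1 - m : ℕ) : ℤ) * (cc k I (m + 1) - cc k I m)
              = ∑ m ∈ Finset.range L, ((K - m : ℕ) : ℤ) * (cc k I (m + 1) - cc k I m)
                + ∑ m ∈ Finset.range (K + 1), (cc k I (m + 1) - cc k I m) := by
            have h6 : ∑ m ∈ Finset.range (K + 1), (cc k I (m + 1) - cc k I m)
                = ∑ m ∈ Finset.range L, (if m < K + 1 then (cc k I (m + 1) - cc k I m) else 0) := by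
              rw [← Finset.sum_filter]
              apply Finset.sum_congr _ (fun _ _ => rfl)
              ext m; simp only [Finset.mem_range, Finset.mem_filter]; omega
            rw [h6, ← Finset.sum_add_distrib]
            apply Finset.sum_congr rfl
            intro m _
            split_ifs with hm
            · have : ((K + 1 - m : ℕ) : ℤ) = ((K - m : ℕ) : ℤ) + 1 := by
                push_cast [Nat.cast_sub (show m ≤ K by omega), Nat.cast_sub (show m ≤ K + 1 by omega)]
                ring
              rw [this]; ring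
            · have e1 : K + 1 - m = 0 := by omega
              have e2 : K - m = 0 := by omega
              rw [e1, e2]; simp
          rw [h5, ih L (by omega), Finset.sum_range_sub, cc_zero, sub_zero,
            Finset.sum_range_succ (n := K + 1)]
      rcases Nat.lt_or_ge n M with hn | hn
      · have e0 : n - M = 0 := by omega
        rw [e0]
        simp only [zero_add, range_one, sum_singleton, cc_zero]
        apply Finset.sum_eq_zero
        intro m _
        have : n - m - M = 0 := by omega
        rw [this]; simp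
      · rw [← h4 (n - M) (n - 1) (by omega)]
        apply Finset.sum_congr rfl
        intro m _
        have : n - m - M = n - M - m := by omega
        rw [this]
    rw [h2] at h1
    have h5 : ((1 + d * cc k I n - (r * cc k I (n - 1) + ∑ j ∈ range (n - M + 1), cc k I j) : ℤ) : ℝ)
        ≤ ((cc k I (n + 1) : ℤ) : ℝ) := by exact_mod_cast h1
    push_cast at h5
    linarith

end Pool.Agent.Lib.MP_722186_nt
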