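import Mathlib
import Pool.Agent.Lib.MP_722186_nt.Defs
import Pool.Agent.Lib.MP_722186_nt.GSKey
import Pool.Agent.Lib.MP_722186_nt.GSNum

/-!
Golod-Shafarevich for pro-`p` groups: the depth filtration and the bound for `t_n`.
-/

namespace Pool.Agent.Lib.MP_722186_nt

open Submodule Module MonoidAlgebra

section depth

variable (p : ℕ) [hp : Fact p.Prime] (G : Type*) [Group G] [TopologicalSpace G]

/-- the subgroup of `g` with `g - 1 ∈ I^n` in `𝔽_p[G/U]` -/
def depthU {G : Type*} [Group G] (U : Subgroup G) [U.Normal] (n : ℕ) : Subgroup G where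
  carrier := {g | (single (QuotientGroup.mk g : G ⧸ U) (1 : ZMod p) - 1) ∈ FI (aug (ZMod p) (G ⧸ U)) n}
  one_mem' := by
    have : (single (QuotientGroup.mk (1 : G) : G ⧸ U) (1 : ZMod p) - 1) = 0 := by
      have : (1 : MonoidAlgebra (ZMod p) (G ⧸ U)) = single (QuotientGroup.mk (1 : G) : G ⧸ U) 1 := rfl
      rw [← this, sub_self]
    rw [Set.mem_ofPred_eq, this]
    exact zero_mem _
  mul_mem' := by
    intro g h hg hh
    rw [Set.mem_ofPred_eq] at *
    have e : (single (QuotientGroup.mk (g * h) : G ⧸ U) (1 : ZMod p) - 1)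
        = (single (QuotientGroup.mk g : G ⧸ U) (1 : ZMod p) - 1) * single (QuotientGroup.mk h : G ⧸ U) 1
          + (single (QuotientGroup.mk h : G ⧸ U) (1 : ZMod p) - 1) := by
      rw [sub_mul, single_mul_single, one_mul, one_mul, QuotientGroup.mk_mul]; abel
    rw [e]
    exact add_mem ((FI_twoSided aug_twoSided n).right _ _ hg) hh
  inv_mem' := by
    intro g hg
    rw [Set.mem_ofPred_eq] at *
    have e : (single (QuotientGroup.mk g⁻¹ : G ⧸ U) (1 : ZMod p) - 1)
        = - (single (QuotientGroup.mk g⁻¹ : G ⧸ U) 1 * (single (QuotientGroup.mk g : G ⧸ U) (1 : ZMod p) - 1)) := by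
      rw [mul_sub, single_mul_single, mul_one, mul_one, ← QuotientGroup.mk_mul, inv_mul_cancel]
      have : (1 : MonoidAlgebra (ZMod p) (G ⧸ U)) = single (QuotientGroup.mk (1 : G) : G ⧸ U) 1 := rfl
      rw [← this]; abel
    rw [e]
    exact neg_mem ((FI_twoSided aug_twoSided n).left _ _ hg)

lemma mem_depthU {G : Type*} [Group G] {U : Subgroup G} [U.Normal] {n : ℕ} {g : G} :
    g ∈ depthU p U n ↔
      (single (QuotientGroup.mk g : G ⧸ U) (1 : ZMod p) - 1) ∈ FI (aug (ZMod p) (G ⧸ U)) n := Iff.rfl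

/-- the depth filtration of a profinite group -/
def depth (n : ℕ) : Subgroup G where
  carrier := {g | ∀ (U : Subgroup G) (hU : U.Normal), IsOpen (U : Set G) → g ∈ @depthU p hp G _ U hU n}
  one_mem' := fun _ _ _ => one_mem _
  mul_mem' := fun hg hh U hU hUo => mul_mem (hg U hU hUo) (hh U hU hUo)
  inv_mem' := fun hg U hU hUo => inv_mem (hg U hU hUo)

lemma mem_depth {n : ℕ} {g : G} : g ∈ depth p G n ↔
    ∀ (U : Subgroup G) (hU : U.Normal), IsOpen (U : Set G) → g ∈ @depthU p hp G _ U hU n := Iff.rfl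

instance depth_normal (n : ℕ) : (depth p G n).Normal := by
  constructor
  intro g hg h U hU hUo
  have hg' := hg U hU hUo
  rw [mem_depthU] at *
  have e : (single (QuotientGroup.mk (h * g * h⁻¹) : G ⧸ U) (1 : ZMod p) - 1)
      = single (QuotientGroup.mk h : G ⧸ U) 1 * (single (QuotientGroup.mk g : G ⧸ U) (1 : ZMod p) - 1)
        * single (QuotientGroup.mk h⁻¹ : G ⧸ U) 1 := by
    rw [mul_sub, sub_mul, single_mul_single, single_mul_single, mul_one, mul_one, mul_one,
      single_mul_single, ← QuotientGroup.mk_mul, ← QuotientGroup.mk_mul, ← QuotientGroup.mk_mul,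
      mul_inv_cancel, mul_one]
    rfl
  rw [e]
  exact (FI_twoSided aug_twoSided n).right _ _ ((FI_twoSided aug_twoSided n).left _ _ hg')

lemma depth_anti : Antitone (depth p G) := by
  intro m n hmn g hg U hU hUo
  exact FI_anti aug_twoSided hmn (hg U hU hUo)

end depth

section key

variable {p : ℕ} [hp : Fact p.Prime] {G : Type*} [Group G] [TopologicalSpace G]

/-- the key lemma -/
lemma key_lemma [IsTopologicalGroup G] {N : Subgroup G} [N.Normal] (hNo : IsOpen (N : Set G))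
    {d : ℕ} {x : Fin d → MonoidAlgebra (ZMod p) (G ⧸ N)}
    (hx : GSData (ZMod p) d (aug (ZMod p) (G ⧸ N)) x)
    {τ : G ⧸ N → Fin d → MonoidAlgebra (ZMod p) (G ⧸ N)}
    (hτ : ∀ q, mu (ZMod p) x (τ q) = single q 1 - 1) (hτ1 : τ 1 = 0)
    {l : (Fin d → MonoidAlgebra (ZMod p) (G ⧸ N)) →ₗ[ZMod p] ZMod p}
    (hl : ∀ v ∈ KS (ZMod p) x (aug (ZMod p) (G ⧸ N)), l v = 0) (j : ℕ)
    (hlj : ∀ v ∈ KK (ZMod p) x ⊓ VF d (FI (aug (ZMod p) (G ⧸ N)) j), l v = 0)
    {η : G → ZMod p} (hηc : Continuous η)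
    (hη : ∀ g h : G, l (kap τ g h) = η (g * h) - η g - η h)
    {S : Set G} (hSN : (N : Set G) = closure ((Subgroup.normalClosure S : Subgroup G) : Set G))
    (hS : ∀ s ∈ S, η s = 0 ∨ s ∈ depth p G (j + 1)) :
    ∀ v ∈ KK (ZMod p) x, l v = 0 := by
  by_contra hcon
  push Not at hcon
  obtain ⟨v, hv, hlv⟩ := hcon
  set v0 := (l v)⁻¹ • v with hv0def
  have hv0 : v0 ∈ KK (ZMod p) x := Submodule.smul_mem _ _ hv
  have hlv0 : l v0 = 1 := by
    rw [hv0def, map_smul, smul_eq_mul, inv_mul_cancel₀ hlv]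
  clear_value v0
  have hη1 : η 1 = 0 := by
    have := eta_mul_right hτ1 hη 1 (one_mem N)
    rw [mul_one] at this
    exact left_eq_add.1 this
  let U : Subgroup G :=
    { carrier := {u | u ∈ N ∧ η u = 0}
      one_mem' := ⟨one_mem _, hη1⟩
      mul_mem' := by
        rintro a b ⟨ha, ha'⟩ ⟨hb, hb'⟩
        exact ⟨mul_mem ha hb, by rw [eta_mul_right hτ1 hη a hb, ha', hb', add_zero]⟩
      inv_mem' := by
        rintro a ⟨ha, ha'⟩
        refine ⟨inv_mem ha, ?_⟩
        have := eta_mul_right hτ1 hη a (inv_mem ha)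
        rw [mul_inv_cancel, hη1, ha', zero_add] at this
        exact this.symm }
  have hUmem : ∀ u, u ∈ U ↔ u ∈ N ∧ η u = 0 := fun u => Iff.rfl
  have hUN : U ≤ N := fun u hu => hu.1
  have hUη : ∀ u ∈ U, η u = 0 := fun u hu => hu.2
  have hUn : U.Normal := by
    constructor
    rintro n ⟨hn, hn'⟩ g
    have hconj : g * n * g⁻¹ ∈ N := Subgroup.Normal.conj_mem inferInstance n hn g
    refine ⟨hconj, ?_⟩
    have h1 := eta_mul_right hτ1 hη g hn
    have h2 := eta_mul_left hτ1 hη g hconj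
    rw [inv_mul_cancel_right] at h2
    rw [h1, hn', add_zero] at h2
    exact (left_eq_add.1 (h2.trans (add_comm _ _)))
  have hUo : IsOpen (U : Set G) := by
    have : (U : Set G) = (N : Set G) ∩ η ⁻¹' {0} := by ext u; rfl
    rw [this]
    exact hNo.inter ((isOpen_discrete _).preimage hηc)
  have hSsub : S ⊆ N := by
    intro s hs
    have h1 : s ∈ (Subgroup.normalClosure S : Subgroup G) := Subgroup.subset_normalClosure hs
    have h2 : s ∈ (N : Set G) := by rw [hSN]; exact subset_closure h1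
    exact h2
  -- step 1
  have step1 : ∀ s ∈ S, η s = 0 := by
    intro s hs
    rcases hS s hs with h | h
    · exact h
    · have h1 := h U hUn hUo
      rw [mem_depthU] at h1
      obtain ⟨w, hw, hw'⟩ := DL_depth hl hτ hτ1 hv0 hlv0 hη hUN hUη j h1
      have h2 : DL U τ η v0 (single (QuotientGroup.mk s) (1 : ZMod p) - 1) = η s • v0 := by
        have hone : (1 : MonoidAlgebra (ZMod p) (G ⧸ U)) = single (QuotientGroup.mk 1) 1 := rfl
        rw [map_sub, hone, DL_single hτ1 hη hUN hUη, DL_single hτ1 hη hUN hUη]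
        unfold DD
        have e1 : ((s : G) : G ⧸ N) = 1 := (QuotientGroup.eq_one_iff s).2 (hSsub hs)
        rw [e1, hη1, QuotientGroup.mk_one, hτ1]
        simp
      rw [h2] at hw'
      have hwK : w ∈ KK (ZMod p) x := by
        have := sub_mem (Submodule.smul_mem _ (η s) hv0) hw'.1
        rwa [sub_sub_cancel] at this
      have h3 := hlj w ⟨hwK, hw⟩
      have h4 : l (η s • v0 - w) = 0 := hw'.2
      rw [map_sub, h3, sub_zero, map_smul, hlv0, smul_eq_mul, mul_one] at h4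
      exact h4
  -- step 2
  have hNU : N ≤ U := by
    have hcl : IsClosed (U : Set G) := Subgroup.isClosed_of_isOpen U hUo
    have h1 : (Subgroup.normalClosure S : Subgroup G) ≤ U :=
      Subgroup.normalClosure_le_normal (fun s hs => ⟨hSsub hs, step1 s hs⟩)
    have h2 : (N : Set G) ⊆ U := by
      rw [hSN]
      exact closure_minimal h1 hcl
    exact h2
  -- step 3
  have hNη : ∀ u ∈ N, η u = 0 := fun u hu => (hNU hu).2
  have hproj : ∀ z : MonoidAlgebra (ZMod p) (G ⧸ N), proj (ZMod p) (le_refl N) z = z := by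
    intro z
    induction z using MonoidAlgebra.induction_linear with
    | zero => rw [map_zero]
    | add a b ha hb => rw [map_add, ha, hb]
    | single q c =>
      obtain ⟨g, rfl⟩ := QuotientGroup.mk_surjective q
      have hc : single (QuotientGroup.mk g : G ⧸ N) c = c • single (QuotientGroup.mk g) (1 : ZMod p) := by
        rw [smul_single, smul_eq_mul, mul_one]
      rw [hc, map_smul, proj_single]
  have hmul : ∀ y ∈ aug (ZMod p) (G ⧸ N), ∀ z,
      DL N τ η v0 (y * z) - rmul (ZMod p) d (DL N τ η v0 y) z ∈ Kl (ZMod p) x l := by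
    intro y hy z
    have := DL_mul hl hτ hτ1 hv0 hlv0 hη (le_refl N) hNη hy z
    rwa [hproj] at this
  have hmu : ∀ y ∈ aug (ZMod p) (G ⧸ N), mu (ZMod p) x (DL N τ η v0 y) = y := by
    intro y hy
    rw [aug_eq_span] at hy
    refine Submodule.span_induction (p := fun y _ => mu (ZMod p) x (DL N τ η v0 y) = y) ?_ ?_ ?_ ?_ hy
    · rintro _ ⟨q, rfl⟩
      obtain ⟨g, rfl⟩ := QuotientGroup.mk_surjective q
      have hone : (1 : MonoidAlgebra (ZMod p) (G ⧸ N)) = single (QuotientGroup.mk 1) 1 := rfl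
      simp only
      rw [map_sub, hone, DL_single hτ1 hη (le_refl N) hNη, DL_single hτ1 hη (le_refl N) hNη]
      unfold DD
      have hv00 : mu (ZMod p) x v0 = 0 := hv0
      rw [map_sub, map_add, map_add, map_smul, map_smul, hv00, hτ, hτ, smul_zero, smul_zero,
        add_zero, add_zero, ← hone, sub_self, sub_zero]
    · rw [map_zero, map_zero]
    · intro a b _ _ ha hb; rw [map_add, map_add, ha, hb]
    · intro c a _ ha; rw [map_smul, map_smul, ha]
  -- final: l kills K
  have hfin : ∀ u ∈ KK (ZMod p) x, l u = 0 := by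
    intro u hu
    have hui : ∀ i, u i ∈ aug (ZMod p) (G ⧸ N) := hx.syz u (mem_KK.1 hu)
    have hdec : u = ∑ i, rmul (ZMod p) d (Pi.single i 1) (u i) := by
      ext1 i'
      rw [Finset.sum_apply, Finset.sum_eq_single i']
      · rw [rmul_apply, Pi.single_eq_same, one_mul]
      · intro i _ hi
        rw [rmul_apply, Pi.single_eq_of_ne (Ne.symm hi), zero_mul]
      · intro h; exact absurd (Finset.mem_univ _) h
    have hterm : ∀ i, l (rmul (ZMod p) d (Pi.single i 1) (u i)) = l (DL N τ η v0 (x i * u i)) := by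
      intro i
      have k1 : (Pi.single i 1 - DL N τ η v0 (x i) : Fin d → MonoidAlgebra (ZMod p) (G ⧸ N))
          ∈ KK (ZMod p) x := by
        unfold KK
        rw [LinearMap.mem_ker, map_sub, hmu _ (hx.memI i), mu_apply, Finset.sum_eq_single i]
        · rw [Pi.single_eq_same, mul_one, sub_self]
        · intro j _ hj
          rw [Pi.single_eq_of_ne hj, mul_zero]
        · intro h; exact absurd (Finset.mem_univ _) h
      have k2 := hl _ (Submodule.apply_mem_map₂ (rmul (ZMod p) d) k1 (hui i))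
      have k3 := (hmul (x i) (hx.memI i) (u i)).2
      have k4 : l (DL N τ η v0 (x i * u i) - rmul (ZMod p) d (DL N τ η v0 (x i)) (u i)) = 0 := k3
      rw [map_sub, LinearMap.sub_apply, map_sub, sub_eq_zero] at k2
      rw [map_sub, sub_eq_zero] at k4
      rw [k2, k4]
    have hsum : l u = ∑ i, l (DL N τ η v0 (x i * u i)) := by
      conv_lhs => rw [hdec]
      rw [map_sum]
      exact Finset.sum_congr rfl fun i _ => hterm i
    rw [hsum, ← map_sum, ← map_sum, mem_KK.1 hu, map_zero, map_zero]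
  have := hfin v hv
  exact hlv this

end key

section bound

variable {p : ℕ} [hp : Fact p.Prime] {G : Type*} [Group G] [TopologicalSpace G]

/-- the linear map `λ ↦ f_λ` -/
noncomputable def Fmap (p : ℕ) [Fact p.Prime] {G : Type*} [Group G] {N : Subgroup G} [N.Normal] {d : ℕ}
    (τ : G ⧸ N → Fin d → MonoidAlgebra (ZMod p) (G ⧸ N)) :
    ((Fin d → MonoidAlgebra (ZMod p) (G ⧸ N)) →ₗ[ZMod p] ZMod p) →ₗ[ZMod p] (G → G → ZMod p) where
  toFun l := fun g h => l (kap τ g h)
  map_add' := fun _ _ => rfl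
  map_smul' := fun _ _ => rfl

/-- pairs `(λ, η)` -/
noncomputable def EE (p : ℕ) [Fact p.Prime] {G : Type*} [Group G] [TopologicalSpace G]
    {N : Subgroup G} [N.Normal] {d : ℕ}
    (τ : G ⧸ N → Fin d → MonoidAlgebra (ZMod p) (G ⧸ N))
    (Z : Submodule (ZMod p) (Fin d → MonoidAlgebra (ZMod p) (G ⧸ N))) :
    Submodule (ZMod p) (((Fin d → MonoidAlgebra (ZMod p) (G ⧸ N)) →ₗ[ZMod p] ZMod p) × (G → ZMod p)) where
  carrier := {q | (∀ z ∈ Z, q.1 z = 0) ∧ Continuous q.2 ∧
    ∀ g h : G, q.1 (kap τ g h) = q.2 (g * h) - q.2 g - q.2 h}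
  zero_mem' := ⟨fun _ _ => rfl, continuous_const, fun g h => by simp⟩
  add_mem' := by
    rintro a b ⟨h1, h2, h3⟩ ⟨k1, k2, k3⟩
    refine ⟨fun z hz => ?_, h2.add k2, fun g h => ?_⟩
    · rw [Prod.fst_add, LinearMap.add_apply, h1 z hz, k1 z hz, add_zero]
    · rw [Prod.fst_add, LinearMap.add_apply, h3, k3]
      simp only [Prod.snd_add, Pi.add_apply]
      ring
  smul_mem' := by
    rintro c a ⟨h1, h2, h3⟩
    refine ⟨fun z hz => ?_, h2.const_smul c, fun g h => ?_⟩
    · rw [Prod.smul_fst, LinearMap.smul_apply, h1 z hz, smul_zero]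
    · rw [Prod.smul_fst, LinearMap.smul_apply, h3]
      simp only [Prod.smul_snd, Pi.smul_apply, smul_eq_mul]
      ring

/-- if every `r+1` elements have a relation, the rank is at most `r` -/
lemma finrank_le_of_rel {k V : Type*} [Field k] [AddCommGroup V] [Module k V] [FiniteDimensional k V]
    (r : ℕ) (h : ∀ v : Fin (r + 1) → V, ∃ c : Fin (r + 1) → k, c ≠ 0 ∧ ∑ i, c i • v i = 0) :
    finrank k V ≤ r := by
  by_contra hcon
  push Not at hcon
  let b := Module.finBasis k V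
  obtain ⟨c, hc, hsum⟩ := h (fun i => b (Fin.castLE hcon i))
  apply hc
  have hli := b.linearIndependent.comp (Fin.castLE hcon) (Fin.castLE_injective hcon)
  have := Fintype.linearIndependent_iff.1 hli c hsum
  funext i
  exact this i

lemma la1 {k V W : Type*} [Field k] [AddCommGroup V] [Module k V] [FiniteDimensional k V]
    [AddCommGroup W] [Module k W] (F : V →ₗ[k] W) (B : Submodule k W) (Λ Λ0 : Submodule k V) (r : ℕ)
    (hr : ∀ v : Fin (r + 1) → V, (∀ i, v i ∈ Λ) → ∃ c : Fin (r + 1) → k, c ≠ 0 ∧ ∑ i, c i • F (v i) ∈ B)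
    (h0 : ∀ l ∈ Λ, F l ∈ B → l ∈ Λ0) : finrank k Λ ≤ r + finrank k Λ0 := by
  let Φ : Λ →ₗ[k] (W ⧸ B) := B.mkQ ∘ₗ F ∘ₗ Λ.subtype
  have h1 := LinearMap.finrank_range_add_finrank_ker Φ
  have h2 : finrank k (LinearMap.range Φ) ≤ r := by
    apply finrank_le_of_rel
    intro v
    have hv : ∀ i, ∃ l : Λ, Φ l = v i := fun i => (v i).2
    choose l hl using hv
    obtain ⟨c, hc, hcB⟩ := hr (fun i => (l i : V)) (fun i => (l i).2)
    refine ⟨c, hc, ?_⟩
    apply Subtype.ext
    rw [Submodule.coe_sum, Submodule.coe_zero]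
    have h5 : ∑ i, ((c i • v i : LinearMap.range Φ) : W ⧸ B) = B.mkQ (∑ i, c i • F (l i)) := by
      rw [map_sum]
      apply Finset.sum_congr rfl
      intro i _
      rw [map_smul, Submodule.coe_smul, ← hl i]
      rfl
    rw [h5, Submodule.mkQ_apply, Submodule.Quotient.mk_eq_zero]
    exact hcB
  have h3 : finrank k (LinearMap.ker Φ) ≤ finrank k Λ0 := by
    have h4 : (LinearMap.ker Φ).map Λ.subtype ≤ Λ0 := by
      rintro _ ⟨l, hl, rfl⟩
      apply h0 _ l.2
      rw [← Submodule.Quotient.mk_eq_zero B]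
      exact hl
    have h5 := Submodule.finrank_mono h4
    rwa [LinearEquiv.finrank_eq (Submodule.equivMapOfInjective _ Λ.injective_subtype _).symm] at h5
  omega

lemma la2 {k V W : Type*} [Field k] [AddCommGroup V] [Module k V] [FiniteDimensional k V]
    [AddCommGroup W] [Module k W] (E : Submodule k (V × W)) (m : ℕ) (ev : W →ₗ[k] (Fin m → k))
    (K' Λ0 : Submodule k V) (hΛ0 : ∀ l, l ∈ Λ0 ↔ ∃ η, (l, η) ∈ E)
    (h : ∀ l η, (l, η) ∈ E → ev η = 0 → l ∈ K') : finrank k Λ0 ≤ m + finrank k K' := by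
  let pr : E →ₗ[k] V := (LinearMap.fst k V W).domRestrict E
  have hrange : Λ0 = LinearMap.range pr := by
    ext l
    rw [hΛ0, LinearMap.mem_range]
    constructor
    · rintro ⟨η, hq⟩; exact ⟨⟨(l, η), hq⟩, rfl⟩
    · rintro ⟨⟨⟨l', η⟩, hq⟩, rfl⟩; exact ⟨η, hq⟩
  rw [hrange]
  obtain ⟨sec, hsec⟩ := LinearMap.exists_rightInverse_of_surjective pr.rangeRestrict
    (LinearMap.range_rangeRestrict pr)
  let evl : LinearMap.range pr →ₗ[k] (Fin m → k) :=
    ev ∘ₗ (LinearMap.snd k V W).domRestrict E ∘ₗ sec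
  have h1 := LinearMap.finrank_range_add_finrank_ker evl
  have h2 : finrank k (LinearMap.range evl) ≤ m := by
    have := Submodule.finrank_le (LinearMap.range evl)
    rwa [Module.finrank_fin_fun] at this
  have h3 : finrank k (LinearMap.ker evl) ≤ finrank k K' := by
    have h4 : (LinearMap.ker evl).map (LinearMap.range pr).subtype ≤ K' := by
      rintro _ ⟨l, hl, rfl⟩
      have h6 : (sec l).1.1 = (l : V) := congrArg Subtype.val (LinearMap.congr_fun hsec l)
      have h7 := (sec l).2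
      have h8 : ((sec l).1.1, (sec l).1.2) ∈ E := h7
      rw [h6] at h8
      exact h _ _ h8 hl
    have h5 := Submodule.finrank_mono h4
    rwa [LinearEquiv.finrank_eq
      (Submodule.equivMapOfInjective _ (LinearMap.range pr).injective_subtype _).symm] at h5
  omega

lemma cont_of_quot {N : Subgroup G} [N.Normal] (hNo : IsOpen (N : Set G)) [IsTopologicalGroup G]
    (ψ : G ⧸ N → G ⧸ N → ZMod p) :
    Continuous (fun q : G × G => ψ (QuotientGroup.mk q.1) (QuotientGroup.mk q.2)) := by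
  have h3 : Continuous (fun q : G × G => ((q.1 : G ⧸ N), (q.2 : G ⧸ N))) :=
    (QuotientGroup.continuous_mk.comp continuous_fst).prodMk
      (QuotientGroup.continuous_mk.comp continuous_snd)
  have hdisc : DiscreteTopology (G ⧸ N) := QuotientGroup.discreteTopology hNo
  have h4 : Continuous (fun q : (G ⧸ N) × (G ⧸ N) => ψ q.1 q.2) :=
    continuous_of_discreteTopology
  exact h4.comp h3

lemma Fmap_mem_Z2 {N : Subgroup G} [N.Normal] (hNo : IsOpen (N : Set G)) [IsTopologicalGroup G]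
    {d : ℕ} {x : Fin d → MonoidAlgebra (ZMod p) (G ⧸ N)}
    {τ : G ⧸ N → Fin d → MonoidAlgebra (ZMod p) (G ⧸ N)}
    (hτ : ∀ q, mu (ZMod p) x (τ q) = single q 1 - 1)
    {l : (Fin d → MonoidAlgebra (ZMod p) (G ⧸ N)) →ₗ[ZMod p] ZMod p}
    (hl : ∀ v ∈ KS (ZMod p) x (aug (ZMod p) (G ⧸ N)), l v = 0) : Fmap p τ l ∈ Z2 p G := by
  refine ⟨?_, ?_⟩
  · exact cont_of_quot hNo (fun a b => l (kap τ a b))
  · intro g h m
    exact lam_cocycle hl hτ (g : G ⧸ N) h m

lemma tt_le [IsTopologicalGroup G] {N : Subgroup G} [N.Normal] (hNo : IsOpen (N : Set G))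
    [Finite (G ⧸ N)] {d : ℕ} {x : Fin d → MonoidAlgebra (ZMod p) (G ⧸ N)}
    (hx : GSData (ZMod p) d (aug (ZMod p) (G ⧸ N)) x) (r M : ℕ)
    (hr : ∀ f : Fin (r + 1) → G → G → ZMod p, (∀ i, f i ∈ Z2 p G) →
      ∃ c : Fin (r + 1) → ZMod p, c ≠ 0 ∧ (fun g h => ∑ i, c i * f i g h) ∈ B2 p G)
    {s : ℕ → G} (hs : ∀ i, s i ∈ depth p G (M + 1 + i))
    (hSN : (N : Set G) = closure ((Subgroup.normalClosure (Set.range s) : Subgroup G) : Set G))
    (j : ℕ) : tt (ZMod p) (aug (ZMod p) (G ⧸ N)) x j ≤ r + ((j - M : ℕ) : ℤ) := by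
  classical
  -- the section τ
  have hτex : ∀ q : G ⧸ N, ∃ v : Fin d → MonoidAlgebra (ZMod p) (G ⧸ N),
      mu (ZMod p) x v = single q 1 - 1 ∧ (q = 1 → v = 0) := by
    intro q
    by_cases hq : q = 1
    · refine ⟨0, ?_, fun _ => rfl⟩
      rw [map_zero, hq]
      exact (sub_self _).symm
    · obtain ⟨a, ha⟩ := hx.gen _ (single_sub_one_mem q)
      exact ⟨a, by rw [mu_apply]; exact ha.symm, fun h => absurd h hq⟩
  choose τ hτ hτ1' using hτex
  have hτ1 : τ 1 = 0 := hτ1' 1 rfl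
  set Z := KS (ZMod p) x (aug (ZMod p) (G ⧸ N)) ⊔
    (KK (ZMod p) x ⊓ VF d (FI (aug (ZMod p) (G ⧸ N)) j)) with hZ
  have hZKS : KS (ZMod p) x (aug (ZMod p) (G ⧸ N)) ≤ Z := le_sup_left
  have hZj : KK (ZMod p) x ⊓ VF d (FI (aug (ZMod p) (G ⧸ N)) j) ≤ Z := le_sup_right
  let Λ0 : Submodule (ZMod p) ((Fin d → MonoidAlgebra (ZMod p) (G ⧸ N)) →ₗ[ZMod p] ZMod p) :=
    (EE p τ Z).map (LinearMap.fst (ZMod p) _ _)
  have hΛ0 : ∀ l, l ∈ Λ0 ↔ ∃ η : G → ZMod p, (l, η) ∈ EE p τ Z := by
    intro l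
    constructor
    · rintro ⟨⟨l', η⟩, hq, rfl⟩
      exact ⟨η, hq⟩
    · rintro ⟨η, hq⟩
      exact ⟨(l, η), hq, rfl⟩
  have claim1 : finrank (ZMod p) Z.dualAnnihilator ≤ r + finrank (ZMod p) Λ0 := by
    apply la1 (Fmap p τ) (B2 p G)
    · intro v hv
      obtain ⟨c, hc, hcB⟩ := hr (fun i => Fmap p τ (v i)) (fun i => Fmap_mem_Z2 hNo hτ
        (fun u hu => (Submodule.mem_dualAnnihilator _).1 (hv i) u (hZKS hu)))
      refine ⟨c, hc, ?_⟩
      have h6 : (∑ i, c i • Fmap p τ (v i)) = fun g h => ∑ i, c i * Fmap p τ (v i) g h := by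
        funext g h
        simp only [Finset.sum_apply, Pi.smul_apply, smul_eq_mul]
      rw [h6]
      exact hcB
    · intro l hl hB
      obtain ⟨η, hηc, hη⟩ := hB
      rw [hΛ0]
      refine ⟨-η, fun z hz => (Submodule.mem_dualAnnihilator _).1 hl z hz, hηc.neg, ?_⟩
      intro g h
      have h1 : l (kap τ g h) = η g + η h - η (g * h) := hη g h
      simp only [Pi.neg_apply]
      rw [h1]; ring
  have claim2 : finrank (ZMod p) Λ0 ≤ (j - M) + finrank (ZMod p) (KK (ZMod p) x).dualAnnihilator := by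
    let ev : (G → ZMod p) →ₗ[ZMod p] (Fin (j - M) → ZMod p) :=
      { toFun := fun η i => η (s i)
        map_add' := fun _ _ => rfl
        map_smul' := fun _ _ => rfl }
    apply la2 (EE p τ Z) (j - M) ev _ Λ0 hΛ0
    intro l η hq hev
    rw [Submodule.mem_dualAnnihilator]
    obtain ⟨q1, q2, q3⟩ := hq
    refine key_lemma hNo hx hτ hτ1 (fun v hv => q1 v (hZKS hv)) j (fun v hv => q1 v (hZj hv)) q2 q3 hSN ?_
    rintro _ ⟨i, rfl⟩
    by_cases hi : i < j - M
    · left
      exact congrFun hev ⟨i, hi⟩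
    · right
      exact depth_anti p G (by omega) (hs i)
  have d1 := Subspace.finrank_add_finrank_dualAnnihilator_eq Z
  have d2 := Subspace.finrank_add_finrank_dualAnnihilator_eq (KK (ZMod p) x)
  have d3 : tt (ZMod p) (aug (ZMod p) (G ⧸ N)) x j
      = (finrank (ZMod p) (KK (ZMod p) x) : ℤ) - finrank (ZMod p) Z := rfl
  rw [d3]
  omega

end bound

end Pool.Agent.Lib.MP_722186_nt
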