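import Mathlib
import Pool.Agent.Lib.MP_722186_nt.GSTop

/-!
Golod-Shafarevich for pro-`p` groups: main theorem and openness of the depth filtration.
-/

namespace Pool.Agent.Lib.MP_722186_nt

set_option linter.unusedSectionVars false

open Submodule Module MonoidAlgebra

section hom

variable {p : ℕ} [hp : Fact p.Prime] {G : Type*} [Group G]

/-- linear extension of an additive function on `G` to `k[G/U]` -/
noncomputable def chiL (U : Subgroup G) [U.Normal] (χ : G → ZMod p) :
    MonoidAlgebra (ZMod p) (G ⧸ U) →ₗ[ZMod p] ZMod p := lin (fun q : G ⧸ U => χ q.out)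

lemma chiL_single {U : Subgroup G} [U.Normal] {χ : G → ZMod p} (hχ : ∀ g h, χ (g * h) = χ g + χ h)
    (hU : ∀ u ∈ U, χ u = 0) (g : G) : chiL U χ (single (QuotientGroup.mk g) 1) = χ g := by
  unfold chiL
  rw [lin_single]
  obtain ⟨u, hu⟩ := QuotientGroup.mk_out_eq_mul U g
  rw [hu, hχ, hU _ u.2, add_zero]

lemma chi_one {χ : G → ZMod p} (hχ : ∀ g h, χ (g * h) = χ g + χ h) : χ 1 = 0 := by
  have := hχ 1 1
  rw [mul_one] at this
  exact left_eq_add.1 this

lemma chiL_FI2 {U : Subgroup G} [U.Normal] {χ : G → ZMod p} (hχ : ∀ g h, χ (g * h) = χ g + χ h)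
    (hU : ∀ u ∈ U, χ u = 0) {y : MonoidAlgebra (ZMod p) (G ⧸ U)}
    (hy : y ∈ FI (aug (ZMod p) (G ⧸ U)) 2) : chiL U χ y = 0 := by
  have hle : FI (aug (ZMod p) (G ⧸ U)) 2 ≤ LinearMap.ker (chiL U χ) := by
    change aug (ZMod p) (G ⧸ U) * FI (aug (ZMod p) (G ⧸ U)) 1 ≤ _
    rw [FI_one aug_twoSided, aug_eq_span, Submodule.span_mul_span, Submodule.span_le]
    rintro _ ⟨_, ⟨q, rfl⟩, _, ⟨q', rfl⟩, rfl⟩
    obtain ⟨g, rfl⟩ := QuotientGroup.mk_surjective q
    obtain ⟨h, rfl⟩ := QuotientGroup.mk_surjective q'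
    rw [SetLike.mem_coe, LinearMap.mem_ker]
    have hone : (1 : MonoidAlgebra (ZMod p) (G ⧸ U)) = single (QuotientGroup.mk 1) 1 := rfl
    have e : (single (QuotientGroup.mk g : G ⧸ U) (1 : ZMod p) - 1) * (single (QuotientGroup.mk h : G ⧸ U) (1 : ZMod p) - 1)
        = single (QuotientGroup.mk (g * h) : G ⧸ U) 1 - single (QuotientGroup.mk g : G ⧸ U) 1
          - single (QuotientGroup.mk h : G ⧸ U) 1 + single (QuotientGroup.mk 1 : G ⧸ U) 1 := by
      rw [sub_mul, mul_sub, single_mul_single, one_mul, mul_one, one_mul, QuotientGroup.mk_mul, ← hone]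
      abel
    change chiL U χ ((single (QuotientGroup.mk g : G ⧸ U) (1 : ZMod p) - 1) * (single (QuotientGroup.mk h : G ⧸ U) (1 : ZMod p) - 1)) = 0
    rw [e, map_add, map_sub, map_sub, chiL_single hχ hU, chiL_single hχ hU, chiL_single hχ hU,
      chiL_single hχ hU, hχ, chi_one hχ]
    ring
  exact hle hy

lemma chi_depthU_two {U : Subgroup G} [U.Normal] {χ : G → ZMod p} (hχ : ∀ g h, χ (g * h) = χ g + χ h)
    (hU : ∀ u ∈ U, χ u = 0) {g : G} (hg : g ∈ depthU p U 2) : χ g = 0 := by
  have h1 := chiL_FI2 hχ hU hg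
  have hone : (1 : MonoidAlgebra (ZMod p) (G ⧸ U)) = single (QuotientGroup.mk 1) 1 := rfl
  rw [map_sub, hone, chiL_single hχ hU, chiL_single hχ hU, chi_one hχ, sub_zero] at h1
  exact h1

end hom

section main

variable {p : ℕ} [hp : Fact p.Prime] {G : Type*} [Group G] [TopologicalSpace G]

/-- the kernel of a continuous hom -/
def kerC (χ : G → ZMod p) (hχ : χ ∈ HomC p G) : Subgroup G where
  carrier := {g | χ g = 0}
  one_mem' := chi_one hχ.2
  mul_mem' := by
    intro a b ha hb
    change χ (a * b) = 0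
    rw [hχ.2, show χ a = 0 from ha, show χ b = 0 from hb, add_zero]
  inv_mem' := by
    intro a ha
    have h1 := hχ.2 a a⁻¹
    rw [mul_inv_cancel, chi_one hχ.2, show χ a = 0 from ha, zero_add] at h1
    exact h1.symm

lemma kerC_normal (χ : G → ZMod p) (hχ : χ ∈ HomC p G) : (kerC χ hχ).Normal := by
  constructor
  intro n hn g
  change χ (g * n * g⁻¹) = 0
  have h1 := hχ.2 g g⁻¹
  rw [mul_inv_cancel, chi_one hχ.2] at h1
  rw [hχ.2, hχ.2, show χ n = 0 from hn, add_zero]
  exact h1.symm

lemma kerC_open (χ : G → ZMod p) (hχ : χ ∈ HomC p G) : IsOpen (kerC χ hχ : Set G) := by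
  have : (kerC χ hχ : Set G) = χ ⁻¹' {0} := rfl
  rw [this]
  exact (isOpen_discrete _).preimage hχ.1

lemma chi_depth_two {χ : G → ZMod p} (hχ : χ ∈ HomC p G) {g : G} (hg : g ∈ depth p G 2) : χ g = 0 := by
  have h1 := hg (kerC χ hχ) (kerC_normal χ hχ) (kerC_open χ hχ)
  exact @chi_depthU_two p hp G _ (kerC χ hχ) (kerC_normal χ hχ) χ hχ.2 (fun u hu => hu) g h1

lemma isPGroup_quot (hG : IsProP p G) {U : Subgroup G} [hU : U.Normal] (hUo : IsOpen (U : Set G)) :
    IsPGroup p (G ⧸ U) := by
  obtain ⟨k, hk⟩ := hG.index U hU hUo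
  exact IsPGroup.of_card (n := k) (by rw [← hk]; rfl)

lemma finite_quot (hG : IsProP p G) {U : Subgroup G} (hUo : IsOpen (U : Set G)) :
    Finite (G ⧸ U) := by
  have := hG.topological
  have := hG.compact
  exact Subgroup.quotient_finite_of_isOpen U hUo

/-- **Golod-Shafarevich**: the quotient by relators of increasing depth is infinite. -/
theorem not_isOpen_of_depth (hG : IsProP p G) (d r M : ℕ) (hM : 1 ≤ M) {t : ℝ} (ht0 : 0 < t)
    (ht1 : t < 1) (hneg : 1 - d * t + r * t ^ 2 + t ^ (M + 1) / (1 - t) ≤ 0)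
    (hd : ∀ n : ℕ, Module.Finite (ZMod p) (HomC p G) → Module.finrank (ZMod p) (HomC p G) ≤ n → d ≤ n)
    (hr : ∀ f : Fin (r + 1) → G → G → ZMod p, (∀ i, f i ∈ Z2 p G) →
      ∃ c : Fin (r + 1) → ZMod p, c ≠ 0 ∧ (fun g h => ∑ i, c i * f i g h) ∈ B2 p G)
    (s : ℕ → G) (hs : ∀ i, s i ∈ depth p G (M + 1 + i)) (N : Subgroup G) (hNn : N.Normal)
    (hSN : (N : Set G) = closure ((Subgroup.normalClosure (Set.range s) : Subgroup G) : Set G)) :
    ¬ IsOpen (N : Set G) := by
  intro hNo
  have := hG.topological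
  have := finite_quot hG hNo
  obtain ⟨d', x, hx, hd', hspan⟩ := exists_gsData (p := p) (P := G ⧸ N) (isPGroup_quot hG hNo)
  -- every continuous hom kills N
  have hkill : ∀ χ ∈ HomC p G, ∀ n ∈ N, χ n = 0 := by
    intro χ hχ n hn
    have hcl : IsClosed (kerC χ hχ : Set G) := Subgroup.isClosed_of_isOpen _ (kerC_open χ hχ)
    have hnorm := kerC_normal χ hχ
    have h1 : (Subgroup.normalClosure (Set.range s) : Subgroup G) ≤ kerC χ hχ := by
      apply Subgroup.normalClosure_le_normal
      rintro _ ⟨i, rfl⟩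
      exact chi_depth_two hχ (depth_anti p G (by omega) (hs i))
    have h2 : (N : Set G) ⊆ kerC χ hχ := by
      rw [hSN]; exact closure_minimal h1 hcl
    exact h2 hn
  -- the restriction map
  let res : HomC p G →ₗ[ZMod p] (Fin d' → ZMod p) :=
    { toFun := fun χ i => chiL N χ.1 (x i)
      map_add' := by
        intro χ ψ
        funext i
        have h1 : chiL N (χ + ψ : HomC p G).1 = chiL N χ.1 + chiL N ψ.1 := by
          apply (MonoidAlgebra.basis (G ⧸ N) (ZMod p)).ext
          intro q
          rw [MonoidAlgebra.basis_apply, LinearMap.add_apply]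
          unfold chiL
          rw [lin_single, lin_single, lin_single]
          rfl
        rw [h1]; rfl
      map_smul' := by
        intro c χ
        funext i
        have h1 : chiL N (c • χ : HomC p G).1 = c • chiL N χ.1 := by
          apply (MonoidAlgebra.basis (G ⧸ N) (ZMod p)).ext
          intro q
          rw [MonoidAlgebra.basis_apply, LinearMap.smul_apply]
          unfold chiL
          rw [lin_single, lin_single]
          rfl
        rw [h1]; rfl }
  have hinj : Function.Injective res := by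
    rw [← LinearMap.ker_eq_bot, LinearMap.ker_eq_bot']
    intro χ hχ0
    apply Subtype.ext
    funext g
    have hle : aug (ZMod p) (G ⧸ N) ≤ LinearMap.ker (chiL N χ.1) := by
      refine hspan.trans (sup_le ?_ ?_)
      · rw [Submodule.span_le]
        rintro _ ⟨i, rfl⟩
        exact congrFun hχ0 i
      · intro y hy
        exact chiL_FI2 χ.2.2 (hkill χ.1 χ.2) hy
    have h1 : chiL N χ.1 (single (QuotientGroup.mk g : G ⧸ N) (1 : ZMod p) - 1) = 0 :=
      hle (single_sub_one_mem (QuotientGroup.mk g : G ⧸ N))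
    have hone : (1 : MonoidAlgebra (ZMod p) (G ⧸ N)) = single (QuotientGroup.mk 1) 1 := rfl
    rw [map_sub, hone, chiL_single χ.2.2 (hkill χ.1 χ.2), chiL_single χ.2.2 (hkill χ.1 χ.2),
      chi_one χ.2.2, sub_zero] at h1
    exact h1
  have hfinH : Module.Finite (ZMod p) (HomC p G) := Module.Finite.of_injective res hinj
  have hdd' : d ≤ d' := by
    apply hd d' hfinH
    have := LinearMap.finrank_le_finrank_of_injective hinj
    rwa [Module.finrank_fin_fun] at this
  have hneg' : 1 - (d' : ℝ) * t + r * t ^ 2 + t ^ (M + 1) / (1 - t) ≤ 0 := by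
    have : (d : ℝ) * t ≤ d' * t := mul_le_mul_of_nonneg_right (by exact_mod_cast hdd') ht0.le
    linarith
  exact gs_alg_false hx r M hM ht0 ht1 hneg' (fun j _ => tt_le hNo hx r M hr hs hSN j)

end main

section depthopen

variable {p : ℕ} [hp : Fact p.Prime] {G : Type*} [Group G] [TopologicalSpace G]

/-- `dim I/I² ≤ dim Hom(G, 𝔽_p)` for `G/U`. -/
lemma gsData_dim_le (hG : IsProP p G) (hfin : Module.Finite (ZMod p) (HomC p G)) {U : Subgroup G}
    [U.Normal] (hUo : IsOpen (U : Set G)) [Finite (G ⧸ U)] :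
    (finrank (ZMod p) (aug (ZMod p) (G ⧸ U)) : ℤ) - finrank (ZMod p) (FI (aug (ZMod p) (G ⧸ U)) 2)
      ≤ finrank (ZMod p) (HomC p G) := by
  have := hG.topological
  set I := aug (ZMod p) (G ⧸ U) with hI
  set W : Submodule (ZMod p) (MonoidAlgebra (ZMod p) (G ⧸ U)) := FI I 2 ⊔ Submodule.span (ZMod p) {1} with hW
  -- functionals killing W give homs
  let Ψ : W.dualAnnihilator →ₗ[ZMod p] HomC p G :=
    { toFun := fun φ => ⟨fun g => φ.1 (single (QuotientGroup.mk g : G ⧸ U) 1), by
        constructor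
        · have hdisc : DiscreteTopology (G ⧸ U) := QuotientGroup.discreteTopology hUo
          have h4 : Continuous (fun q : G ⧸ U => φ.1 (single q 1)) := continuous_of_discreteTopology
          exact h4.comp QuotientGroup.continuous_mk
        · intro g h
          have h1 : ((single (QuotientGroup.mk g : G ⧸ U) (1 : ZMod p) - 1)
              * (single (QuotientGroup.mk h : G ⧸ U) (1 : ZMod p) - 1)) ∈ W := by
            apply Submodule.mem_sup_left
            apply Submodule.mul_mem_mul (single_sub_one_mem _)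
            rw [FI_one aug_twoSided]
            exact single_sub_one_mem _
          have h2 : (1 : MonoidAlgebra (ZMod p) (G ⧸ U)) ∈ W :=
            Submodule.mem_sup_right (Submodule.mem_span_singleton_self _)
          have h3 := (Submodule.mem_dualAnnihilator _).1 φ.2 _ h1
          have h4 := (Submodule.mem_dualAnnihilator _).1 φ.2 _ h2
          have e : (single (QuotientGroup.mk g : G ⧸ U) (1 : ZMod p) - 1)
              * (single (QuotientGroup.mk h : G ⧸ U) (1 : ZMod p) - 1)
              = single (QuotientGroup.mk (g * h) : G ⧸ U) 1 - single (QuotientGroup.mk g : G ⧸ U) 1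
                - single (QuotientGroup.mk h : G ⧸ U) 1 + 1 := by
            rw [sub_mul, mul_sub, single_mul_single, one_mul, mul_one, one_mul, QuotientGroup.mk_mul]
            abel
          rw [e, map_add, map_sub, map_sub, h4] at h3
          linear_combination h3⟩
      map_add' := fun _ _ => rfl
      map_smul' := fun _ _ => rfl }
  have hinj : Function.Injective Ψ := by
    rw [← LinearMap.ker_eq_bot, LinearMap.ker_eq_bot']
    intro φ hφ
    apply Subtype.ext
    apply (MonoidAlgebra.basis (G ⧸ U) (ZMod p)).ext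
    intro q
    obtain ⟨g, rfl⟩ := QuotientGroup.mk_surjective q
    rw [MonoidAlgebra.basis_apply]
    exact congrFun (congrArg Subtype.val hφ) g
  have h1 := LinearMap.finrank_le_finrank_of_injective hinj
  have h2 := Subspace.finrank_add_finrank_dualAnnihilator_eq W
  have h3 : finrank (ZMod p) W ≤ finrank (ZMod p) (FI I 2) + 1 := by
    refine (Submodule.finrank_add_le_finrank_add_finrank _ _).trans ?_
    have := finrank_span_le_card (R := ZMod p) ({1} : Set (MonoidAlgebra (ZMod p) (G ⧸ U)))
    simp only [Set.toFinset_singleton, Finset.card_singleton] at this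
    omega
  have h4 := finrank_aug (k := ZMod p) (P := G ⧸ U)
  rw [← hI] at h4
  omega

/-- uniform bound for `dim 𝔽_p[G/U]/I^n` -/
def bnd (D : ℕ) : ℕ → ℕ
  | 0 => 0
  | n + 1 => 1 + D * bnd D n

lemma cc_le_bnd (hG : IsProP p G) (hfin : Module.Finite (ZMod p) (HomC p G)) {U : Subgroup G}
    [U.Normal] (hUo : IsOpen (U : Set G)) [Finite (G ⧸ U)] (n : ℕ) :
    cc (ZMod p) (aug (ZMod p) (G ⧸ U)) n ≤ bnd (finrank (ZMod p) (HomC p G)) n := by
  obtain ⟨d', x, hx, hd', _⟩ := exists_gsData (p := p) (P := G ⧸ U) (isPGroup_quot hG hUo)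
  have hle := gsData_dim_le hG hfin hUo
  rw [← hd'] at hle
  induction n with
  | zero => rw [cc_zero]; simp [bnd]
  | succ n ih =>
    refine (cc_succ_le hx n).trans ?_
    have h1 := cc_nonneg (k := ZMod p) (I := aug (ZMod p) (G ⧸ U)) n
    unfold bnd
    push_cast
    have : (d' : ℤ) * cc (ZMod p) (aug (ZMod p) (G ⧸ U)) n
        ≤ (finrank (ZMod p) (HomC p G) : ℤ) * bnd (finrank (ZMod p) (HomC p G)) n :=
      mul_le_mul hle ih h1 (by positivity)
    linarith

/-- index bound -/
lemma index_depthU_le (hG : IsProP p G) (hfin : Module.Finite (ZMod p) (HomC p G)) {U : Subgroup G}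
    [U.Normal] (hUo : IsOpen (U : Set G)) [Finite (G ⧸ U)] (n : ℕ) :
    (depthU p U n).index ≤ p ^ bnd (finrank (ZMod p) (HomC p G)) n := by
  set I := aug (ZMod p) (G ⧸ U) with hI
  have hfinA : Finite (MonoidAlgebra (ZMod p) (G ⧸ U)) := Module.finite_of_finite (ZMod p)
  let A' := MonoidAlgebra (ZMod p) (G ⧸ U) ⧸ FI I n
  have hfinA' : Finite A' := Module.finite_of_finite (ZMod p)
  have hone : (1 : MonoidAlgebra (ZMod p) (G ⧸ U)) = single (QuotientGroup.mk 1) 1 := rfl
  let f : G → A' := fun g => (FI I n).mkQ (single (QuotientGroup.mk g : G ⧸ U) 1)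
  -- f g = f h implies same coset
  have hf : ∀ g h, f g = f h → g⁻¹ * h ∈ depthU p U n := by
    intro g h hgh
    have h1 : single (QuotientGroup.mk h : G ⧸ U) (1 : ZMod p) - single (QuotientGroup.mk g : G ⧸ U) 1 ∈ FI I n := by
      have := (Submodule.Quotient.eq (FI I n)).1 hgh.symm
      exact this
    rw [mem_depthU]
    have e : single (QuotientGroup.mk (g⁻¹ * h) : G ⧸ U) (1 : ZMod p) - 1
        = single (QuotientGroup.mk g⁻¹ : G ⧸ U) 1
          * (single (QuotientGroup.mk h : G ⧸ U) (1 : ZMod p) - single (QuotientGroup.mk g : G ⧸ U) 1) := by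
      rw [mul_sub, single_mul_single, single_mul_single, one_mul, ← QuotientGroup.mk_mul,
        ← QuotientGroup.mk_mul, inv_mul_cancel, ← hone]
    rw [e]
    exact (FI_twoSided aug_twoSided n).left _ _ h1
  let F : G ⧸ depthU p U n → A' := fun q => f q.out
  have hF : Function.Injective F := by
    intro q q' hqq
    have h1 := hf _ _ hqq
    rw [← QuotientGroup.out_eq' q, ← QuotientGroup.out_eq' q']
    exact QuotientGroup.eq.2 h1
  have h1 : (depthU p U n).index ≤ Nat.card A' := Nat.card_le_card_of_injective F hF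
  have h2 : Nat.card A' = p ^ finrank (ZMod p) A' := by
    rw [Module.natCard_eq_pow_finrank (K := ZMod p), Nat.card_zmod]
  have h3 : (finrank (ZMod p) A' : ℤ) = cc (ZMod p) I n := by
    unfold cc
    have h5 : finrank (ZMod p) A' + finrank (ZMod p) (FI I n)
        = finrank (ZMod p) (MonoidAlgebra (ZMod p) (G ⧸ U)) :=
      Submodule.finrank_quotient_add_finrank (FI I n)
    omega
  have h4 := cc_le_bnd hG hfin hUo n
  rw [← hI, ← h3] at h4
  rw [h2] at h1
  exact h1.trans (Nat.pow_le_pow_right hp.out.pos (by exact_mod_cast h4))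

lemma depthU_mono {U U' : Subgroup G} [U.Normal] [U'.Normal] (h : U ≤ U') (n : ℕ) :
    depthU p U n ≤ depthU p U' n := by
  intro g hg
  rw [mem_depthU] at *
  have := proj_FI (k := ZMod p) h n hg
  rwa [map_sub, proj_single, map_one] at this

lemma le_depthU {U : Subgroup G} [U.Normal] (n : ℕ) : U ≤ depthU p U n := by
  intro g hg
  rw [mem_depthU]
  have h1 : ((g : G) : G ⧸ U) = 1 := (QuotientGroup.eq_one_iff g).2 hg
  rw [h1]
  have : (single (1 : G ⧸ U) (1 : ZMod p) - 1) = 0 := sub_self _
  rw [this]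
  exact zero_mem _

/-- the depth filtration consists of open subgroups -/
theorem depth_open (hG : IsProP p G) (hfin : Module.Finite (ZMod p) (HomC p G)) (n : ℕ) :
    IsOpen (depth p G n : Set G) := by
  have := hG.topological
  have := hG.compact
  -- the set of indices
  let S : Set ℕ := {m | ∃ (U : Subgroup G) (hU : U.Normal), IsOpen (U : Set G) ∧
    m = (@depthU p hp G _ U hU n).index}
  have hbd : ∀ m ∈ S, m ≤ p ^ bnd (finrank (ZMod p) (HomC p G)) n := by
    rintro m ⟨U, hU, hUo, rfl⟩
    have := finite_quot hG hUo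
    exact index_depthU_le hG hfin hUo n
  have hne : S.Nonempty := ⟨_, ⊤, inferInstance, by simp, rfl⟩
  have hbdd : BddAbove S := ⟨_, hbd⟩
  obtain ⟨U, hU, hUo, hmax⟩ := Nat.sSup_mem hne hbdd
  have hle : U ≤ depth p G n := by
    intro g hg V hV hVo
    -- U ⊓ V
    have hUVn : (U ⊓ V).Normal := inferInstance
    have hUVo : IsOpen ((U ⊓ V : Subgroup G) : Set G) := hUo.inter hVo
    have h1 : depthU p (U ⊓ V) n ≤ depthU p U n := depthU_mono inf_le_left n
    have h2 : (depthU p (U ⊓ V) n).index ≤ (depthU p U n).index := by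
      rw [← hmax]
      exact le_csSup hbdd ⟨U ⊓ V, hUVn, hUVo, rfl⟩
    have hfinq := finite_quot hG hUVo
    have hfi : (depthU p (U ⊓ V) n).index ≠ 0 := by
      have h3 : (depthU p (U ⊓ V) n).index ∣ (U ⊓ V).index := Subgroup.index_dvd_of_le (le_depthU n)
      have h4 : (U ⊓ V).index ≠ 0 := by
        have : (U ⊓ V).FiniteIndex := Subgroup.finiteIndex_of_finite_quotient
        exact this.index_ne_zero
      intro h5
      rw [h5, zero_dvd_iff] at h3
      exact h4 h3
    have h3 : depthU p (U ⊓ V) n = depthU p U n := by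
      have hrel := Subgroup.relIndex_mul_index h1
      have hU0 : 0 < (depthU p U n).index := by
        apply Nat.pos_of_ne_zero
        intro h0
        rw [h0, mul_zero] at hrel
        exact hfi hrel.symm
      have hrel1 : (depthU p (U ⊓ V) n).relIndex (depthU p U n) = 1 := by
        have h5 : (depthU p (U ⊓ V) n).relIndex (depthU p U n) ≠ 0 := by
          intro h0
          rw [h0, zero_mul] at hrel
          exact hfi hrel.symm
        have h6 : (depthU p (U ⊓ V) n).relIndex (depthU p U n) * (depthU p U n).index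
            ≤ 1 * (depthU p U n).index := by rw [hrel, one_mul]; exact h2
        have h7 := Nat.le_of_mul_le_mul_right h6 hU0
        omega
      exact le_antisymm h1 (Subgroup.relIndex_eq_one.1 hrel1)
    have h4 : g ∈ depthU p (U ⊓ V) n := by rw [h3]; exact le_depthU n hg
    exact depthU_mono inf_le_right n h4
  exact Subgroup.isOpen_mono hle hUo

end depthopen

end Pool.Agent.Lib.MP_722186_nt
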