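import Mathlib
import Pool.Agent.Lib.MP_722186_nt.GSMain
import Pool.Agent.Lib.MP_722186_nt.GSChoice

/-!
Modules 1-3: the closed normal subgroup `N` of infinite index which is not finitely generated as a
closed normal subgroup.
-/

namespace Pool.Agent.Lib.MP_722186_nt

open Module

/-- Modules 1-3. -/
theorem gs_choice (p : ℕ) [Fact p.Prime] {G : Type*} [Group G] [TopologicalSpace G]
    (hG : IsProP p G) (d r : ℕ) (t : ℝ) (ht0 : 0 < t) (ht1 : t < 1)
    (hneg : 1 - d * t + r * t ^ 2 < 0)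
    (hfin : Module.Finite (ZMod p) (HomC p G)) (hd : d ≤ finrank (ZMod p) (HomC p G))
    (hr : ∀ f : Fin (r + 1) → G → G → ZMod p, (∀ i, f i ∈ Z2 p G) →
      ∃ c : Fin (r + 1) → ZMod p, c ≠ 0 ∧ (fun g h => ∑ i, c i * f i g h) ∈ B2 p G) :
    ∃ N : Subgroup G, N.Normal ∧ IsClosed (N : Set G) ∧ ¬ IsOpen (N : Set G) ∧
      (∀ χ ∈ HomC p G, ∀ n ∈ N, χ n = 0) ∧
      ∀ X : Set G, X.Finite → closure ((Subgroup.normalClosure X : Subgroup G) : Set G) ≠ N := by
  -- choice of `M`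
  obtain ⟨M, hM1, hM⟩ : ∃ M : ℕ, 1 ≤ M ∧ 1 - d * t + r * t ^ 2 + t ^ (M + 1) / (1 - t) ≤ 0 := by
    have h1t : 0 < 1 - t := by linarith
    have hlim : Filter.Tendsto (fun M : ℕ => t ^ (M + 1) / (1 - t)) Filter.atTop (nhds (0 / (1 - t))) :=
      ((tendsto_pow_atTop_nhds_zero_of_lt_one ht0.le ht1).comp (Filter.tendsto_add_atTop_nat 1)).div_const _
    rw [zero_div] at hlim
    have hpos : 0 < -(1 - d * t + r * t ^ 2) := by linarith
    obtain ⟨M, hM, hM1⟩ := ((hlim.eventually_lt_const hpos).and (Filter.eventually_ge_atTop 1)).exists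
    exact ⟨M, hM1, by linarith⟩
  obtain ⟨N, hNn, hNc, hNo, hN0, hNX⟩ := exists_choice p hG (fun i => depth p G (M + 1 + i))
    (fun i => depth_normal p G _) (fun i => depth_open hG hfin _)
    (fun i j hij => depth_anti p G (by omega))
    (fun s hs N hNn hSN => not_isOpen_of_depth hG d r M hM1 ht0 ht1 hM
      (fun n _ hn => hd.trans hn) hr s hs N hNn hSN)
  refine ⟨N, hNn, hNc, hNo, ?_, hNX⟩
  intro χ hχ n hn
  exact chi_depth_two hχ (depth_anti p G (show 2 ≤ M + 1 + 0 by omega) (hN0 hn))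

end Pool.Agent.Lib.MP_722186_nt
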