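import Mathlib

/-!
# Interface definitions for modules 5, 6, 7, 9 of MP_722186_nt (helper22)
-/

open NumberField

namespace Pool.Agent.Lib.MP_722186_nt

/-- `F/K` is unramified at all finite primes. -/
def Unr (K F : Type*) [Field K] [Field F] [Algebra K F] : Prop :=
  ∀ P : Ideal (𝓞 F), P.IsPrime → P ≠ ⊥ → P.ramificationIdx (𝓞 K) = 1

/-- the prime number `2` is unramified in `K/ℚ`. -/
def TwoUnr (K : Type*) [Field K] : Prop :=
  ∀ P : Ideal (𝓞 K), P.IsPrime → (2 : 𝓞 K) ∈ P → P.ramificationIdx ℤ = 1

/-- the exponent of the prime `v` of `K` in the nonzero element `a`. -/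
noncomputable def vv {K : Type*} [Field K] [NumberField K]
    (v : IsDedekindDomain.HeightOneSpectrum (𝓞 K)) (a : K) : ℤ :=
  FractionalIdeal.count K v (FractionalIdeal.spanSingleton (nonZeroDivisors (𝓞 K)) a)

/-- `F/K` is a finite Galois extension of `2`-power degree, unramified at all finite primes. -/
structure GoodExt (K F : Type*) [Field K] [Field F] [Algebra K F] : Prop where
  fin : FiniteDimensional K F
  gal : IsGalois K F
  pow : ∃ n : ℕ, Module.finrank K F = 2 ^ n
  unr : Unr K F

/-- MODULE 5 output (the field-theoretic Hasse norm statement), as a `Prop` to be used as a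
hypothesis in module 6. -/
def HNStatement : Prop :=
  ∀ (k M : Type) [Field k] [NumberField k] [Field M] [NumberField M] [Algebra k M],
    Module.finrank k M = 2 → Unr k M → TwoUnr k → IsTotallyComplex k →
    ∀ a : k, a ≠ 0 →
      (∀ v : IsDedekindDomain.HeightOneSpectrum (𝓞 k),
        (v.asIdeal.map (algebraMap (𝓞 k) (𝓞 M))).IsPrime → Even (vv v a)) →
      ∃ y : M, Algebra.norm k y = a

/-- `Ω` is the maximal `2`-extension of `K` unramified at all finite primes (characterisation used
by module 7; module 9 constructs it inside an algebraic closure). -/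
structure IsOmega (K Ω : Type) [Field K] [Field Ω] [Algebra K Ω] : Prop where
  gal : IsGalois K Ω
  sub : ∀ s : Finset Ω, ∃ L : IntermediateField K Ω, (∀ x ∈ s, x ∈ L) ∧ GoodExt K L
  max : ∀ (F : Type) [Field F] [Algebra K F], GoodExt K F → Nonempty (F →ₐ[K] Ω)

end Pool.Agent.Lib.MP_722186_nt
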