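import Pool.Agent.Lib.MP_722186_nt.OmegaGal
import Pool.Agent.Lib.MP_722186_nt.UnrDefs

/-!
# `Omega K` is the maximal unramified `2`-extension in the sense of `IsOmega`
-/

namespace Pool.Agent.Lib.MP_722186_nt

open NumberField

lemma UnramExt.of_algEquiv {K E F : Type*} [Field K] [Field E] [Field F] [Algebra K E]
    [Algebra K F] [Normal K E] (e : E ≃ₐ[K] F) (h : UnramExt K E) : UnramExt K F := by
  let : Algebra E F := (e : E →+* F).toAlgebra
  have : IsScalarTower K E F := IsScalarTower.of_algebraMap_eq (fun x => (e.commutes x).symm)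
  intro P hP g hg
  ext x
  have h1 := unram_fix h hP hg (e.symm x)
  have h2 : algebraMap E F (e.symm x) = x := e.apply_symm_apply x
  rw [h2] at h1
  exact h1

lemma unramExt_iff_unr {K L : Type*} [Field K] [Field L] [Algebra K L] [NumberField K]
    [NumberField L] [IsGalois K L] : UnramExt K L ↔ Unr K L := by
  rw [unramExt_iff]
  constructor
  · intro h P hP _
    exact h P hP
  · intro h P hP
    by_cases h0 : P = ⊥
    · subst h0
      have : Algebra.IsUnramifiedAt (𝓞 K) (⊥ : Ideal (𝓞 L)) := Algebra.isUnramifiedAt_bot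
      exact Ideal.ramificationIdx_eq_one _ _
    · exact h P hP h0

lemma goodExt_of_unramExt {K F : Type*} [Field K] [NumberField K] [Field F] [Algebra K F]
    (h1 : FiniteDimensional K F) (h2 : IsGalois K F) (h3 : ∃ n : ℕ, Module.finrank K F = 2 ^ n)
    (h4 : UnramExt K F) : GoodExt K F := by
  have : NumberField F := NumberField.of_module_finite K F
  exact ⟨h1, h2, h3, unramExt_iff_unr.mp h4⟩

lemma GoodExt.unramExt {K F : Type*} [Field K] [NumberField K] [Field F] [Algebra K F]
    (h : GoodExt K F) : UnramExt K F := by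
  have := h.fin
  have := h.gal
  have : NumberField F := NumberField.of_module_finite K F
  exact unramExt_iff_unr.mpr h.unr

lemma GoodExt.of_algEquiv {K E F : Type*} [Field K] [NumberField K] [Field E] [Field F]
    [Algebra K E] [Algebra K F] (h : GoodExt K E) (e : E ≃ₐ[K] F) : GoodExt K F := by
  have := h.fin
  have := h.gal
  obtain ⟨n, hn⟩ := h.pow
  exact goodExt_of_unramExt (Module.Finite.equiv e.toLinearEquiv) (IsGalois.of_algEquiv e)
    ⟨n, by rw [← hn]; exact e.toLinearEquiv.finrank_eq.symm⟩ (h.unramExt.of_algEquiv e)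

lemma good_iff_goodExt {K : Type*} [Field K] [NumberField K]
    {F : IntermediateField K (AlgebraicClosure K)} : Good K F ↔ GoodExt K F :=
  ⟨fun h => goodExt_of_unramExt h.finite h.galois h.degree h.unram,
    fun h => ⟨h.fin, h.gal, h.pow, h.unramExt⟩⟩

theorem isOmega_Omega (K : Type) [Field K] [NumberField K] : IsOmega K (Omega K) where
  gal := isGalois_Omega
  sub := by
    classical
    intro s
    obtain ⟨F, hF, hs⟩ := exists_good_of_finset (K := K)
      (s.image (fun x : Omega K => (x : AlgebraicClosure K))) (by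
        intro x hx
        obtain ⟨y, -, rfl⟩ := Finset.mem_image.mp hx
        exact y.2)
    refine ⟨IntermediateField.restrict hF.le_Omega, ?_, ?_⟩
    · intro x hx
      rw [IntermediateField.mem_restrict]
      exact hs _ (Finset.mem_image_of_mem (fun x : Omega K => (x : AlgebraicClosure K)) hx)
    · exact (good_iff_goodExt.mp hF).of_algEquiv
        (IntermediateField.restrictAlgEquiv hF.le_Omega)
  max := by
    intro F _ _ hF
    have := hF.fin
    let φ : F →ₐ[K] AlgebraicClosure K := IsAlgClosed.lift
    have e : F ≃ₐ[K] φ.fieldRange := AlgEquiv.ofInjectiveField φ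
    have hG : Good K φ.fieldRange := good_iff_goodExt.mpr (hF.of_algEquiv e)
    exact ⟨(IntermediateField.inclusion hG.le_Omega).comp (e : F →ₐ[K] φ.fieldRange)⟩

end Pool.Agent.Lib.MP_722186_nt
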