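import Pool.Agent.Lib.MP_722186_nt.Concrete
import Pool.Agent.Lib.MP_722186_nt.OmegaIs
import Pool.Agent.Lib.MP_722186_nt.GSFinal

/-!
# Assembly of the counterexample
-/

namespace Pool.Agent.Lib.MP_722186_nt

open NumberField

/-- The bound of the relation rank for `K`, as a `Prop`. -/
def RelBound (K : Type) [Field K] [NumberField K] (r : ℕ) : Prop :=
  ∀ f : Fin (r + 1) → (Omega K ≃ₐ[K] Omega K) → (Omega K ≃ₐ[K] Omega K) → ZMod 2,
    (∀ i, f i ∈ Z2 2 (Omega K ≃ₐ[K] Omega K)) →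
      ∃ c : Fin (r + 1) → ZMod 2, c ≠ 0 ∧
        (fun g h => ∑ i, c i * f i g h) ∈ B2 2 (Omega K ≃ₐ[K] Omega K)

theorem counterexample_of_relBound (hrel : RelBound KD 12) :
    ∃ L : IntermediateField KD (AlgebraicClosure KD), IsTamePro KD L 2 ∧
      ∀ U : Subgroup (L ≃ₐ[KD] L), IsOpen (U : Set (L ≃ₐ[KD] L)) →
        ¬ Module.Finite (ZMod 2) (H2 2 U) := by
  have : Fact (Nat.Prime 2) := ⟨Nat.prime_two⟩
  have hd : 9 ≤ Module.finrank (ZMod 2) (HomC 2 (Omega KD ≃ₐ[KD] Omega KD)) := by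
    have h1 := imQuad_KD.finrank_HomC
    rwa [primeFactors_bigD, card_primes10] at h1
  obtain ⟨N, hN, hc, ho, -, hX⟩ := gs_choice 2 (isProP_of_le le_rfl) 9 12 (2 / 9)
    (by norm_num) (by norm_num) (by norm_num) (ImQuad.moduleFinite_HomC_Omega KD) hd hrel
  exact exists_field_of_subgroup N hN hc ho hX

theorem not_virtuallyGS_of_relBound (hrel : RelBound KD 12) : ¬ VirtuallyGS := by
  intro h
  obtain ⟨L, hL, hU⟩ := counterexample_of_relBound hrel
  obtain ⟨U, hUo, -, hfin, -⟩ := h 2 KD L Nat.prime_two hL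
  exact hU U hUo hfin

end Pool.Agent.Lib.MP_722186_nt
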