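import Pool.Agent.Lib.MP_722186_nt.Split

/-!
# Module 6b (helper22): the group extension of a 2-cocycle, and the dévissage for cocycles
-/

namespace Pool.Agent.Lib.MP_722186_nt

section cext

variable {Γ A : Type*} [Group Γ] [CommGroup A] [MulDistribMulAction Γ A]

/-- The group extension defined by a `2`-cocycle, as a set. -/
structure CExt (f : Γ → Γ → A) where
  /-- first component -/
  fst : A
  /-- second component -/
  snd : Γ

variable {f : Γ → Γ → A}

omit [Group Γ] [CommGroup A] [MulDistribMulAction Γ A] in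
theorem CExt.ext' {e e' : CExt f} (h1 : e.fst = e'.fst) (h2 : e.snd = e'.snd) : e = e' := by
  cases e; cases e'; simp_all

/-- multiplicative `2`-cocycles -/
def IsCoc (f : Γ → Γ → A) : Prop :=
  ∀ g h k, f g h * f (g * h) k = g • f h k * f g (h * k)

theorem IsCoc.one_left (hf : IsCoc f) (g : Γ) : f 1 g = f 1 1 := by
  have := hf 1 1 g
  simp only [one_mul, one_smul] at this
  exact (mul_right_cancel this).symm

theorem IsCoc.one_right (hf : IsCoc f) (g : Γ) : f g 1 = g • f 1 1 := by
  have := hf g 1 1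
  simp only [mul_one] at this
  exact mul_right_cancel this

/-- The group law. -/
@[reducible]
def CExt.group (hf : IsCoc f) : Group (CExt f) :=
  letI : Mul (CExt f) := ⟨fun e e' => ⟨e.fst * e.snd • e'.fst * f e.snd e'.snd, e.snd * e'.snd⟩⟩
  letI : One (CExt f) := ⟨⟨(f 1 1)⁻¹, 1⟩⟩
  letI : Inv (CExt f) := ⟨fun e => ⟨(f 1 1)⁻¹ * (f e.snd⁻¹ e.snd)⁻¹ * (e.snd⁻¹ • e.fst)⁻¹, e.snd⁻¹⟩⟩
  Group.ofLeftAxioms
    (by
      intro a b c
      apply CExt.ext'
      · show a.fst * a.snd • b.fst * f a.snd b.snd * (a.snd * b.snd) • c.fst *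
          f (a.snd * b.snd) c.snd = a.fst * a.snd • (b.fst * b.snd • c.fst * f b.snd c.snd) *
          f a.snd (b.snd * c.snd)
        have h := hf a.snd b.snd c.snd
        rw [smul_mul', smul_mul', mul_smul]
        calc a.fst * a.snd • b.fst * f a.snd b.snd * a.snd • b.snd • c.fst *
              f (a.snd * b.snd) c.snd
            = a.fst * a.snd • b.fst * a.snd • b.snd • c.fst *
              (f a.snd b.snd * f (a.snd * b.snd) c.snd) := by
                simp only [mul_assoc, mul_left_comm, mul_comm]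
          _ = _ := by
                rw [h]
                simp only [mul_assoc]
      · show a.snd * b.snd * c.snd = a.snd * (b.snd * c.snd)
        rw [mul_assoc])
    (by
      intro a
      apply CExt.ext'
      · show (f 1 1)⁻¹ * (1 : Γ) • a.fst * f 1 a.snd = a.fst
        rw [hf.one_left a.snd, one_smul, mul_comm, ← mul_assoc, mul_inv_cancel, one_mul]
      · show 1 * a.snd = a.snd
        rw [one_mul])
    (by
      intro a
      apply CExt.ext'
      · show (f 1 1)⁻¹ * (f a.snd⁻¹ a.snd)⁻¹ * (a.snd⁻¹ • a.fst)⁻¹ * a.snd⁻¹ • a.fst *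
          f a.snd⁻¹ a.snd = (f 1 1)⁻¹
        rw [inv_mul_cancel_right, inv_mul_cancel_right]
      · show a.snd⁻¹ * a.snd = 1
        rw [inv_mul_cancel])

theorem CExt.mul_fst (hf : IsCoc f) (e e' : CExt f) :
    ((CExt.group hf).mul e e').fst = e.fst * e.snd • e'.fst * f e.snd e'.snd := rfl

theorem CExt.mul_snd (hf : IsCoc f) (e e' : CExt f) :
    ((CExt.group hf).mul e e').snd = e.snd * e'.snd := rfl

/-- A `2`-cocycle with trivial divisors on a finite `2`-group is a coboundary. -/
theorem cocycle_split [Finite Γ] (n : ℕ) (hcard : Nat.card Γ = 2 ^ n)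
    (hf : IsCoc f) {X : Type*} [MulAction Γ X] (dv : A → X → ℤ)
    (dv_mul : ∀ a b x, dv (a * b) x = dv a x + dv b x)
    (dv_smul : ∀ (g : Γ) a x, dv (g • a) x = dv a (g⁻¹ • x))
    (dv_f : ∀ g h x, dv (f g h) x = 0)
    (H90 : ∀ K : Subgroup Γ, ∀ c : Γ → A, (∀ h ∈ K, ∀ k ∈ K, c (h * k) = c h * h • c k) →
      ∃ x : A, ∀ h ∈ K, c h = x / (h • x))
    (norm : ∀ H K : Subgroup Γ, K ≤ H → (K.subgroupOf H).index = 2 →
      ∀ σ ∈ H, σ ∉ K →
      ∀ a : A, (∀ h ∈ H, h • a = a) → ∀ y : X → ℤ, (∀ h ∈ K, ∀ x, y (h⁻¹ • x) = y x) →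
      (∀ x, dv a x = y x + y (σ⁻¹ • x)) →
      ∃ b : A, (∀ h ∈ K, h • b = b) ∧ a = b * σ • b) :
    ∃ x : Γ → A, ∀ g h, f g h = x g * g • x h / x (g * h) := by
  let := CExt.group hf
  have hmul : ∀ e e' : CExt f, e * e' = ⟨e.fst * e.snd • e'.fst * f e.snd e'.snd, e.snd * e'.snd⟩ :=
    fun e e' => rfl
  have hone : (1 : CExt f) = ⟨(f 1 1)⁻¹, 1⟩ := rfl
  let π : CExt f →* Γ := { toFun := fun e => e.snd, map_one' := rfl, map_mul' := fun _ _ => rfl }
  let ι : A →* CExt f :=
    { toFun := fun a => ⟨a * (f 1 1)⁻¹, 1⟩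
      map_one' := by rw [hone, one_mul]
      map_mul' := by
        intro a b
        rw [hmul]
        apply CExt.ext'
        · show a * b * (f 1 1)⁻¹ = a * (f 1 1)⁻¹ * (1 : Γ) • (b * (f 1 1)⁻¹) * f 1 1
          rw [one_smul, mul_assoc (a * (f 1 1)⁻¹), inv_mul_cancel_right]
          rw [mul_right_comm]
        · show (1 : Γ) = 1 * 1
          rw [one_mul] }
  have hπ : ∀ e : CExt f, π e = e.snd := fun _ => rfl
  have hι : ∀ a, ι a = ⟨a * (f 1 1)⁻¹, 1⟩ := fun _ => rfl
  have D : ExtData π ι :=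
    { surj := fun g => ⟨⟨1, g⟩, rfl⟩
      inj := by
        intro a b hab
        rw [hι, hι] at hab
        have := congrArg CExt.fst hab
        exact mul_right_cancel this
      ker := by
        intro e he
        refine ⟨e.fst * f 1 1, ?_⟩
        rw [hι]
        apply CExt.ext'
        · show e.fst * f 1 1 * (f 1 1)⁻¹ = e.fst
          rw [mul_inv_cancel_right]
        · show 1 = e.snd
          rw [← he, hπ]
      pi := fun _ => rfl
      conj := by
        intro e a
        rw [mul_inv_eq_iff_eq_mul, hι, hι, hmul, hmul, hπ]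
        apply CExt.ext'
        · show e.fst * e.snd • (a * (f 1 1)⁻¹) * f e.snd 1
            = e.snd • a * (f 1 1)⁻¹ * (1 : Γ) • e.fst * f 1 e.snd
          rw [hf.one_right e.snd, hf.one_left e.snd, smul_mul', smul_inv', one_smul]
          rw [← mul_assoc, inv_mul_cancel_right, mul_right_comm, inv_mul_cancel_right, mul_comm]
        · show e.snd * 1 = 1 * e.snd
          rw [mul_one, one_mul] }
  have dv_one : ∀ x, dv 1 x = 0 := by
    intro x
    have := dv_mul 1 1 x
    rw [mul_one] at this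
    linarith
  have dv_inv : ∀ a x, dv a⁻¹ x = - dv a x := by
    intro a x
    have := dv_mul a a⁻¹ x
    rw [mul_inv_cancel, dv_one] at this
    linarith
  have hιdv : ∀ a x, dv (ι a).fst x = dv a x := by
    intro a x
    show dv (a * (f 1 1)⁻¹) x = _
    rw [dv_mul, dv_inv, dv_f]; ring
  obtain ⟨s, hs1, hs2⟩ := devissage n hcard π ι D (fun e x => dv e.fst x)
    (by
      intro e e' x
      show dv (e * e').fst x = dv e.fst x + dv e'.fst (e.snd⁻¹ • x)
      rw [hmul]
      show dv (e.fst * e.snd • e'.fst * f e.snd e'.snd) x = _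
      rw [dv_mul, dv_mul, dv_smul, dv_f, add_zero]) H90
    (by
      intro H K hKH hidx σ hσ hσK a ha y hy hay
      exact norm H K hKH hidx σ hσ hσK a ha y hy (fun x => by rw [← hay x, hιdv]))
  refine ⟨fun g => (s g).fst⁻¹, fun g h => ?_⟩
  have e1 := hs2 g (Subgroup.mem_top g) h (Subgroup.mem_top h)
  rw [hmul] at e1
  have e2 : (s g).snd = g := hs1 g (Subgroup.mem_top g)
  have e3 : (s h).snd = h := hs1 h (Subgroup.mem_top h)
  have e4 := congrArg CExt.fst e1
  simp only [e2, e3] at e4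
  show f g h = (s g).fst⁻¹ * g • (s h).fst⁻¹ / (s (g * h)).fst⁻¹
  rw [smul_inv', e4, div_inv_eq_mul, ← mul_inv, ← mul_assoc, inv_mul_cancel, one_mul]

end cext

end Pool.Agent.Lib.MP_722186_nt
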