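import Pool.Agent.Lib.MP_722186_nt.Kummer

/-!
# Module 7d (helper22): counting invariant square classes
-/

namespace Pool.Agent.Lib.MP_722186_nt

open NumberField IsDedekindDomain
open scoped Pointwise nonZeroDivisors

section cls

variable {K : Type} [Field K] [NumberField K]

/-- The class group modulo squares. -/
abbrev ClModSq (K : Type) [Field K] [NumberField K] : Type :=
  ClassGroup (𝓞 K) ⧸ (powMonoidHom 2 : ClassGroup (𝓞 K) →* ClassGroup (𝓞 K)).range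

theorem card_ClModSq : Nat.card (ClModSq K) = Nat.card {c : ClassGroup (𝓞 K) // c ^ 2 = 1} := by
  have h1 : Nat.card (ClModSq K)
      = (powMonoidHom 2 : ClassGroup (𝓞 K) →* ClassGroup (𝓞 K)).range.index := rfl
  have hf : (powMonoidHom 2 : ClassGroup (𝓞 K) →* ClassGroup (𝓞 K)).ker.FiniteIndex :=
    inferInstance
  rw [h1, Subgroup.index_range]
  rfl

theorem exists_of_mk0_mem {I I' : (Ideal (𝓞 K))⁰}
    (h : (QuotientGroup.mk (ClassGroup.mk0 I) : ClModSq K) = QuotientGroup.mk (ClassGroup.mk0 I')) :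
    ∃ (x : K) (J : (Ideal (𝓞 K))⁰), x ≠ 0 ∧
      FractionalIdeal.spanSingleton (𝓞 K)⁰ x * ((I' : Ideal (𝓞 K)) : FractionalIdeal (𝓞 K)⁰ K)
        = ((I * J ^ 2 : (Ideal (𝓞 K))⁰) : Ideal (𝓞 K)) := by
  rw [QuotientGroup.eq] at h
  obtain ⟨c, hc⟩ := h
  obtain ⟨J, rfl⟩ := ClassGroup.mk0_surjective c
  have h2 : ClassGroup.mk0 I' = ClassGroup.mk0 (I * J ^ 2) := by
    rw [map_mul, map_pow]
    have : (ClassGroup.mk0 J) ^ 2 = (ClassGroup.mk0 I)⁻¹ * ClassGroup.mk0 I' := hc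
    rw [this, mul_inv_cancel_left]
  obtain ⟨x, hx, hxx⟩ := (ClassGroup.mk0_eq_mk0_iff_exists_fraction_ring (K := K)).mp h2
  exact ⟨x, J, hx, hxx⟩

theorem card_mod_two : Nat.card (𝓞 K ⧸ Ideal.span {(2 : 𝓞 K)}) = 2 ^ Module.finrank ℚ K := by
  have h1 : Nat.card (𝓞 K ⧸ Ideal.span {(2 : 𝓞 K)}) = Ideal.absNorm (Ideal.span {(2 : 𝓞 K)}) := rfl
  have h3 : (2 : 𝓞 K) = algebraMap ℤ (𝓞 K) 2 := by simp
  rw [h1, Ideal.absNorm_span_singleton, h3, Algebra.norm_algebraMap, Int.natAbs_pow,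
    RingOfIntegers.rank]
  rfl

end cls

section inv

variable {K L : Type} [Field K] [NumberField K] [Field L] [NumberField L] [Algebra K L]
  [IsGalois K L]

/-- The parity of the valuation depends only on the prime below. -/
theorem even_iff_of_under (α : L) (hα : α ≠ 0)
    (hinv : ∀ g : L ≃ₐ[K] L, ∃ ε : L, g α = ε ^ 2 * α) (w w' : HeightOneSpectrum (𝓞 L))
    (h : w.asIdeal.under (𝓞 K) = w'.asIdeal.under (𝓞 K)) (hev : Even (vv w α)) :
    Even (vv w' α) := by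
  have : w.asIdeal.LiesOver (w.asIdeal.under (𝓞 K)) := inferInstance
  have : w'.asIdeal.LiesOver (w.asIdeal.under (𝓞 K)) := ⟨h⟩
  obtain ⟨g, hg⟩ := Ideal.exists_smul_eq_of_isGaloisGroup (w.asIdeal.under (𝓞 K)) w.asIdeal
    w'.asIdeal (L ≃ₐ[K] L)
  have hw' : w' = g • w := HeightOneSpectrum.ext hg.symm
  obtain ⟨ε, hε⟩ := hinv g⁻¹
  have hε0 : ε ≠ 0 := by
    rintro rfl
    rw [zero_pow two_ne_zero, zero_mul] at hε
    exact hα (by simpa using hε)
  have h1 : vv w (g⁻¹ • α) = vv w' α := by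
    rw [vv_smul, inv_inv, hw']
  rw [← h1]
  have h2 : g⁻¹ • α = ε ^ 2 * α := hε
  rw [h2, vv_mul w (pow_ne_zero 2 hε0) hα, vv_pow]
  exact Even.add ⟨vv w ε, by push_cast; ring⟩ hev

/-- The primes of `K` over which `α` has odd valuation. -/
def oddSet (K : Type) {L : Type} [Field K] [NumberField K] [Field L] [NumberField L] [Algebra K L]
    (α : L) : Set (HeightOneSpectrum (𝓞 K)) :=
  {v | ∃ w : HeightOneSpectrum (𝓞 L), w.asIdeal.under (𝓞 K) = v.asIdeal ∧ ¬ Even (vv w α)}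

omit [IsGalois K L] in
theorem oddSet_finite (α : L) : (oddSet K α).Finite := by
  have h1 : {w : HeightOneSpectrum (𝓞 L) | ¬ Even (vv w α)}.Finite := by
    have h2 := FractionalIdeal.finite_factors (K := L)
      (FractionalIdeal.spanSingleton (nonZeroDivisors (𝓞 L)) α)
    rw [Filter.eventually_cofinite] at h2
    refine h2.subset ?_
    intro w hw h0
    apply hw
    show Even (vv w α)
    rw [vv, h0]
    exact Even.zero
  have h3 : (fun w : HeightOneSpectrum (𝓞 L) => w.asIdeal.under (𝓞 K)) ''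
      {w : HeightOneSpectrum (𝓞 L) | ¬ Even (vv w α)} ⊇
      (fun v : HeightOneSpectrum (𝓞 K) => v.asIdeal) '' (oddSet K α) := by
    rintro _ ⟨v, ⟨w, hw, hodd⟩, rfl⟩
    exact ⟨w, hodd, hw⟩
  have h4 := (h1.image (fun w : HeightOneSpectrum (𝓞 L) => w.asIdeal.under (𝓞 K))).subset h3
  exact Set.Finite.of_finite_image h4 (fun v _ v' _ h => HeightOneSpectrum.ext h)

/-- The ideal of `K` attached to `α`. -/
noncomputable def oddIdeal (K : Type) {L : Type} [Field K] [NumberField K] [Field L] [NumberField L]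
    [Algebra K L] (α : L) : Ideal (𝓞 K) :=
  ∏ v ∈ (oddSet_finite (K := K) α).toFinset, v.asIdeal

omit [IsGalois K L] in
theorem oddIdeal_ne_bot (α : L) : oddIdeal K α ≠ 0 := by
  rw [oddIdeal, Finset.prod_ne_zero_iff]
  intro v _
  exact v.ne_bot

open Classical in
omit [IsGalois K L] in
theorem count_oddIdeal (α : L) (v : HeightOneSpectrum (𝓞 K)) :
    FractionalIdeal.count K v (oddIdeal K α : FractionalIdeal (𝓞 K)⁰ K)
      = if v ∈ oddSet K α then 1 else 0 := by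
  have hprod : ((∏ v ∈ (oddSet_finite (K := K) α).toFinset, v.asIdeal : Ideal (𝓞 K)) :
      FractionalIdeal (𝓞 K)⁰ K) = ∏ v ∈ (oddSet_finite (K := K) α).toFinset,
        ((v.asIdeal : Ideal (𝓞 K)) : FractionalIdeal (𝓞 K)⁰ K) :=
    map_prod (FractionalIdeal.coeIdealHom (𝓞 K)⁰ K) _ _
  rw [oddIdeal, hprod, FractionalIdeal.count_prod]
  · simp only [FractionalIdeal.count_maximal]
    rw [Finset.sum_ite_eq' ]
    simp
  · intro u _
    exact FractionalIdeal.coeIdeal_ne_zero.mpr u.ne_bot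

theorem even_iff_not_mem (α : L) (hα : α ≠ 0)
    (hinv : ∀ g : L ≃ₐ[K] L, ∃ ε : L, g α = ε ^ 2 * α) (w : HeightOneSpectrum (𝓞 L))
    (v : HeightOneSpectrum (𝓞 K)) (hwv : w.asIdeal.under (𝓞 K) = v.asIdeal) :
    Even (vv w α) ↔ v ∉ oddSet K α := by
  constructor
  · rintro h ⟨w', hw', hodd⟩
    exact hodd (even_iff_of_under α hα hinv w w' (by rw [hwv, hw']) h)
  · intro h
    by_contra hodd
    exact h ⟨w, hwv, hodd⟩

/-- The class of `α`. -/
noncomputable def cls (K : Type) {L : Type} [Field K] [NumberField K] [Field L] [NumberField L]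
    [Algebra K L] (α : L) : ClModSq K :=
  QuotientGroup.mk (ClassGroup.mk0 ⟨oddIdeal K α,
    mem_nonZeroDivisors_of_ne_zero (oddIdeal_ne_bot α)⟩)

theorem exists_k (hunr : Unr K L) (α β : L) (hα : α ≠ 0) (hβ : β ≠ 0)
    (hαi : ∀ g : L ≃ₐ[K] L, ∃ ε : L, g α = ε ^ 2 * α)
    (hβi : ∀ g : L ≃ₐ[K] L, ∃ ε : L, g β = ε ^ 2 * β)
    (h : cls K α = cls K β) :
    ∃ k : K, k ≠ 0 ∧ ∀ w : HeightOneSpectrum (𝓞 L), Even (vv w (α * β * algebraMap K L k)) := by
  classical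
  obtain ⟨k, J, hk, hkJ⟩ := exists_of_mk0_mem h
  refine ⟨k, hk, fun w => ?_⟩
  have hk' : algebraMap K L k ≠ 0 := by simpa using hk
  let v : HeightOneSpectrum (𝓞 K) := ⟨w.asIdeal.under (𝓞 K), inferInstance,
    mt Ideal.eq_bot_of_comap_eq_bot w.ne_bot⟩
  have hwv : w.asIdeal.under (𝓞 K) = v.asIdeal := rfl
  have : w.asIdeal.LiesOver v.asIdeal := ⟨rfl⟩
  have hkv : vv w (algebraMap K L k) = vv v k := vv_algebraMap v w hunr k
  -- counts
  have e1 := congrArg (FractionalIdeal.count K v) hkJ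
  have hI1 : ((oddIdeal K α : Ideal (𝓞 K)) : FractionalIdeal (𝓞 K)⁰ K) ≠ 0 :=
    FractionalIdeal.coeIdeal_ne_zero.mpr (oddIdeal_ne_bot α)
  have hI2 : ((oddIdeal K β : Ideal (𝓞 K)) : FractionalIdeal (𝓞 K)⁰ K) ≠ 0 :=
    FractionalIdeal.coeIdeal_ne_zero.mpr (oddIdeal_ne_bot β)
  have hJ0 : (((J : Ideal (𝓞 K))) : FractionalIdeal (𝓞 K)⁰ K) ≠ 0 :=
    FractionalIdeal.coeIdeal_ne_zero.mpr (nonZeroDivisors.ne_zero J.2)
  have e2 : (((⟨oddIdeal K α, mem_nonZeroDivisors_of_ne_zero (oddIdeal_ne_bot α)⟩ *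
      J ^ 2 : (Ideal (𝓞 K))⁰) : Ideal (𝓞 K)) : FractionalIdeal (𝓞 K)⁰ K)
      = (oddIdeal K α : FractionalIdeal (𝓞 K)⁰ K) * ((J : Ideal (𝓞 K)) :
        FractionalIdeal (𝓞 K)⁰ K) ^ 2 := by
    rw [Submonoid.coe_mul, SubmonoidClass.coe_pow, FractionalIdeal.coeIdeal_mul,
      FractionalIdeal.coeIdeal_pow]
  rw [e2, FractionalIdeal.count_mul K v (by
    rw [Ne, FractionalIdeal.spanSingleton_eq_zero_iff]; exact hk) hI2,
    FractionalIdeal.count_mul K v hI1 (pow_ne_zero 2 hJ0), FractionalIdeal.count_pow,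
    count_oddIdeal, count_oddIdeal] at e1
  have e3 : vv v k + (if v ∈ oddSet K β then 1 else 0)
      = (if v ∈ oddSet K α then 1 else 0) + ((2 : ℕ) : ℤ) *
        FractionalIdeal.count K v ((J : Ideal (𝓞 K)) : FractionalIdeal (𝓞 K)⁰ K) := e1
  rw [vv_mul w (mul_ne_zero hα hβ) hk', vv_mul w hα hβ, hkv]
  have hα1 := even_iff_not_mem α hα hαi w v hwv
  have hβ1 := even_iff_not_mem β hβ hβi w v hwv
  set N := FractionalIdeal.count K v ((J : Ideal (𝓞 K)) : FractionalIdeal (𝓞 K)⁰ K)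
  rw [Int.even_add, Int.even_add]
  have e4 : vv v k = (if v ∈ oddSet K α then 1 else 0) + 2 * N
      - (if v ∈ oddSet K β then 1 else 0) := by
    push_cast at e3
    linarith
  rw [e4]
  by_cases h1 : v ∈ oddSet K α <;> by_cases h2 : v ∈ oddSet K β
  · simp [h1, h2, hα1, hβ1]
  · simp only [h1, h2, if_true, if_false, hα1, hβ1, not_true, not_false_iff]
    simp [Int.even_add]
  · simp only [h1, h2, if_true, if_false, hα1, hβ1, not_true, not_false_iff]
    simp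
  · simp [h1, h2, hα1, hβ1]

end inv

end Pool.Agent.Lib.MP_722186_nt
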