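import Pool.Agent.Lib.MP_722186_nt.Defs

/-!
# Module 4 of MP_722186_nt: `H²` of a non-finitely-presented quotient is infinite-dimensional

`H2_not_finite`: `G` pro-`p` with finite-dimensional `H¹`, `π : G → Γ` continuous surjective, the
kernel of `π` is not the closed normal closure of a finite set; then `H²(H, 𝔽_p)` is
infinite-dimensional for every open subgroup `H` of `Γ`.
-/

set_option autoImplicit false

open Topology

namespace Pool.Agent.MP722186.M4

variable {p : ℕ} [hp : Fact p.Prime]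

/-- A proper subgroup of a finite `p`-group is killed by a nontrivial homomorphism to `ℤ/p`. -/
lemma exists_hom_of_ne_top {P : Type*} [Group P] [Finite P] (hP : IsPGroup p P) (D : Subgroup P)
    (hD : D ≠ ⊤) : ∃ f : P →* Multiplicative (ZMod p), D ≤ f.ker ∧ f ≠ 1 := by
  obtain ⟨M, hM, hDM⟩ : ∃ M : Subgroup P, IsCoatom M ∧ D ≤ M := by
    obtain ⟨M, hM, h⟩ := IsCoatomic.eq_top_or_exists_le_coatom D |>.resolve_left hD
    exact ⟨M, hM, h⟩
  have hnil : Group.IsNilpotent P := hP.isNilpotent
  have hMn : M.Normal := Subgroup.NormalizerCondition.normal_of_coatom M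
    Group.normalizerCondition_of_isNilpotent hM
  -- the quotient has order `p`
  have hQ : IsPGroup p (P ⧸ M) := hP.to_quotient M
  have hnt : Nontrivial (P ⧸ M) := by
    rw [← not_subsingleton_iff_nontrivial]
    intro hs
    exact hM.1 (QuotientGroup.subgroup_eq_top_of_subsingleton M hs)
  have hdvd : p ∣ Nat.card (P ⧸ M) := by
    obtain ⟨n, hn, hcard⟩ := (IsPGroup.nontrivial_iff_card hQ).1 hnt
    rw [hcard]
    exact dvd_pow_self p (by omega)
  obtain ⟨y, hy⟩ := exists_prime_orderOf_dvd_card' (G := P ⧸ M) p hdvd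
  have htop : Subgroup.zpowers y = ⊤ := by
    have h1 : M ≤ (Subgroup.zpowers y).comap (QuotientGroup.mk' M) := by
      intro m hm
      rw [Subgroup.mem_comap]
      have : QuotientGroup.mk' M m = 1 := by
        rw [QuotientGroup.mk'_apply]; exact (QuotientGroup.eq_one_iff m).2 hm
      rw [this]; exact one_mem _
    rcases hM.le_iff.1 h1 with h | h
    · rw [Subgroup.eq_top_iff']
      intro x
      obtain ⟨x, rfl⟩ := QuotientGroup.mk'_surjective M x
      have : x ∈ (Subgroup.zpowers y).comap (QuotientGroup.mk' M) := by rw [h]; trivial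
      exact this
    · exfalso
      have hy1 : y = 1 := by
        obtain ⟨x, rfl⟩ := QuotientGroup.mk'_surjective M y
        have hx : x ∈ (Subgroup.zpowers (QuotientGroup.mk' M x)).comap (QuotientGroup.mk' M) := by
          rw [Subgroup.mem_comap]; exact Subgroup.mem_zpowers _
        rw [h] at hx
        rw [QuotientGroup.mk'_apply]; exact (QuotientGroup.eq_one_iff x).2 hx
      rw [hy1, orderOf_one] at hy
      exact hp.out.one_lt.ne hy
  have hcard : Nat.card (P ⧸ M) = p := by
    rw [← hy, ← Nat.card_zpowers, htop, Subgroup.card_top]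
  have hcard' : Nat.card (Multiplicative (ZMod p)) = p := by
    rw [Nat.card_congr (Multiplicative.toAdd), Nat.card_zmod]
  let e : (P ⧸ M) ≃* Multiplicative (ZMod p) := mulEquivOfPrimeCardEq (p := p) hcard hcard'
  refine ⟨e.toMonoidHom.comp (QuotientGroup.mk' M), ?_, ?_⟩
  · intro d hd
    rw [MonoidHom.mem_ker, MonoidHom.comp_apply]
    have : QuotientGroup.mk' M d = 1 := by
      rw [QuotientGroup.mk'_apply]; exact (QuotientGroup.eq_one_iff d).2 (hDM hd)
    rw [this, map_one]
  · intro h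
    apply hM.1
    rw [Subgroup.eq_top_iff']
    intro x
    have h1 := DFunLike.congr_fun h x
    rw [MonoidHom.comp_apply, MonoidHom.one_apply] at h1
    have h2 : QuotientGroup.mk' M x = 1 := by
      apply e.injective
      rw [map_one]; exact h1
    exact (QuotientGroup.eq_one_iff x).1 h2

/-- If `B < N` are normal in a finite `p`-group `P` there is a `P`-invariant nontrivial
homomorphism `N → ℤ/p` killing `B`. -/
lemma exists_invariant_hom {P : Type*} [Group P] [Finite P] (hP : IsPGroup p P)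
    (N B : Subgroup P) [hN : N.Normal] [hB : B.Normal] (hBN : B ≤ N) (hne : B ≠ N) :
    ∃ f : N →* Multiplicative (ZMod p), (∀ n : N, (n : P) ∈ B → f n = 1) ∧ f ≠ 1 ∧
      ∀ (g : P) (n : N), f ⟨g * n * g⁻¹, hN.conj_mem n n.2 g⟩ = f n := by
  have hNP : IsPGroup p N := hP.to_subgroup N
  have hBt : B.subgroupOf N ≠ ⊤ := by
    intro h
    rw [Subgroup.subgroupOf_eq_top] at h
    exact hne (le_antisymm hBN h)
  obtain ⟨f0, hf0B, hf0⟩ := exists_hom_of_ne_top hNP _ hBt
  -- the set of homs killing B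
  let W : Subgroup (N →* Multiplicative (ZMod p)) :=
    { carrier := {f | ∀ n : N, (n : P) ∈ B → f n = 1}
      mul_mem' := by
        intro a b ha hb n hn
        rw [MonoidHom.mul_apply, ha n hn, hb n hn, mul_one]
      one_mem' := by intro n _; rfl
      inv_mem' := by
        intro a ha n hn
        rw [MonoidHom.inv_apply, ha n hn, inv_one] }
  have hf0W : f0 ∈ W := by
    intro n hn
    exact hf0B (by rw [Subgroup.mem_subgroupOf]; exact hn)
  have hconj : ∀ (g : P), ∀ n : N, g⁻¹ * (n : P) * g ∈ N := by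
    intro g n
    have := hN.conj_mem n n.2 g⁻¹
    rwa [inv_inv] at this
  let c : P → (N →* N) := fun g =>
    { toFun := fun n => ⟨g⁻¹ * n * g, hconj g n⟩
      map_one' := by ext; simp
      map_mul' := by intro a b; ext; simp [mul_assoc] }
  let act : MulAction P W :=
    { smul := fun g f => ⟨f.1.comp (c g), by
        intro n hn
        rw [MonoidHom.comp_apply]
        apply f.2
        have := hB.conj_mem n hn g⁻¹
        rw [inv_inv] at this
        exact this⟩
      one_smul := by
        intro f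
        ext n
        show f.1 (c 1 n) = f.1 n
        congr 1
        ext; simp [c]
      mul_smul := by
        intro a b f
        ext n
        show f.1 (c (a * b) n) = f.1 (c b (c a n))
        congr 1
        ext; simp [c, mul_assoc] }
  have hWfin : Finite W := by
    have : Finite (N →* Multiplicative (ZMod p)) :=
      Finite.of_injective (fun f : N →* Multiplicative (ZMod p) => (f : N → Multiplicative (ZMod p)))
        DFunLike.coe_injective
    infer_instance
  have hdvd : p ∣ Nat.card W := by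
    have hord : orderOf (⟨f0, hf0W⟩ : W) = p := by
      apply orderOf_eq_prime
      · ext n
        show (f0 ^ p) n = 1
        rw [MonoidHom.pow_apply]
        apply Multiplicative.toAdd.injective
        rw [toAdd_pow, toAdd_one, nsmul_eq_mul, CharP.cast_eq_zero, zero_mul]
      · intro h
        apply hf0
        exact congrArg Subtype.val h
    have h := orderOf_dvd_natCard (⟨f0, hf0W⟩ : W)
    rwa [hord] at h
  obtain ⟨f, hf, hf1⟩ := hP.exists_fixed_point_of_prime_dvd_card_of_fixed_point W hdvd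
    (a := (1 : W)) (by
      intro g
      ext n
      rfl)
  refine ⟨f.1, f.2, ?_, ?_⟩
  · intro h
    apply hf1
    ext n
    have := DFunLike.congr_fun h n
    rw [this]; rfl
  · intro g n
    have h1 := hf g⁻¹
    have h2 : f.1.comp (c g⁻¹) = f.1 := congrArg Subtype.val h1
    have h3 : f.1 (c g⁻¹ n) = f.1 n := DFunLike.congr_fun h2 n
    have h4 : c g⁻¹ n = ⟨g * n * g⁻¹, hN.conj_mem n n.2 g⟩ := by
      ext; simp [c]
    rw [← h4]; exact h3

variable {G : Type*} [Group G] [TopologicalSpace G] [IsTopologicalGroup G] [CompactSpace G]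
  [TotallyDisconnectedSpace G]

/-- Every open normal subgroup has `p`-power index. -/
def IsProP (p : ℕ) (G : Type*) [Group G] [TopologicalSpace G] : Prop :=
  ∀ (V : Subgroup G) [V.Normal], IsOpen (V : Set G) → IsPGroup p (G ⧸ V)

lemma exists_open_normal (C : Set G) (hC : IsClosed C) (g : G) (hg : g ∉ C) :
    ∃ V : Subgroup G, V.Normal ∧ IsOpen (V : Set G) ∧ ∀ v ∈ V, g * v ∉ C := by
  have hO : IsOpen {v : G | g * v ∉ C} := by
    have h1 : Continuous (fun v : G => g * v) := continuous_const.mul continuous_id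
    exact hC.isOpen_compl.preimage h1
  obtain ⟨V, hV⟩ := ProfiniteGrp.exist_openNormalSubgroup_sub_open_nhds_of_one hO
    (by simpa using hg)
  exact ⟨V.toSubgroup, V.isNormal', V.isOpen', fun v hv => hV hv⟩

omit [CompactSpace G] [TotallyDisconnectedSpace G] in
lemma continuous_comp_mk (V : Subgroup G) (hVo : IsOpen (V : Set G)) {A : Type*}
    [TopologicalSpace A] (f : G ⧸ V → A) : Continuous (fun g : G => f (g : G ⧸ V)) := by
  have : DiscreteTopology (G ⧸ V) := QuotientGroup.discreteTopology hVo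
  exact (continuous_of_discreteTopology (f := f)).comp continuous_quotient_mk'

lemma dense_of_no_hom (hG : IsProP p G) (D : Subgroup G)
    (h : ∀ f : G →* Multiplicative (ZMod p), Continuous f → D ≤ f.ker → f = 1) :
    Dense (D : Set G) := by
  by_contra hd
  rw [Dense] at hd
  push Not at hd
  obtain ⟨g, hg⟩ := hd
  obtain ⟨V, hVn, hVo, hV⟩ := exists_open_normal (closure (D : Set G)) isClosed_closure g hg
  have hfin : Finite (G ⧸ V) := V.quotient_finite_of_isOpen hVo
  have hne : D.map (QuotientGroup.mk' V) ≠ ⊤ := by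
    intro htop
    have h1 : (QuotientGroup.mk' V g) ∈ D.map (QuotientGroup.mk' V) := by rw [htop]; trivial
    obtain ⟨d, hd, hdg⟩ := h1
    have h2 : g⁻¹ * d ∈ V := QuotientGroup.eq.1 hdg.symm
    have h3 := hV _ h2
    apply h3
    rw [mul_inv_cancel_left]
    exact subset_closure hd
  obtain ⟨f, hfD, hf1⟩ := exists_hom_of_ne_top (hG V hVo) _ hne
  apply hf1
  have h4 := h (f.comp (QuotientGroup.mk' V)) (continuous_comp_mk V hVo f) (by
    intro d hd
    rw [MonoidHom.mem_ker, MonoidHom.comp_apply]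
    exact hfD (Subgroup.mem_map_of_mem _ hd))
  refine MonoidHom.ext (fun x => ?_)
  obtain ⟨x, rfl⟩ := QuotientGroup.mk'_surjective V x
  exact DFunLike.congr_fun h4 x

/-- continuous homomorphisms to `ℤ/p` -/
abbrev CHom (p : ℕ) (G : Type*) [Group G] [TopologicalSpace G] :=
  {f : G →* Multiplicative (ZMod p) // Continuous f}

lemma finite_chom_open (hG : IsProP p G) (hfin : Finite (CHom p G)) (U : Subgroup G)
    (hU : IsOpen (U : Set G)) : Finite (CHom p U) := by
  classical
  have hx : ∀ f : CHom p G, ∃ x : G, f.1 ≠ 1 → f.1 x ≠ 1 := by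
    intro f
    by_cases hf : f.1 = 1
    · exact ⟨1, fun h => absurd hf h⟩
    · by_contra hc
      push Not at hc
      apply hf
      ext x
      exact congrArg Multiplicative.toAdd (hc x).2
  choose x hx using hx
  let D : Subgroup G := Subgroup.closure (Set.range x)
  have hD : Dense (D : Set G) := by
    apply dense_of_no_hom hG
    intro f hf hDf
    by_contra hne
    exact hx ⟨f, hf⟩ hne (hDf (Subgroup.subset_closure ⟨_, rfl⟩))
  have hDfg : Group.FG D := by
    rw [Group.fg_iff_subgroup_fg]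
    exact ⟨(Set.finite_range x).toFinset, by rw [Set.Finite.coe_toFinset]⟩
  have hUfin : Finite (G ⧸ U) := U.quotient_finite_of_isOpen hU
  have hUi : U.FiniteIndex := Subgroup.finiteIndex_of_finite_quotient
  have hfg : Group.FG (U.subgroupOf D) := inferInstance
  obtain ⟨S, hS⟩ := hfg.out
  let ev : CHom p U → ({s // s ∈ S} → Multiplicative (ZMod p)) :=
    fun f s => f.1 ⟨(s.1 : D), s.1.2⟩
  refine Finite.of_injective ev ?_
  intro f f' hff
  apply Subtype.ext
  -- the two homs agree on `U ∩ D`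
  let ι : U.subgroupOf D →* U :=
    { toFun := fun s => ⟨(s : D), s.2⟩
      map_one' := rfl
      map_mul' := fun a b => rfl }
  have h1 : f.1.comp ι = f'.1.comp ι := by
    apply MonoidHom.eq_of_eqOn_dense hS
    intro s hs
    exact congrFun hff ⟨s, hs⟩
  have h2 : Set.EqOn f.1 f'.1 ((fun u : U => (u : G)) ⁻¹' (D : Set G)) := by
    intro u hu
    exact DFunLike.congr_fun h1 ⟨⟨(u : G), hu⟩, u.2⟩
  have h3 : Dense ((fun u : U => (u : G)) ⁻¹' (D : Set G)) :=
    hD.preimage hU.isOpenMap_subtype_val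
  have h4 : (f.1 : U → Multiplicative (ZMod p)) = f'.1 :=
    Continuous.ext_on h3 f.2 f'.2 h2
  exact DFunLike.coe_injective h4

/-- admissible homomorphisms on a normal subgroup -/
def Adm (p : ℕ) (N : Subgroup G) [hN : N.Normal] (φ : N → ZMod p) : Prop :=
  (∀ a b : N, φ (a * b) = φ a + φ b) ∧
  (∀ (g : G) (n : N), φ ⟨g * n * g⁻¹, hN.conj_mem n n.2 g⟩ = φ n) ∧
  ∃ η : G → ZMod p, Continuous η ∧ ∀ (n : N) (g : G), η (n * g) = φ n + η g

lemma exists_adm_lt (hG : IsProP p G) (N : Subgroup G) [hN : N.Normal]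
    (B : Subgroup G) [hBn : B.Normal] (hBc : IsClosed (B : Set G)) (hBN : B ≤ N) (hne : B ≠ N) :
    ∃ φ : N → ZMod p, Adm p N φ ∧ φ ≠ 0 ∧ ∀ n : N, (n : G) ∈ B → φ n = 0 := by
  classical
  obtain ⟨n₀, hn₀N, hn₀B⟩ : ∃ n₀ ∈ N, n₀ ∉ B := by
    by_contra hc
    push Not at hc
    exact hne (le_antisymm hBN hc)
  obtain ⟨V, hVn, hVo, hV⟩ := exists_open_normal (B : Set G) hBc n₀ hn₀B
  have hfin : Finite (G ⧸ V) := V.quotient_finite_of_isOpen hVo
  let N' : Subgroup (G ⧸ V) := N.map (QuotientGroup.mk' V)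
  let B' : Subgroup (G ⧸ V) := B.map (QuotientGroup.mk' V)
  have hN'n : N'.Normal := hN.map _ (QuotientGroup.mk'_surjective V)
  have hB'n : B'.Normal := hBn.map _ (QuotientGroup.mk'_surjective V)
  have hne' : B' ≠ N' := by
    intro h
    have h1 : (QuotientGroup.mk' V n₀) ∈ B' := by
      rw [h]; exact Subgroup.mem_map_of_mem _ hn₀N
    obtain ⟨b, hb, hbn⟩ := h1
    have h2 : n₀⁻¹ * b ∈ V := QuotientGroup.eq.1 hbn.symm
    have h3 := hV _ h2
    rw [mul_inv_cancel_left] at h3
    exact h3 hb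
  obtain ⟨f, hfB, hf1, hfinv⟩ := exists_invariant_hom (hG V hVo) N' B'
    (Subgroup.map_mono hBN) hne'
  let m : N → N' := fun n => ⟨QuotientGroup.mk' V n, Subgroup.mem_map_of_mem _ n.2⟩
  have hm : ∀ a b : N, m (a * b) = m a * m b := by
    intro a b; apply Subtype.ext; simp [m]
  refine ⟨fun n => Multiplicative.toAdd (f (m n)), ⟨?_, ?_, ?_⟩, ?_, ?_⟩
  · intro a b
    simp only [hm, map_mul, toAdd_mul]
  · intro g n
    simp only
    congr 1
    have := hfinv (QuotientGroup.mk' V g) (m n)
    rw [← this]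
    congr 1
  · -- the function η
    let r : (G ⧸ V) → (G ⧸ V) := fun g => ((g : (G ⧸ V) ⧸ N')).out
    have hr1 : ∀ g, g * (r g)⁻¹ ∈ N' := by
      intro g
      have h1 : ((r g : G ⧸ V) : (G ⧸ V) ⧸ N') = (g : (G ⧸ V) ⧸ N') := QuotientGroup.out_eq' _
      have h2 : (r g)⁻¹ * g ∈ N' := QuotientGroup.eq.1 h1
      have h3 := hN'n.conj_mem _ h2 (r g)
      have h4 : r g * ((r g)⁻¹ * g) * (r g)⁻¹ = g * (r g)⁻¹ := by group
      rwa [h4] at h3
    have hr2 : ∀ n ∈ N', ∀ g, r (n * g) = r g := by
      intro n hn g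
      simp only [r]
      congr 1
      rw [eq_comm, QuotientGroup.eq]
      have := hN'n.conj_mem n hn g⁻¹
      rw [inv_inv] at this
      rwa [mul_assoc] at this
    let η' : (G ⧸ V) → ZMod p := fun g => Multiplicative.toAdd (f ⟨g * (r g)⁻¹, hr1 g⟩)
    refine ⟨fun g => η' (g : G ⧸ V), continuous_comp_mk V hVo η', ?_⟩
    intro n g
    simp only [η']
    rw [← toAdd_mul, ← map_mul]
    congr 2
    apply Subtype.ext
    have hmn : ((m n : N') : G ⧸ V) = ((n : G) : G ⧸ V) := rfl
    rw [Subgroup.coe_mul, hmn]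
    simp only [QuotientGroup.mk_mul]
    rw [← hmn, hr2 _ (m n).2 (g : G ⧸ V), mul_assoc]
  · intro h0
    apply hf1
    ext n'
    obtain ⟨x, n, hn, hnx⟩ := n'
    have h1 := congrFun h0 ⟨n, hn⟩
    simp only [m, Pi.zero_apply] at h1
    subst hnx
    exact h1
  · intro n hn
    simp only
    have h1 : f (m n) = 1 := by
      apply hfB
      exact Subgroup.mem_map_of_mem _ hn
    rw [h1, toAdd_one]

lemma exists_adm (hG : IsProP p G) (N : Subgroup G) [hN : N.Normal] (hNc : IsClosed (N : Set G))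
    (hnf : ∀ X : Set G, X.Finite → (Subgroup.normalClosure X).topologicalClosure ≠ N)
    (X : Set G) (hX : X.Finite) (hXN : X ⊆ N) :
    ∃ φ : N → ZMod p, Adm p N φ ∧ φ ≠ 0 ∧ ∀ n : N, (n : G) ∈ X → φ n = 0 := by
  have hBn : (Subgroup.normalClosure X).topologicalClosure.Normal :=
    Subgroup.is_normal_topologicalClosure _
  obtain ⟨φ, h1, h2, h3⟩ := exists_adm_lt hG N (Subgroup.normalClosure X).topologicalClosure
    (Subgroup.isClosed_topologicalClosure _)
    (Subgroup.topologicalClosure_minimal _ (Subgroup.normalClosure_le_normal hXN) hNc) (hnf X hX)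
  exact ⟨φ, h1, h2, fun n hn => h3 n
    (Subgroup.le_topologicalClosure _ (Subgroup.subset_normalClosure hn))⟩

/-- there are infinitely many admissible homomorphisms -/
lemma infinite_adm (hG : IsProP p G) (N : Subgroup G) [hN : N.Normal]
    (hNc : IsClosed (N : Set G))
    (hnf : ∀ X : Set G, X.Finite → (Subgroup.normalClosure X).topologicalClosure ≠ N) :
    Infinite {φ : N → ZMod p // Adm p N φ} := by
  classical
  by_contra hinf
  rw [not_infinite_iff_finite] at hinf
  have hx : ∀ φ : {φ : N → ZMod p // Adm p N φ}, ∃ x : N, φ.1 ≠ 0 → φ.1 x ≠ 0 := by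
    intro φ
    by_cases hφ : φ.1 = 0
    · exact ⟨1, fun h => absurd hφ h⟩
    · by_contra hc
      push Not at hc
      exact hφ (funext fun x => (hc x).2)
  choose x hx using hx
  obtain ⟨φ, hφ, hφ0, hφX⟩ := exists_adm hG N hNc hnf (Set.range (fun φ => (x φ : G)))
    (Set.finite_range _) (by rintro _ ⟨φ, rfl⟩; exact (x φ).2)
  exact hx ⟨φ, hφ⟩ hφ0 (hφX _ ⟨⟨φ, hφ⟩, rfl⟩)

/-- every continuous invariant homomorphism on a normal subgroup is admissible -/
lemma adm_of_continuous (N : Subgroup G) [hN : N.Normal] (φ : N → ZMod p) (hφ : Continuous φ)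
    (hadd : ∀ a b : N, φ (a * b) = φ a + φ b)
    (hinv : ∀ (g : G) (n : N), φ ⟨g * n * g⁻¹, hN.conj_mem n n.2 g⟩ = φ n) : Adm p N φ := by
  classical
  refine ⟨hadd, hinv, ?_⟩
  have hφ1 : φ 1 = 0 := by
    have := hadd 1 1
    rw [mul_one] at this
    linear_combination -this
  have hφi : ∀ a : N, φ a⁻¹ = - φ a := by
    intro a
    have := hadd a a⁻¹
    rw [mul_inv_cancel, hφ1] at this
    linear_combination -this
  have hopen : IsOpen {n : N | φ n = 0} := by
    have : {n : N | φ n = 0} = φ ⁻¹' {0} := rfl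
    rw [this]
    exact (isOpen_discrete _).preimage hφ
  obtain ⟨O, hO, hON⟩ := isOpen_induced_iff.1 hopen
  have h1O : (1 : G) ∈ O := by
    have h1 : (1 : N) ∈ ((fun n : N => (n : G)) ⁻¹' O) := by
      rw [hON]; exact hφ1
    exact h1
  obtain ⟨V, hV⟩ := ProfiniteGrp.exist_openNormalSubgroup_sub_open_nhds_of_one hO h1O
  have hVn : V.toSubgroup.Normal := V.isNormal'
  have hVφ : ∀ n : N, (n : G) ∈ V.toSubgroup → φ n = 0 := by
    intro n hn
    have : n ∈ ((fun n : N => (n : G)) ⁻¹' O) := hV hn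
    rw [hON] at this
    exact this
  let N' : Subgroup (G ⧸ V.toSubgroup) := N.map (QuotientGroup.mk' V.toSubgroup)
  have hN'n : N'.Normal := hN.map _ (QuotientGroup.mk'_surjective _)
  have hlift : ∀ n' : N', ∃ n : N, (QuotientGroup.mk' V.toSubgroup (n : G)) = n' := by
    rintro ⟨x, n, hn, hnx⟩
    exact ⟨⟨n, hn⟩, hnx⟩
  choose l hl using hlift
  have hkey : ∀ (n' : N') (n : N), (QuotientGroup.mk' V.toSubgroup (n : G)) = n' →
      φ (l n') = φ n := by
    intro n' n hn
    have h1 : QuotientGroup.mk' V.toSubgroup ((l n' : N) : G) =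
        QuotientGroup.mk' V.toSubgroup (n : G) := by rw [hl, hn]
    have h2 : ((l n' : N) : G)⁻¹ * (n : G) ∈ V.toSubgroup := QuotientGroup.eq.1 h1
    have h3 := hVφ ((l n')⁻¹ * n) h2
    rw [hadd, hφi] at h3
    linear_combination -h3
  let f : N' → ZMod p := fun n' => φ (l n')
  have hf : ∀ (n : N) (n' : N') (h : (QuotientGroup.mk' V.toSubgroup (n : G)) * (n' : G ⧸ V.toSubgroup)
      ∈ N'), f ⟨_, h⟩ = φ n + f n' := by
    intro n n' h
    simp only [f]
    rw [← hadd]
    apply hkey
    rw [Subgroup.coe_mul, map_mul, hl]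
  let r : (G ⧸ V.toSubgroup) → (G ⧸ V.toSubgroup) := fun g =>
    ((g : (G ⧸ V.toSubgroup) ⧸ N')).out
  have hr1 : ∀ g, g * (r g)⁻¹ ∈ N' := by
    intro g
    have h1 : ((r g : G ⧸ V.toSubgroup) : (G ⧸ V.toSubgroup) ⧸ N') =
      (g : (G ⧸ V.toSubgroup) ⧸ N') := QuotientGroup.out_eq' _
    have h2 : (r g)⁻¹ * g ∈ N' := QuotientGroup.eq.1 h1
    have h3 := hN'n.conj_mem _ h2 (r g)
    have h4 : r g * ((r g)⁻¹ * g) * (r g)⁻¹ = g * (r g)⁻¹ := by group
    rwa [h4] at h3
  have hr2 : ∀ n ∈ N', ∀ g, r (n * g) = r g := by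
    intro n hn g
    simp only [r]
    congr 1
    rw [eq_comm, QuotientGroup.eq]
    have := hN'n.conj_mem n hn g⁻¹
    rw [inv_inv] at this
    rwa [mul_assoc] at this
  let η' : (G ⧸ V.toSubgroup) → ZMod p := fun g => f ⟨g * (r g)⁻¹, hr1 g⟩
  refine ⟨fun g => η' (g : G ⧸ V.toSubgroup), continuous_comp_mk V.toSubgroup V.isOpen' η', ?_⟩
  intro n g
  simp only [η']
  have hmem : (QuotientGroup.mk' V.toSubgroup (n : G)) ∈ N' := Subgroup.mem_map_of_mem _ n.2
  have e : (((n : G) * g : G) : G ⧸ V.toSubgroup) * (r (((n : G) * g : G) : G ⧸ V.toSubgroup))⁻¹ =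
      (QuotientGroup.mk' V.toSubgroup (n : G)) *
        ((g : G ⧸ V.toSubgroup) * (r (g : G ⧸ V.toSubgroup))⁻¹) := by
    have e1 : (((n : G) * g : G) : G ⧸ V.toSubgroup) =
        (QuotientGroup.mk' V.toSubgroup (n : G)) * (g : G ⧸ V.toSubgroup) := rfl
    rw [e1, hr2 _ hmem, mul_assoc]
  have hmem2 : (QuotientGroup.mk' V.toSubgroup (n : G)) *
        ((g : G ⧸ V.toSubgroup) * (r (g : G ⧸ V.toSubgroup))⁻¹) ∈ N' := by
    rw [← e]; exact hr1 _
  have h1 := hf n ⟨_, hr1 (g : G ⧸ V.toSubgroup)⟩ hmem2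
  rw [← h1]
  congr 1
  exact Subtype.ext e

/-- continuous 2-cocycles (trivial action) -/
def IsCocycle {H : Type*} [Group H] [TopologicalSpace H] (c : H → H → ZMod p) : Prop :=
  Continuous (fun q : H × H => c q.1 q.2) ∧
    ∀ a b d, c a b + c (a * b) d = c b d + c a (b * d)

/-- coboundaries of continuous 1-cochains (trivial action) -/
def IsCobdry {H : Type*} [Group H] [TopologicalSpace H] (c : H → H → ZMod p) : Prop :=
  ∃ f : H → ZMod p, Continuous f ∧ ∀ a b, c a b = f a + f b - f (a * b)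

variable {Γ : Type*} [Group Γ] [TopologicalSpace Γ] [IsTopologicalGroup Γ] [T2Space Γ]

omit [TotallyDisconnectedSpace G] [IsTopologicalGroup Γ] in
/-- the transgression cocycle of an admissible homomorphism -/
lemma exists_cocycle (π : G →* Γ) (hπ : Continuous π) (hsurj : Function.Surjective π)
    (φ : π.ker → ZMod p)
    (hinv : ∀ (g : G) (n : π.ker), φ ⟨g * n * g⁻¹, π.normal_ker.conj_mem n n.2 g⟩ = φ n)
    (η : G → ZMod p) (hη : Continuous η) (hηφ : ∀ (n : π.ker) (g : G), η (n * g) = φ n + η g) :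
    ∃ c : Γ → Γ → ZMod p, IsCocycle c ∧ ∀ g g' : G, c (π g) (π g') = η (g * g') - η g - η g' := by
  have hηr : ∀ (g : G) (n : π.ker), η (g * n) = η g + φ n := by
    intro g n
    have h1 := hηφ ⟨g * n * g⁻¹, π.normal_ker.conj_mem n n.2 g⟩ g
    simp only [inv_mul_cancel_right] at h1
    rw [h1, hinv, add_comm]
  let s : Γ → G := Function.surjInv hsurj
  have hs : ∀ γ, π (s γ) = γ := Function.surjInv_eq hsurj
  have hdec : ∀ g : G, ∃ n : π.ker, s (π g) = n * g := by
    intro g
    refine ⟨⟨s (π g) * g⁻¹, ?_⟩, ?_⟩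
    · rw [MonoidHom.mem_ker, map_mul, map_inv, hs, mul_inv_cancel]
    · simp
  let c : Γ → Γ → ZMod p := fun a b => η (s a * s b) - η (s a) - η (s b)
  have hc : ∀ g g' : G, c (π g) (π g') = η (g * g') - η g - η g' := by
    intro g g'
    obtain ⟨n, hn⟩ := hdec g
    obtain ⟨n', hn'⟩ := hdec g'
    simp only [c]
    rw [hn, hn']
    have h1 : (n : G) * g * (n' * g') =
        n * ((⟨g * n' * g⁻¹, π.normal_ker.conj_mem n' n'.2 g⟩ : π.ker) * (g * g')) := by
      simp only
      group
    rw [h1, hηφ, hηφ, hinv, hηφ, hηφ]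
    ring
  refine ⟨c, ⟨?_, ?_⟩, hc⟩
  · have hq : IsQuotientMap (fun q : G × G => (π q.1, π q.2)) := by
      have hcont : Continuous (fun q : G × G => (π q.1, π q.2)) :=
        (hπ.comp continuous_fst).prodMk (hπ.comp continuous_snd)
      refine IsClosedMap.isQuotientMap hcont.isClosedMap hcont ?_
      rintro ⟨a, b⟩
      obtain ⟨g, rfl⟩ := hsurj a
      obtain ⟨g', rfl⟩ := hsurj b
      exact ⟨(g, g'), rfl⟩
    rw [hq.continuous_iff]
    have : ((fun q : Γ × Γ => c q.1 q.2) ∘ fun q : G × G => (π q.1, π q.2)) =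
        fun q : G × G => η (q.1 * q.2) - η q.1 - η q.2 := by
      funext q
      exact hc q.1 q.2
    rw [this]
    have h1 : Continuous (fun q : G × G => η (q.1 * q.2)) :=
      hη.comp (continuous_fst.mul continuous_snd)
    exact (h1.sub (hη.comp continuous_fst)).sub (hη.comp continuous_snd)
  · intro a b d
    obtain ⟨a, rfl⟩ := hsurj a
    obtain ⟨b, rfl⟩ := hsurj b
    obtain ⟨d, rfl⟩ := hsurj d
    rw [← map_mul, ← map_mul, hc, hc, hc, hc, mul_assoc]
    ring

omit [IsTopologicalGroup Γ] in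
/-- the key finiteness: infinitely many cocycle classes on every open subgroup -/
theorem many_classes (π : G →* Γ) (hπ : Continuous π) (hsurj : Function.Surjective π)
    (hG : IsProP p G) (hfin : Finite (CHom p G)) (H : Subgroup Γ) (hH : IsOpen (H : Set Γ)) :
    ∃ c : {φ : π.ker → ZMod p // Adm p π.ker φ} → (H → H → ZMod p),
      (∀ φ, IsCocycle (c φ)) ∧
      ∀ φ₀, {φ | IsCobdry (fun a b => c φ a b - c φ₀ a b)}.Finite := by
  classical
  have hex0 : ∀ φ : {φ : π.ker → ZMod p // Adm p π.ker φ}, ∃ η : G → ZMod p, Continuous η ∧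
      ∀ (n : π.ker) (g : G), η (n * g) = φ.1 n + η g := fun φ => φ.2.2.2
  choose η hη hηφ using hex0
  have hex1 : ∀ φ : {φ : π.ker → ZMod p // Adm p π.ker φ}, ∃ c : Γ → Γ → ZMod p, IsCocycle c ∧
      ∀ g g' : G, c (π g) (π g') = η φ (g * g') - η φ g - η φ g' := fun φ =>
    exists_cocycle π hπ hsurj φ.1 φ.2.2.1 (η φ) (hη φ) (hηφ φ)
  choose c hc hcη using hex1
  refine ⟨fun φ a b => c φ a b, fun φ => ⟨?_, fun a b d => ?_⟩, fun φ₀ => ?_⟩
  · exact (hc φ).1.comp ((continuous_subtype_val.comp continuous_fst).prodMk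
      (continuous_subtype_val.comp continuous_snd))
  · exact (hc φ).2 a b d
  · let U : Subgroup G := H.comap π
    have hU : IsOpen (U : Set G) := hH.preimage hπ
    have hUfin : Finite (CHom p U) := finite_chom_open hG hfin U hU
    have hex : ∀ φ : {φ | IsCobdry (fun a b : H => c φ a b - c φ₀ a b)},
        ∃ ψ : CHom p U, ∀ (n : π.ker) (hn : (n : G) ∈ U),
          Multiplicative.toAdd (ψ.1 ⟨n, hn⟩) = φ.1.1 n - φ₀.1 n := by
      rintro ⟨φ, f, hf, hcf⟩
      let ψ : U → ZMod p := fun u => η φ u - η φ₀ u + f ⟨π u, u.2⟩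
      have hψm : ∀ u v : U, ψ (u * v) = ψ u + ψ v := by
        intro u v
        have h1 := hcf ⟨π u, u.2⟩ ⟨π v, v.2⟩
        simp only [hcη] at h1
        have h2 : f (⟨π u, u.2⟩ * ⟨π v, v.2⟩) = f ⟨π (u * v : U), (u * v).2⟩ := by
          congr 1
          apply Subtype.ext
          simp
        rw [h2] at h1
        simp only [ψ, Subgroup.coe_mul] at h1 ⊢
        linear_combination h1
      have hψ1 : ψ 1 = 0 := by
        have := hψm 1 1
        rw [mul_one] at this
        linear_combination -this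
      have hψc : Continuous ψ := by
        have h1 : Continuous (fun u : U => (⟨π u, u.2⟩ : H)) :=
          (hπ.comp continuous_subtype_val).subtype_mk _
        exact (((hη φ).comp continuous_subtype_val).sub
          ((hη φ₀).comp continuous_subtype_val)).add (hf.comp h1)
      refine ⟨⟨{ toFun := fun u => Multiplicative.ofAdd (ψ u), map_one' := ?_, map_mul' := ?_ }, ?_⟩,
        ?_⟩
      · rw [hψ1, ofAdd_zero]
      · intro u v; rw [hψm, ofAdd_add]
      · exact continuous_ofAdd.comp hψc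
      · intro n hn
        show ψ ⟨n, hn⟩ = _
        simp only [ψ] at hψ1 ⊢
        have h1 := hηφ φ n 1
        have h2 := hηφ φ₀ n 1
        rw [mul_one] at h1 h2
        have h3 : f ⟨π n, hn⟩ = f ⟨π (1 : U), (1 : U).2⟩ := by
          congr 1
          apply Subtype.ext
          show π n = π (1 : U)
          rw [n.2]; simp
        rw [h1, h2, h3]
        simp only [Subgroup.coe_one] at hψ1 ⊢
        linear_combination hψ1
    choose ψ hψ using hex
    have hinj : Function.Injective ψ := by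
      intro φ φ' h
      apply Subtype.ext
      apply Subtype.ext
      funext n
      have hn : (n : G) ∈ U := by
        show π n ∈ H
        rw [n.2]; exact one_mem _
      have h1 := hψ φ n hn
      have h2 := hψ φ' n hn
      rw [h] at h1
      linear_combination h2 - h1
    have hfinal := Finite.of_injective ψ hinj
    exact Set.toFinite _

end Pool.Agent.MP722186.M4

namespace Pool.Agent.Lib.MP_722186_nt

theorem H2_not_finite_aux (p : ℕ) [hp : Fact p.Prime] {G Γ : Type*} [Group G] [TopologicalSpace G]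
    [Group Γ] [TopologicalSpace Γ] [T2Space Γ] [IsTopologicalGroup G] [CompactSpace G]
    [TotallyDisconnectedSpace G] (hG : IsProP p G)
    (hfin : Module.Finite (ZMod p) (HomC p G)) (π : G →* Γ) (hπ : Continuous π)
    (hsurj : Function.Surjective π)
    (hinf : Infinite {φ : π.ker → ZMod p // MP722186.M4.Adm p π.ker φ})
    (H : Subgroup Γ) (hH : IsOpen (H : Set Γ)) : ¬ Module.Finite (ZMod p) (H2 p H) := by
  have hG' : MP722186.M4.IsProP p G := by
    intro V hV hVo
    obtain ⟨k, hk⟩ := hG.index V hV hVo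
    have hcard : Nat.card (G ⧸ V) = p ^ k := hk
    exact IsPGroup.of_card hcard
  have hfin' : Finite (MP722186.M4.CHom p G) := by
    have hf : Finite (HomC p G) := Module.finite_of_finite (ZMod p)
    let j : MP722186.M4.CHom p G → HomC p G := fun f =>
      ⟨fun g => Multiplicative.toAdd (f.1 g), continuous_toAdd.comp f.2, fun g h => by
        simp only [map_mul, toAdd_mul]⟩
    refine Finite.of_injective j ?_
    intro f f' hff
    apply Subtype.ext
    refine MonoidHom.ext (fun g => ?_)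
    have := congrFun (congrArg Subtype.val hff) g
    exact Multiplicative.toAdd.injective this
  obtain ⟨c, hc, hcf⟩ := MP722186.M4.many_classes π hπ hsurj hG' hfin' H hH
  intro hfd
  have hH2 : Finite (H2 p H) := Module.finite_of_finite (ZMod p)
  let cl : {φ : π.ker → ZMod p // MP722186.M4.Adm p π.ker φ} → H2 p H := fun φ =>
    Submodule.Quotient.mk ⟨c φ, hc φ⟩
  obtain ⟨y, hy⟩ := Finite.exists_infinite_fiber cl
  obtain ⟨φ₀⟩ := hy.nonempty
  have hsub : (cl ⁻¹' {y}) ⊆ {φ | MP722186.M4.IsCobdry (fun a b => c φ a b - c φ₀ a b)} := by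
    intro φ hφ
    have h4 : cl φ = cl φ₀ := by
      have h5 : cl φ = y := hφ
      have h6 : cl φ₀ = y := φ₀.2
      rw [h5, h6]
    have h7 := (Submodule.Quotient.eq _).1 h4
    have h8 : (((⟨c φ, hc φ⟩ : Z2 p H) - ⟨c φ₀, hc φ₀⟩ : Z2 p H) : H → H → ZMod p) ∈ B2 p H := h7
    obtain ⟨f, hf, hfe⟩ := h8
    exact ⟨f, hf, hfe⟩
  have h8 : (cl ⁻¹' {y}).Finite := (hcf φ₀).subset hsub
  exact h8.not_infinite (Set.infinite_coe_iff.1 hy)

/-- version with the kernel not finitely generated as a closed normal subgroup -/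
theorem H2_not_finite (p : ℕ) [hp : Fact p.Prime] {G Γ : Type*} [Group G] [TopologicalSpace G]
    [Group Γ] [TopologicalSpace Γ] [T2Space Γ] (hG : IsProP p G)
    (hfin : Module.Finite (ZMod p) (HomC p G)) (π : G →* Γ) (hπ : Continuous π)
    (hsurj : Function.Surjective π)
    (hnf : ∀ X : Set G, X.Finite → closure ((Subgroup.normalClosure X : Subgroup G) : Set G) ≠ π.ker)
    (H : Subgroup Γ) (hH : IsOpen (H : Set Γ)) : ¬ Module.Finite (ZMod p) (H2 p H) := by
  have h1 := hG.topological
  have h2 := hG.compact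
  have h3 := hG.totallyDisconnected
  have hG' : MP722186.M4.IsProP p G := by
    intro V hV hVo
    obtain ⟨k, hk⟩ := hG.index V hV hVo
    have hcard : Nat.card (G ⧸ V) = p ^ k := hk
    exact IsPGroup.of_card hcard
  have hnf' : ∀ X : Set G, X.Finite →
      (Subgroup.normalClosure X).topologicalClosure ≠ π.ker := by
    intro X hX h
    apply hnf X hX
    rw [← h, Subgroup.topologicalClosure_coe]
  have hker : IsClosed (π.ker : Set G) := by
    have : (π.ker : Set G) = π ⁻¹' {1} := by ext; simp [MonoidHom.mem_ker]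
    rw [this]
    exact isClosed_singleton.preimage hπ
  exact H2_not_finite_aux p hG hfin π hπ hsurj
    (MP722186.M4.infinite_adm hG' π.ker hker hnf') H hH

/-- version with infinitely many continuous `G`-invariant homomorphisms on the kernel -/
theorem H2_not_finite_of_inv (p : ℕ) [hp : Fact p.Prime] {G Γ : Type*} [Group G]
    [TopologicalSpace G] [Group Γ] [TopologicalSpace Γ] [T2Space Γ] (hG : IsProP p G)
    (hfin : Module.Finite (ZMod p) (HomC p G)) (π : G →* Γ) (hπ : Continuous π)
    (hsurj : Function.Surjective π)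
    (hinf : Infinite {φ : π.ker → ZMod p // Continuous φ ∧ (∀ a b : π.ker, φ (a * b) = φ a + φ b) ∧
      ∀ (g : G) (n : π.ker), φ ⟨g * n * g⁻¹, π.normal_ker.conj_mem n n.2 g⟩ = φ n})
    (H : Subgroup Γ) (hH : IsOpen (H : Set Γ)) : ¬ Module.Finite (ZMod p) (H2 p H) := by
  have h1 := hG.topological
  have h2 := hG.compact
  have h3 := hG.totallyDisconnected
  refine H2_not_finite_aux p hG hfin π hπ hsurj ?_ H hH
  let j : {φ : π.ker → ZMod p // Continuous φ ∧ (∀ a b : π.ker, φ (a * b) = φ a + φ b) ∧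
      ∀ (g : G) (n : π.ker), φ ⟨g * n * g⁻¹, π.normal_ker.conj_mem n n.2 g⟩ = φ n} →
      {φ : π.ker → ZMod p // MP722186.M4.Adm p π.ker φ} := fun φ =>
    ⟨φ.1, MP722186.M4.adm_of_continuous π.ker φ.1 φ.2.1 φ.2.2.1 φ.2.2.2⟩
  refine Infinite.of_injective j ?_
  intro a b h
  apply Subtype.ext
  have h4 := congrArg (fun z => z.1) h
  exact h4

end Pool.Agent.Lib.MP_722186_nt
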