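import Pool.Agent.Lib.MP_722186_nt.OmegaHom
import Pool.Agent.Lib.MP_722186_nt.M4

/-!
# Quotients of `Gal(Omega K / K)`
-/

namespace Pool.Agent.Lib.MP_722186_nt

open NumberField Topology

variable {K : Type*} [Field K]

section restriction

variable {E F : IntermediateField K (AlgebraicClosure K)}

/-- The restriction map between Galois groups. -/
noncomputable def resHom (hEF : E ≤ F) [Normal K E] : (F ≃ₐ[K] F) →* (E ≃ₐ[K] E) :=
  letI := (IntermediateField.inclusion hEF).toRingHom.toAlgebra
  haveI : IsScalarTower K E F := IsScalarTower.of_algebraMap_eq (fun _ => rfl)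
  AlgEquiv.restrictNormalHom E

lemma resHom_apply (hEF : E ≤ F) [Normal K E] (g : F ≃ₐ[K] F) (x : E) :
    ((resHom hEF g x : E) : AlgebraicClosure K) = g ⟨x, hEF x.2⟩ := by
  let := (IntermediateField.inclusion hEF).toRingHom.toAlgebra
  have : IsScalarTower K E F := IsScalarTower.of_algebraMap_eq (fun _ => rfl)
  exact congrArg Subtype.val (AlgEquiv.restrictNormal_commutes g E x)

lemma resHom_surjective (hEF : E ≤ F) [Normal K E] [Normal K F] :
    Function.Surjective (resHom hEF) := by
  let := (IntermediateField.inclusion hEF).toRingHom.toAlgebra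
  have : IsScalarTower K E F := IsScalarTower.of_algebraMap_eq (fun _ => rfl)
  exact AlgEquiv.restrictNormalHom_surjective (K₁ := E) (F := K) F

lemma resHom_continuous (hEF : E ≤ F) [Normal K E] : Continuous (resHom hEF) := by
  apply continuous_of_continuousAt_one _ (continuousAt_def.mpr _)
  intro s hs
  rw [map_one, krullTopology_mem_nhds_one_iff] at hs
  obtain ⟨M, hM, hMs⟩ := hs
  rw [krullTopology_mem_nhds_one_iff]
  refine ⟨IntermediateField.restrict ((IntermediateField.lift_le M).trans hEF), ?_, ?_⟩
  · have h1 : FiniteDimensional K (IntermediateField.lift M) :=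
      Module.Finite.equiv (IntermediateField.liftAlgEquiv M).toLinearEquiv
    exact Module.Finite.equiv (IntermediateField.restrictAlgEquiv
      ((IntermediateField.lift_le M).trans hEF)).toLinearEquiv
  · intro g hg
    apply hMs
    intro x
    apply Subtype.ext
    show ((resHom hEF g (x : E) : E) : AlgebraicClosure K) = _
    rw [resHom_apply]
    have h2 := hg ⟨⟨((x : E) : AlgebraicClosure K), hEF (x : E).2⟩,
      (IntermediateField.mem_restrict _ _).mpr ((IntermediateField.mem_lift (x : E)).mpr x.2)⟩
    exact congrArg Subtype.val h2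

end restriction

lemma exists_normal_ge [CharZero K] {L : IntermediateField K (AlgebraicClosure K)} [Normal K L]
    {E : IntermediateField K (AlgebraicClosure K)} [FiniteDimensional K E] (hEL : E ≤ L) :
    ∃ E' : IntermediateField K (AlgebraicClosure K), FiniteDimensional K E' ∧ IsGalois K E' ∧
      E ≤ E' ∧ E' ≤ L := by
  let E' : IntermediateField K (AlgebraicClosure K) :=
    IntermediateField.normalClosure K E (AlgebraicClosure K)
  have hfin : FiniteDimensional K E' := inferInstance
  have hnor : Normal K E' := inferInstance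
  exact ⟨E', hfin, { to_isSeparable := inferInstance, to_normal := hnor },
    IntermediateField.le_normalClosure E, IntermediateField.normalClosure_le_iff_of_normal.mpr hEL⟩

lemma isPGroup_quotient_of_le [CharZero K] {L : IntermediateField K (AlgebraicClosure K)}
    [Normal K L] (hL : L ≤ Omega K) (U : Subgroup (L ≃ₐ[K] L)) [U.Normal]
    (hU : IsOpen (U : Set (L ≃ₐ[K] L))) : IsPGroup 2 ((L ≃ₐ[K] L) ⧸ U) := by
  have h1 : (U : Set (L ≃ₐ[K] L)) ∈ 𝓝 1 := hU.mem_nhds U.one_mem
  rw [krullTopology_mem_nhds_one_iff] at h1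
  obtain ⟨E, hE, hEU⟩ := h1
  have hfin : FiniteDimensional K (IntermediateField.lift E) :=
    Module.Finite.equiv (IntermediateField.liftAlgEquiv E).toLinearEquiv
  obtain ⟨F, hFfin, hFgal, hEF, hFL⟩ := exists_normal_ge (IntermediateField.lift_le E)
  obtain ⟨k, hk⟩ := finrank_of_le_Omega (hFL.trans hL)
  have hFp : IsPGroup 2 (F ≃ₐ[K] F) := IsPGroup.of_card (n := k) (by
    rw [IsGalois.card_aut_eq_finrank K F, hk])
  intro g
  obtain ⟨g, rfl⟩ := QuotientGroup.mk_surjective g
  obtain ⟨j, hj⟩ := pow_fix hFL hFp g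
  refine ⟨j, ?_⟩
  rw [← QuotientGroup.mk_pow, QuotientGroup.eq_one_iff]
  apply hEU
  intro x
  exact hj _ (hEF ((IntermediateField.mem_lift (x : L)).mpr x.2))

lemma isProP_of_le [CharZero K] {L : IntermediateField K (AlgebraicClosure K)}
    [IsGalois K L] (hL : L ≤ Omega K) : IsProP 2 (L ≃ₐ[K] L) where
  topological := inferInstance
  compact := inferInstance
  hausdorff := inferInstance
  totallyDisconnected := inferInstance
  index := by
    intro U hU hUo
    have : Fact (Nat.Prime 2) := ⟨Nat.prime_two⟩
    have h1 := isPGroup_quotient_of_le hL U hUo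
    have h2 : Finite ((L ≃ₐ[K] L) ⧸ U) := Subgroup.quotient_finite_of_isOpen U hUo
    obtain ⟨n, hn⟩ := h1.exists_card_eq
    exact ⟨n, hn⟩

lemma isTamePro_of_le [NumberField K] {L : IntermediateField K (AlgebraicClosure K)}
    [IsGalois K L] (hL : L ≤ Omega K) (hinf : Infinite (L ≃ₐ[K] L)) : IsTamePro K L 2 := by
  have hunr : UnramExt K L := unramExt_of_le_Omega hL
  have hno : ∀ v : Ideal (𝓞 K), ¬ RamifiesIn K L v := by
    rintro v ⟨P, hP, -, g, hg, hI⟩
    exact hg (hunr P hP g hI)
  refine ⟨inferInstance, hinf, isProP_of_le hL, ?_, fun v _ _ hv => absurd hv (hno v)⟩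
  convert Set.finite_empty
  ext v
  simp [hno v]

/-- The quotient of `Gal(Omega K / K)` by a closed normal subgroup which is not open and not
the closed normal closure of a finite set is a counterexample. -/
theorem exists_field_of_subgroup [NumberField K] (N : Subgroup (Omega K ≃ₐ[K] Omega K))
    (hN : N.Normal) (hc : IsClosed (N : Set (Omega K ≃ₐ[K] Omega K)))
    (ho : ¬ IsOpen (N : Set (Omega K ≃ₐ[K] Omega K)))
    (hX : ∀ X : Set (Omega K ≃ₐ[K] Omega K), X.Finite →
      closure ((Subgroup.normalClosure X : Subgroup (Omega K ≃ₐ[K] Omega K)) :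
        Set (Omega K ≃ₐ[K] Omega K)) ≠ (N : Set (Omega K ≃ₐ[K] Omega K))) :
    ∃ L : IntermediateField K (AlgebraicClosure K), IsTamePro K L 2 ∧
      ∀ U : Subgroup (L ≃ₐ[K] L), IsOpen (U : Set (L ≃ₐ[K] L)) →
        ¬ Module.Finite (ZMod 2) (H2 2 U) := by
  let L₀ : IntermediateField K (Omega K) := IntermediateField.fixedField N
  have hfix : L₀.fixingSubgroup = N :=
    InfiniteGalois.fixingSubgroup_fixedField ⟨N, hc⟩
  have hgal₀ : IsGalois K L₀ := by
    rw [← InfiniteGalois.normal_iff_isGalois, hfix]
    exact hN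
  let L : IntermediateField K (AlgebraicClosure K) := IntermediateField.lift L₀
  have hgal : IsGalois K L := IsGalois.of_algEquiv (IntermediateField.liftAlgEquiv L₀)
  have hL : L ≤ Omega K := IntermediateField.lift_le L₀
  have hker : (resHom hL).ker = N := by
    ext g
    rw [MonoidHom.mem_ker, ← hfix]
    constructor
    · intro h x
      have h1 := resHom_apply hL g ⟨((x : Omega K) : AlgebraicClosure K),
        (IntermediateField.mem_lift (x : Omega K)).mpr x.2⟩
      rw [h] at h1
      apply Subtype.ext
      exact h1.symm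
    · intro h
      ext x
      rw [resHom_apply]
      have hx : (⟨x, hL x.2⟩ : Omega K) ∈ L₀ :=
        (IntermediateField.mem_lift (⟨x, hL x.2⟩ : Omega K)).mp x.2
      exact congrArg Subtype.val (h ⟨_, hx⟩)
  have hinf : Infinite (L ≃ₐ[K] L) := by
    by_contra hcon
    rw [not_infinite_iff_finite] at hcon
    apply ho
    have : DiscreteTopology (L ≃ₐ[K] L) := inferInstance
    have h1 : (N : Set (Omega K ≃ₐ[K] Omega K)) = resHom hL ⁻¹' {1} := by
      rw [← hker]
      ext g
      simp [MonoidHom.mem_ker]
    rw [h1]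
    exact (isOpen_discrete _).preimage (resHom_continuous hL)
  refine ⟨L, isTamePro_of_le hL hinf, fun U hU => ?_⟩
  have : Fact (Nat.Prime 2) := ⟨Nat.prime_two⟩
  have hfin : Finite (HomC 2 (Omega K ≃ₐ[K] Omega K)) := finite_HomC_Omega
  refine H2_not_finite 2 (isProP_of_le le_rfl) Module.Finite.of_finite (resHom hL)
    (resHom_continuous hL) (resHom_surjective hL) ?_ U hU
  intro X hXf
  rw [hker]
  exact hX X hXf

end Pool.Agent.Lib.MP_722186_nt
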