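import Pool.Agent.Lib.MP_722186_nt.GenusRank
import Pool.Agent.Lib.MP_722186_nt.OmegaQuot

/-!
# A concrete imaginary quadratic field with many ramified primes
-/

namespace Pool.Agent.Lib.MP_722186_nt

open NumberField Polynomial

/-- Ten odd primes. -/
def primes10 : Finset ℕ := {5, 7, 11, 13, 17, 19, 23, 29, 31, 37}

/-- The product of the ten primes. -/
def bigD : ℕ := ∏ p ∈ primes10, p

lemma prime_of_mem_primes10 : ∀ p ∈ primes10, p.Prime := by
  intro p hp
  simp only [primes10, Finset.mem_insert, Finset.mem_singleton] at hp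
  rcases hp with rfl | rfl | rfl | rfl | rfl | rfl | rfl | rfl | rfl | rfl <;> norm_num

lemma card_primes10 : primes10.card = 10 := by decide

lemma primeFactors_bigD : bigD.primeFactors = primes10 :=
  Nat.primeFactors_prod prime_of_mem_primes10

lemma bigD_mod : bigD % 4 = 3 := by decide

lemma squarefree_bigD : Squarefree bigD := by
  apply Finset.squarefree_prod_of_pairwise_isCoprime
  · intro p hp q hq hpq
    show IsRelPrime p q
    rw [← Nat.coprime_iff_isRelPrime]
    exact (Nat.coprime_primes (prime_of_mem_primes10 p hp) (prime_of_mem_primes10 q hq)).mpr hpq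
  · intro p hp
    exact (prime_of_mem_primes10 p hp).prime.squarefree

/-- The polynomial `X² + D`. -/
noncomputable def polyD : ℚ[X] := X ^ 2 + C (bigD : ℚ)

lemma polyD_natDegree : polyD.natDegree = 2 := natDegree_X_pow_add_C

lemma polyD_monic : polyD.Monic := monic_X_pow_add_C _ two_ne_zero

lemma irreducible_polyD : Irreducible polyD := by
  rw [Polynomial.irreducible_iff_roots_eq_zero_of_degree_le_three]
  · rw [Multiset.eq_zero_iff_forall_notMem]
    intro x hx
    rw [mem_roots polyD_monic.ne_zero, IsRoot.def, polyD] at hx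
    simp only [eval_add, eval_pow, eval_X, eval_C] at hx
    have h1 : (0 : ℚ) < bigD := by
      have : 0 < bigD := by decide
      exact_mod_cast this
    nlinarith [sq_nonneg x]
  · rw [polyD_natDegree]
  · rw [polyD_natDegree]; norm_num

instance : Fact (Irreducible polyD) := ⟨irreducible_polyD⟩

/-- The imaginary quadratic field `ℚ(√-D)`. -/
abbrev KD : Type := AdjoinRoot polyD

lemma imQuad_KD : ImQuad KD bigD (AdjoinRoot.root polyD) where
  rank := by
    have h1 := (AdjoinRoot.powerBasis polyD_monic.ne_zero).finrank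
    rw [AdjoinRoot.powerBasis_dim, polyD_natDegree] at h1
    rw [← h1]
  sq := by
    have h1 := AdjoinRoot.eval₂_root polyD
    rw [polyD, eval₂_add, eval₂_pow, eval₂_X, eval₂_C] at h1
    have h2 : (AdjoinRoot.of (X ^ 2 + C (bigD : ℚ))) (bigD : ℚ) = (bigD : AdjoinRoot polyD) :=
      map_natCast _ _
    have h3 : (AdjoinRoot.root polyD) ^ 2 + (bigD : AdjoinRoot polyD) = 0 := by
      rw [← h2]; exact h1
    linear_combination h3
  mod := bigD_mod
  sqf := squarefree_bigD

end Pool.Agent.Lib.MP_722186_nt
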