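import Pool.Agent.Lib.MP_722186_nt.NormStep
import Pool.Agent.Lib.MP_722186_nt.CExt

/-!
# Module 6 (helper22): `±1`-valued cocycles of unramified `2`-extensions are coboundaries
-/

namespace Pool.Agent.Lib.MP_722186_nt

open NumberField IsDedekindDomain
open scoped Pointwise

section

variable {K L : Type} [Field K] [NumberField K] [Field L] [NumberField L] [Algebra K L]
  [IsGalois K L]

/-- Hilbert 90 for subgroups. -/
theorem H90_subgroup (H : Subgroup (L ≃ₐ[K] L)) (c : (L ≃ₐ[K] L) → Lˣ)
    (hc : ∀ h ∈ H, ∀ k ∈ H, c (h * k) = c h * h • c k) :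
    ∃ x : Lˣ, ∀ h ∈ H, c h = x / (h • x) := by
  let k : IntermediateField K L := FixedPoints.intermediateField H
  let e := IsGaloisGroup.mulEquivAlgEquiv H k L
  have he : ∀ (h : H) (x : L), e h x = (h : L ≃ₐ[K] L) x := fun h x => rfl
  obtain ⟨β, hβ⟩ := groupCohomology.isMulCoboundary₁_of_isMulCocycle₁_of_aut_to_units
    (K := k) (L := L) (fun τ => c (e.symm τ)) (by
      intro g h
      show c (e.symm (g * h)) = g • c (e.symm h) * c (e.symm g)
      rw [map_mul, Subgroup.coe_mul, hc _ (e.symm g).2 _ (e.symm h).2, mul_comm]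
      congr 1
      ext
      show ((e.symm g : L ≃ₐ[K] L)) (c (e.symm h) : L) = g (c (e.symm h) : L)
      rw [← he, e.apply_symm_apply])
  refine ⟨β⁻¹, fun h hh => ?_⟩
  have h1 := hβ (e ⟨h, hh⟩)
  simp only [e.symm_apply_apply] at h1
  rw [← h1]
  have h2 : e ⟨h, hh⟩ • β = h • β := by
    ext
    rfl
  rw [h2, smul_inv', div_inv_eq_mul, div_eq_inv_mul]

/-- MODULE 6. -/
theorem cocycle_pm_one (hHN : HNStatement) (h2 : TwoUnr K) (hc : IsTotallyComplex K)
    (hL : GoodExt K L) (f : (L ≃ₐ[K] L) → (L ≃ₐ[K] L) → Lˣ)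
    (hf : ∀ g h k, f g h * f (g * h) k = g • f h k * f g (h * k))
    (hf1 : ∀ g h, f g h = 1 ∨ f g h = -1) :
    ∃ x : (L ≃ₐ[K] L) → Lˣ, ∀ g h, f g h = x g * g • x h / x (g * h) := by
  obtain ⟨n, hn⟩ := hL.pow
  refine cocycle_split n (by rw [IsGalois.card_aut_eq_finrank, hn]) hf
    (X := HeightOneSpectrum (𝓞 L)) (fun a w => vv w (a : L)) ?_ ?_ ?_ H90_subgroup ?_
  · intro a b w
    exact vv_mul w a.ne_zero b.ne_zero
  · intro g a w
    exact vv_smul g w (a : L)
  · intro g h w
    rcases hf1 g h with h1 | h1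
    · rw [h1]; exact vv_one w
    · rw [h1]
      show vv w (-1 : L) = 0
      rw [vv_neg, vv_one]
  · intro H K' hKH hidx σ hσ hσK a ha y hy hay
    let k : IntermediateField K L := FixedPoints.intermediateField H
    let M : IntermediateField K L := FixedPoints.intermediateField K'
    have hkM : k ≤ M := IsGaloisGroup.fixedPoints_le_of_le (L ≃ₐ[K] L) K L K' H hKH
    let _ : Algebra k M := (IntermediateField.inclusion hkM).toRingHom.toAlgebra
    have : IsScalarTower k M L := IsScalarTower.of_algebraMap_eq (fun x => rfl)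
    have hun1 : Unr k L := Unr.tower_top (K := K) (k := k) (L := L) hL.unr
    have hun2 : Unr K k := Unr.tower_bot (K := K) (k := k) (L := L) hL.unr
    have h2k : TwoUnr k := TwoUnr.top (K := K) (L := k) h2 hun2
    have hck : IsTotallyComplex k := by
      have := hc
      exact isTotallyComplex_of_algebra K k
    obtain ⟨b, hb0, hb1, hb2⟩ := norm_step (G := (L ≃ₐ[K] L)) (k := k) (M := M) (L := L) H K' hHN
      hKH hidx hun1 h2k hck σ hσ hσK (a : L) a.ne_zero (by
        intro h hh
        exact congrArg Units.val (ha h hh)) y hy hay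
    refine ⟨Units.mk0 b hb0, ?_, ?_⟩
    · intro h hh
      ext
      exact hb1 h hh
    · ext
      exact hb2

end

end Pool.Agent.Lib.MP_722186_nt
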