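import Pool.Agent.Lib.MP_722186_nt.RelBound

/-!
# Module 7 (helper22): final form of the relation bound
-/

namespace Pool.Agent.Lib.MP_722186_nt

open NumberField IsDedekindDomain Topology
open scoped Pointwise nonZeroDivisors

section level

variable {K L : Type} [Field K] [NumberField K] [Field L] [NumberField L] [Algebra K L]

/-- Level-`L` data for one cocycle. -/
theorem level_data (hHN : HNStatement) (h2 : TwoUnr K) (hc : IsTotallyComplex K)
    (hL : GoodExt K L)
    (fb : (L ≃ₐ[K] L) → (L ≃ₐ[K] L) → ZMod 2)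
    (hfb : ∀ g h k, fb g h + fb (g * h) k = fb h k + fb g (h * k)) :
    ∃ (x : (L ≃ₐ[K] L) → L) (α : L), α ≠ 0 ∧ (∀ g, x g ≠ 0) ∧
      (∀ g h, (sg (fb g h) : L) * x (g * h) = x g * g (x h)) ∧ ∀ g, g α = (x g) ^ 2 * α := by
  have := hL.gal
  have hsm : ∀ (g : L ≃ₐ[K] L) (a : ZMod 2), g • (sg a : Lˣ) = sg a := by
    intro g a
    rcases zmod2_cases a with h | h
    · rw [h, sg_zero, smul_one]
    · rw [h, sg_one]
      ext
      show g (-1 : L) = -1
      rw [map_neg, map_one]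
  obtain ⟨x, hx⟩ := cocycle_pm_one hHN h2 hc hL (fun g h => (sg (fb g h) : Lˣ)) (by
    intro g h k
    show (sg (fb g h) : Lˣ) * sg (fb (g * h) k) = g • (sg (fb h k) : Lˣ) * sg (fb g (h * k))
    rw [hsm, ← sg_add, ← sg_add, hfb]) (fun g h => sg_eq _)
  obtain ⟨a, ha⟩ := H90_subgroup (K := K) (L := L) ⊤ (fun g => (x g) ^ 2) (by
    intro g _ h _
    show (x (g * h)) ^ 2 = (x g) ^ 2 * g • (x h) ^ 2
    have h1 := hx g h
    have h3 : (sg (fb g h) : Lˣ) ^ 2 = 1 := by
      rcases sg_eq (M := Lˣ) (fb g h) with h4 | h4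
      · rw [h4, one_pow]
      · rw [h4, neg_one_sq]
    rw [h1, div_pow, mul_pow, div_eq_one, ← smul_pow'] at h3
    exact h3.symm)
  have hsgu : ∀ b : ZMod 2, ((sg b : Lˣ) : L) = sg b := by
    intro b
    rcases zmod2_cases b with h | h
    · rw [h, sg_zero, sg_zero]; rfl
    · rw [h, sg_one, sg_one]; rfl
  refine ⟨fun g => (x g : L), ((a⁻¹ : Lˣ) : L), (a⁻¹).ne_zero, fun g => (x g).ne_zero,
    fun g h => ?_, fun g => ?_⟩
  · have h1 := hx g h
    rw [eq_div_iff_mul_eq'] at h1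
    have h3 := congrArg Units.val h1
    rw [Units.val_mul, Units.val_mul, hsgu] at h3
    exact h3
  · have h1 := ha g (Subgroup.mem_top g)
    have h3 : g • a⁻¹ = (x g) ^ 2 * a⁻¹ := by
      rw [h1, smul_inv', div_mul_eq_mul_div, mul_inv_cancel, one_div]
    exact congrArg Units.val h3

end level

section final

variable {K Ω : Type} [Field K] [NumberField K] [Field Ω] [Algebra K Ω]

/-- MODULE 7: the bound for the number of relations of `Gal(Ω/K)`. -/
theorem relation_bound (hHN : HNStatement) (hΩ : IsOmega K Ω) (h2 : TwoUnr K)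
    (hc : IsTotallyComplex K) (r : ℕ)
    (hr : Nat.card {c : ClassGroup (𝓞 K) // c ^ 2 = 1} * 2 ^ Module.finrank ℚ K < 2 ^ (r + 1))
    (f : Fin (r + 1) → (Ω ≃ₐ[K] Ω) → (Ω ≃ₐ[K] Ω) → ZMod 2) (hf : ∀ i, f i ∈ Z2 2 (Ω ≃ₐ[K] Ω)) :
    ∃ c : Fin (r + 1) → ZMod 2, c ≠ 0 ∧
      (fun g h => ∑ i, c i * f i g h) ∈ B2 2 (Ω ≃ₐ[K] Ω) := by
  classical
  have hgal := hΩ.gal
  -- a common finite level
  have h1 : ∀ i, ∃ E : IntermediateField K Ω, FiniteDimensional K E ∧
      ∀ g g' h h' : Ω ≃ₐ[K] Ω, (∀ x ∈ E, g x = g' x) → (∀ x ∈ E, h x = h' x) →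
        f i g h = f i g' h' := fun i => exists_level (f i) (hf i).1
  choose E hE hEf using h1
  have hEs : ∀ i, ∃ s : Finset Ω, ∀ g g' : Ω ≃ₐ[K] Ω, (∀ x ∈ s, g x = g' x) →
      ∀ x ∈ E i, g x = g' x := by
    intro i
    have := hE i
    exact exists_finset_agree (E i)
  choose s hs using hEs
  obtain ⟨L, hsL, hL⟩ := hΩ.sub (Finset.univ.biUnion s)
  have hLf : ∀ i, ∀ g g' h h' : Ω ≃ₐ[K] Ω, (∀ x ∈ L, g x = g' x) → (∀ x ∈ L, h x = h' x) →
      f i g h = f i g' h' := by
    intro i g g' h h' hg hh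
    apply hEf i
    · exact hs i g g' (fun x hx => hg x (hsL x (Finset.mem_biUnion.mpr ⟨i, Finset.mem_univ _, hx⟩)))
    · exact hs i h h' (fun x hx => hh x (hsL x (Finset.mem_biUnion.mpr ⟨i, Finset.mem_univ _, hx⟩)))
  have hLfin := hL.fin
  have hLgal := hL.gal
  have hLnf : NumberField L := NumberField.of_module_finite K L
  -- restriction
  let res : (Ω ≃ₐ[K] Ω) →* (L ≃ₐ[K] L) := AlgEquiv.restrictNormalHom L
  have hres : ∀ (g : Ω ≃ₐ[K] Ω) (x : L), ((res g x : L) : Ω) = g (x : Ω) := fun g x =>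
    AlgEquiv.restrictNormal_commutes g L x
  have hsurj : Function.Surjective res := AlgEquiv.restrictNormalHom_surjective (F := K) (K₁ := L) Ω
  let lift : (L ≃ₐ[K] L) → (Ω ≃ₐ[K] Ω) := Function.surjInv hsurj
  have hlift : ∀ g, res (lift g) = g := Function.surjInv_eq hsurj
  have hagree : ∀ g g' : Ω ≃ₐ[K] Ω, res g = res g' → ∀ x ∈ L, g x = g' x := by
    intro g g' h x hx
    have h3 := congrArg (fun e : L ≃ₐ[K] L => ((e ⟨x, hx⟩ : L) : Ω)) h
    simp only [hres] at h3
    exact h3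
  let fb : Fin (r + 1) → (L ≃ₐ[K] L) → (L ≃ₐ[K] L) → ZMod 2 := fun i g h => f i (lift g) (lift h)
  have hfb : ∀ i g h, f i g h = fb i (res g) (res h) := by
    intro i g h
    exact hLf i _ _ _ _ (hagree _ _ (hlift _).symm) (hagree _ _ (hlift _).symm)
  have hfbc : ∀ i g h k, fb i g h + fb i (g * h) k = fb i h k + fb i g (h * k) := by
    intro i g h k
    have h3 := (hf i).2 (lift g) (lift h) (lift k)
    rw [hfb, hfb, hfb, hfb, map_mul, map_mul, hlift, hlift, hlift] at h3
    exact h3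
  have h4 := fun i => level_data hHN h2 hc hL (fb i) (hfbc i)
  choose x α hα0 hx0 hx hα using h4
  -- the classes
  let αS : Finset (Fin (r + 1)) → L := fun S => ∏ i ∈ S, α i
  have hαS0 : ∀ S, αS S ≠ 0 := fun S => Finset.prod_ne_zero_iff.mpr (fun i _ => hα0 i)
  have hgαS : ∀ (S : Finset (Fin (r + 1))) (g : L ≃ₐ[K] L),
      g (αS S) = (∏ i ∈ S, x i g) ^ 2 * αS S := by
    intro S g
    show g (∏ i ∈ S, α i) = _
    rw [map_prod, ← Finset.prod_pow]
    show _ = (∏ i ∈ S, (x i g) ^ 2) * ∏ i ∈ S, α i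
    rw [← Finset.prod_mul_distrib]
    exact Finset.prod_congr rfl (fun i _ => hα i g)
  obtain ⟨S, T, hST, k, δ, e, hk, hev, hnf⟩ := exists_pair hL h2
    (ι := Finset (Fin (r + 1))) (by
      rw [Fintype.card_finset, Fintype.card_fin, card_ClModSq, card_mod_two]
      exact hr) αS hαS0 (fun S g => ⟨_, hgαS S g⟩)
  have hk' : algebraMap K L k ≠ 0 := by simpa using hk
  have hγ0 : αS S * αS T * algebraMap K L k ≠ 0 :=
    mul_ne_zero (mul_ne_zero (hαS0 S) (hαS0 T)) hk'
  -- the total multiplier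
  let X : (L ≃ₐ[K] L) → L := fun g => (∏ i ∈ S, x i g) * ∏ i ∈ T, x i g
  have hX0 : ∀ g, X g ≠ 0 := fun g => mul_ne_zero
    (Finset.prod_ne_zero_iff.mpr (fun i _ => hx0 i g))
    (Finset.prod_ne_zero_iff.mpr (fun i _ => hx0 i g))
  have hXγ : ∀ g : L ≃ₐ[K] L, g (αS S * αS T * algebraMap K L k)
      = (X g) ^ 2 * (αS S * αS T * algebraMap K L k) := by
    intro g
    rw [map_mul, map_mul, hgαS, hgαS, AlgEquiv.commutes]
    simp only [X]
    ring
  obtain ⟨β, hβ⟩ := isSquare_Omega hΩ L hL _ hγ0 hev δ e hnf (fun g => ⟨_, hXγ g⟩)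
  have hβ0 : β ≠ 0 := by
    rintro rfl
    rw [mul_zero] at hβ
    exact hγ0 (by exact_mod_cast hβ)
  -- `u g = X(g) β / g β` is a sign
  have hu : ∀ g : Ω ≃ₐ[K] Ω, ∃ a : ZMod 2, (X (res g) : Ω) * β = sg a * g β := by
    intro g
    have hgβ0 : g β ≠ 0 := by simpa using hβ0
    have h5 := congrArg (fun y : L => (y : Ω)) (hXγ (res g))
    simp only [hres] at h5
    have h6 : ((X (res g) : Ω) * β) ^ 2 = (g β) ^ 2 := by
      have h7 : g ((αS S * αS T * algebraMap K L k : L) : Ω) = g β * g β := by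
        rw [hβ, map_mul]
      have h8 : ((((X (res g)) ^ 2 * (αS S * αS T * algebraMap K L k) : L)) : Ω)
          = (X (res g) : Ω) ^ 2 * (β * β) := by
        rw [← hβ]; push_cast; ring
      rw [h7, h8] at h5
      linear_combination -h5
    rcases sq_eq_sq_iff_eq_or_eq_neg.mp h6 with h7 | h7
    · exact ⟨0, by rw [sg_zero, one_mul]; exact h7⟩
    · exact ⟨1, by rw [sg_one, h7]; ring⟩
  choose η hη using hu
  have hΩ0 : CharZero Ω := charZero_of_injective_algebraMap (FaithfulSMul.algebraMap_injective K Ω)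
  -- the combined cocycle
  have hF : ∀ g h : Ω ≃ₐ[K] Ω, (∑ i ∈ S, f i g h) + (∑ i ∈ T, f i g h) + η (g * h)
      = η g + η h := by
    intro g h
    apply sg_inj (F := Ω)
    rw [sg_add, sg_add, sg_add, sg_sum, sg_sum]
    have hsgL : ∀ a : ZMod 2, ((sg a : L) : Ω) = sg a := by
      intro a
      rcases zmod2_cases a with h | h
      · rw [h, sg_zero, sg_zero]; rfl
      · rw [h, sg_one, sg_one]; push_cast; rfl
    have e1 : ∀ i, (sg (f i g h) : Ω) * (x i (res g * res h) : Ω)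
        = (x i (res g) : Ω) * g (x i (res h) : Ω) := by
      intro i
      have h5 := congrArg (fun y : L => (y : Ω)) (hx i (res g) (res h))
      simp only [MulMemClass.coe_mul, hres, hsgL] at h5
      rw [hfb]
      exact h5
    have e3 : ∀ S : Finset (Fin (r + 1)), (∏ i ∈ S, (sg (f i g h) : Ω)) *
        ((∏ i ∈ S, x i (res g * res h) : L) : Ω)
        = ((∏ i ∈ S, x i (res g) : L) : Ω) * g ((∏ i ∈ S, x i (res h) : L) : Ω) := by
      intro S
      have c1 : ∀ y : L ≃ₐ[K] L, ((∏ i ∈ S, x i y : L) : Ω) = ∏ i ∈ S, (x i y : Ω) := fun y =>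
        map_prod (algebraMap L Ω) _ _
      rw [c1, c1, c1, map_prod, ← Finset.prod_mul_distrib, ← Finset.prod_mul_distrib]
      exact Finset.prod_congr rfl (fun i _ => e1 i)
    have e2 : (∏ i ∈ S, (sg (f i g h) : Ω)) * (∏ i ∈ T, (sg (f i g h) : Ω)) *
        (X (res g * res h) : Ω) = (X (res g) : Ω) * g (X (res h) : Ω) := by
      simp only [X, MulMemClass.coe_mul, map_mul]
      linear_combination ((∏ i ∈ T, (sg (f i g h) : Ω)) *
        ((∏ i ∈ T, x i (res g * res h) : L) : Ω)) * e3 S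
        + (((∏ i ∈ S, x i (res g) : L) : Ω) * g ((∏ i ∈ S, x i (res h) : L) : Ω)) * e3 T
    have hgsg : ∀ a : ZMod 2, g (sg a : Ω) = sg a := by
      intro a
      rcases zmod2_cases a with h | h
      · rw [h, sg_zero, map_one]
      · rw [h, sg_one, map_neg, map_one]
    have e4 := hη g
    have e5 := congrArg g (hη h)
    rw [map_mul, map_mul, hgsg] at e5
    have e6 := hη (g * h)
    rw [map_mul, AlgEquiv.mul_apply] at e6
    have hgβ0 : g β ≠ 0 := by simpa using hβ0
    have hghβ0 : g (h β) ≠ 0 := by simpa using hβ0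
    apply mul_right_cancel₀ (mul_ne_zero hgβ0 hghβ0)
    linear_combination (-(∏ i ∈ S, (sg (f i g h) : Ω)) * (∏ i ∈ T, (sg (f i g h) : Ω)) * g β) * e6
      + β * g β * e2 + g (X (res h) : Ω) * g β * e4 + (sg (η g)) * g β * e5
  refine ⟨fun i => (if i ∈ S then 1 else 0) + (if i ∈ T then 1 else 0), ?_, η, ?_, ?_⟩
  · intro h0
    apply hST
    ext i
    have h5 := congrFun h0 i
    simp only [Pi.zero_apply] at h5
    by_cases hS : i ∈ S <;> by_cases hT : i ∈ T
    · simp [hS, hT]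
    · simp [hS, hT] at h5
    · simp [hS, hT] at h5
    · simp [hS, hT]
  · -- continuity
    have hβint : IsIntegral K β := Algebra.IsIntegral.isIntegral β
    have hfd : FiniteDimensional K (IntermediateField.adjoin K {β}) :=
      IntermediateField.adjoin.finiteDimensional hβint
    apply continuous_of_agree η (L ⊔ IntermediateField.adjoin K {β})
    intro g g' hgg
    have h5 : res g = res g' := by
      ext y
      have h6 := hgg y ((le_sup_left : L ≤ L ⊔ IntermediateField.adjoin K {β}) y.2)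
      rw [← hres, ← hres] at h6
      exact congrArg Subtype.val (Subtype.ext h6)
    have h7 : g β = g' β := hgg β
      ((le_sup_right : IntermediateField.adjoin K {β} ≤ L ⊔ IntermediateField.adjoin K {β})
        (IntermediateField.mem_adjoin_simple_self K β))
    have h8 := hη g
    rw [h5, hη g', h7] at h8
    have hgβ0 : g' β ≠ 0 := by simpa using hβ0
    exact (sg_inj (mul_right_cancel₀ hgβ0 h8)).symm
  · intro g h
    have h5 := hF g h
    have h6 : ∑ i, ((if i ∈ S then (1 : ZMod 2) else 0) + (if i ∈ T then 1 else 0)) * f i g h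
        = (∑ i ∈ S, f i g h) + (∑ i ∈ T, f i g h) := by
      simp only [add_mul, Finset.sum_add_distrib, ite_mul, one_mul, zero_mul,
        Finset.sum_ite_mem, Finset.univ_inter]
    show ∑ i, ((if i ∈ S then (1 : ZMod 2) else 0) + (if i ∈ T then 1 else 0)) * f i g h = _
    rw [h6]
    linear_combination h5

end final

end Pool.Agent.Lib.MP_722186_nt
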