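import Pool.Agent.Lib.MP_722186_nt.HN
import Pool.Agent.Lib.MP_722186_nt.RelFinal
import Pool.Agent.Lib.MP_722186_nt.Assembly

/-!
# The final theorem
-/

namespace Pool.Agent.Lib.MP_722186_nt

open NumberField

section

variable {K : Type*} [Field K]

theorem exists_field_of_subgroup_unr [NumberField K] (N : Subgroup (Omega K ≃ₐ[K] Omega K))
    (hN : N.Normal) (hc : IsClosed (N : Set (Omega K ≃ₐ[K] Omega K)))
    (ho : ¬ IsOpen (N : Set (Omega K ≃ₐ[K] Omega K)))
    (hX : ∀ X : Set (Omega K ≃ₐ[K] Omega K), X.Finite →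
      closure ((Subgroup.normalClosure X : Subgroup (Omega K ≃ₐ[K] Omega K)) :
        Set (Omega K ≃ₐ[K] Omega K)) ≠ (N : Set (Omega K ≃ₐ[K] Omega K))) :
    ∃ L : IntermediateField K (AlgebraicClosure K), IsTamePro K L 2 ∧ UnramExt K L ∧
      ∀ U : Subgroup (L ≃ₐ[K] L), IsOpen (U : Set (L ≃ₐ[K] L)) →
        ¬ Module.Finite (ZMod 2) (H2 2 U) := by
  let L₀ : IntermediateField K (Omega K) := IntermediateField.fixedField N
  have hfix : L₀.fixingSubgroup = N :=
    InfiniteGalois.fixingSubgroup_fixedField ⟨N, hc⟩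
  have hgal₀ : IsGalois K L₀ := by
    rw [← InfiniteGalois.normal_iff_isGalois, hfix]
    exact hN
  let L : IntermediateField K (AlgebraicClosure K) := IntermediateField.lift L₀
  have hgal : IsGalois K L := IsGalois.of_algEquiv (IntermediateField.liftAlgEquiv L₀)
  have hL : L ≤ Omega K := IntermediateField.lift_le L₀
  have hker : (resHom hL).ker = N := by
    ext g
    rw [MonoidHom.mem_ker, ← hfix]
    constructor
    · intro h x
      have h1 := resHom_apply hL g ⟨((x : Omega K) : AlgebraicClosure K),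
        (IntermediateField.mem_lift (x : Omega K)).mpr x.2⟩
      rw [h] at h1
      apply Subtype.ext
      exact h1.symm
    · intro h
      ext x
      rw [resHom_apply]
      have hx : (⟨x, hL x.2⟩ : Omega K) ∈ L₀ :=
        (IntermediateField.mem_lift (⟨x, hL x.2⟩ : Omega K)).mp x.2
      exact congrArg Subtype.val (h ⟨_, hx⟩)
  have hinf : Infinite (L ≃ₐ[K] L) := by
    by_contra hcon
    rw [not_infinite_iff_finite] at hcon
    apply ho
    have : DiscreteTopology (L ≃ₐ[K] L) := inferInstance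
    have h1 : (N : Set (Omega K ≃ₐ[K] Omega K)) = resHom hL ⁻¹' {1} := by
      rw [← hker]
      ext g
      simp [MonoidHom.mem_ker]
    rw [h1]
    exact (isOpen_discrete _).preimage (resHom_continuous hL)
  refine ⟨L, isTamePro_of_le hL hinf, unramExt_of_le_Omega hL, fun U hU => ?_⟩
  have : Fact (Nat.Prime 2) := ⟨Nat.prime_two⟩
  have hfin : Finite (HomC 2 (Omega K ≃ₐ[K] Omega K)) := finite_HomC_Omega
  refine H2_not_finite 2 (isProP_of_le le_rfl) Module.Finite.of_finite (resHom hL)
    (resHom_continuous hL) (resHom_surjective hL) ?_ U hU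
  intro X hXf
  rw [hker]
  exact hX X hXf


end

theorem relBound_KD : RelBound KD 12 := by
  intro f hf
  have hcard := imQuad_KD.card_torsion
  rw [primeFactors_bigD, card_primes10] at hcard
  have hrank : Module.finrank ℚ KD = 2 := imQuad_KD.rank
  exact relation_bound hnStatement (isOmega_Omega KD) imQuad_KD.twoUnr imQuad_KD.isTotallyComplex 12
    (by rw [hrank]; omega) f hf

theorem counterexample :
    ∃ L : IntermediateField KD (AlgebraicClosure KD), IsTamePro KD L 2 ∧ UnramExt KD L ∧
      ∀ U : Subgroup (L ≃ₐ[KD] L), IsOpen (U : Set (L ≃ₐ[KD] L)) →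
        ¬ Module.Finite (ZMod 2) (H2 2 U) := by
  have : Fact (Nat.Prime 2) := ⟨Nat.prime_two⟩
  have hd : 9 ≤ Module.finrank (ZMod 2) (HomC 2 (Omega KD ≃ₐ[KD] Omega KD)) := by
    have h1 := imQuad_KD.finrank_HomC
    rwa [primeFactors_bigD, card_primes10] at h1
  obtain ⟨N, hN, hc, ho, -, hX⟩ := gs_choice 2 (isProP_of_le le_rfl) 9 12 (2 / 9)
    (by norm_num) (by norm_num) (by norm_num) (ImQuad.moduleFinite_HomC_Omega KD) hd relBound_KD
  exact exists_field_of_subgroup_unr N hN hc ho hX

theorem not_virtuallyGS : ¬ VirtuallyGS := not_virtuallyGS_of_relBound relBound_KD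

end Pool.Agent.Lib.MP_722186_nt
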