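import Pool.Agent.Lib.MP_722186_nt.OmegaHom

/-!
# Genus theory of an imaginary quadratic field
-/

namespace Pool.Agent.Lib.MP_722186_nt

open NumberField Topology

/-- The data of the imaginary quadratic field `K = ℚ(δ)`, `δ² = -D`, with `D ≡ 3` modulo `4`
squarefree. -/
structure ImQuad (K : Type*) [Field K] [NumberField K] (D : ℕ) (δ : K) : Prop where
  rank : Module.finrank ℚ K = 2
  sq : δ ^ 2 = -(D : K)
  mod : D % 4 = 3
  sqf : Squarefree D

namespace ImQuad

variable {K : Type*} [Field K] [NumberField K] {D : ℕ} {δ : K}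

lemma pos (h : ImQuad K D δ) : 0 < D := by
  have := h.mod
  omega

lemma delta_not_rat (h : ImQuad K D δ) (x : ℚ) : (x : K) ≠ δ := by
  intro hx
  have h1 := h.sq
  rw [← hx] at h1
  have h2 : x ^ 2 = -(D : ℚ) := by exact_mod_cast h1
  have h3 : (0 : ℚ) < D := by exact_mod_cast h.pos
  nlinarith [sq_nonneg x]

lemma exists_coords (h : ImQuad K D δ) (z : K) : ∃ x y : ℚ, z = x + y * δ := by
  have hli : LinearIndependent ℚ ![(1 : K), δ] := by
    rw [LinearIndependent.pair_iff]
    intro s t hst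
    have ht : t = 0 := by
      by_contra ht
      apply h.delta_not_rat (-s / t)
      have ht' : (t : K) ≠ 0 := by exact_mod_cast ht
      rw [Rat.smul_def, Rat.smul_def, mul_one] at hst
      push_cast
      rw [div_eq_iff ht']
      linear_combination -hst
    refine ⟨?_, ht⟩
    rw [ht, zero_smul, add_zero, Rat.smul_def, mul_one] at hst
    exact_mod_cast hst
  have hspan := hli.span_eq_top_of_card_eq_finrank' (by rw [h.rank]; rfl)
  have hz : z ∈ Submodule.span ℚ (Set.range ![(1 : K), δ]) := by rw [hspan]; trivial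
  rw [Matrix.range_cons, Matrix.range_cons, Matrix.range_empty, Set.union_empty,
    Set.singleton_union, Submodule.mem_span_pair] at hz
  obtain ⟨x, y, hxy⟩ := hz
  refine ⟨x, y, ?_⟩
  rw [← hxy, Rat.smul_def, Rat.smul_def, mul_one]

lemma coords_unique (h : ImQuad K D δ) {x y x' y' : ℚ}
    (he : (x : K) + y * δ = x' + y' * δ) : x = x' ∧ y = y' := by
  have hy : y = y' := by
    by_contra hy
    have hyy : ((y : K) - y') ≠ 0 := by
      rw [sub_ne_zero]
      exact_mod_cast hy
    apply h.delta_not_rat ((x' - x) / (y - y'))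
    push_cast
    rw [div_eq_iff hyy]
    linear_combination -he
  subst hy
  refine ⟨?_, rfl⟩
  have : (x : K) = x' := by linear_combination he
  exact_mod_cast this

/-- If the integer `m` is a square in `K`, then `m` or `-D m` is a rational square. -/
lemma sq_of_sq (h : ImQuad K D δ) {m : ℤ} {z : K} (hz : z ^ 2 = m) :
    (∃ x : ℚ, x ^ 2 = m) ∨ ∃ y : ℚ, (m : ℚ) = -D * y ^ 2 := by
  obtain ⟨x, y, rfl⟩ := h.exists_coords z
  have h1 : ((x ^ 2 - D * y ^ 2 : ℚ) : K) + ((2 * x * y : ℚ) : K) * δ =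
      ((m : ℚ) : K) + ((0 : ℚ) : K) * δ := by
    push_cast
    linear_combination hz + (-(y : K) ^ 2) * h.sq
  obtain ⟨h2, h3⟩ := h.coords_unique h1
  rcases mul_eq_zero.mp h3 with h4 | h4
  · right
    have hx : x = 0 := by linarith
    exact ⟨y, by rw [← h2, hx]; ring⟩
  · left
    exact ⟨x, by rw [← h2, h4]; ring⟩

lemma isTotallyComplex (h : ImQuad K D δ) : IsTotallyComplex K := by
  refine ⟨fun w => ?_⟩
  by_contra hw
  rw [InfinitePlace.not_isComplex_iff_isReal] at hw
  have h1 := congrArg (InfinitePlace.embedding_of_isReal hw) h.sq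
  rw [map_pow, map_neg, map_natCast] at h1
  have h3 : (0 : ℝ) < D := by exact_mod_cast h.pos
  nlinarith [sq_nonneg (InfinitePlace.embedding_of_isReal hw δ)]

/-- `(1 + η) / 2` is integral if `η² = b` is an integer congruent to `1` modulo `4`. -/
lemma _root_.Pool.Agent.Lib.MP_722186_nt.isIntegral_half {F : Type*} [Field F] [CharZero F]
    {η : F} {b : ℤ} (hη : η ^ 2 = b) (hb : b % 4 = 1) : IsIntegral ℤ ((1 + η) / 2) := by
  obtain ⟨k, hk⟩ : ∃ k : ℤ, b = 4 * k + 1 := ⟨b / 4, by omega⟩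
  refine ⟨Polynomial.X ^ 2 - Polynomial.X - Polynomial.C k, ?_, ?_⟩
  · monicity!
  · rw [Polynomial.eval₂_sub, Polynomial.eval₂_sub, Polynomial.eval₂_pow, Polynomial.eval₂_X,
      Polynomial.eval₂_C]
    rw [hk] at hη
    push_cast at hη
    simp only [algebraMap_int_eq, eq_intCast]
    linear_combination (1 / 4 : F) * hη

/-- If `g` maps `η` to `-η`, where `η² = b` is an integer congruent to `1` modulo `4` outside of
the prime `P`, then `g` is not in the inertia group of `P`. -/
lemma _root_.Pool.Agent.Lib.MP_722186_nt.not_inInertia {F E : Type*} [Field F] [Field E]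
    [CharZero F] [Algebra E F] {η : F} {b : ℤ} (hη : η ^ 2 = b) (hb : b % 4 = 1)
    {P : Ideal (𝓞 F)} (hP : P.IsPrime) (hbP : (b : 𝓞 F) ∉ P) {g : F ≃ₐ[E] F}
    (hg : g η = -η) : ¬ InInertia E F P g := by
  intro hI
  have hint := isIntegral_half hη hb
  have hint' : IsIntegral ℤ η := by
    refine ⟨Polynomial.X ^ 2 - Polynomial.C b, ?_, ?_⟩
    · monicity!
    · rw [Polynomial.eval₂_sub, Polynomial.eval₂_pow, Polynomial.eval₂_X, Polynomial.eval₂_C, hη]
      simp
  let ξ : 𝓞 F := ⟨(1 + η) / 2, hint⟩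
  let η' : 𝓞 F := ⟨η, hint'⟩
  have h1 := hI ξ (ξ - η') (by
    show (1 + η) / 2 - η = g ((1 + η) / 2)
    rw [map_div₀, map_add, map_one, hg, map_ofNat]
    ring)
  have h2 : ξ - η' - ξ = -η' := by ring
  rw [h2, neg_mem_iff] at h1
  apply hbP
  have h3 : (b : 𝓞 F) = η' * η' := by
    apply RingOfIntegers.ext
    rw [← pow_two]
    push_cast
    exact hη.symm
  rw [h3]
  exact P.mul_mem_left _ h1

lemma map_delta (h : ImQuad K D δ) {F : Type*} [Field F] (g : K →+* F) (g' : K →+* F) :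
    g δ = g' δ ∨ g δ = -g' δ := by
  have h1 := congrArg g h.sq
  have h2 := congrArg g' h.sq
  rw [map_pow, map_neg, map_natCast] at h1 h2
  exact sq_eq_sq_iff_eq_or_eq_neg.mp (h1.trans h2.symm)

lemma eq_one_of_map_delta (h : ImQuad K D δ) {g : K ≃ₐ[ℚ] K} (hg : g δ = δ) : g = 1 := by
  ext z
  obtain ⟨x, y, rfl⟩ := h.exists_coords z
  rw [map_add, map_mul, hg]
  simp

lemma isGalois (h : ImQuad K D δ) : IsGalois ℚ K := by
  have : Algebra.IsQuadraticExtension ℚ K := { finrank_eq_two' := h.rank }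
  infer_instance

lemma ramificationIdx_int (h : ImQuad K D δ) (P : Ideal (𝓞 K)) [hP : P.IsPrime]
    (hDP : (D : 𝓞 K) ∉ P) : P.ramificationIdx ℤ = 1 := by
  have := h.isGalois
  have h1 := Ideal.card_inertia_eq_ramificationIdxIn (G := K ≃ₐ[ℚ] K) (P.under ℤ) P
  rw [Ideal.ramificationIdxIn_eq_ramificationIdx (P.under ℤ) P (K ≃ₐ[ℚ] K)] at h1
  rw [← h1, Nat.card_eq_one_iff_unique]
  refine ⟨⟨fun a b => ?_⟩, ⟨1⟩⟩
  have h2 : ∀ a : P.inertia (K ≃ₐ[ℚ] K), a.1 = 1 := by
    intro a
    rcases h.map_delta (a.1 : K →+* K) (RingHom.id K) with h3 | h3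
    · exact h.eq_one_of_map_delta h3
    · exfalso
      refine not_inInertia (E := ℚ) (η := δ) (b := -(D : ℤ)) (by rw [h.sq]; push_cast; rfl) ?_ hP
        ?_ h3 (inInertia_iff.mpr a.2)
      · have := h.mod
        omega
      · push_cast
        rw [neg_mem_iff]
        exact hDP
  exact Subtype.ext ((h2 a).trans (h2 b).symm)

end ImQuad

end Pool.Agent.Lib.MP_722186_nt
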