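import Pool.Agent.Lib.MP_722186_nt.Genus

/-!
# The 2-torsion of the class group of an imaginary quadratic field
-/

namespace Pool.Agent.Lib.MP_722186_nt

open NumberField Topology

namespace ImQuad

variable {K : Type*} [Field K] [NumberField K] {D : ℕ} {δ : K}

lemma twoUnr (h : ImQuad K D δ) : TwoUnr K := by
  intro P hP h2
  apply h.ramificationIdx_int
  intro hD
  have h3 : ((2 * (D / 2) + 1 : ℕ) : 𝓞 K) ∈ P := by
    have : 2 * (D / 2) + 1 = D := by have := h.mod; omega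
    rw [this]; exact hD
  apply hP.ne_top
  rw [Ideal.eq_top_iff_one]
  push_cast at h3
  exact (P.add_mem_iff_right (P.mul_mem_right _ h2)).mp h3

lemma exists_conj (h : ImQuad K D δ) : ∃ σ : K ≃ₐ[ℚ] K, σ δ = -δ := by
  have := h.isGalois
  have h1 : Nat.card (K ≃ₐ[ℚ] K) = 2 := by rw [IsGalois.card_aut_eq_finrank, h.rank]
  have h2 : ∃ σ : K ≃ₐ[ℚ] K, σ ≠ 1 := by
    by_contra hcon
    push Not at hcon
    have : Subsingleton (K ≃ₐ[ℚ] K) := ⟨fun a b => by rw [hcon a, hcon b]⟩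
    have h3 : Nat.card (K ≃ₐ[ℚ] K) ≤ 1 := Finite.card_le_one_iff_subsingleton.mpr this
    omega
  obtain ⟨σ, hσ⟩ := h2
  refine ⟨σ, ?_⟩
  rcases h.map_delta (σ : K →+* K) (RingHom.id K) with h3 | h3
  · exact absurd (h.eq_one_of_map_delta h3) hσ
  · exact h3

lemma norm_eq (h : ImQuad K D δ) {σ : K ≃ₐ[ℚ] K} (hσ : σ δ = -δ) (z : K) :
    algebraMap ℚ K (Algebra.norm ℚ z) = z * σ z := by
  classical
  have := h.isGalois
  rw [Algebra.norm_eq_prod_automorphisms]
  have h1 : Nat.card (K ≃ₐ[ℚ] K) = 2 := by rw [IsGalois.card_aut_eq_finrank, h.rank]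
  have hne : (1 : K ≃ₐ[ℚ] K) ≠ σ := by
    intro h2
    rw [← h2] at hσ
    have h3 : (2 : K) * δ = 0 := by
      have : δ = -δ := hσ
      linear_combination this
    have h4 : δ = 0 := by
      rcases mul_eq_zero.mp h3 with h5 | h5
      · exact absurd h5 two_ne_zero
      · exact h5
    exact h.delta_not_rat 0 (by rw [h4]; simp)
  have h2 : (Finset.univ : Finset (K ≃ₐ[ℚ] K)) = {1, σ} := by
    symm
    apply Finset.eq_of_subset_of_card_le (Finset.subset_univ _)
    rw [Finset.card_pair hne, Finset.card_univ, ← Nat.card_eq_fintype_card, h1]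
  rw [h2, Finset.prod_pair hne]
  rfl

lemma norm_nonneg (h : ImQuad K D δ) (z : K) : 0 ≤ Algebra.norm ℚ z := by
  obtain ⟨σ, hσ⟩ := h.exists_conj
  have h1 := h.norm_eq hσ z
  obtain ⟨x, y, rfl⟩ := h.exists_coords z
  have h2 : ((x : K) + y * δ) * σ ((x : K) + y * δ) = ((x ^ 2 + D * y ^ 2 : ℚ) : K) := by
    rw [map_add, map_mul, hσ]
    simp only [map_ratCast]
    push_cast
    linear_combination (-(y : K) ^ 2) * h.sq
  rw [h2] at h1
  have h3 : Algebra.norm ℚ ((x : K) + y * δ) = x ^ 2 + D * y ^ 2 := by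
    have h4 : algebraMap ℚ K (Algebra.norm ℚ ((x : K) + y * δ)) =
      algebraMap ℚ K (x ^ 2 + D * y ^ 2) := by
      rw [h1]; rfl
    exact (algebraMap ℚ K).injective h4
  rw [h3]
  positivity

/-- A class of order dividing `2` contains an ideal whose square is generated by a positive
integer. -/
lemma exists_sq_eq_nat (h : ImQuad K D δ) {c : ClassGroup (𝓞 K)} (hc : c ^ 2 = 1) :
    ∃ J : nonZeroDivisors (Ideal (𝓞 K)), ClassGroup.mk0 J = c ∧ ∃ n : ℕ, 0 < n ∧
      (J : Ideal (𝓞 K)) ^ 2 = Ideal.span {(n : 𝓞 K)} := by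
  obtain ⟨σ, hσ⟩ := h.exists_conj
  obtain ⟨I, rfl⟩ := ClassGroup.mk0_surjective c
  have hI0 : (I : Ideal (𝓞 K)) ≠ 0 := nonZeroDivisors.ne_zero I.2
  rw [← map_pow] at hc
  have hprin : Submodule.IsPrincipal ((I ^ 2 : nonZeroDivisors (Ideal (𝓞 K))) : Ideal (𝓞 K)) := by
    rw [← ClassGroup.mk0_eq_one_iff (I ^ 2).2]
    exact hc
  obtain ⟨a, ha⟩ := hprin
  have ha' : (I : Ideal (𝓞 K)) ^ 2 = Ideal.span {a} := by
    have : ((I ^ 2 : nonZeroDivisors (Ideal (𝓞 K))) : Ideal (𝓞 K)) = (I : Ideal (𝓞 K)) ^ 2 := rfl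
    rw [← this, ha]
  have ha0 : a ≠ 0 := by
    rintro rfl
    rw [Ideal.span_singleton_zero] at ha'
    exact hI0 (pow_eq_zero_iff two_ne_zero |>.mp ha')
  -- the norm of `a`
  let m : ℕ := Ideal.absNorm (I : Ideal (𝓞 K))
  have hm0 : 0 < m := Nat.pos_of_ne_zero (by
    intro h0
    exact hI0 (Ideal.absNorm_eq_zero_iff.mp h0))
  have hm : (Algebra.norm ℤ a).natAbs = m ^ 2 := by
    rw [← Ideal.absNorm_span_singleton, ← ha', map_pow]
  have hσσ : ∀ z : K, σ (σ z) = z := by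
    intro z
    obtain ⟨x, y, rfl⟩ := h.exists_coords z
    simp only [map_add, map_mul, hσ, map_neg, map_ratCast, neg_neg]
  have hna : (a : K) * σ a = ((m ^ 2 : ℕ) : K) := by
    rw [← h.norm_eq hσ, ← Algebra.coe_norm_int, ← hm]
    have h1 : 0 ≤ Algebra.norm ℤ a := by
      have := h.norm_nonneg (a : K)
      rw [← Algebra.coe_norm_int] at this
      exact_mod_cast this
    have h2 : ((Algebra.norm ℤ a).natAbs : ℤ) = Algebra.norm ℤ a := Int.natAbs_of_nonneg h1
    have h3 : (((Algebra.norm ℤ a).natAbs : ℕ) : K) = (((Algebra.norm ℤ a).natAbs : ℤ) : K) :=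
      (Int.cast_natCast _).symm
    rw [h3, h2]
    simp
  let σa : 𝓞 K := σ • a
  have hσa : (σa : K) = σ a := rfl
  let g : 𝓞 K := m + σa
  have hg : (g : K) = m + σ a := by
    show algebraMap (𝓞 K) K ((m : 𝓞 K) + σa) = _
    rw [map_add, map_natCast]
    rfl
  by_cases hg0 : g = 0
  · refine ⟨I, rfl, m, hm0, ?_⟩
    rw [ha']
    have h1 : σa = -(m : 𝓞 K) := by
      have : (m : 𝓞 K) + σa = 0 := hg0
      linear_combination this
    have h2 : (a : K) = -(m : K) := by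
      have h3 : σ a = -(m : K) := by
        rw [← hσa, h1]
        push_cast
        rfl
      rw [← hσσ a, h3, map_neg, map_natCast]
    have h4 : a = -(m : 𝓞 K) := by
      apply RingOfIntegers.ext
      rw [h2]
      push_cast
      rfl
    rw [h4, Ideal.span_singleton_neg]
  · -- the general case
    let k : ℕ := (Algebra.norm ℤ g).natAbs
    have hk0 : 0 < k := Int.natAbs_pos.mpr (by
      intro h0
      exact hg0 (Algebra.norm_eq_zero_iff.mp h0))
    have hk : (g : K) * σ g = (k : K) := by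
      rw [← h.norm_eq hσ, ← Algebra.coe_norm_int]
      have h1 : 0 ≤ Algebra.norm ℤ g := by
        have := h.norm_nonneg (g : K)
        rw [← Algebra.coe_norm_int] at this
        exact_mod_cast this
      have h2 : ((Algebra.norm ℤ g).natAbs : ℤ) = Algebra.norm ℤ g := Int.natAbs_of_nonneg h1
      have h3 : (((Algebra.norm ℤ g).natAbs : ℕ) : K) = (((Algebra.norm ℤ g).natAbs : ℤ) : K) :=
        (Int.cast_natCast _).symm
      rw [h3, h2]
      simp
    have hgg : g * g * a = ((m * k : ℕ) : 𝓞 K) := by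
      apply RingOfIntegers.ext
      have h1 : σ g = m + (a : K) := by
        rw [hg, map_add, map_natCast, hσσ]
      rw [h1, hg] at hk
      push_cast at hna
      show algebraMap (𝓞 K) K (g * g * a) = algebraMap (𝓞 K) K ((m * k : ℕ) : 𝓞 K)
      rw [map_mul, map_mul, map_natCast]
      show (g : K) * g * a = _
      rw [hg]
      push_cast
      linear_combination ((m : K) + σ a) * hna + (m : K) * hk
    have hspan : Ideal.span {g} ∈ nonZeroDivisors (Ideal (𝓞 K)) := by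
      rw [mem_nonZeroDivisors_iff_ne_zero]
      intro h0
      exact hg0 (Ideal.span_singleton_eq_bot.mp h0)
    refine ⟨⟨Ideal.span {g}, hspan⟩ * I, ?_, m * k, Nat.mul_pos hm0 hk0, ?_⟩
    · rw [map_mul]
      have h1 : ClassGroup.mk0 (⟨Ideal.span {g}, hspan⟩ : nonZeroDivisors (Ideal (𝓞 K))) = 1 := by
        rw [ClassGroup.mk0_eq_one_iff]
        exact ⟨g, rfl⟩
      rw [h1, one_mul]
    · show (Ideal.span {g} * (I : Ideal (𝓞 K))) ^ 2 = _
      rw [mul_pow, ha', Ideal.span_singleton_pow, Ideal.span_singleton_mul_span_singleton, pow_two,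
        hgg]

/-- If a squarefree positive integer `s` generates the square of an ideal, then all its prime
factors divide `D`. -/
lemma prime_dvd_of_sq_eq (h : ImQuad K D δ) {J : Ideal (𝓞 K)} {s : ℕ} (hs : Squarefree s)
    (hJ : J ^ 2 = Ideal.span {(s : 𝓞 K)}) {p : ℕ} (hp : p.Prime) (hps : p ∣ s) : p ∣ D := by
  by_contra hpD
  obtain ⟨s', rfl⟩ := hps
  have hcop : p.Coprime s' := Nat.coprime_of_squarefree_mul hs
  -- a prime above `p`
  have hne : Ideal.span {(p : 𝓞 K)} ≠ ⊤ := by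
    intro htop
    have h1 : Ideal.absNorm (Ideal.span {(p : 𝓞 K)}) = 1 := by rw [htop]; exact Ideal.absNorm_top
    rw [Ideal.absNorm_span_singleton] at h1
    have h2 : Algebra.norm ℤ ((p : ℤ) : 𝓞 K) = (p : ℤ) ^ Module.finrank ℤ (𝓞 K) :=
      Algebra.norm_algebraMap (S := 𝓞 K) (p : ℤ)
    rw [RingOfIntegers.rank, h.rank] at h2
    have h3 : ((p : ℤ) : 𝓞 K) = (p : 𝓞 K) := Int.cast_natCast _
    rw [h3] at h2
    rw [h2, Int.natAbs_pow, Int.natAbs_natCast] at h1
    have h4 := hp.one_lt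
    nlinarith
  obtain ⟨P, hPmax, hle⟩ := Ideal.exists_le_maximal _ hne
  have hPp : (p : 𝓞 K) ∈ P := hle (Ideal.mem_span_singleton_self _)
  have hcoprime : ∀ m : ℕ, p.Coprime m → (m : 𝓞 K) ∉ P := by
    intro m hm hmP
    have h1 : IsCoprime (p : ℤ) (m : ℤ) := Nat.isCoprime_iff_coprime.mpr hm
    obtain ⟨u, v, huv⟩ := h1
    apply hPmax.ne_top
    rw [Ideal.eq_top_iff_one]
    have h2 : ((u : 𝓞 K)) * (p : 𝓞 K) + (v : 𝓞 K) * (m : 𝓞 K) = 1 := by exact_mod_cast huv
    rw [← h2]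
    exact P.add_mem (P.mul_mem_left _ hPp) (P.mul_mem_left _ hmP)
  have hDP : (D : 𝓞 K) ∉ P := hcoprime D ((Nat.Prime.coprime_iff_not_dvd hp).mpr hpD)
  have hs'P : (s' : 𝓞 K) ∉ P := hcoprime s' hcop
  have hP' := hPmax.isPrime
  have he := h.ramificationIdx_int P hDP
  -- `J ≤ P`, hence `p ∈ P ^ 2`
  have hJP : J ≤ P := by
    have h1 : J ^ 2 ≤ P := by
      rw [hJ, Ideal.span_singleton_le_iff_mem]
      push_cast
      exact P.mul_mem_right _ hPp
    exact Ideal.IsPrime.le_of_pow_le h1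
  have h2 : (p : 𝓞 K) * s' ∈ P ^ 2 := by
    have h3 : J ^ 2 ≤ P ^ 2 := Ideal.pow_right_mono hJP 2
    rw [hJ, Ideal.span_singleton_le_iff_mem] at h3
    push_cast at h3
    exact h3
  have h3 : (p : 𝓞 K) ∈ P ^ 2 := by
    obtain ⟨u, q, hq, huq⟩ := hPmax.exists_inv hs'P
    have h4 : (p : 𝓞 K) = u * (p * s') + p * q := by linear_combination (-(p : 𝓞 K)) * huq
    rw [h4]
    refine (P ^ 2).add_mem ((P ^ 2).mul_mem_left _ h2) ?_
    rw [pow_two]
    exact Ideal.mul_mem_mul hPp hq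
  have hover : P.LiesOver (Ideal.span {(p : ℤ)}) :=
    (Ideal.liesOver_span_iff hPmax.ne_top (Nat.prime_iff_prime_int.mp hp)).mpr
      (by simpa using hPp)
  have h4 : (Ideal.span {(p : ℤ)}).map (algebraMap ℤ (𝓞 K)) ≤ P ^ 2 := by
    rw [Ideal.map_span, Ideal.span_le, Set.image_singleton, Set.singleton_subset_iff]
    simpa using h3
  have h5 : (Ideal.span {(p : ℤ)}).map (algebraMap ℤ (𝓞 K)) ≤ P := by
    rw [Ideal.map_span, Ideal.span_le, Set.image_singleton, Set.singleton_subset_iff]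
    simpa using hPp
  rw [← Ideal.ramificationIdx'_ne_one_iff h5] at h4
  apply h4
  rw [Ideal.ramificationIdx'_eq_ramificationIdx _ P, he]
  intro h0
  rw [Ideal.span_singleton_eq_bot] at h0
  exact hp.ne_zero (by exact_mod_cast h0)

lemma exists_sq_eq_squarefree (h : ImQuad K D δ) {c : ClassGroup (𝓞 K)} (hc : c ^ 2 = 1) :
    ∃ J : nonZeroDivisors (Ideal (𝓞 K)), ClassGroup.mk0 J = c ∧ ∃ s : ℕ, Squarefree s ∧
      (J : Ideal (𝓞 K)) ^ 2 = Ideal.span {(s : 𝓞 K)} := by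
  obtain ⟨J, hJc, n, hn, hJn⟩ := h.exists_sq_eq_nat hc
  obtain ⟨s, k, hks, hs⟩ := Nat.sq_mul_squarefree n
  have hk0 : k ≠ 0 := by
    rintro rfl
    rw [← hks] at hn
    simp at hn
  have hkK : (k : 𝓞 K) ≠ 0 := by exact_mod_cast hk0
  have hdvd : Ideal.span {(k : 𝓞 K)} ^ 2 ∣ (J : Ideal (𝓞 K)) ^ 2 := by
    rw [hJn, Ideal.span_singleton_pow, ← hks]
    refine ⟨Ideal.span {(s : 𝓞 K)}, ?_⟩
    rw [Ideal.span_singleton_mul_span_singleton]
    push_cast
    rfl
  rw [UniqueFactorizationMonoid.pow_dvd_pow_iff_dvd two_ne_zero] at hdvd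
  obtain ⟨J', hJ'⟩ := hdvd
  have hJ0 : (J : Ideal (𝓞 K)) ≠ 0 := nonZeroDivisors.ne_zero J.2
  have hJ'0 : J' ≠ 0 := by
    rintro rfl
    rw [mul_zero] at hJ'
    exact hJ0 hJ'
  refine ⟨⟨J', mem_nonZeroDivisors_iff_ne_zero.mpr hJ'0⟩, ?_, s, hs, ?_⟩
  · rw [← hJc, ClassGroup.mk0_eq_mk0_iff]
    refine ⟨k, 1, hkK, one_ne_zero, ?_⟩
    rw [Ideal.span_singleton_one, ← Ideal.one_eq_top, one_mul, hJ']
  · show J' ^ 2 = _
    have h1 : Ideal.span {(k : 𝓞 K)} ^ 2 * J' ^ 2 =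
        Ideal.span {(k : 𝓞 K)} ^ 2 * Ideal.span {(s : 𝓞 K)} := by
      rw [← mul_pow, ← hJ', hJn, Ideal.span_singleton_pow,
        Ideal.span_singleton_mul_span_singleton, ← hks]
      push_cast
      rfl
    refine mul_left_cancel₀ ?_ h1
    apply pow_ne_zero
    intro h0
    exact hkK (Ideal.span_singleton_eq_bot.mp h0)

/-- Genus theory: the `2`-torsion of the class group has at most `2 ^ t` elements, where `t` is the
number of prime factors of `D`. -/
theorem card_torsion (h : ImQuad K D δ) :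
    Nat.card {c : ClassGroup (𝓞 K) // c ^ 2 = 1} ≤ 2 ^ D.primeFactors.card := by
  classical
  have key : ∀ c : {c : ClassGroup (𝓞 K) // c ^ 2 = 1}, ∃ s : ℕ, ∃ J : nonZeroDivisors (Ideal (𝓞 K)),
      ClassGroup.mk0 J = c.1 ∧ Squarefree s ∧ (J : Ideal (𝓞 K)) ^ 2 = Ideal.span {(s : 𝓞 K)} := by
    intro c
    obtain ⟨J, h1, s, h2, h3⟩ := h.exists_sq_eq_squarefree c.2
    exact ⟨s, J, h1, h2, h3⟩
  choose s J h1 h2 h3 using key
  let f : {c : ClassGroup (𝓞 K) // c ^ 2 = 1} → D.primeFactors.powerset := fun c =>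
    ⟨(s c).primeFactors, by
      rw [Finset.mem_powerset]
      intro p hp
      have hp' := Nat.prime_of_mem_primeFactors hp
      rw [Nat.mem_primeFactors]
      exact ⟨hp', h.prime_dvd_of_sq_eq (h2 c) (h3 c) hp' (Nat.dvd_of_mem_primeFactors hp),
        h.pos.ne'⟩⟩
  have hf : Function.Injective f := by
    intro c c' hcc
    have h4 : (s c).primeFactors = (s c').primeFactors := congrArg Subtype.val hcc
    have h5 : s c = s c' := by
      rw [← Nat.prod_primeFactors_of_squarefree (h2 c), h4,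
        Nat.prod_primeFactors_of_squarefree (h2 c')]
    have h6 : (J c : Ideal (𝓞 K)) ^ 2 = (J c' : Ideal (𝓞 K)) ^ 2 := by rw [h3, h3, h5]
    have h7 : (J c : Ideal (𝓞 K)) = (J c' : Ideal (𝓞 K)) := by
      apply dvd_antisymm
      · exact (UniqueFactorizationMonoid.pow_dvd_pow_iff_dvd two_ne_zero).mp h6.dvd
      · exact (UniqueFactorizationMonoid.pow_dvd_pow_iff_dvd two_ne_zero).mp h6.symm.dvd
    apply Subtype.ext
    rw [← h1 c, ← h1 c', Subtype.ext h7]
  have h8 := Nat.card_le_card_of_injective f hf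
  rwa [Nat.card_eq_fintype_card (α := D.primeFactors.powerset), Fintype.card_coe,
    Finset.card_powerset] at h8

end ImQuad

end Pool.Agent.Lib.MP_722186_nt
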