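import Pool.Agent.Lib.MP_722186_nt.GenusClass

/-!
# Quadratic unramified extensions of an imaginary quadratic field
-/

namespace Pool.Agent.Lib.MP_722186_nt

open NumberField Topology

/-- The integer `± e` congruent to `1` modulo `4` (for odd `e`). -/
def star (e : ℕ) : ℤ := if e % 4 = 1 then (e : ℤ) else -(e : ℤ)

lemma star_mod {e : ℕ} (he : e % 2 = 1) : star e % 4 = 1 := by
  unfold star
  split_ifs <;> omega

lemma star_mul {e e' D : ℕ} (h : e * e' = D) (hD : D % 4 = 3) : star e * star e' = -(D : ℤ) := by
  have h1 : (e % 4) * (e' % 4) % 4 = 3 := by rw [← Nat.mul_mod, h, hD]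
  have h2 : e % 4 < 4 := Nat.mod_lt _ (by norm_num)
  have h3 : e' % 4 < 4 := Nat.mod_lt _ (by norm_num)
  unfold star
  have h4 : (e % 4 = 1 ∧ e' % 4 ≠ 1) ∨ (e % 4 ≠ 1 ∧ e' % 4 = 1) := by
    generalize e % 4 = a at *
    generalize e' % 4 = b at *
    interval_cases a <;> interval_cases b <;> simp_all
  rw [← h]
  push_cast
  rcases h4 with ⟨h5, h6⟩ | ⟨h5, h6⟩
  · rw [if_pos h5, if_neg h6]; ring
  · rw [if_neg h5, if_pos h6]; ring

lemma star_sq (e : ℕ) : (star e) ^ 2 = (e : ℤ) ^ 2 := by
  unfold star
  split_ifs <;> ring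

lemma natAbs_star (e : ℕ) : (star e).natAbs = e := by
  unfold star
  split_ifs <;> simp

namespace ImQuad

variable {K : Type*} [Field K] [NumberField K] {D : ℕ} {δ : K}

/-- `K(√e*)` is a good extension of `K` for all divisors `e` of `D`. -/
lemma good_adjoin (h : ImQuad K D δ) {e : ℕ} (he : e ∣ D) {θ : AlgebraicClosure K}
    (hθ : θ ^ 2 = ((star e : ℤ) : AlgebraicClosure K)) :
    Good K (IntermediateField.adjoin K {θ}) := by
  obtain ⟨e', he'⟩ := he
  have hD4 := h.mod
  have hodd : e % 2 = 1 := by
    have h1 : D % 2 = 1 := by omega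
    rw [he'] at h1
    by_contra hcon
    have h2 : e % 2 = 0 := by omega
    rw [Nat.mul_mod, h2] at h1
    simp at h1
  have hodd' : e' % 2 = 1 := by
    have h1 : D % 2 = 1 := by omega
    rw [he'] at h1
    by_contra hcon
    have h2 : e' % 2 = 0 := by omega
    rw [Nat.mul_mod, h2] at h1
    simp at h1
  have hss := star_mul he'.symm hD4
  have he0 : e ≠ 0 := by rintro rfl; omega
  have hint : IsIntegral K θ := Algebra.IsIntegral.isIntegral θ
  have hfin : FiniteDimensional K (IntermediateField.adjoin K {θ}) :=
    IntermediateField.adjoin.finiteDimensional hint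
  have hθF : θ ∈ IntermediateField.adjoin K {θ} := IntermediateField.mem_adjoin_simple_self K θ
  have hnormal : Normal K (IntermediateField.adjoin K {θ}) := by
    rw [IntermediateField.normal_iff_forall_map_le]
    intro σ
    rw [IntermediateField.adjoin_map, Set.image_singleton, IntermediateField.adjoin_simple_le_iff]
    have h1 : (σ θ) ^ 2 = θ ^ 2 := by rw [← map_pow, hθ, map_intCast]
    rcases sq_eq_sq_iff_eq_or_eq_neg.mp h1 with h2 | h2
    · rw [h2]; exact hθF
    · rw [h2]; exact neg_mem hθF
  have hgal : IsGalois K (IntermediateField.adjoin K {θ}) :=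
    { to_isSeparable := inferInstance, to_normal := hnormal }
  refine ⟨hfin, hgal, ?_, ?_⟩
  · have h1 : Module.finrank K (IntermediateField.adjoin K {θ}) ≤ 2 := by
      rw [IntermediateField.adjoin.finrank hint]
      have h2 : Polynomial.aeval θ (Polynomial.X ^ 2 - Polynomial.C ((star e : ℤ) : K)) = 0 := by
        simp [hθ]
      have h3 : (Polynomial.X ^ 2 - Polynomial.C ((star e : ℤ) : K)).Monic := by monicity!
      have h4 := minpoly.min K θ h3 h2
      have h5 : (Polynomial.X ^ 2 - Polynomial.C ((star e : ℤ) : K)).natDegree = 2 :=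
        Polynomial.natDegree_X_pow_sub_C
      have h6 := Polynomial.natDegree_le_natDegree h4
      rwa [h5] at h6
    have h2 : 0 < Module.finrank K (IntermediateField.adjoin K {θ}) := Module.finrank_pos
    have h3 : Module.finrank K (IntermediateField.adjoin K {θ}) = 1 ∨
        Module.finrank K (IntermediateField.adjoin K {θ}) = 2 := by omega
    rcases h3 with h3 | h3
    · exact ⟨0, h3⟩
    · exact ⟨1, h3⟩
  · intro P hP g hg
    by_contra hg1
    let θ' : IntermediateField.adjoin K {θ} := ⟨θ, hθF⟩
    have hθ' : θ' ^ 2 = ((star e : ℤ) : IntermediateField.adjoin K {θ}) := by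
      apply Subtype.ext
      push_cast
      exact hθ
    have hθ0 : θ' ≠ 0 := by
      intro h0
      rw [h0] at hθ'
      have h1 : ((star e : ℤ) : IntermediateField.adjoin K {θ}) = 0 := by rw [← hθ']; ring
      have h2 : star e = 0 := by exact_mod_cast h1
      have h3 := natAbs_star e
      rw [h2] at h3
      exact he0 h3.symm
    have hgθ : g θ' = -θ' := by
      have h1 : (g θ') ^ 2 = θ' ^ 2 := by rw [← map_pow, hθ', map_intCast]
      rcases sq_eq_sq_iff_eq_or_eq_neg.mp h1 with h2 | h2
      · exfalso
        apply hg1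
        have h3 : (g : IntermediateField.adjoin K {θ} →ₐ[K] IntermediateField.adjoin K {θ}) =
            AlgHom.id K _ := by
          apply IntermediateField.algHom_ext_of_eq_adjoin K rfl
          rintro x rfl
          exact h2
        ext x
        exact congrArg Subtype.val (DFunLike.congr_fun h3 x)
      · exact h2
    by_cases heP : ((star e : ℤ) : 𝓞 (IntermediateField.adjoin K {θ})) ∈ P
    · -- use the other square root
      let η : IntermediateField.adjoin K {θ} := algebraMap K _ δ / θ'
      have hη : η ^ 2 = ((star e' : ℤ) : IntermediateField.adjoin K {θ}) := by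
        show (algebraMap K (IntermediateField.adjoin K {θ}) δ / θ') ^ 2 = _
        rw [div_pow, ← map_pow, h.sq, div_eq_iff (pow_ne_zero 2 hθ0), hθ', map_neg, map_natCast]
        have h1 : ((star e * star e' : ℤ) : IntermediateField.adjoin K {θ}) = ((-(D : ℤ) : ℤ) : _) := by
          rw [hss]
        push_cast at h1
        rw [mul_comm, h1]
      have hgη : g η = -η := by
        show g (algebraMap K (IntermediateField.adjoin K {θ}) δ / θ') = _
        rw [map_div₀, AlgEquiv.commutes, hgθ, div_neg]
      refine not_inInertia hη (star_mod hodd') hP ?_ hgη hg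
      intro he'P
      have hcop : IsCoprime (star e) (star e') := by
        rw [Int.isCoprime_iff_gcd_eq_one, Int.gcd_eq_natAbs, natAbs_star, natAbs_star]
        exact Nat.coprime_of_squarefree_mul (he' ▸ h.sqf)
      obtain ⟨u, v, huv⟩ := hcop
      apply hP.ne_top
      rw [Ideal.eq_top_iff_one]
      have h2 : (u : 𝓞 (IntermediateField.adjoin K {θ})) * ((star e : ℤ) : _) +
          (v : 𝓞 (IntermediateField.adjoin K {θ})) * ((star e' : ℤ) : _) = 1 := by
        exact_mod_cast huv
      rw [← h2]
      exact P.add_mem (P.mul_mem_left _ heP) (P.mul_mem_left _ he'P)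
    · exact not_inInertia hθ' (star_mod hodd) hP heP hgθ hg

end ImQuad

end Pool.Agent.Lib.MP_722186_nt
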