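import Pool.Agent.Lib.MP_722186_nt.GenusLower

/-!
# Lower bound for the number of continuous homomorphisms `Gal(Omega K / K) → ZMod 2`
-/

namespace Pool.Agent.Lib.MP_722186_nt

open NumberField Topology

lemma fix_or_neg {K L : Type*} [Field K] [Field L] [Algebra K L] {θ : L} {a : K}
    (hθ : θ ^ 2 = algebraMap K L a) (g : L ≃ₐ[K] L) : g θ = θ ∨ g θ = -θ := by
  have h1 : (g θ) ^ 2 = θ ^ 2 := by rw [← map_pow, hθ, AlgEquiv.commutes]
  exact sq_eq_sq_iff_eq_or_eq_neg.mp h1

open Classical in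
/-- The quadratic character attached to a square root. -/
noncomputable def chi {K L : Type*} [Field K] [Field L] [Algebra K L] (θ : L) (g : L ≃ₐ[K] L) :
    ZMod 2 := if g θ = θ then 0 else 1

lemma chi_mem {K L : Type*} [Field K] [Field L] [Algebra K L] [Algebra.IsIntegral K L]
    [CharZero L] {θ : L} {a : K} (hθ : θ ^ 2 = algebraMap K L a) (h0 : θ ≠ 0) :
    chi (K := K) θ ∈ HomC 2 (L ≃ₐ[K] L) := by
  classical
  have hne : -θ ≠ θ := by
    intro h
    apply h0
    have : (2 : L) * θ = 0 := by linear_combination -h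
    rcases mul_eq_zero.mp this with h1 | h1
    · exact absurd h1 two_ne_zero
    · exact h1
  constructor
  · have h1 : IsOpen {g : L ≃ₐ[K] L | g θ = θ} := stabilizer_isOpen_of_isIntegral θ
    have h2 : IsClosed {g : L ≃ₐ[K] L | g θ = θ} :=
      Subgroup.isClosed_of_isOpen (MulAction.stabilizer (L ≃ₐ[K] L) θ) h1
    have h3 : ∀ s : Set (ZMod 2), IsOpen (chi (K := K) θ ⁻¹' s) := by
      intro s
      have h4 : chi (K := K) θ ⁻¹' s = ({g : L ≃ₐ[K] L | g θ = θ} ∩ {_g | (0 : ZMod 2) ∈ s}) ∪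
          ({g : L ≃ₐ[K] L | g θ = θ}ᶜ ∩ {_g | (1 : ZMod 2) ∈ s}) := by
        ext g
        simp only [Set.mem_preimage, chi, Set.mem_union, Set.mem_inter_iff, Set.mem_ofPred_eq,
          Set.mem_compl_iff]
        split_ifs with h5 <;> simp [h5]
      rw [h4]
      refine IsOpen.union (IsOpen.inter h1 ?_) (IsOpen.inter h2.isOpen_compl ?_)
      · by_cases h5 : (0 : ZMod 2) ∈ s <;> simp [h5]
      · by_cases h5 : (1 : ZMod 2) ∈ s <;> simp [h5]
    exact ⟨fun s _ => h3 s⟩
  · intro g h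
    have hgh : (g * h) θ = g (h θ) := rfl
    unfold chi
    rw [hgh]
    rcases fix_or_neg hθ g with hg | hg <;> rcases fix_or_neg hθ h with hh | hh
    · rw [hh, hg]; simp
    · rw [hh, map_neg, hg]; simp [hne]
    · rw [hh, hg]; simp [hne]
    · rw [hh, map_neg, hg]; simp [hne]; decide

lemma eq_of_mul_square {e f r : ℕ} (he : Squarefree e) (hf : Squarefree f) (h : e * f = r * r) :
    e = f := by
  have key : ∀ {e f : ℕ}, Squarefree e → e * f = r * r → ∀ p : ℕ, p.Prime → p ∣ e → p ∣ f := by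
    intro e f he h p hp hpe
    obtain ⟨e', rfl⟩ := hpe
    have hcop : p.Coprime e' := Nat.coprime_of_squarefree_mul he
    have hpr : p ∣ r := by
      have : p ∣ r * r := by rw [← h, mul_assoc]; exact Dvd.intro _ rfl
      rcases (Nat.Prime.dvd_mul hp).mp this with h1 | h1 <;> exact h1
    obtain ⟨r', rfl⟩ := hpr
    have h2 : e' * f = p * (r' * r') := by
      apply Nat.eq_of_mul_eq_mul_left hp.pos
      calc p * (e' * f) = p * e' * f := by ring
        _ = p * r' * (p * r') := h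
        _ = p * (p * (r' * r')) := by ring
    have h3 : p ∣ e' * f := by rw [h2]; exact Dvd.intro _ rfl
    exact hcop.dvd_of_dvd_mul_left h3
  have h1 : e.primeFactors = f.primeFactors := by
    ext p
    simp only [Nat.mem_primeFactors]
    constructor
    · rintro ⟨hp, hpe, -⟩
      exact ⟨hp, key he h p hp hpe, hf.ne_zero⟩
    · rintro ⟨hp, hpf, -⟩
      exact ⟨hp, key hf (by rw [mul_comm]; exact h) p hp hpf, he.ne_zero⟩
  rw [← Nat.prod_primeFactors_of_squarefree he, h1, Nat.prod_primeFactors_of_squarefree hf]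

namespace ImQuad

variable {K : Type*} [Field K] [NumberField K] {D : ℕ} {δ : K}

/-- If `e* f*` is a square in `K`, where `e`, `f` are divisors of `D` prime to `p ∣ D`, then
`e = f`. -/
lemma eq_of_sq (h : ImQuad K D δ) {p e f : ℕ} (hp : p.Prime) (hpD : p ∣ D) (he : e ∣ D)
    (hf : f ∣ D) (hpe : ¬ p ∣ e) (hpf : ¬ p ∣ f) {z : K}
    (hz : z ^ 2 = ((star e * star f : ℤ) : K)) : e = f := by
  have hes : Squarefree e := h.sqf.squarefree_of_dvd he
  have hfs : Squarefree f := h.sqf.squarefree_of_dvd hf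
  have he0 : 0 < e := Nat.pos_of_ne_zero hes.ne_zero
  have hf0 : 0 < f := Nat.pos_of_ne_zero hfs.ne_zero
  have habs : |((star e * star f : ℤ) : ℚ)| = ((e * f : ℕ) : ℚ) := by
    have h1 : (star e * star f).natAbs = e * f := by rw [Int.natAbs_mul, natAbs_star, natAbs_star]
    rw [← h1, Nat.cast_natAbs]
    push_cast
    rfl
  rcases h.sq_of_sq hz with ⟨x, hx⟩ | ⟨y, hy⟩
  · have h1 : IsSquare ((e * f : ℕ) : ℚ) := by
      rw [← habs, ← hx, abs_of_nonneg (sq_nonneg x)]
      exact ⟨x, pow_two x⟩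
    rw [Rat.isSquare_natCast_iff] at h1
    obtain ⟨r, hr⟩ := h1
    exact eq_of_mul_square hes hfs hr
  · exfalso
    have h1 : IsSquare ((e * f * D : ℕ) : ℚ) := by
      have h2 : ((e * f * D : ℕ) : ℚ) = ((e * f : ℕ) : ℚ) * D := by push_cast; ring
      rw [h2, ← habs, hy]
      refine ⟨D * y, ?_⟩
      have h3 : |(-(D : ℚ) * y ^ 2)| = D * y ^ 2 := by
        rw [neg_mul, abs_neg, abs_of_nonneg (by positivity)]
      rw [h3]; ring
    rw [Rat.isSquare_natCast_iff] at h1
    obtain ⟨r, hr⟩ := h1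
    obtain ⟨D', rfl⟩ := hpD
    have hcop : p.Coprime D' := Nat.coprime_of_squarefree_mul h.sqf
    have hpr : p ∣ r := by
      have : p ∣ r * r := by
        rw [← hr]
        exact Dvd.dvd.mul_left (Dvd.intro _ rfl) _
      rcases (Nat.Prime.dvd_mul hp).mp this with h1 | h1 <;> exact h1
    obtain ⟨r', rfl⟩ := hpr
    have h2 : e * f * D' = p * (r' * r') := by
      apply Nat.eq_of_mul_eq_mul_left hp.pos
      calc p * (e * f * D') = e * f * (p * D') := by ring
        _ = p * r' * (p * r') := hr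
        _ = p * (p * (r' * r')) := by ring
    have h3 : p ∣ e * f * D' := by rw [h2]; exact Dvd.intro _ rfl
    rcases (Nat.Prime.dvd_mul hp).mp h3 with h4 | h4
    · rcases (Nat.Prime.dvd_mul hp).mp h4 with h5 | h5
      · exact hpe h5
      · exact hpf h5
    · exact (Nat.Prime.coprime_iff_not_dvd hp).mp hcop h4

lemma dvd_D_of_subset (h : ImQuad K D δ) {S : Finset ℕ} (hS : S ⊆ D.primeFactors) :
    ∏ p ∈ S, p ∣ D := by
  conv_rhs => rw [← Nat.prod_primeFactors_of_squarefree h.sqf]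
  exact Finset.prod_dvd_prod_of_subset _ _ _ hS

/-- The number of continuous homomorphisms is at least `2 ^ (t - 1)`. -/
theorem card_HomC (h : ImQuad K D δ) :
    2 ^ (D.primeFactors.card - 1) ≤ Nat.card (HomC 2 (Omega K ≃ₐ[K] Omega K)) := by
  classical
  have hfin : Finite (HomC 2 (Omega K ≃ₐ[K] Omega K)) := finite_HomC_Omega
  have hD1 : D ≠ 1 := by have := h.mod; rintro rfl; omega
  obtain ⟨p, hp, hpD⟩ := Nat.exists_prime_and_dvd hD1
  have hpmem : p ∈ D.primeFactors := Nat.mem_primeFactors.mpr ⟨hp, hpD, h.pos.ne'⟩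
  -- the square roots
  have hroot : ∀ e : ℕ, e ∣ D → ∃ θ : Omega K, θ ≠ 0 ∧
      θ ^ 2 = algebraMap K (Omega K) ((star e : ℤ) : K) := by
    intro e he
    obtain ⟨θ, hθ⟩ := IsAlgClosed.exists_pow_nat_eq (((star e : ℤ) : AlgebraicClosure K))
      (n := 2) (by norm_num)
    have h1 := h.good_adjoin he hθ
    have h2 : θ ∈ Omega K := h1.le_Omega (IntermediateField.mem_adjoin_simple_self K θ)
    have he0 : e ≠ 0 := by rintro rfl; exact h.pos.ne' (Nat.eq_zero_of_zero_dvd he)
    refine ⟨⟨θ, h2⟩, ?_, ?_⟩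
    · intro h3
      have h4 : θ = 0 := congrArg Subtype.val h3
      rw [h4] at hθ
      have h5 : ((star e : ℤ) : AlgebraicClosure K) = 0 := by rw [← hθ]; ring
      have h6 : star e = 0 := by exact_mod_cast h5
      have h7 := natAbs_star e
      rw [h6] at h7
      exact he0 h7.symm
    · rw [map_intCast]
      apply Subtype.ext
      push_cast
      exact hθ
  let E : Finset (Finset ℕ) := (D.primeFactors.erase p).powerset
  have hE : ∀ S ∈ E, S ⊆ D.primeFactors := fun S hS =>
    (Finset.mem_powerset.mp hS).trans (Finset.erase_subset _ _)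
  have hdvd : ∀ S : E, ∏ q ∈ S.1, q ∣ D := fun S => h.dvd_D_of_subset (hE S.1 S.2)
  choose θ hθ0 hθ using fun S : E => hroot (∏ q ∈ S.1, q) (hdvd S)
  let f : E → HomC 2 (Omega K ≃ₐ[K] Omega K) := fun S =>
    ⟨chi (θ S), chi_mem (hθ S) (hθ0 S)⟩
  have hf : Function.Injective f := by
    intro S T hST
    have h1 : ∀ g : Omega K ≃ₐ[K] Omega K, g (θ S * θ T) = θ S * θ T := by
      intro g
      have h2 : chi (θ S) g = chi (θ T) g := congrFun (congrArg Subtype.val hST) g
      have h3 : g (θ S) = θ S ↔ g (θ T) = θ T := by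
        unfold chi at h2
        split_ifs at h2 with h4 h5 h5
        · exact ⟨fun _ => h5, fun _ => h4⟩
        · exact absurd h2 (by decide)
        · exact absurd h2 (by decide)
        · exact ⟨fun h6 => absurd h6 h4, fun h6 => absurd h6 h5⟩
      rw [map_mul]
      rcases fix_or_neg (hθ S) g with hg | hg
      · rw [hg, h3.mp hg]
      · rcases fix_or_neg (hθ T) g with hg' | hg'
        · rw [hg', h3.mpr hg']
        · rw [hg, hg']; ring
    rw [← InfiniteGalois.mem_range_algebraMap_iff_fixed] at h1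
    obtain ⟨z, hz⟩ := h1
    have hz2 : z ^ 2 = ((star (∏ q ∈ S.1, q) * star (∏ q ∈ T.1, q) : ℤ) : K) := by
      apply (algebraMap K (Omega K)).injective
      rw [map_pow, hz, mul_pow, hθ, hθ, Int.cast_mul, map_mul]
    have hnot : ∀ S : E, ¬ p ∣ ∏ q ∈ S.1, q := by
      intro S hpS
      obtain ⟨q, hq, hpq⟩ := (hp.prime.dvd_finsetProd_iff _).mp hpS
      have hq' := Finset.mem_powerset.mp S.2 hq
      rw [Finset.mem_erase, Nat.mem_primeFactors] at hq'
      exact hq'.1 ((Nat.prime_dvd_prime_iff_eq hp hq'.2.1).mp hpq).symm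
    have h4 := h.eq_of_sq hp hpD (hdvd S) (hdvd T) (hnot S) (hnot T) hz2
    have h5 : ∀ S : E, (∏ q ∈ S.1, q).primeFactors = S.1 := fun S =>
      Nat.primeFactors_prod (fun q hq => Nat.prime_of_mem_primeFactors (hE S.1 S.2 hq))
    apply Subtype.ext
    rw [← h5 S, h4, h5 T]
  have h6 := Nat.card_le_card_of_injective f hf
  rwa [Nat.card_eq_fintype_card (α := E), Fintype.card_coe, Finset.card_powerset,
    Finset.card_erase_of_mem hpmem] at h6

theorem moduleFinite_HomC_Omega (K : Type*) [Field K] [NumberField K] :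
    Module.Finite (ZMod 2) (HomC 2 (Omega K ≃ₐ[K] Omega K)) := by
  have hfin : Finite (HomC 2 (Omega K ≃ₐ[K] Omega K)) := finite_HomC_Omega
  exact Module.Finite.of_finite

theorem finrank_HomC (h : ImQuad K D δ) :
    D.primeFactors.card - 1 ≤ Module.finrank (ZMod 2) (HomC 2 (Omega K ≃ₐ[K] Omega K)) := by
  have hfin : Finite (HomC 2 (Omega K ≃ₐ[K] Omega K)) := finite_HomC_Omega
  have : Fact (Nat.Prime 2) := ⟨Nat.prime_two⟩
  have := moduleFinite_HomC_Omega K
  have h1 := h.card_HomC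
  have h2 : Nat.card (HomC 2 (Omega K ≃ₐ[K] Omega K)) =
      2 ^ Module.finrank (ZMod 2) (HomC 2 (Omega K ≃ₐ[K] Omega K)) := by
    rw [Module.natCard_eq_pow_finrank (K := ZMod 2), Nat.card_zmod]
  rw [h2] at h1
  exact (Nat.pow_le_pow_iff_right (by norm_num)).mp h1

end ImQuad

end Pool.Agent.Lib.MP_722186_nt
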