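import Pool.Agent.Lib.MP_722186_nt.UnrDefs

/-!
# Valuations: the Galois action on primes, behaviour in extensions (helper22)
-/

namespace Pool.Agent.Lib.MP_722186_nt

open NumberField IsDedekindDomain
open scoped Pointwise

section action

variable {G R : Type*} [Group G] [CommRing R] [MulSemiringAction G R]

/-- The action on the nonzero primes. -/
instance instMulActionHOS : MulAction G (HeightOneSpectrum R) where
  smul g w := ⟨g • w.asIdeal, inferInstance, by
    intro h
    apply w.ne_bot
    have : w.asIdeal = g⁻¹ • (⊥ : Ideal R) := by rw [← h, inv_smul_smul]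
    rw [this, Ideal.pointwise_smul_def, Ideal.map_bot]⟩
  one_smul w := HeightOneSpectrum.ext (one_smul _ _)
  mul_smul g h w := HeightOneSpectrum.ext (mul_smul _ _ _)

@[simp] theorem smul_asIdeal (g : G) (w : HeightOneSpectrum R) :
    (g • w).asIdeal = g • w.asIdeal := rfl

end action

section count

variable {K : Type*} [Field K] [NumberField K]

/-- the exponent in terms of the valuation -/
theorem vv_eq (v : HeightOneSpectrum (𝓞 K)) (a : K) :
    vv v a = - WithZero.log (v.valuation K a) := by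
  classical
  by_cases ha : a = 0
  · subst ha
    simp [vv, FractionalIdeal.count_zero]
  obtain ⟨x, y, hy, rfl⟩ := IsFractionRing.div_surjective (A := 𝓞 K) a
  have hy0 : y ≠ 0 := nonZeroDivisors.ne_zero hy
  have hx0 : x ≠ 0 := by
    rintro rfl
    simp at ha
  have hne : FractionalIdeal.spanSingleton (nonZeroDivisors (𝓞 K))
      ((algebraMap (𝓞 K) K x) / (algebraMap (𝓞 K) K y)) ≠ 0 := by
    rw [Ne, FractionalIdeal.spanSingleton_eq_zero_iff]
    exact ha
  rw [vv, FractionalIdeal.count_well_defined K v hne (a := y) (J := Ideal.span {x}) (by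
    rw [FractionalIdeal.coeIdeal_span_singleton, FractionalIdeal.spanSingleton_mul_spanSingleton,
      div_eq_inv_mul])]
  rw [map_div₀, HeightOneSpectrum.valuation_of_algebraMap, HeightOneSpectrum.valuation_of_algebraMap,
    HeightOneSpectrum.intValuation_def, HeightOneSpectrum.intValuation_def, if_neg hx0, if_neg hy0,
    WithZero.log_div (by simp) (by simp), WithZero.log_exp, WithZero.log_exp]
  ring

theorem vv_mul (v : HeightOneSpectrum (𝓞 K)) {a b : K} (ha : a ≠ 0) (hb : b ≠ 0) :
    vv v (a * b) = vv v a + vv v b := by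
  rw [vv_eq, vv_eq, vv_eq, map_mul, WithZero.log_mul]
  · ring
  · exact (Valuation.ne_zero_iff _).mpr ha
  · exact (Valuation.ne_zero_iff _).mpr hb

theorem vv_one (v : HeightOneSpectrum (𝓞 K)) : vv v (1 : K) = 0 := by
  rw [vv_eq]; simp

theorem vv_neg (v : HeightOneSpectrum (𝓞 K)) (a : K) : vv v (-a) = vv v a := by
  rw [vv_eq, vv_eq, Valuation.map_neg]

theorem vv_inv (v : HeightOneSpectrum (𝓞 K)) (a : K) : vv v a⁻¹ = - vv v a := by
  rw [vv_eq, vv_eq, map_inv₀, WithZero.log_inv]

theorem vv_pow (v : HeightOneSpectrum (𝓞 K)) (a : K) (n : ℕ) : vv v (a ^ n) = n * vv v a := by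
  rw [vv_eq, vv_eq, map_pow, WithZero.log_pow]
  simp

end count

section equivariance

variable {L : Type*} [Field L] [NumberField L] {G : Type*} [Group G] [MulSemiringAction G L]

theorem smul_dvd_smul_iff (g : G) (I J : Ideal (𝓞 L)) : g • I ∣ g • J ↔ I ∣ J := by
  rw [Ideal.dvd_iff_le, Ideal.dvd_iff_le]
  exact Ideal.pointwise_smul_le_pointwise_smul_iff

omit [NumberField L] in
theorem smul_ideal_pow (g : G) (I : Ideal (𝓞 L)) (n : ℕ) : g • (I ^ n) = (g • I) ^ n := by
  rw [Ideal.pointwise_smul_def, Ideal.pointwise_smul_def, Ideal.map_pow]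

theorem intValuation_smul (g : G) (w : HeightOneSpectrum (𝓞 L)) (r : 𝓞 L) :
    w.intValuation (g • r) = (g⁻¹ • w).intValuation r := by
  by_cases hr : r = 0
  · subst hr; simp
  have hgr : g • r ≠ 0 := by
    intro h
    apply hr
    have := congrArg (fun x => g⁻¹ • x) h
    simpa using this
  rw [HeightOneSpectrum.intValuation_eq_exp_neg_multiplicity _ hgr,
    HeightOneSpectrum.intValuation_eq_exp_neg_multiplicity _ hr]
  congr 3
  apply multiplicity_eq_of_emultiplicity_eq
  rw [emultiplicity_eq_emultiplicity_iff]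
  intro n
  have h1 : Ideal.span {g • r} = g • Ideal.span {r} := by
    rw [Ideal.pointwise_smul_def, Ideal.map_span, Set.image_singleton]
    rfl
  rw [h1, smul_asIdeal, ← smul_dvd_smul_iff g ((g⁻¹ • w.asIdeal) ^ n), smul_ideal_pow,
    smul_inv_smul]

theorem valuation_smul (g : G) (w : HeightOneSpectrum (𝓞 L)) (a : L) :
    w.valuation L (g • a) = (g⁻¹ • w).valuation L a := by
  obtain ⟨x, y, hy, rfl⟩ := IsFractionRing.div_surjective (A := 𝓞 L) a
  have h1 : ∀ z : 𝓞 L, g • (algebraMap (𝓞 L) L z) = algebraMap (𝓞 L) L (g • z) := fun z => rfl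
  rw [smul_div₀', h1, h1, map_div₀, map_div₀, HeightOneSpectrum.valuation_of_algebraMap,
    HeightOneSpectrum.valuation_of_algebraMap, HeightOneSpectrum.valuation_of_algebraMap,
    HeightOneSpectrum.valuation_of_algebraMap, intValuation_smul, intValuation_smul]

theorem vv_smul (g : G) (w : HeightOneSpectrum (𝓞 L)) (a : L) :
    vv w (g • a) = vv (g⁻¹ • w) a := by
  rw [vv_eq, vv_eq, valuation_smul]

end equivariance

section towers

variable {k L : Type*} [Field k] [NumberField k] [Field L] [NumberField L] [Algebra k L]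

theorem vv_algebraMap (v : HeightOneSpectrum (𝓞 k)) (w : HeightOneSpectrum (𝓞 L))
    [w.asIdeal.LiesOver v.asIdeal] (h : Unr k L) (a : k) :
    vv w (algebraMap k L a) = vv v a := by
  rw [vv_eq, vv_eq, ← HeightOneSpectrum.valuation_liesOver L v w,
    Ideal.ramificationIdx'_eq_ramificationIdx _ _ v.ne_bot, h w.asIdeal w.isPrime w.ne_bot, pow_one]

variable {K : Type*} [Field K] [NumberField K] [Algebra K k] [Algebra K L] [IsScalarTower K k L]

theorem Unr.tower_bot (h : Unr K L) : Unr K k := by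
  intro P hP hP0
  obtain ⟨⟨Q, hQ, hQP⟩⟩ := (inferInstance : Nonempty (P.primesOver (𝓞 L)))
  have hQ0 : Q ≠ ⊥ := by
    rintro rfl
    apply hP0
    rw [hQP.over, Ideal.under_bot]
  have h1 := h Q hQ hQ0
  rw [Ideal.ramificationIdx_tower (R := 𝓞 K) P Q] at h1
  exact Nat.eq_one_of_mul_eq_one_right h1

theorem TwoUnr.top (h2 : TwoUnr K) (h : Unr K L) : TwoUnr L := by
  intro Q hQ hQ2
  have hQ0 : Q ≠ ⊥ := by
    rintro rfl
    simp at hQ2
  rw [Ideal.ramificationIdx_tower (R := ℤ) (Q.under (𝓞 K)) Q, h Q hQ hQ0,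
    h2 (Q.under (𝓞 K)) inferInstance
      (by rw [Ideal.under_def, Ideal.mem_comap, map_ofNat]; exact hQ2)]

theorem Unr.tower_top (h : Unr K L) : Unr k L := by
  intro Q hQ hQ0
  have h1 := h Q hQ hQ0
  rw [Ideal.ramificationIdx_tower (R := 𝓞 K) (Q.under (𝓞 k)) Q] at h1
  exact Nat.eq_one_of_mul_eq_one_left h1

end towers

end Pool.Agent.Lib.MP_722186_nt
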