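import Mathlib
import Pool.Agent.Lib.QCFT.ClFin
import Pool.Agent.Lib.MP_722186_nt.Vals

/-!
# Module 5 of MP_722186_nt: the norm theorem for unramified quadratic extensions
-/

set_option autoImplicit false

namespace Pool.Agent.Lib.MP_722186_nt

open NumberField IsDedekindDomain Pool.Agent.Lib.QCFT

theorem vv_eq_o {K : Type*} [Field K] [NumberField K] (v : HeightOneSpectrum (𝓞 K)) (a : Kˣ) :
    vv v (a : K) = o v a := by
  rw [vv_eq, val_eq, WithZero.log_exp, neg_neg]

/-- Everywhere unramified quadratic extensions of totally complex fields: an element which has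
even valuation at all inert primes is a norm. -/
theorem norm_of_even {k M : Type} [Field k] [NumberField k] [Field M] [NumberField M]
    [Algebra k M] (h2 : Module.finrank k M = 2) (hunr : Unr k M) (htc : IsTotallyComplex k)
    (a : k) (ha : a ≠ 0)
    (hev : ∀ v : HeightOneSpectrum (𝓞 k),
        (v.asIdeal.map (algebraMap (𝓞 k) (𝓞 M))).IsPrime → Even (vv v a)) :
    ∃ y : M, Algebra.norm k y = a := by
  classical
  have : Algebra.IsQuadraticExtension k M := { finrank_eq_two' := h2 }
  have hee : ∀ w : HeightOneSpectrum (𝓞 M), ee k w = 1 := fun w => hunr _ w.isPrime w.ne_bot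
  obtain ⟨b, θ, hb, hθ⟩ := exists_theta (k := k) (M := M)
  obtain ⟨S1, hS1⟩ := exists_ClTriv k
  obtain ⟨S2, hS2⟩ := exists_ClTriv M
  let a' : kˣ := Units.mk0 a ha
  let t : kˣ := Units.mk0 (2 : k) two_ne_zero
  have hfa := finite_o_ne (R := 𝓞 k) a'
  have hft := finite_o_ne (R := 𝓞 k) t
  let S : Finset (HeightOneSpectrum (𝓞 k)) :=
    S1 ∪ S2.image (und k) ∪ hfa.toFinset ∪ hft.toFinset
  have hmem : ∀ v, v ∈ S ↔ ((v ∈ S1 ∨ v ∈ S2.image (und k)) ∨ o v a' ≠ 0) ∨ o v t ≠ 0 := by
    intro v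
    simp only [S, Finset.mem_union, Set.Finite.mem_toFinset, Set.mem_ofPred_eq]
  have hcl : ClTriv (S : Set (HeightOneSpectrum (𝓞 k))) k := hS1.mono (by
    intro v hv
    rw [Finset.mem_coe, hmem]
    exact Or.inl (Or.inl (Or.inl hv)))
  have hclM : ClTriv {w : HeightOneSpectrum (𝓞 M) | und k w ∈ S} M := hS2.mono (by
    intro w hw
    rw [Set.mem_ofPred_eq, hmem]
    exact Or.inl (Or.inl (Or.inr (Finset.mem_image_of_mem _ hw))))
  have h2S : ∀ v, v ∉ S → v.valuation k (2 : k) = 1 := by
    intro v hv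
    rw [hmem, not_or, not_not] at hv
    exact (o_eq_zero_iff v).mp hv.2
  have haS : a' ∈ SU (S : Set (HeightOneSpectrum (𝓞 k))) k := by
    intro v hv
    rw [Finset.mem_coe, hmem, not_or, not_or, not_not] at hv
    exact hv.1.2
  obtain ⟨z, hz⟩ := norm_SU S hee hcl hclM h2S hb hθ a' haS (by
    intro v _ hns
    rw [← vv_eq_o]
    exact hev v (isPrime_map_of_NSp hns hee))
  exact ⟨z, congrArg Units.val hz⟩

/-- MODULE 5 -/
theorem hnStatement : HNStatement := by
  intro k M _ _ _ _ _ h2 hunr _ htc a ha hev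
  exact norm_of_even h2 hunr htc a ha hev

end Pool.Agent.Lib.MP_722186_nt
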