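import Pool.Agent.Lib.MP_722186_nt.Mod4b

/-!
# Module 7c (helper22): unramified quadratic Kummer extensions
-/

namespace Pool.Agent.Lib.MP_722186_nt

open NumberField IsDedekindDomain
open scoped Pointwise

section quad

variable {L F : Type} [Field L] [Field F] [Algebra L F]

theorem quad_rep (hquad : Module.finrank L F = 2) (γ : L) (η : F)
    (hη : η ^ 2 = algebraMap L F γ) (hns : ¬ IsSquare γ) (x : F) :
    ∃ a b : L, x = algebraMap L F a + algebraMap L F b * η := by
  have hli : LinearIndependent L ![(1 : F), η] := by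
    rw [LinearIndependent.pair_iff]
    intro s t hst
    have ht : t = 0 := by
      by_contra ht
      apply hns
      refine ⟨s / t, ?_⟩
      apply FaithfulSMul.algebraMap_injective L F
      have ht' : algebraMap L F t ≠ 0 := by simpa using ht
      rw [map_mul, map_div₀, ← hη]
      rw [Algebra.smul_def, Algebra.smul_def, mul_one] at hst
      have h1 : η = - (algebraMap L F s / algebraMap L F t) := by
        field_simp
        linear_combination hst
      rw [h1]; ring
    subst ht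
    rw [zero_smul, add_zero, Algebra.smul_def, mul_one] at hst
    exact ⟨by simpa using hst, rfl⟩
  have : FiniteDimensional L F := Module.finite_of_finrank_eq_succ hquad
  have hspan := hli.span_eq_top_of_card_eq_finrank' (by rw [hquad]; simp)
  have hx : x ∈ Submodule.span L (Set.range ![(1 : F), η]) := by rw [hspan]; trivial
  rw [Matrix.range_cons, Matrix.range_cons, Matrix.range_empty, Set.union_empty,
    Set.singleton_union, Submodule.mem_span_pair] at hx
  obtain ⟨a, b, hab⟩ := hx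
  exact ⟨a, b, by rw [← hab, Algebra.smul_def, Algebra.smul_def, mul_one]⟩

theorem quad_conj (hquad : Module.finrank L F = 2) (γ : L) (η : F)
    (hη : η ^ 2 = algebraMap L F γ) (hns : ¬ IsSquare γ) (g : F ≃ₐ[L] F) (hg : g ≠ 1) :
    g η = -η := by
  have h1 : (g η) ^ 2 = η ^ 2 := by
    rw [← map_pow, hη, AlgEquiv.commutes]
  rcases sq_eq_sq_iff_eq_or_eq_neg.mp h1 with h2 | h2
  · exfalso
    apply hg
    ext x
    obtain ⟨a, b, rfl⟩ := quad_rep hquad γ η hη hns x
    rw [map_add, map_mul, AlgEquiv.commutes, AlgEquiv.commutes, h2]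
    rfl
  · exact h2

end quad

section unr

variable {L F : Type} [Field L] [NumberField L] [Field F] [NumberField F] [Algebra L F]

theorem unr_of_inertia [IsGalois L F]
    (h : ∀ P : Ideal (𝓞 F), P.IsPrime → P ≠ ⊥ → ∀ g : F ≃ₐ[L] F,
      (∀ x : 𝓞 F, g • x - x ∈ P) → g = 1) : Unr L F := by
  intro P hP hP0
  have h1 := Ideal.card_inertia_eq_ramificationIdxIn (G := (F ≃ₐ[L] F)) (P.under (𝓞 L)) P
  rw [Ideal.ramificationIdxIn_eq_ramificationIdx (P.under (𝓞 L)) P (F ≃ₐ[L] F)] at h1
  rw [← h1]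
  have h2 : Ideal.inertia (F ≃ₐ[L] F) P = ⊥ := by
    rw [Subgroup.eq_bot_iff_forall]
    intro g hg
    exact h P hP hP0 g hg
  rw [h2, Subgroup.card_bot]

/-- A unit representative at `w` of a class with even valuation. -/
theorem exists_local_rep (γ : L) (hγ : γ ≠ 0) (w : HeightOneSpectrum (𝓞 L))
    (hev : Even (vv w γ)) :
    ∃ (β : L) (u : 𝓞 L), algebraMap (𝓞 L) L u = β ^ 2 * γ ∧ u ∉ w.asIdeal := by
  obtain ⟨π, hπ⟩ := w.valuation_exists_uniformizer L
  obtain ⟨n, hn⟩ := hev
  have hπ0 : π ≠ 0 := by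
    rintro rfl
    rw [map_zero] at hπ
    exact absurd hπ.symm (by simp)
  have hvγ : w.valuation L γ = WithZero.exp (-(2 * n) : ℤ) := by
    rw [vv_eq] at hn
    have h1 : w.valuation L γ ≠ 0 := (Valuation.ne_zero_iff _).mpr hγ
    rw [← WithZero.exp_log h1]
    congr 1
    linarith
  have hz : w.valuation L ((π ^ (-n)) ^ 2 * γ) = 1 := by
    rw [map_mul, map_pow, map_zpow₀, hπ, hvγ, ← WithZero.exp_zsmul, ← WithZero.exp_nsmul,
      ← WithZero.exp_add, ← WithZero.exp_zero]
    congr 1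
    simp
  obtain ⟨p, d, hpd⟩ := w.exists_primeCompl_mul_eq_of_integer _ hz.le
  refine ⟨π ^ (-n) * algebraMap (𝓞 L) L d, p * d, ?_, ?_⟩
  · rw [map_mul, ← hpd]
    ring
  · intro hmem
    rcases w.isPrime.mem_or_mem hmem with h1 | h1
    · have e1 : w.valuation L (algebraMap (𝓞 L) L p) = w.intValuation p :=
        HeightOneSpectrum.valuation_of_algebraMap w p
      have e2 : w.valuation L (algebraMap (𝓞 L) L d) = w.intValuation d :=
        HeightOneSpectrum.valuation_of_algebraMap w d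
      rw [← w.intValuation_lt_one_iff_mem, ← e1, ← hpd, map_mul, hz, one_mul, e2,
        w.intValuation_lt_one_iff_mem] at h1
      exact d.2 h1
    · exact d.2 h1

/-- Unramified quadratic Kummer extensions. -/
theorem kummer_unr (hquad : Module.finrank L F = 2) (γ : L) (hγ : γ ≠ 0)
    (hev : ∀ w : HeightOneSpectrum (𝓞 L), Even (vv w γ)) (δ : L) (e : 𝓞 L)
    (he : algebraMap (𝓞 L) L (1 + 4 * e) = δ ^ 2 * γ) (η : F)
    (hη : η ^ 2 = algebraMap L F γ) (hns : ¬ IsSquare γ) : Unr L F := by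
  have : Algebra.IsQuadraticExtension L F := ⟨hquad⟩
  have : IsGalois L F := inferInstance
  apply unr_of_inertia
  intro P hP hP0 g hg
  by_contra hg1
  have hgη := quad_conj hquad γ η hη hns g hg1
  have hsm : ∀ x : 𝓞 F, algebraMap (𝓞 F) F (g • x) = g (algebraMap (𝓞 F) F x) := fun x => rfl
  have htow : ∀ x : 𝓞 L, algebraMap (𝓞 F) F (algebraMap (𝓞 L) (𝓞 F) x)
      = algebraMap L F (algebraMap (𝓞 L) L x) := fun x => rfl
  by_cases h2 : (2 : 𝓞 F) ∈ P
  · -- primes above `2`
    set ξ : F := (1 + algebraMap L F δ * η) / 2 with hξ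
    have h2F : (2 : F) ≠ 0 := two_ne_zero
    have hξ2 : ξ ^ 2 - ξ - algebraMap L F (algebraMap (𝓞 L) L e) = 0 := by
      have h3 : (algebraMap L F δ * η) ^ 2 = 1 + 4 * algebraMap L F (algebraMap (𝓞 L) L e) := by
        rw [mul_pow, hη, ← map_pow, ← map_mul, ← he]
        simp only [map_add, map_mul, map_one, map_ofNat]
      rw [hξ]
      field_simp
      linear_combination h3
    have hint : IsIntegral ℤ ξ := by
      have h4 : IsIntegral (𝓞 L) ξ := by
        refine ⟨Polynomial.X ^ 2 - Polynomial.X - Polynomial.C e, ?_, ?_⟩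
        · monicity!
        · simp only [Polynomial.eval₂_sub, Polynomial.eval₂_pow, Polynomial.eval₂_X,
            Polynomial.eval₂_C]
          exact hξ2
      exact isIntegral_trans (R := ℤ) (A := 𝓞 L) ξ h4
    obtain ⟨x, hx⟩ : ∃ x : 𝓞 F, algebraMap (𝓞 F) F x = ξ := ⟨⟨ξ, hint⟩, rfl⟩
    have h5 := hg x
    have h6 : (g • x - x) ^ 2 = algebraMap (𝓞 L) (𝓞 F) (1 + 4 * e) := by
      apply FaithfulSMul.algebraMap_injective (𝓞 F) F
      rw [map_pow, map_sub, hsm, hx, htow, he, map_mul, map_pow, ← hη, hξ, map_div₀, map_add,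
        map_one, map_mul, AlgEquiv.commutes, hgη, map_ofNat]
      field_simp
      ring
    have h7 : algebraMap (𝓞 L) (𝓞 F) (1 + 4 * e) ∈ P := by
      rw [← h6]
      exact Ideal.pow_mem_of_mem P h5 2 (by norm_num)
    apply hP.ne_top
    rw [Ideal.eq_top_iff_one]
    have h8 : (1 : 𝓞 F) = algebraMap (𝓞 L) (𝓞 F) (1 + 4 * e)
        - 2 * (2 * algebraMap (𝓞 L) (𝓞 F) e) := by
      simp only [map_add, map_mul, map_one, map_ofNat]; ring
    rw [h8]
    exact Ideal.sub_mem _ h7 (P.mul_mem_right _ h2)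
  · -- primes not above `2`
    have hw0 : P.under (𝓞 L) ≠ ⊥ := mt Ideal.eq_bot_of_comap_eq_bot hP0
    let w : HeightOneSpectrum (𝓞 L) := ⟨P.under (𝓞 L), inferInstance, hw0⟩
    obtain ⟨β, u, hu, huw⟩ := exists_local_rep γ hγ w (hev w)
    have hξ2 : (algebraMap L F β * η) ^ 2 = algebraMap L F (algebraMap (𝓞 L) L u) := by
      rw [mul_pow, hη, ← map_pow, ← map_mul, ← hu]
    have hint : IsIntegral ℤ (algebraMap L F β * η) := by
      have h4 : IsIntegral (𝓞 L) (algebraMap L F β * η) := by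
        refine ⟨Polynomial.X ^ 2 - Polynomial.C u, ?_, ?_⟩
        · monicity!
        · simp only [Polynomial.eval₂_sub, Polynomial.eval₂_pow, Polynomial.eval₂_X,
            Polynomial.eval₂_C]
          rw [hξ2]
          exact sub_self _
      exact isIntegral_trans (R := ℤ) (A := 𝓞 L) _ h4
    obtain ⟨x, hx⟩ : ∃ x : 𝓞 F, algebraMap (𝓞 F) F x = algebraMap L F β * η := ⟨⟨_, hint⟩, rfl⟩
    have h5 := hg x
    have h6 : g • x - x = - (2 * x) := by
      apply FaithfulSMul.algebraMap_injective (𝓞 F) F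
      rw [map_sub, hsm, map_neg, map_mul, hx, map_mul, AlgEquiv.commutes, hgη, map_ofNat]
      ring
    rw [h6, neg_mem_iff] at h5
    rcases hP.mem_or_mem h5 with h7 | h7
    · exact h2 h7
    · apply huw
      show u ∈ P.under (𝓞 L)
      rw [Ideal.under_def, Ideal.mem_comap]
      have h8 : algebraMap (𝓞 L) (𝓞 F) u = x ^ 2 := by
        apply FaithfulSMul.algebraMap_injective (𝓞 F) F
        rw [htow, map_pow, hx, hξ2]
      rw [h8]
      exact Ideal.pow_mem_of_mem P h7 2 (by norm_num)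

end unr

section good

variable {K L F : Type} [Field K] [NumberField K] [Field L] [NumberField L] [Field F]
  [NumberField F] [Algebra K L] [Algebra L F] [Algebra K F] [IsScalarTower K L F]

omit [NumberField L] in
theorem normal_of_quad [Normal K L] (hquad : Module.finrank L F = 2) (γ : L)
    (hinv : ∀ g : L ≃ₐ[K] L, ∃ ε : L, g γ = ε ^ 2 * γ) (η : F)
    (hη : η ^ 2 = algebraMap L F γ) (hns : ¬ IsSquare γ) : Normal K F := by
  let C := AlgebraicClosure F
  have hC : IsAlgClosure K C := IsAlgClosure.ofAlgebraic K F C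
  have : Normal K C := IsAlgClosure.normal K C
  let F' : IntermediateField K C := (IsScalarTower.toAlgHom K F C).fieldRange
  have hF' : Normal K F' := by
    rw [IntermediateField.normal_iff_forall_map_le']
    rintro σ _ ⟨_, ⟨y, rfl⟩, rfl⟩
    obtain ⟨a, b, rfl⟩ := quad_rep hquad γ η hη hns y
    obtain ⟨ε, hε⟩ := hinv (σ.restrictNormal L)
    have h1 : ∀ z : L, σ (algebraMap F C (algebraMap L F z))
        = algebraMap F C (algebraMap L F (σ.restrictNormal L z)) := by
      intro z
      rw [← IsScalarTower.algebraMap_apply L F C, ← IsScalarTower.algebraMap_apply L F C]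
      exact (AlgEquiv.restrictNormal_commutes σ L z).symm
    have h2 : (σ (algebraMap F C η)) ^ 2 = (algebraMap F C (algebraMap L F ε * η)) ^ 2 := by
      rw [← map_pow, ← map_pow, hη, h1, hε, ← map_pow, mul_pow, hη, map_mul, map_pow]
    have h3 : ∃ η' : F, σ (algebraMap F C η) = algebraMap F C η' := by
      rcases sq_eq_sq_iff_eq_or_eq_neg.mp h2 with h | h
      · exact ⟨_, h⟩
      · exact ⟨-(algebraMap L F ε * η), by rw [h, map_neg]⟩
    obtain ⟨η', hη'⟩ := h3
    refine ⟨algebraMap L F (σ.restrictNormal L a) + algebraMap L F (σ.restrictNormal L b) * η', ?_⟩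
    show algebraMap F C _ = σ (algebraMap F C _)
    rw [map_add, map_mul, map_add, map_mul, map_add, map_mul, h1, h1, hη']
  exact Normal.of_algEquiv (AlgHom.equivFieldRange (IsScalarTower.toAlgHom K F C)).symm

theorem good_of_quad (hL : GoodExt K L) (hquad : Module.finrank L F = 2) (γ : L)
    (hinv : ∀ g : L ≃ₐ[K] L, ∃ ε : L, g γ = ε ^ 2 * γ) (η : F)
    (hη : η ^ 2 = algebraMap L F γ) (hns : ¬ IsSquare γ) (hunr : Unr L F) : GoodExt K F := by
  have := hL.gal
  have hn : Normal K F := normal_of_quad hquad γ hinv η hη hns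
  refine ⟨inferInstance, ⟨⟩, ?_, ?_⟩
  · obtain ⟨n, hn⟩ := hL.pow
    refine ⟨n + 1, ?_⟩
    rw [← Module.finrank_mul_finrank K L F, hn, hquad, pow_succ]
  · intro Q hQ hQ0
    have hP0 : Q.under (𝓞 L) ≠ ⊥ := mt Ideal.eq_bot_of_comap_eq_bot hQ0
    rw [Ideal.ramificationIdx_tower (R := 𝓞 K) (Q.under (𝓞 L)) Q, hunr Q hQ hQ0,
      hL.unr (Q.under (𝓞 L)) inferInstance hP0]

end good

section omega

open Polynomial

variable {K Ω : Type} [Field K] [NumberField K] [Field Ω] [Algebra K Ω]

/-- Unramified Kummer classes are squares in `Ω`. -/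
theorem isSquare_Omega (hΩ : IsOmega K Ω) (L : IntermediateField K Ω) [NumberField L]
    (hL : GoodExt K L) (γ : L) (hγ : γ ≠ 0)
    (hev : ∀ w : HeightOneSpectrum (𝓞 L), Even (vv w γ)) (δ : L) (e : 𝓞 L)
    (he : algebraMap (𝓞 L) L (1 + 4 * e) = δ ^ 2 * γ)
    (hinv : ∀ g : L ≃ₐ[K] L, ∃ ε : L, g γ = ε ^ 2 * γ) : IsSquare (γ : Ω) := by
  by_cases hns : IsSquare γ
  · exact hns.map (algebraMap L Ω)
  have hirr : Irreducible (X ^ 2 - C γ : L[X]) := by
    apply X_pow_sub_C_irreducible_of_prime Nat.prime_two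
    intro b hb
    exact hns ⟨b, by rw [← hb, sq]⟩
  have : Fact (Irreducible (X ^ 2 - C γ : L[X])) := ⟨hirr⟩
  let F : Type := AdjoinRoot (X ^ 2 - C γ : L[X])
  have hne : (X ^ 2 - C γ : L[X]) ≠ 0 := hirr.ne_zero
  have hdeg : (X ^ 2 - C γ : L[X]).natDegree = 2 := natDegree_X_pow_sub_C
  have hquad : Module.finrank L F = 2 := by
    rw [(AdjoinRoot.powerBasis hne).finrank, AdjoinRoot.powerBasis_dim, hdeg]
  have hfin : FiniteDimensional L F := Module.finite_of_finrank_eq_succ hquad
  have hnf : NumberField F := NumberField.of_module_finite L F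
  let η : F := AdjoinRoot.root (X ^ 2 - C γ : L[X])
  have hη : η ^ 2 = algebraMap L F γ := by
    have h1 := AdjoinRoot.eval₂_root (X ^ 2 - C γ : L[X])
    rw [eval₂_sub, eval₂_pow, eval₂_X, eval₂_C, sub_eq_zero] at h1
    exact h1
  have hunr : Unr L F := kummer_unr hquad γ hγ hev δ e he η hη hns
  have hgood : GoodExt K F := good_of_quad hL hquad γ hinv η hη hns hunr
  obtain ⟨j⟩ := hΩ.max F hgood
  have := hL.gal
  let φ : L →ₐ[K] Ω := j.comp (IsScalarTower.toAlgHom K L F)
  let g : L →ₐ[K] L := φ.restrictNormal L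
  have hg : ∀ x : L, algebraMap L Ω (g x) = j (algebraMap L F x) := by
    intro x
    exact AlgHom.restrictNormal_commutes φ L x
  have := hL.fin
  let g' : L ≃ₐ[K] L := AlgEquiv.ofBijective g (Algebra.IsAlgebraic.algHom_bijective g)
  obtain ⟨ε, hε⟩ := hinv g'
  have h1 : algebraMap L Ω (ε ^ 2 * γ) = (j η) ^ 2 := by
    rw [← hε, ← map_pow, hη]
    exact hg γ
  have hε0 : ε ≠ 0 := by
    rintro rfl
    rw [zero_pow two_ne_zero, zero_mul] at hε
    exact hγ (by simpa using hε)
  have hε0' : algebraMap L Ω ε ≠ 0 := by simpa using hε0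
  refine ⟨j η / algebraMap L Ω ε, ?_⟩
  rw [map_mul, map_pow] at h1
  show algebraMap L Ω γ = _
  field_simp
  rw [← h1]; ring

end omega

end Pool.Agent.Lib.MP_722186_nt
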