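import Pool.Agent.Lib.MP_722186_nt.NormStep

/-!
# Module 7a (helper22): analysis modulo 4 at the primes above 2
-/

namespace Pool.Agent.Lib.MP_722186_nt

open NumberField IsDedekindDomain
open scoped Pointwise

section dyadic

variable {L : Type} [Field L] [NumberField L]

/-- Denominators prime to `2`. -/
theorem denom_two (z : L)
    (hz : ∀ w : HeightOneSpectrum (𝓞 L), (2 : 𝓞 L) ∈ w.asIdeal → w.valuation L z ≤ 1) :
    ∃ m p : 𝓞 L, algebraMap (𝓞 L) L p = algebraMap (𝓞 L) L (1 + 2 * m) * z := by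
  let D : Ideal (𝓞 L) :=
    { carrier := {t | ∃ p : 𝓞 L, algebraMap (𝓞 L) L p = algebraMap (𝓞 L) L t * z}
      add_mem' := by
        rintro a b ⟨p, hp⟩ ⟨q, hq⟩
        exact ⟨p + q, by rw [map_add, map_add, hp, hq]; ring⟩
      zero_mem' := ⟨0, by simp⟩
      smul_mem' := by
        rintro c a ⟨p, hp⟩
        exact ⟨c * p, by rw [smul_eq_mul, map_mul, map_mul, hp]; ring⟩ }
  have htop : D ⊔ Ideal.span {(2 : 𝓞 L)} = ⊤ := by
    by_contra hne
    obtain ⟨P, hP, hle⟩ := Ideal.exists_le_maximal _ hne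
    have h2 : (2 : 𝓞 L) ∈ P := hle (Ideal.mem_sup_right (Ideal.mem_span_singleton_self _))
    have hP0 : P ≠ ⊥ := by
      rintro rfl
      simp at h2
    let w : HeightOneSpectrum (𝓞 L) := ⟨P, hP.isPrime, hP0⟩
    obtain ⟨n, d, hnd⟩ := w.exists_primeCompl_mul_eq_of_integer z (hz w h2)
    have hd : (d : 𝓞 L) ∈ D := ⟨n, by rw [mul_comm]; exact hnd.symm⟩
    exact d.2 (hle (Ideal.mem_sup_left hd))
  have h1 : (1 : 𝓞 L) ∈ D ⊔ Ideal.span {(2 : 𝓞 L)} := by rw [htop]; trivial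
  obtain ⟨t, ⟨p, hp⟩, b, hb, htb⟩ := Submodule.mem_sup.mp h1
  obtain ⟨b', rfl⟩ := Ideal.mem_span_singleton'.mp hb
  refine ⟨-b', p, ?_⟩
  rw [hp]
  congr 2
  rw [← htb]; ring

/-- `2` divides `x` if it does so locally. -/
theorem two_dvd_of (h2 : ∀ w : HeightOneSpectrum (𝓞 L), (2 : 𝓞 L) ∈ w.asIdeal →
    w.intValuation (2 : 𝓞 L) = WithZero.exp (-1 : ℤ)) (x : 𝓞 L)
    (hx : ∀ w : HeightOneSpectrum (𝓞 L), (2 : 𝓞 L) ∈ w.asIdeal → x ∈ w.asIdeal) :
    (2 : 𝓞 L) ∣ x := by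
  obtain ⟨y, hy⟩ := HeightOneSpectrum.mem_integers_of_valuation_le_one (R := 𝓞 L) L
    (algebraMap (𝓞 L) L x / algebraMap (𝓞 L) L 2) (by
      intro w
      rw [map_div₀, HeightOneSpectrum.valuation_of_algebraMap,
        HeightOneSpectrum.valuation_of_algebraMap]
      by_cases hw : (2 : 𝓞 L) ∈ w.asIdeal
      · have h1 := (w.intValuation_le_pow_iff_mem x 1).mpr (by rw [pow_one]; exact hx w hw)
        rw [h2 w hw]
        have h3 : WithZero.exp (-1 : ℤ) ≠ 0 := by simp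
        rw [div_le_one₀ (zero_lt_iff.mpr h3)]
        exact h1
      · have h1 : w.intValuation (2 : 𝓞 L) = 1 :=
          (w.intValuation_eq_one_iff_mem_primeCompl 2).mpr hw
        rw [h1, div_one]
        exact w.intValuation_le_one x)
  refine ⟨y, ?_⟩
  apply FaithfulSMul.algebraMap_injective (𝓞 L) L
  rw [map_mul, hy]
  have h3 : algebraMap (𝓞 L) L 2 ≠ 0 := by
    rw [map_ofNat]; norm_num
  field_simp

/-- If `2` is unramified then it is a uniformizer at all the primes above it. -/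
theorem intVal_two (h : TwoUnr L) (w : HeightOneSpectrum (𝓞 L)) (hw : (2 : 𝓞 L) ∈ w.asIdeal) :
    w.intValuation (2 : 𝓞 L) = WithZero.exp (-1 : ℤ) := by
  have hP : (Ideal.span {(2 : ℤ)}).IsPrime :=
    (Ideal.span_singleton_prime (by norm_num)).mpr Int.prime_two
  let v : HeightOneSpectrum ℤ := ⟨Ideal.span {(2 : ℤ)}, hP, by simp⟩
  have hwv : w.asIdeal.LiesOver v.asIdeal := by
    constructor
    have hmax : (Ideal.span {(2 : ℤ)}).IsMaximal := hP.isMaximal (by simp)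
    refine hmax.eq_of_le (Ideal.comap_ne_top _ w.isPrime.ne_top) ?_
    rw [Ideal.span_singleton_le_iff_mem, Ideal.mem_comap, map_ofNat]
    exact hw
  have h1 := HeightOneSpectrum.intValuation_liesOver v w (2 : ℤ)
  have h2 : algebraMap ℤ (𝓞 L) 2 = 2 := by simp
  rw [Ideal.ramificationIdx'_eq_ramificationIdx _ _ v.ne_bot, h w.asIdeal w.isPrime hw, pow_one,
    h2] at h1
  rw [← h1]
  exact v.intValuation_singleton (by norm_num) rfl

theorem sq_dvd (h : TwoUnr L) (x : 𝓞 L) (hx : (2 : 𝓞 L) ∣ x ^ 2) : (2 : 𝓞 L) ∣ x := by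
  apply two_dvd_of (intVal_two h)
  intro w hw
  have h1 : x ^ 2 ∈ w.asIdeal := by
    obtain ⟨c, hc⟩ := hx
    rw [hc]
    exact w.asIdeal.mul_mem_right _ hw
  exact w.isPrime.mem_of_pow_mem _ h1

/-- Frobenius is surjective modulo `2`. -/
theorem frob_surj (h : TwoUnr L) (x : 𝓞 L) : ∃ s m : 𝓞 L, x = s ^ 2 + 2 * m := by
  let I : Ideal (𝓞 L) := Ideal.span {(2 : 𝓞 L)}
  have hI : I ≠ ⊥ := by simp [I]
  have hfin : Finite (𝓞 L ⧸ I) := Ideal.finiteQuotientOfFreeOfNeBot I hI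
  let F : 𝓞 L ⧸ I → 𝓞 L ⧸ I := fun y => y ^ 2
  have hinj : Function.Injective F := by
    intro a b hab
    obtain ⟨a, rfl⟩ := Ideal.Quotient.mk_surjective a
    obtain ⟨b, rfl⟩ := Ideal.Quotient.mk_surjective b
    simp only [F] at hab
    rw [← map_pow, ← map_pow, Ideal.Quotient.eq, Ideal.mem_span_singleton] at hab
    rw [Ideal.Quotient.eq, Ideal.mem_span_singleton]
    apply sq_dvd h
    have : (a - b) ^ 2 = (a ^ 2 - b ^ 2) - 2 * (b * (a - b)) := by ring
    rw [this]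
    exact dvd_sub hab (Dvd.intro _ rfl)
  have hsurj : Function.Surjective F := Finite.injective_iff_surjective.mp hinj
  obtain ⟨y, hy⟩ := hsurj (Ideal.Quotient.mk I x)
  obtain ⟨s, rfl⟩ := Ideal.Quotient.mk_surjective y
  simp only [F] at hy
  rw [← map_pow, eq_comm, Ideal.Quotient.eq, Ideal.mem_span_singleton] at hy
  obtain ⟨m, hm⟩ := hy
  exact ⟨s, m, by rw [← hm]; ring⟩

theorem two_not_unit (x : 𝓞 L) : (1 : 𝓞 L) + 2 * x ≠ 0 := by
  intro h
  have h1 : IsUnit (2 : 𝓞 L) := IsUnit.of_mul_eq_one (-x) (by linear_combination -h)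
  have h2 := h1.map (Algebra.norm ℤ)
  have h3 : (2 : 𝓞 L) = algebraMap ℤ (𝓞 L) 2 := by simp
  rw [h3, Algebra.norm_algebraMap] at h2
  have h4 : IsUnit (2 : ℤ) := by
    rw [isUnit_pow_iff] at h2
    · exact h2
    · exact (Module.finrank_pos).ne'
  exact absurd h4 (by decide)

theorem finite_primes_two : {w : HeightOneSpectrum (𝓞 L) | (2 : 𝓞 L) ∈ w.asIdeal}.Finite := by
  have h := Ideal.finite_factors (R := 𝓞 L) (I := Ideal.span {(2 : 𝓞 L)}) (by simp)
  refine h.subset ?_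
  intro w hw
  exact Ideal.dvd_span_singleton.mpr hw

theorem exists_prime_two : ∃ w : HeightOneSpectrum (𝓞 L), (2 : 𝓞 L) ∈ w.asIdeal := by
  have hne : Ideal.span {(2 : 𝓞 L)} ≠ ⊤ := by
    intro h
    rw [Ideal.span_singleton_eq_top] at h
    obtain ⟨c, hc⟩ := h.exists_right_inv
    exact two_not_unit (-c) (by rw [← hc]; ring)
  obtain ⟨P, hP, hle⟩ := Ideal.exists_le_maximal _ hne
  have h2 : (2 : 𝓞 L) ∈ P := hle (Ideal.mem_span_singleton_self _)
  have hP0 : P ≠ ⊥ := by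
    rintro rfl
    simp at h2
  exact ⟨⟨P, hP.isPrime, hP0⟩, h2⟩

/-- An element with prescribed valuations at the primes above `2`. -/
theorem exists_val (n : HeightOneSpectrum (𝓞 L) → ℕ) :
    ∃ y : 𝓞 L, y ≠ 0 ∧ ∀ w : HeightOneSpectrum (𝓞 L), (2 : 𝓞 L) ∈ w.asIdeal →
      w.intValuation y = WithZero.exp (-(n w : ℤ)) := by
  classical
  have hx : ∀ w : HeightOneSpectrum (𝓞 L), ∃ x ∈ w.asIdeal ^ (n w), x ∉ w.asIdeal ^ (n w + 1) :=
    fun w => Ideal.exists_mem_pow_notMem_pow_succ w.asIdeal w.ne_bot w.isPrime.ne_top (n w)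
  choose x hx1 hx2 using hx
  obtain ⟨y, hy⟩ := IsDedekindDomain.exists_forall_sub_mem_ideal
    (s := (finite_primes_two (L := L)).toFinset) (fun w => w.asIdeal) (fun w => n w + 1)
    (fun w _ => w.prime) (fun w _ w' _ hww' h => hww' (HeightOneSpectrum.ext h))
    (fun w => x w.1)
  have hy' : ∀ w : HeightOneSpectrum (𝓞 L), (2 : 𝓞 L) ∈ w.asIdeal →
      y - x w ∈ w.asIdeal ^ (n w + 1) := by
    intro w hw
    exact hy w (by rw [Set.Finite.mem_toFinset]; exact hw)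
  have hy1 : ∀ w : HeightOneSpectrum (𝓞 L), (2 : 𝓞 L) ∈ w.asIdeal →
      y ∈ w.asIdeal ^ (n w) ∧ y ∉ w.asIdeal ^ (n w + 1) := by
    intro w hw
    have h1 := hy' w hw
    constructor
    · have h2 : y - x w ∈ w.asIdeal ^ (n w) := Ideal.pow_le_pow_right (Nat.le_succ _) h1
      have : y = (y - x w) + x w := by ring
      rw [this]
      exact Ideal.add_mem _ h2 (hx1 w)
    · intro h3
      apply hx2 w
      have : x w = y - (y - x w) := by ring
      rw [this]
      exact Ideal.sub_mem _ h3 h1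
  refine ⟨y, ?_, ?_⟩
  · rintro rfl
    obtain ⟨w, hw⟩ := exists_prime_two (L := L)
    exact (hy1 w hw).2 (Ideal.zero_mem _)
  · intro w hw
    obtain ⟨h1, h2⟩ := hy1 w hw
    have hy0 : y ≠ 0 := by
      rintro rfl
      exact h2 (Ideal.zero_mem _)
    rw [← HeightOneSpectrum.intValuation_le_pow_iff_mem] at h1 h2
    apply le_antisymm h1
    push Not at h2
    rw [HeightOneSpectrum.intValuation_if_neg _ hy0] at h2 ⊢
    rw [WithZero.exp_lt_exp] at h2
    rw [WithZero.exp_le_exp]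
    push_cast at h2
    omega

/-- An element with even valuations above `2` is, up to squares, an integral unit above `2`. -/
theorem exists_unit_rep (γ : L) (hγ : γ ≠ 0)
    (hev : ∀ w : HeightOneSpectrum (𝓞 L), (2 : 𝓞 L) ∈ w.asIdeal → Even (vv w γ)) :
    ∃ (δ : L) (u : 𝓞 L), δ ≠ 0 ∧ algebraMap (𝓞 L) L u = δ ^ 2 * γ ∧
      ∀ w : HeightOneSpectrum (𝓞 L), (2 : 𝓞 L) ∈ w.asIdeal → u ∉ w.asIdeal := by
  obtain ⟨x, y, hy, rfl⟩ := IsFractionRing.div_surjective (A := 𝓞 L) γ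
  have hy0 : y ≠ 0 := nonZeroDivisors.ne_zero hy
  have hx0 : x ≠ 0 := by
    rintro rfl
    simp at hγ
  have hy0' : algebraMap (𝓞 L) L y ≠ 0 := by simpa using hy0
  have hx0' : algebraMap (𝓞 L) L x ≠ 0 := by simpa using hx0
  have hn : ∀ w : HeightOneSpectrum (𝓞 L), (2 : 𝓞 L) ∈ w.asIdeal →
      ∃ n : ℕ, w.intValuation (x * y) = WithZero.exp (-((2 * n : ℕ) : ℤ)) := by
    intro w hw
    have hxy : x * y ≠ 0 := mul_ne_zero hx0 hy0
    have h1 := hev w hw
    rw [HeightOneSpectrum.intValuation_if_neg _ hxy]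
    set N := (Associates.mk w.asIdeal).count (Associates.mk (Ideal.span {x * y})).factors with hN
    have h2 : vv w (algebraMap (𝓞 L) L (x * y)) = N := by
      rw [vv_eq, HeightOneSpectrum.valuation_of_algebraMap,
        HeightOneSpectrum.intValuation_if_neg _ hxy, WithZero.log_exp, neg_neg]
    have h3 : algebraMap (𝓞 L) L (x * y)
        = (algebraMap (𝓞 L) L x / algebraMap (𝓞 L) L y) * (algebraMap (𝓞 L) L y) ^ 2 := by
      rw [map_mul]; field_simp
    rw [h3, vv_mul w hγ (pow_ne_zero 2 hy0'), vv_pow] at h2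
    have h4 : Even (N : ℤ) := by
      rw [← h2]
      exact h1.add ⟨vv w (algebraMap (𝓞 L) L y), by push_cast; ring⟩
    have h5 : Even N := by exact_mod_cast h4
    obtain ⟨n, hn⟩ := h5
    exact ⟨n, by rw [hn, two_mul]⟩
  classical
  obtain ⟨y0, hy00, hval⟩ := exists_val (L := L)
    (fun w => if hw : (2 : 𝓞 L) ∈ w.asIdeal then (hn w hw).choose else 0)
  have hval' : ∀ w : HeightOneSpectrum (𝓞 L), (2 : 𝓞 L) ∈ w.asIdeal →
      w.intValuation (x * y) = w.intValuation y0 ^ 2 := by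
    intro w hw
    have h1 := hval w hw
    simp only [dif_pos hw] at h1
    rw [(hn w hw).choose_spec, h1, ← WithZero.exp_nsmul]
    congr 1
    push_cast
    ring
  have hy00' : algebraMap (𝓞 L) L y0 ≠ 0 := by simpa using hy00
  have hzval : ∀ w : HeightOneSpectrum (𝓞 L), (2 : 𝓞 L) ∈ w.asIdeal →
      w.valuation L (algebraMap (𝓞 L) L (x * y) / algebraMap (𝓞 L) L y0 ^ 2) = 1 := by
    intro w hw
    rw [map_div₀, map_pow, HeightOneSpectrum.valuation_of_algebraMap,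
      HeightOneSpectrum.valuation_of_algebraMap, hval' w hw]
    apply div_self
    apply pow_ne_zero
    exact w.intValuation_ne_zero y0 hy00
  obtain ⟨m, p, hp⟩ := denom_two (L := L) (algebraMap (𝓞 L) L (x * y) / algebraMap (𝓞 L) L y0 ^ 2)
    (fun w hw => (hzval w hw).le)
  have h12 : algebraMap (𝓞 L) L (1 + 2 * m) ≠ 0 :=
    (map_ne_zero_iff _ (FaithfulSMul.algebraMap_injective (𝓞 L) L)).mpr (two_not_unit m)
  refine ⟨algebraMap (𝓞 L) L (1 + 2 * m) * algebraMap (𝓞 L) L y / algebraMap (𝓞 L) L y0,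
    p * (1 + 2 * m), ?_, ?_, ?_⟩
  · exact div_ne_zero (mul_ne_zero h12 hy0') hy00'
  · rw [map_mul, hp, map_mul (algebraMap (𝓞 L) L) x y]
    field_simp
  · intro w hw hmem
    have h1 : p * (1 + 2 * m) ∈ w.asIdeal := hmem
    have h3 : (1 + 2 * m : 𝓞 L) ∉ w.asIdeal := by
      intro h4
      apply w.isPrime.ne_top
      rw [Ideal.eq_top_iff_one]
      have : (1 : 𝓞 L) = (1 + 2 * m) - 2 * m := by ring
      rw [this]
      exact Ideal.sub_mem _ h4 (w.asIdeal.mul_mem_right _ hw)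
    rcases w.isPrime.mem_or_mem h1 with h2 | h2
    · have e1 : w.valuation L (algebraMap (𝓞 L) L p) = w.intValuation p :=
        HeightOneSpectrum.valuation_of_algebraMap w p
      rw [← w.intValuation_lt_one_iff_mem, ← e1,
        hp, map_mul, hzval w hw, mul_one, HeightOneSpectrum.valuation_of_algebraMap,
        w.intValuation_lt_one_iff_mem] at h2
      exact h3 h2
    · exact h3 h2

/-- An element with even valuations above `2` is, up to squares, of the form `1 + 2c`. -/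
theorem exists_rep_one_add (h : TwoUnr L) (γ : L) (hγ : γ ≠ 0)
    (hev : ∀ w : HeightOneSpectrum (𝓞 L), (2 : 𝓞 L) ∈ w.asIdeal → Even (vv w γ)) :
    ∃ (δ : L) (c : 𝓞 L), δ ≠ 0 ∧ algebraMap (𝓞 L) L (1 + 2 * c) = δ ^ 2 * γ := by
  obtain ⟨δ, u, hδ, hu, huw⟩ := exists_unit_rep γ hγ hev
  have htop : Ideal.span {u} ⊔ Ideal.span {(2 : 𝓞 L)} = ⊤ := by
    by_contra hne
    obtain ⟨P, hP, hle⟩ := Ideal.exists_le_maximal _ hne
    have h2 : (2 : 𝓞 L) ∈ P := hle (Ideal.mem_sup_right (Ideal.mem_span_singleton_self _))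
    have hP0 : P ≠ ⊥ := by
      rintro rfl
      simp at h2
    exact huw ⟨P, hP.isPrime, hP0⟩ h2
      (hle (Ideal.mem_sup_left (Ideal.mem_span_singleton_self _)))
  have h1 : (1 : 𝓞 L) ∈ Ideal.span {u} ⊔ Ideal.span {(2 : 𝓞 L)} := by rw [htop]; trivial
  obtain ⟨t, ht, b, hb, htb⟩ := Submodule.mem_sup.mp h1
  obtain ⟨b', rfl⟩ := Ideal.mem_span_singleton'.mp hb
  obtain ⟨a, rfl⟩ := Ideal.mem_span_singleton'.mp ht
  obtain ⟨s, m, hsm⟩ := frob_surj h a
  have e1 : s ^ 2 * u = 1 + 2 * (-b' - m * u) := by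
    rw [hsm] at htb
    linear_combination htb
  have hs : s ≠ 0 := by
    rintro rfl
    apply two_not_unit (-b' - m * u)
    rw [← e1]; ring
  have hs' : algebraMap (𝓞 L) L s ≠ 0 := by simpa using hs
  refine ⟨algebraMap (𝓞 L) L s * δ, -b' - m * u, mul_ne_zero hs' hδ, ?_⟩
  rw [← e1, map_mul, hu, map_pow]
  ring

end dyadic

end Pool.Agent.Lib.MP_722186_nt
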