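import Pool.Agent.Lib.MP_722186_nt.Mod4

/-!
# Module 7b (helper22): Galois invariance modulo 4, trace one element
-/

namespace Pool.Agent.Lib.MP_722186_nt

open NumberField IsDedekindDomain
open scoped Pointwise

section inv

variable {L : Type} [Field L] [NumberField L] {G : Type} [Group G] [MulSemiringAction G L]

omit [NumberField L] in
theorem one_add_two_notMem (w : HeightOneSpectrum (𝓞 L)) (hw : (2 : 𝓞 L) ∈ w.asIdeal) (m : 𝓞 L) :
    (1 + 2 * m : 𝓞 L) ∉ w.asIdeal := by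
  intro h4
  apply w.isPrime.ne_top
  rw [Ideal.eq_top_iff_one]
  have : (1 : 𝓞 L) = (1 + 2 * m) - 2 * m := by ring
  rw [this]
  exact Ideal.sub_mem _ h4 (w.asIdeal.mul_mem_right _ hw)

/-- If `g(1 + 2c)` and `1 + 2c` differ by a square then `g(c) = c` modulo `2`. -/
theorem dvd_smul_sub (h : TwoUnr L) (g : G) (c : 𝓞 L) (ε : L)
    (hε : algebraMap (𝓞 L) L (1 + 2 * (g • c)) = ε ^ 2 * algebraMap (𝓞 L) L (1 + 2 * c)) :
    (2 : 𝓞 L) ∣ g • c - c := by
  have hεval : ∀ w : HeightOneSpectrum (𝓞 L), (2 : 𝓞 L) ∈ w.asIdeal → w.valuation L ε = 1 := by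
    intro w hw
    have e1 : ∀ m : 𝓞 L, w.valuation L (algebraMap (𝓞 L) L (1 + 2 * m)) = 1 := by
      intro m
      have e0 : w.valuation L (algebraMap (𝓞 L) L (1 + 2 * m)) = w.intValuation (1 + 2 * m) :=
        HeightOneSpectrum.valuation_of_algebraMap w _
      rw [e0, w.intValuation_eq_one_iff_mem_primeCompl]
      exact one_add_two_notMem w hw m
    have e2 := congrArg (w.valuation L) hε
    rw [e1, map_mul, e1, mul_one, map_pow] at e2
    rcases pow_eq_one_iff.mp e2.symm with h1 | h1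
    · exact h1
    · norm_num at h1
  obtain ⟨m, p, hp⟩ := denom_two ε (fun w hw => (hεval w hw).le)
  have e1 : p ^ 2 * (1 + 2 * c) = (1 + 2 * m) ^ 2 * (1 + 2 * (g • c)) := by
    apply FaithfulSMul.algebraMap_injective (𝓞 L) L
    rw [map_mul, map_mul, map_pow, map_pow, hp, hε]
    ring
  have e2 : (2 : 𝓞 L) ∣ (p - 1) ^ 2 := by
    refine ⟨2 * m + 2 * m ^ 2 + (g • c) * (1 + 2 * m) ^ 2 - c * p ^ 2 - (p - 1), ?_⟩
    linear_combination e1
  obtain ⟨m', hm'⟩ := sq_dvd h _ e2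
  have hp' : p = 1 + 2 * m' := by rw [← hm']; ring
  rw [hp'] at e1
  refine ⟨(m' + m' ^ 2) * (1 + 2 * c) - (m + m ^ 2) * (1 + 2 * (g • c)), ?_⟩
  have h2 : (2 : 𝓞 L) ≠ 0 := two_ne_zero
  apply mul_left_cancel₀ h2
  linear_combination -e1

end inv

section trace

variable {K L : Type} [Field K] [NumberField K] [Field L] [NumberField L] [Algebra K L]
  [IsGalois K L]

omit [IsGalois K L] in
theorem Unr.isUnramifiedAt (h : Unr K L) (P : Ideal (𝓞 L)) [hP : P.IsPrime] (hP0 : P ≠ ⊥) :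
    Algebra.IsUnramifiedAt (𝓞 K) P := by
  rw [← Ideal.ramificationIdx_eq_one_iff]
  exact h P hP hP0

/-- There is an integral element of trace one in an unramified extension. -/
theorem exists_trace_one (h : Unr K L) : ∃ θ : 𝓞 L, ∑ g : L ≃ₐ[K] L, g • θ = 1 := by
  classical
  -- the ideal of traces
  let T : Ideal (𝓞 K) :=
    { carrier := {a | ∃ x : 𝓞 L, algebraMap (𝓞 K) (𝓞 L) a = ∑ g : L ≃ₐ[K] L, g • x}
      add_mem' := by
        rintro a b ⟨x, hx⟩ ⟨y, hy⟩
        exact ⟨x + y, by rw [map_add, hx, hy, ← Finset.sum_add_distrib]; simp only [smul_add]⟩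
      zero_mem' := ⟨0, by simp⟩
      smul_mem' := by
        rintro c a ⟨x, hx⟩
        refine ⟨algebraMap (𝓞 K) (𝓞 L) c * x, ?_⟩
        rw [smul_eq_mul, map_mul, hx, Finset.mul_sum]
        apply Finset.sum_congr rfl
        intro g _
        rw [smul_mul', smul_algebraMap] }
  have hT : T = ⊤ := by
    by_contra hne
    obtain ⟨p, hp, hle⟩ := Ideal.exists_le_maximal _ hne
    -- `p` is nonzero because `|G| ∈ T`
    have hp0 : p ≠ ⊥ := by
      rintro rfl
      have h1 : ((Nat.card (L ≃ₐ[K] L) : ℕ) : 𝓞 K) ∈ T := ⟨1, by simp⟩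
      have h2 := hle h1
      rw [Ideal.mem_bot] at h2
      have h3 : Nat.card (L ≃ₐ[K] L) ≠ 0 := Nat.card_pos.ne'
      exact h3 (by exact_mod_cast h2)
    let I : Ideal (𝓞 L) := p.map (algebraMap (𝓞 K) (𝓞 L))
    have hI0 : I ≠ ⊥ := Ideal.map_ne_bot_of_ne_bot hp0
    have hdiff : differentIdeal (𝓞 K) (𝓞 L) ≤ I := by
      rw [differentialIdeal_le_iff (K := K) (L := L) hI0]
      rintro _ ⟨x, hx, rfl⟩
      have hI0' : (I : FractionalIdeal (nonZeroDivisors (𝓞 L)) L) ≠ 0 :=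
        FractionalIdeal.coeIdeal_ne_zero.mpr hI0
      have hx1 : ∀ a ∈ p, ∃ z : 𝓞 L, algebraMap (𝓞 L) L z
          = algebraMap K L (algebraMap (𝓞 K) K a) * x := by
        intro a ha
        have hx2 : x ∈ ((I : FractionalIdeal (nonZeroDivisors (𝓞 L)) L)⁻¹) := hx
        rw [FractionalIdeal.mem_inv_iff hI0'] at hx2
        have h1 := hx2 (algebraMap (𝓞 L) L (algebraMap (𝓞 K) (𝓞 L) a))
          (FractionalIdeal.mem_coeIdeal_of_mem _ (Ideal.mem_map_of_mem _ ha))
        obtain ⟨z, hz⟩ := (FractionalIdeal.mem_one_iff _).mp h1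
        refine ⟨z, ?_⟩
        rw [hz, mul_comm]
        rfl
      show Algebra.trace K L x ∈ (1 : Submodule (𝓞 K) K)
      have hint : IsIntegral (𝓞 K) (Algebra.trace K L x) := by
        refine isIntegral_of_smul_mem_submodule (M := K)
          (N := Submodule.map (Algebra.linearMap (𝓞 K) K) p) ?_ ?_ _ ?_
        · intro hN
          apply hp0
          rw [Submodule.eq_bot_iff] at hN ⊢
          intro a ha
          have h1 := hN _ (Submodule.mem_map_of_mem (f := Algebra.linearMap (𝓞 K) K) ha)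
          simpa using h1
        · exact (IsNoetherian.noetherian p).map _
        · rintro _ ⟨a, ha, rfl⟩
          obtain ⟨z, hz⟩ := hx1 a ha
          have hzi : IsIntegral (𝓞 K) (algebraMap (𝓞 L) L z) :=
            IsIntegral.algebraMap (Algebra.IsIntegral.isIntegral z)
          have htr : IsIntegral (𝓞 K) (Algebra.trace K L (algebraMap (𝓞 L) L z)) :=
            Algebra.isIntegral_trace hzi
          obtain ⟨b, hb⟩ := IsIntegrallyClosed.isIntegral_iff.mp htr
          have hbT : b ∈ T := by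
            refine ⟨z, ?_⟩
            apply FaithfulSMul.algebraMap_injective (𝓞 L) L
            have h1 := trace_eq_sum_automorphisms (K := K) (algebraMap (𝓞 L) L z)
            rw [map_sum]
            rw [← hb] at h1
            exact h1
          have hbp := hle hbT
          refine ⟨b, hbp, ?_⟩
          show algebraMap (𝓞 K) K b = Algebra.trace K L x • algebraMap (𝓞 K) K a
          rw [hb, hz, ← Algebra.smul_def, map_smul, smul_eq_mul, smul_eq_mul, mul_comm]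
      obtain ⟨a, ha⟩ := IsIntegrallyClosed.isIntegral_iff.mp hint
      exact Submodule.mem_one.mpr ⟨a, ha⟩
    obtain ⟨⟨P, hP, hPp⟩⟩ := (inferInstance : Nonempty (p.primesOver (𝓞 L)))
    have hP0 : P ≠ ⊥ := by
      rintro rfl
      apply hp0
      rw [hPp.over, Ideal.under_bot]
    have hIP : I ≤ P := by
      rw [Ideal.map_le_iff_le_comap]
      exact hPp.over.le
    have h1 : P ∣ differentIdeal (𝓞 K) (𝓞 L) := Ideal.dvd_iff_le.mpr (hdiff.trans hIP)
    have h2 := h.isUnramifiedAt P hP0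
    exact (not_dvd_differentIdeal_iff.mpr h2) h1
  have h1 : (1 : 𝓞 K) ∈ T := by rw [hT]; trivial
  obtain ⟨θ, hθ⟩ := h1
  exact ⟨θ, by rw [← hθ, map_one]⟩

/-- Elements of `𝓞 L` invariant modulo `2` come from `𝓞 K` modulo `2`. -/
theorem exists_base_rep (h : Unr K L) (c : 𝓞 L) (hc : ∀ g : L ≃ₐ[K] L, (2 : 𝓞 L) ∣ g • c - c) :
    ∃ c0 : 𝓞 K, (2 : 𝓞 L) ∣ c - algebraMap (𝓞 K) (𝓞 L) c0 := by
  obtain ⟨θ, hθ⟩ := exists_trace_one h
  have hinv : ∀ g : L ≃ₐ[K] L, g • (∑ s : L ≃ₐ[K] L, s • (θ * c)) = ∑ s : L ≃ₐ[K] L, s • (θ * c) := by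
    intro g
    rw [Finset.smul_sum]
    simp only [← mul_smul]
    exact Fintype.sum_bijective (fun s => g * s) (Group.mulLeft_bijective g) _ _ (fun _ => rfl)
  have hG : IsGaloisGroup (L ≃ₐ[K] L) (𝓞 K) (𝓞 L) := inferInstance
  obtain ⟨c0, hc0⟩ := hG.isInvariant.isInvariant _ hinv
  refine ⟨c0, ?_⟩
  rw [hc0]
  choose d hd using hc
  refine ⟨- ∑ s : L ≃ₐ[K] L, (s • θ) * d s, ?_⟩
  have e1 : c = ∑ s : L ≃ₐ[K] L, (s • θ) * c := by
    rw [← Finset.sum_mul, hθ, one_mul]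
  calc c - ∑ s : L ≃ₐ[K] L, s • (θ * c)
      = ∑ s : L ≃ₐ[K] L, (s • θ) * c - ∑ s : L ≃ₐ[K] L, s • (θ * c) := by rw [← e1]
    _ = ∑ s : L ≃ₐ[K] L, (-(2 * ((s • θ) * d s))) := by
        rw [← Finset.sum_sub_distrib]
        apply Finset.sum_congr rfl
        intro s _
        rw [smul_mul']
        linear_combination -(s • θ) * hd s
    _ = 2 * (- ∑ s : L ≃ₐ[K] L, (s • θ) * d s) := by
        rw [Finset.sum_neg_distrib, ← Finset.mul_sum]
        ring

/-- Normal form of a Galois invariant class with even valuations above `2`. -/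
theorem exists_normal_form (h : Unr K L) (h2 : TwoUnr L) (γ : L) (hγ : γ ≠ 0)
    (hev : ∀ w : HeightOneSpectrum (𝓞 L), (2 : 𝓞 L) ∈ w.asIdeal → Even (vv w γ))
    (hinv : ∀ g : L ≃ₐ[K] L, ∃ ε : L, g γ = ε ^ 2 * γ) :
    ∃ (δ : L) (c0 : 𝓞 K) (e : 𝓞 L), δ ≠ 0 ∧
      algebraMap (𝓞 L) L (1 + 2 * algebraMap (𝓞 K) (𝓞 L) c0 + 4 * e) = δ ^ 2 * γ := by
  obtain ⟨δ, c, hδ, hc⟩ := exists_rep_one_add h2 γ hγ hev
  have hc1 : ∀ g : L ≃ₐ[K] L, (2 : 𝓞 L) ∣ g • c - c := by
    intro g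
    obtain ⟨ε, hε⟩ := hinv g
    apply dvd_smul_sub h2 g c (g δ / δ * ε)
    have e1 : algebraMap (𝓞 L) L (1 + 2 * (g • c)) = g (algebraMap (𝓞 L) L (1 + 2 * c)) := by
      have e2 : (1 + 2 * (g • c) : 𝓞 L) = g • (1 + 2 * c) := by
        rw [smul_add, smul_mul', smul_one]
        congr 2
        have := smul_algebraMap (A := 𝓞 L) g (2 : 𝓞 K)
        rw [map_ofNat] at this
        exact this.symm
      rw [e2]
      rfl
    rw [e1, hc, map_mul, map_pow, hε]
    field_simp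
  obtain ⟨c0, d, hd⟩ := exists_base_rep h c hc1
  refine ⟨δ, c0, d, hδ, ?_⟩
  rw [← hc]
  congr 1
  linear_combination -2 * hd

end trace

end Pool.Agent.Lib.MP_722186_nt
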