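import Pool.Agent.Lib.MP_722186_nt.Vals

/-!
# Module 6c (helper22): the arithmetic step of the dévissage
-/

namespace Pool.Agent.Lib.MP_722186_nt

open NumberField IsDedekindDomain
open scoped Pointwise

section step

variable {G : Type} [Group G] [Finite G] {k M L : Type} [Field k] [NumberField k]
  [Field M] [NumberField M] [Field L] [NumberField L] [Algebra k M] [Algebra M L] [Algebra k L]
  [IsScalarTower k M L] [MulSemiringAction G L] (H K : Subgroup G)
  [hH : IsGaloisGroup H k L] [hK : IsGaloisGroup K M L]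

omit [Finite G] in
include hH hK in
theorem finrank_two (hKH : K ≤ H) (hidx : (K.subgroupOf H).index = 2) : Module.finrank k M = 2 := by
  have h1 := IsGaloisGroup.card_eq_finrank H k L
  have h2 := IsGaloisGroup.card_eq_finrank K M L
  have h3 := Module.finrank_mul_finrank k M L
  have h4 := (K.subgroupOf H).card_mul_index
  rw [hidx, Nat.card_congr (Subgroup.subgroupOfEquivOfLe hKH).toEquiv, h1, h2, ← h3] at h4
  have h5 : 0 < Module.finrank M L := Module.finrank_pos
  rw [mul_comm] at h4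
  exact (Nat.eq_of_mul_eq_mul_right h5 h4).symm

include hH hK in
theorem norm_formula [FaithfulSMul G L] (hkM : Module.finrank k M = 2) (σ : G) (hσ : σ ∈ H) (hσK : σ ∉ K)
    (y : M) : algebraMap k L (Algebra.norm k y) = algebraMap M L y * σ • (algebraMap M L y) := by
  classical
  have : Algebra.IsQuadraticExtension k M := ⟨hkM⟩
  have : IsGalois k M := inferInstance
  have : IsGalois k L := IsGaloisGroup.isGalois H k L
  let σ' : L ≃ₐ[k] L := MulSemiringAction.toAlgEquiv k L (⟨σ, hσ⟩ : H)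
  have hσ' : ∀ x, σ' x = σ • x := fun x => rfl
  let τ : M ≃ₐ[k] M := σ'.restrictNormal M
  have hτ : ∀ x, algebraMap M L (τ x) = σ • algebraMap M L x := by
    intro x
    rw [← hσ']
    exact AlgEquiv.restrictNormal_commutes σ' M x
  have hτ1 : τ ≠ 1 := by
    intro h1
    apply hσK
    -- `σ'` fixes `M`
    let σ'' : L ≃ₐ[M] L := AlgEquiv.ofRingEquiv (f := σ'.toRingEquiv) (by
      intro x
      show σ' (algebraMap M L x) = algebraMap M L x
      rw [hσ', ← hτ, h1]
      rfl)
    obtain ⟨κ, hκ⟩ := (IsGaloisGroup.mulEquivAlgEquiv K M L).surjective σ''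
    have h2 : ∀ x : L, (κ : G) • x = σ • x := by
      intro x
      have := congrArg (fun e : L ≃ₐ[M] L => e x) hκ
      exact this
    have h3 : (κ : G) = σ := FaithfulSMul.eq_of_smul_eq_smul h2
    rw [← h3]
    exact κ.2
  have hcard : Fintype.card (M ≃ₐ[k] M) = 2 := by
    rw [← Nat.card_eq_fintype_card, IsGalois.card_aut_eq_finrank, hkM]
  have huniv : (Finset.univ : Finset (M ≃ₐ[k] M)) = {1, τ} := by
    symm
    apply Finset.eq_univ_of_card
    rw [Finset.card_pair hτ1.symm, hcard]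
  have h1 := Algebra.norm_eq_prod_automorphisms k y
  rw [huniv, Finset.prod_pair hτ1.symm] at h1
  have h2 := congrArg (algebraMap M L) h1
  rw [← IsScalarTower.algebraMap_apply k M L, map_mul, hτ] at h2
  exact h2

omit [Finite G] in
/-- The Galois group acts on rings of integers. -/
theorem igg (H : Subgroup G) [IsGaloisGroup H k L] : IsGaloisGroup H (𝓞 k) (𝓞 L) := by
  have : SMulDistribClass H (𝓞 L) L := ⟨fun g r s => by
    have := (inferInstance : SMulDistribClass G (𝓞 L) L)
    exact smul_distrib_smul (g : G) r s⟩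
  exact IsGaloisGroup.of_isFractionRing H (𝓞 k) (𝓞 L) k L

omit [Finite G] in
include hH in
/-- The action of `σ ∈ H` does not change the prime below in `k`. -/
theorem under_smul (P : Ideal (𝓞 L)) (σ : G) (hσ : σ ∈ H) :
    (σ • P).under (𝓞 k) = P.under (𝓞 k) := by
  have : IsGaloisGroup H (𝓞 k) (𝓞 L) := igg H
  ext x
  rw [Ideal.under_def, Ideal.mem_comap, Ideal.under_def, Ideal.mem_comap,
    Ideal.mem_pointwise_smul_iff_inv_smul_mem]
  have h1 : (σ⁻¹ : G) • (algebraMap (𝓞 k) (𝓞 L) x) = algebraMap (𝓞 k) (𝓞 L) x := by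
    have := this.commutes
    exact smul_algebraMap ((⟨σ, hσ⟩ : H)⁻¹) x
  rw [h1]

include hH hK in
theorem norm_step [FaithfulSMul G L] (hHN : HNStatement) (hKH : K ≤ H)
    (hidx : (K.subgroupOf H).index = 2)
    (hunr : Unr k L) (h2 : TwoUnr k) (hc : IsTotallyComplex k)
    (σ : G) (hσ : σ ∈ H) (hσK : σ ∉ K) (a : L) (ha0 : a ≠ 0) (ha : ∀ h ∈ H, h • a = a)
    (y : HeightOneSpectrum (𝓞 L) → ℤ) (hy : ∀ h ∈ K, ∀ x, y (h⁻¹ • x) = y x)
    (hay : ∀ x, vv x a = y x + y (σ⁻¹ • x)) :
    ∃ b : L, b ≠ 0 ∧ (∀ h ∈ K, h • b = b) ∧ a = b * σ • b := by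
  have hkM := finrank_two H K (k := k) (M := M) (L := L) hKH hidx
  obtain ⟨a0, rfl⟩ := hH.isInvariant.isInvariant a (fun h => ha h h.2)
  have ha00 : a0 ≠ 0 := by
    rintro rfl
    simp at ha0
  have hunrM : Unr k M := Unr.tower_bot (K := k) (k := M) (L := L) hunr
  obtain ⟨b, hb⟩ := hHN k M hkM hunrM h2 hc a0 ha00 (by
    intro v hv
    set P0 : Ideal (𝓞 M) := v.asIdeal.map (algebraMap (𝓞 k) (𝓞 M)) with hP0
    have hP0bot : P0 ≠ ⊥ := Ideal.map_ne_bot_of_ne_bot v.ne_bot
    have hP0max : P0.IsMaximal := hv.isMaximal hP0bot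
    have hvmax : v.asIdeal.IsMaximal := v.isMaximal
    obtain ⟨⟨Q, hQ, hQP⟩⟩ := (inferInstance : Nonempty (P0.primesOver (𝓞 L)))
    have hP0v : P0.LiesOver v.asIdeal := by
      constructor
      refine hvmax.eq_of_le ?_ ?_
      · exact Ideal.comap_ne_top _ hv.ne_top
      · exact Ideal.le_comap_map
    have hQv : Q.LiesOver v.asIdeal := Ideal.LiesOver.trans Q P0 v.asIdeal
    have hQ0 : Q ≠ ⊥ := by
      rintro rfl
      apply hP0bot
      rw [hQP.over, Ideal.under_bot]
    let w : HeightOneSpectrum (𝓞 L) := ⟨Q, hQ, hQ0⟩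
    have hwv : w.asIdeal.LiesOver v.asIdeal := hQv
    have e1 : vv w (algebraMap k L a0) = vv v a0 := vv_algebraMap v w hunr a0
    -- the prime `σ⁻¹ • w`
    let w' : HeightOneSpectrum (𝓞 L) := σ⁻¹ • w
    have hw'v : (w'.asIdeal).under (𝓞 k) = v.asIdeal := by
      show (σ⁻¹ • Q).under (𝓞 k) = _
      rw [under_smul H Q σ⁻¹ (H.inv_mem hσ)]
      exact hQv.over.symm
    have hw'P : w'.asIdeal.LiesOver P0 := by
      constructor
      refine hP0max.eq_of_le (Ideal.comap_ne_top _ w'.isPrime.ne_top) ?_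
      rw [hP0, Ideal.map_le_iff_le_comap, ← hw'v]
      intro x hx
      rw [Ideal.under_def, Ideal.mem_comap] at hx
      rw [Ideal.mem_comap, Ideal.under_def, Ideal.mem_comap]
      rwa [← IsScalarTower.algebraMap_apply]
    have hKint : IsGaloisGroup K (𝓞 M) (𝓞 L) := igg K
    have hwP : w.asIdeal.LiesOver P0 := hQP
    obtain ⟨κ, hκ⟩ := Ideal.exists_smul_eq_of_isGaloisGroup P0 w'.asIdeal w.asIdeal K
    have hκ' : w = (κ : G) • w' := by
      apply HeightOneSpectrum.ext
      exact hκ.symm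
    have e2 : y w' = y w := by
      have := hy κ κ.2 w
      rw [hκ'] at this
      rw [inv_smul_smul] at this
      rw [hκ']
      exact this
    rw [← e1, hay w]
    exact ⟨y w, by rw [show σ⁻¹ • w = w' from rfl, e2]⟩)
  refine ⟨algebraMap M L b, ?_, ?_, ?_⟩
  · intro h0
    have h1 : b = 0 := by simpa using h0
    rw [h1, Algebra.norm_zero] at hb
    exact ha00 hb.symm
  · intro h hh
    have := hK.commutes
    exact smul_algebraMap (⟨h, hh⟩ : K) b
  · rw [← norm_formula H K (k := k) (M := M) (L := L) hkM σ hσ hσK b, hb]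

end step

end Pool.Agent.Lib.MP_722186_nt
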