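import Pool.Agent.Lib.MP_722186_nt.Defs

/-!
# Inertia groups and the field `Omega K`
-/

namespace Pool.Agent.Lib.MP_722186_nt

open NumberField

section general

variable {K L : Type*} [Field K] [Field L] [Algebra K L]

lemma inInertia_iff {P : Ideal (𝓞 L)} {g : L ≃ₐ[K] L} :
    InInertia K L P g ↔ g ∈ P.inertia (L ≃ₐ[K] L) := by
  constructor
  · intro h x
    exact h x (g • x) rfl
  · intro h x y hxy
    have : y = g • x := by
      apply RingOfIntegers.ext
      rw [hxy]
      rfl
    rw [this]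
    exact h x

lemma ramificationIdx_eq_one_of_unramExt [NumberField K] [NumberField L] [IsGalois K L]
    (h : UnramExt K L) (P : Ideal (𝓞 L)) [P.IsPrime] : P.ramificationIdx (𝓞 K) = 1 := by
  have h1 := Ideal.card_inertia_eq_ramificationIdxIn (G := L ≃ₐ[K] L) (P.under (𝓞 K)) P
  rw [Ideal.ramificationIdxIn_eq_ramificationIdx (P.under (𝓞 K)) P (L ≃ₐ[K] L)] at h1
  rw [← h1, Nat.card_eq_one_iff_unique]
  refine ⟨⟨fun a b => ?_⟩, ⟨1⟩⟩
  have h2 : ∀ a : P.inertia (L ≃ₐ[K] L), a.1 = 1 := fun a =>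
    h P inferInstance a.1 (inInertia_iff.mpr a.2)
  exact Subtype.ext ((h2 a).trans (h2 b).symm)

lemma unramExt_of_ramificationIdx_eq_one [NumberField K] [NumberField L] [IsGalois K L]
    (h : ∀ P : Ideal (𝓞 L), P.IsPrime → P.ramificationIdx (𝓞 K) = 1) : UnramExt K L := by
  intro P hP g hg
  have h1 := Ideal.card_inertia_eq_ramificationIdxIn (G := L ≃ₐ[K] L) (P.under (𝓞 K)) P
  rw [Ideal.ramificationIdxIn_eq_ramificationIdx (P.under (𝓞 K)) P (L ≃ₐ[K] L), h P hP,
    Nat.card_eq_one_iff_unique] at h1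
  have h2 := h1.1.elim (⟨g, inInertia_iff.mp hg⟩ : P.inertia (L ≃ₐ[K] L)) 1
  exact congrArg Subtype.val h2

lemma unramExt_iff [NumberField K] [NumberField L] [IsGalois K L] :
    UnramExt K L ↔ ∀ P : Ideal (𝓞 L), P.IsPrime → P.ramificationIdx (𝓞 K) = 1 :=
  ⟨fun h P _ => ramificationIdx_eq_one_of_unramExt h P, unramExt_of_ramificationIdx_eq_one⟩

/-- An element of an inertia group fixes all normal subextensions with trivial inertia groups. -/
lemma unram_fix {E : Type*} [Field E] [Algebra K E] [Algebra E L] [IsScalarTower K E L]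
    [Normal K E] (hE : UnramExt K E) {P : Ideal (𝓞 L)} (hP : P.IsPrime) {g : L ≃ₐ[K] L}
    (hg : InInertia K L P g) (x : E) : g (algebraMap E L x) = algebraMap E L x := by
  have h1 : g.restrictNormal E = 1 := by
    refine hE (P.comap (algebraMap (𝓞 E) (𝓞 L))) (Ideal.comap_isPrime _ _) _ ?_
    intro x y hxy
    rw [Ideal.mem_comap, map_sub]
    apply hg
    show algebraMap E L (y : E) = g (algebraMap E L (x : E))
    rw [hxy, AlgEquiv.restrictNormal_commutes]
  rw [← AlgEquiv.restrictNormal_commutes g E x, h1]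
  rfl

end general

section Omega

variable {K : Type*} [Field K]

lemma unram_fix_of_le {E F : IntermediateField K (AlgebraicClosure K)} (hEF : E ≤ F)
    [Normal K E] (hE : UnramExt K E) {P : Ideal (𝓞 F)} (hP : P.IsPrime) {g : F ≃ₐ[K] F}
    (hg : InInertia K F P g) (x : AlgebraicClosure K) (hx : x ∈ E) :
    g ⟨x, hEF hx⟩ = ⟨x, hEF hx⟩ := by
  let := (IntermediateField.inclusion hEF).toRingHom.toAlgebra
  have : IsScalarTower K E F := IsScalarTower.of_algebraMap_eq (fun _ => rfl)
  exact unram_fix hE hP hg (⟨x, hx⟩ : E)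

lemma UnramExt.sup {E F : IntermediateField K (AlgebraicClosure K)} [Normal K E] [Normal K F]
    (hE : UnramExt K E) (hF : UnramExt K F) : UnramExt K ↥(E ⊔ F) := by
  intro P hP g hg
  have h1 : (E ⊔ F : IntermediateField K (AlgebraicClosure K)) =
      IntermediateField.adjoin K ((E : Set (AlgebraicClosure K)) ∪ F) := by
    rw [IntermediateField.adjoin_union, IntermediateField.adjoin_self,
      IntermediateField.adjoin_self]
  have h2 : (g : ↥(E ⊔ F) →ₐ[K] ↥(E ⊔ F)) = AlgHom.id K _ := by
    apply IntermediateField.algHom_ext_of_eq_adjoin K h1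
    rintro x (hx | hx)
    · exact unram_fix_of_le le_sup_left hE hP hg x hx
    · exact unram_fix_of_le le_sup_right hF hP hg x hx
  ext x
  exact congrArg Subtype.val (DFunLike.congr_fun h2 x)

lemma isPGroup_sup {p : ℕ} {E F : IntermediateField K (AlgebraicClosure K)}
    [Normal K E] [Normal K F] (hE : IsPGroup p (E ≃ₐ[K] E)) (hF : IsPGroup p (F ≃ₐ[K] F)) :
    IsPGroup p (↥(E ⊔ F) ≃ₐ[K] ↥(E ⊔ F)) := by
  let := (IntermediateField.inclusion (le_sup_left : E ≤ E ⊔ F)).toRingHom.toAlgebra
  let := (IntermediateField.inclusion (le_sup_right : F ≤ E ⊔ F)).toRingHom.toAlgebra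
  have : IsScalarTower K E ↥(E ⊔ F) := IsScalarTower.of_algebraMap_eq (fun _ => rfl)
  have : IsScalarTower K F ↥(E ⊔ F) := IsScalarTower.of_algebraMap_eq (fun _ => rfl)
  intro g
  obtain ⟨k, hk⟩ := hE (AlgEquiv.restrictNormalHom E g)
  obtain ⟨l, hl⟩ := hF (AlgEquiv.restrictNormalHom F g)
  refine ⟨k + l, ?_⟩
  have h1 : (E ⊔ F : IntermediateField K (AlgebraicClosure K)) =
      IntermediateField.adjoin K ((E : Set (AlgebraicClosure K)) ∪ F) := by
    rw [IntermediateField.adjoin_union, IntermediateField.adjoin_self,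
      IntermediateField.adjoin_self]
  have hk' : AlgEquiv.restrictNormalHom E (g ^ p ^ (k + l)) = 1 := by
    rw [map_pow, pow_add, pow_mul, hk, one_pow]
  have hl' : AlgEquiv.restrictNormalHom F (g ^ p ^ (k + l)) = 1 := by
    rw [map_pow, pow_add, mul_comm, pow_mul, hl, one_pow]
  have h2 : ((g ^ p ^ (k + l) : ↥(E ⊔ F) ≃ₐ[K] ↥(E ⊔ F)) : ↥(E ⊔ F) →ₐ[K] ↥(E ⊔ F)) =
      AlgHom.id K _ := by
    apply IntermediateField.algHom_ext_of_eq_adjoin K h1
    rintro x (hx | hx)
    · have h3 := AlgEquiv.restrictNormal_commutes (g ^ p ^ (k + l)) E (⟨x, hx⟩ : E)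
      have h4 : (g ^ p ^ (k + l)).restrictNormal E = 1 := hk'
      rw [h4] at h3
      exact h3.symm
    · have h3 := AlgEquiv.restrictNormal_commutes (g ^ p ^ (k + l)) F (⟨x, hx⟩ : F)
      have h4 : (g ^ p ^ (k + l)).restrictNormal F = 1 := hl'
      rw [h4] at h3
      exact h3.symm
  ext x
  exact congrArg Subtype.val (DFunLike.congr_fun h2 x)

lemma Good.isPGroup {F : IntermediateField K (AlgebraicClosure K)} (h : Good K F) :
    IsPGroup 2 (F ≃ₐ[K] F) := by
  have := h.finite
  have := h.galois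
  obtain ⟨k, hk⟩ := h.degree
  apply IsPGroup.of_card (n := k)
  rw [← hk]
  exact IsGalois.card_aut_eq_finrank K F

lemma Good.sup [CharZero K] {E F : IntermediateField K (AlgebraicClosure K)} (hE : Good K E)
    (hF : Good K F) : Good K (E ⊔ F) := by
  have := hE.finite
  have := hF.finite
  have := hE.galois
  have := hF.galois
  have : IsGalois K ↥(E ⊔ F) := { to_isSeparable := inferInstance, to_normal := inferInstance }
  refine ⟨inferInstance, inferInstance, ?_, hE.unram.sup hF.unram⟩
  have : Fact (Nat.Prime 2) := ⟨Nat.prime_two⟩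
  obtain ⟨n, hn⟩ := (isPGroup_sup hE.isPGroup hF.isPGroup).exists_card_eq
  exact ⟨n, by rw [← hn]; exact (IsGalois.card_aut_eq_finrank K _).symm⟩

lemma good_bot [CharZero K] : Good K ⊥ := by
  have : IsGalois K (⊥ : IntermediateField K (AlgebraicClosure K)) := inferInstance
  refine ⟨inferInstance, inferInstance, ⟨0, ?_⟩, ?_⟩
  · rw [pow_zero]; exact IntermediateField.finrank_bot
  · intro P hP g hg
    ext x
    obtain ⟨y, hy⟩ := IntermediateField.mem_bot.mp x.2
    have : x = algebraMap K (⊥ : IntermediateField K (AlgebraicClosure K)) y := by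
      apply Subtype.ext; exact hy.symm
    rw [this, AlgEquiv.commutes]
    rfl

lemma Good.le_Omega {F : IntermediateField K (AlgebraicClosure K)} (h : Good K F) :
    F ≤ Omega K := le_biSup (fun F => F) h

lemma mem_Omega_iff [CharZero K] {x : AlgebraicClosure K} :
    x ∈ Omega K ↔ ∃ F : IntermediateField K (AlgebraicClosure K), Good K F ∧ x ∈ F := by
  constructor
  · intro hx
    have hne : Nonempty {F : IntermediateField K (AlgebraicClosure K) // Good K F} :=
      ⟨⟨⊥, good_bot⟩⟩
    have hdir : Directed (· ≤ ·)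
        (fun F : {F : IntermediateField K (AlgebraicClosure K) // Good K F} => F.1) := by
      intro E F
      exact ⟨⟨E.1 ⊔ F.1, E.2.sup F.2⟩, le_sup_left, le_sup_right⟩
    have h1 : Omega K = ⨆ F : {F : IntermediateField K (AlgebraicClosure K) // Good K F}, F.1 := by
      unfold Omega
      rw [iSup_subtype']
      rfl
    rw [h1] at hx
    have h2 := (IntermediateField.coe_iSup_of_directed hdir)
    have h3 : x ∈ ((⨆ F : {F : IntermediateField K (AlgebraicClosure K) // Good K F}, F.1 :
        IntermediateField K (AlgebraicClosure K)) : Set (AlgebraicClosure K)) := hx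
    rw [h2] at h3
    obtain ⟨F, hF⟩ := Set.mem_iUnion.mp h3
    exact ⟨F.1, F.2, hF⟩
  · rintro ⟨F, hF, hx⟩
    exact hF.le_Omega hx

end Omega

end Pool.Agent.Lib.MP_722186_nt
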