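import Pool.Agent.Lib.MP_722186_nt.OmegaBasic

/-!
# The Galois group of `Omega K / K`
-/

namespace Pool.Agent.Lib.MP_722186_nt

open NumberField

variable {K : Type*} [Field K]

lemma exists_good_of_finset [CharZero K] (s : Finset (AlgebraicClosure K))
    (hs : ∀ x ∈ s, x ∈ Omega K) :
    ∃ F : IntermediateField K (AlgebraicClosure K), Good K F ∧ ∀ x ∈ s, x ∈ F := by
  classical
  induction s using Finset.induction_on with
  | empty => exact ⟨⊥, good_bot, by simp⟩
  | insert a s ha ih =>
    obtain ⟨F, hF, h1⟩ := ih (fun x hx => hs x (Finset.mem_insert_of_mem hx))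
    obtain ⟨E, hE, h2⟩ := mem_Omega_iff.mp (hs a (Finset.mem_insert_self a s))
    refine ⟨E ⊔ F, hE.sup hF, fun x hx => ?_⟩
    rcases Finset.mem_insert.mp hx with rfl | hx
    · exact (le_sup_left : E ≤ E ⊔ F) h2
    · exact (le_sup_right : F ≤ E ⊔ F) (h1 x hx)

/-- A finite subextension of `Omega K` is contained in a finite Galois extension of degree a power
of `2` with trivial inertia groups. -/
lemma exists_good_ge [CharZero K] {E : IntermediateField K (AlgebraicClosure K)}
    [FiniteDimensional K E] (hE : E ≤ Omega K) :
    ∃ F : IntermediateField K (AlgebraicClosure K), Good K F ∧ E ≤ F := by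
  classical
  let b := Module.finBasis K E
  obtain ⟨F, hF, h⟩ := exists_good_of_finset
    (Finset.univ.image (fun i => (b i : AlgebraicClosure K))) (by
      intro x hx
      obtain ⟨i, -, rfl⟩ := Finset.mem_image.mp hx
      exact hE (b i).2)
  refine ⟨F, hF, fun x hx => ?_⟩
  have h1 : (x : AlgebraicClosure K) = ∑ i, (b.repr ⟨x, hx⟩ i) • (b i : AlgebraicClosure K) := by
    refine (congrArg Subtype.val (b.sum_repr ⟨x, hx⟩)).symm.trans ?_
    push_cast
    rfl
  rw [h1]
  exact sum_mem fun i _ => F.smul_mem (h _ (Finset.mem_image_of_mem _ (Finset.mem_univ i)))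

instance normal_Omega : Normal K (Omega K) := by
  unfold Omega
  rw [iSup_subtype']
  have : ∀ F : {F : IntermediateField K (AlgebraicClosure K) //
      F ∈ {F : IntermediateField K (AlgebraicClosure K) | Good K F}}, Normal K F.1 := by
    intro F
    have := F.2.galois
    infer_instance
  exact IntermediateField.normal_iSup K (AlgebraicClosure K)
    (fun F : {F : IntermediateField K (AlgebraicClosure K) //
      F ∈ {F : IntermediateField K (AlgebraicClosure K) | Good K F}} => F.1)

instance isGalois_Omega [CharZero K] : IsGalois K (Omega K) :=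
  { to_isSeparable := inferInstance, to_normal := inferInstance }

/-- A normal subextension of a finite unramified Galois extension is unramified. -/
lemma UnramExt.of_tower {E F : Type*} [Field E] [Field F] [NumberField K] [NumberField E]
    [NumberField F] [Algebra K E] [Algebra K F] [Algebra E F] [IsScalarTower K E F] [IsGalois K E]
    [IsGalois K F] (h : UnramExt K F) : UnramExt K E := by
  refine unramExt_of_ramificationIdx_eq_one fun P hP => ?_
  obtain ⟨Q, hQ, hQP⟩ := Ideal.exists_ideal_over_prime_of_isIntegral_of_isDomain
    (S := 𝓞 F) P (by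
      rw [(RingHom.injective_iff_ker_eq_bot _).mp
        (FaithfulSMul.algebraMap_injective (𝓞 E) (𝓞 F))]
      exact bot_le)
  have : Q.LiesOver P := ⟨hQP.symm⟩
  have h1 := ramificationIdx_eq_one_of_unramExt h Q
  rw [Ideal.ramificationIdx_tower P Q] at h1
  exact Nat.eq_one_of_mul_eq_one_right h1

lemma UnramExt.of_le [NumberField K] {E F : IntermediateField K (AlgebraicClosure K)}
    [FiniteDimensional K E] [FiniteDimensional K F] [IsGalois K E] [IsGalois K F]
    (hEF : E ≤ F) (h : UnramExt K F) : UnramExt K E := by
  let := (IntermediateField.inclusion hEF).toRingHom.toAlgebra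
  have : IsScalarTower K E F := IsScalarTower.of_algebraMap_eq (fun _ => rfl)
  have : NumberField E := NumberField.of_module_finite K E
  have : NumberField F := NumberField.of_module_finite K F
  exact h.of_tower

/-- A finite Galois subextension of `Omega K / K` is unramified. -/
lemma unramExt_of_finite_le_Omega [NumberField K]
    {E : IntermediateField K (AlgebraicClosure K)} [FiniteDimensional K E] [IsGalois K E]
    (hE : E ≤ Omega K) : UnramExt K E := by
  obtain ⟨F, hF, hEF⟩ := exists_good_ge hE
  have := hF.finite
  have := hF.galois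
  exact hF.unram.of_le hEF

/-- All inertia groups of a Galois subextension of `Omega K / K` are trivial. -/
lemma unramExt_of_le_Omega [NumberField K] {L : IntermediateField K (AlgebraicClosure K)}
    [IsGalois K L] (hL : L ≤ Omega K) : UnramExt K L := by
  intro P hP g hg
  ext x
  have hx := x.2
  let E : IntermediateField K (AlgebraicClosure K) :=
    IntermediateField.normalClosure K (IntermediateField.adjoin K {(x : AlgebraicClosure K)})
      (AlgebraicClosure K)
  have hfin1 : FiniteDimensional K (IntermediateField.adjoin K {(x : AlgebraicClosure K)}) :=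
    IntermediateField.adjoin.finiteDimensional (Algebra.IsIntegral.isIntegral _)
  have hfin : FiniteDimensional K E := inferInstance
  have hnor : Normal K E := inferInstance
  have hgal : IsGalois K E := { to_isSeparable := inferInstance, to_normal := hnor }
  have hle : IntermediateField.adjoin K {(x : AlgebraicClosure K)} ≤ L := by
    rw [IntermediateField.adjoin_le_iff]
    rintro y rfl
    exact hx
  have hEL : E ≤ L := by
    have : Normal K L := inferInstance
    exact IntermediateField.normalClosure_le_iff_of_normal.mpr hle
  have hxE : (x : AlgebraicClosure K) ∈ E :=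
    IntermediateField.le_normalClosure _ (IntermediateField.mem_adjoin_simple_self K _)
  have h1 := unram_fix_of_le hEL (unramExt_of_finite_le_Omega (hEL.trans hL)) hP hg
    (x : AlgebraicClosure K) hxE
  exact congrArg Subtype.val h1

/-- Every finite subextension of `Omega K / K` which is Galois has degree a power of `2`. -/
lemma finrank_of_le_Omega [CharZero K] {E : IntermediateField K (AlgebraicClosure K)}
    [FiniteDimensional K E] (hE : E ≤ Omega K) : ∃ k, Module.finrank K E = 2 ^ k := by
  obtain ⟨F, hF, hEF⟩ := exists_good_ge hE
  obtain ⟨k, hk⟩ := hF.degree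
  have h1 := IntermediateField.finrank_dvd_of_le_right hEF
  rw [hk] at h1
  obtain ⟨j, -, hj⟩ := (Nat.dvd_prime_pow Nat.prime_two).mp h1
  exact ⟨j, hj⟩

/-- Criterion for an extension of a good field to be good. -/
lemma Good.of_le {E F : IntermediateField K (AlgebraicClosure K)} (hF : Good K F) (hFE : F ≤ E)
    (hfin : FiniteDimensional K E) (hgal : IsGalois K E) (hdeg : ∃ k, Module.finrank K E = 2 ^ k)
    (h : ∀ Q : Ideal (𝓞 E), Q.IsPrime → ∀ g : E ≃ₐ[K] E, InInertia K E Q g →
      (∀ x : E, (x : AlgebraicClosure K) ∈ F → g x = x) → g = 1) : Good K E := by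
  have := hF.galois
  refine ⟨hfin, hgal, hdeg, fun Q hQ g hg => h Q hQ g hg fun x hx => ?_⟩
  exact unram_fix_of_le hFE hF.unram hQ hg x hx

end Pool.Agent.Lib.MP_722186_nt
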