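import Pool.Agent.Lib.MP_722186_nt.OmegaPro

/-!
# `Gal(Omega K / K)` has finitely many continuous homomorphisms to `ZMod 2` (Hermite)
-/

namespace Pool.Agent.Lib.MP_722186_nt

open NumberField Topology

lemma natAbs_discr_of_unr {K L : Type*} [Field K] [NumberField K] [Field L] [NumberField L]
    [Algebra K L] (h : ∀ P : Ideal (𝓞 L), ∀ _ : P.IsPrime, Algebra.IsUnramifiedAt (𝓞 K) P) :
    (discr L).natAbs = (discr K).natAbs ^ Module.finrank K L := by
  have h1 := natAbs_discr_eq_absNorm_differentIdeal_mul_natAbs_discr_pow K (𝒪 := 𝓞 K) L (𝓞 L)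
  rw [h1]
  have h2 : differentIdeal (𝓞 K) (𝓞 L) = ⊤ := by
    by_contra hne
    obtain ⟨P, hP, hle⟩ := Ideal.exists_le_maximal _ hne
    have hdvd : P ∣ differentIdeal (𝓞 K) (𝓞 L) := Ideal.dvd_iff_le.mpr hle
    have := hP.isPrime
    rw [dvd_differentIdeal_iff] at hdvd
    exact hdvd (h P inferInstance)
  rw [h2, Ideal.absNorm_top, one_mul]

variable {K : Type*} [Field K]

/-- The kernel of a continuous homomorphism, as a subgroup. -/
def kerHom {G : Type*} [Group G] [TopologicalSpace G] {p : ℕ} (χ : HomC p G) : Subgroup G where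
  carrier := {g | χ.1 g = 0}
  mul_mem' := fun {a b} ha hb => by
    show χ.1 (a * b) = 0
    rw [χ.2.2, show χ.1 a = 0 from ha, show χ.1 b = 0 from hb, add_zero]
  one_mem' := by
    show χ.1 1 = 0
    have := χ.2.2 1 1
    rw [mul_one] at this
    simpa using this
  inv_mem' := fun {a} ha => by
    show χ.1 a⁻¹ = 0
    have h1 : χ.1 1 = 0 := by
      have := χ.2.2 1 1
      rw [mul_one] at this
      simpa using this
    have := χ.2.2 a a⁻¹
    rw [mul_inv_cancel, h1, show χ.1 a = 0 from ha, zero_add] at this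
    exact this.symm

lemma mem_kerHom {G : Type*} [Group G] [TopologicalSpace G] {p : ℕ} {χ : HomC p G} {g : G} :
    g ∈ kerHom χ ↔ χ.1 g = 0 := Iff.rfl

lemma isOpen_kerHom {G : Type*} [Group G] [TopologicalSpace G] {p : ℕ} (χ : HomC p G) :
    IsOpen (kerHom χ : Set G) :=
  (isOpen_discrete ({0} : Set (ZMod p))).preimage χ.2.1

lemma isClosed_kerHom {G : Type*} [Group G] [TopologicalSpace G] {p : ℕ} (χ : HomC p G) :
    IsClosed (kerHom χ : Set G) :=
  (isClosed_discrete ({0} : Set (ZMod p))).preimage χ.2.1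

instance normal_kerHom {G : Type*} [Group G] [TopologicalSpace G] {p : ℕ} (χ : HomC p G) :
    (kerHom χ).Normal := ⟨fun n hn g => by
  rw [mem_kerHom] at hn ⊢
  have h1 : χ.1 (g * n * g⁻¹) = χ.1 g + χ.1 n + χ.1 g⁻¹ := by rw [χ.2.2, χ.2.2]
  have h2 : χ.1 (g * g⁻¹) = χ.1 g + χ.1 g⁻¹ := χ.2.2 _ _
  have h3 : χ.1 (g * g⁻¹) = 0 := by
    rw [mul_inv_cancel]
    exact (kerHom χ).one_mem
  rw [h1, hn, add_zero, ← h2, h3]⟩

lemma card_quotient_kerHom {G : Type*} [Group G] [TopologicalSpace G] (χ : HomC 2 G) :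
    Nat.card (G ⧸ kerHom χ) ≤ 2 := by
  let f : G ⧸ kerHom χ → ZMod 2 := Quotient.lift χ.1 (fun a b hab => by
    have h1 : a⁻¹ * b ∈ kerHom χ := QuotientGroup.leftRel_apply.mp hab
    have h2 : χ.1 (a * (a⁻¹ * b)) = χ.1 a + χ.1 (a⁻¹ * b) := χ.2.2 _ _
    rw [mem_kerHom.mp h1, add_zero, mul_inv_cancel_left] at h2
    exact h2.symm)
  have hf : Function.Injective f := by
    intro x y hxy
    obtain ⟨a, rfl⟩ := QuotientGroup.mk_surjective x
    obtain ⟨b, rfl⟩ := QuotientGroup.mk_surjective y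
    have hab : χ.1 a = χ.1 b := hxy
    rw [QuotientGroup.eq, mem_kerHom]
    have h2 : χ.1 (a * (a⁻¹ * b)) = χ.1 a + χ.1 (a⁻¹ * b) := χ.2.2 _ _
    rw [mul_inv_cancel_left, hab] at h2
    exact left_eq_add.mp h2
  have := Nat.card_le_card_of_injective f hf
  rwa [Nat.card_eq_fintype_card (α := ZMod 2), ZMod.card] at this

/-- The quadratic field attached to a homomorphism. -/
noncomputable def fieldOf (χ : HomC 2 (Omega K ≃ₐ[K] Omega K)) : IntermediateField K (Omega K) :=
  IntermediateField.fixedField (kerHom χ)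

lemma fixingSubgroup_fieldOf [CharZero K] (χ : HomC 2 (Omega K ≃ₐ[K] Omega K)) :
    (fieldOf χ).fixingSubgroup = kerHom χ :=
  InfiniteGalois.fixingSubgroup_fixedField ⟨kerHom χ, isClosed_kerHom χ⟩

lemma finite_fieldOf [CharZero K] (χ : HomC 2 (Omega K ≃ₐ[K] Omega K)) :
    FiniteDimensional K (fieldOf χ) := by
  rw [← InfiniteGalois.isOpen_iff_finite]
  have := isOpen_kerHom χ
  rw [← fixingSubgroup_fieldOf] at this
  exact this

lemma isGalois_fieldOf [CharZero K] (χ : HomC 2 (Omega K ≃ₐ[K] Omega K)) :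
    IsGalois K (fieldOf χ) := by
  rw [← InfiniteGalois.normal_iff_isGalois, fixingSubgroup_fieldOf]
  infer_instance

lemma finrank_fieldOf [CharZero K] (χ : HomC 2 (Omega K ≃ₐ[K] Omega K)) :
    Module.finrank K (fieldOf χ) ≤ 2 := by
  have := finite_fieldOf χ
  have := isGalois_fieldOf χ
  rw [← IsGalois.card_aut_eq_finrank K (fieldOf χ)]
  let H : ClosedSubgroup (Omega K ≃ₐ[K] Omega K) := ⟨kerHom χ, isClosed_kerHom χ⟩
  have : H.1.Normal := normal_kerHom χ
  have e := InfiniteGalois.normalAutEquivQuotient H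
  have h1 := Nat.card_congr e.toEquiv
  have h2 := card_quotient_kerHom χ
  exact h1.symm.le.trans h2

/-- The quadratic field attached to a homomorphism, inside the algebraic closure. -/
noncomputable def fieldOf' (χ : HomC 2 (Omega K ≃ₐ[K] Omega K)) :
    IntermediateField K (AlgebraicClosure K) :=
  IntermediateField.lift (fieldOf χ)

lemma fieldOf'_injective [CharZero K] :
    Function.Injective (fieldOf' (K := K)) := by
  intro χ ψ h
  have h1 : fieldOf χ = fieldOf ψ := IntermediateField.lift_injective _ h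
  have h2 : kerHom χ = kerHom ψ := by
    rw [← fixingSubgroup_fieldOf, ← fixingSubgroup_fieldOf, h1]
  apply Subtype.ext
  funext g
  have h3 : χ.1 g = 0 ↔ ψ.1 g = 0 := by
    rw [← mem_kerHom, ← mem_kerHom, h2]
  generalize χ.1 g = a at h3
  generalize ψ.1 g = b at h3
  revert a b
  decide

lemma finite_fieldOf' [CharZero K] (χ : HomC 2 (Omega K ≃ₐ[K] Omega K)) :
    FiniteDimensional K (fieldOf' χ) := by
  have := finite_fieldOf χ
  exact Module.Finite.equiv (IntermediateField.liftAlgEquiv (fieldOf χ)).toLinearEquiv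

lemma discr_fieldOf' [NumberField K] (χ : HomC 2 (Omega K ≃ₐ[K] Omega K)) :
    ∀ _ : NumberField (fieldOf' χ), (discr (fieldOf' χ)).natAbs ≤ (discr K).natAbs ^ 2 := by
  intro _
  have h1 := finite_fieldOf' χ
  have := isGalois_fieldOf χ
  have h2 : IsGalois K (fieldOf' χ) :=
    IsGalois.of_algEquiv (IntermediateField.liftAlgEquiv (fieldOf χ))
  have h3 : UnramExt K (fieldOf' χ) :=
    unramExt_of_finite_le_Omega (IntermediateField.lift_le (fieldOf χ))
  have h4 : ∀ P : Ideal (𝓞 (fieldOf' χ)), ∀ _ : P.IsPrime, Algebra.IsUnramifiedAt (𝓞 K) P := by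
    intro P hP
    rw [← Ideal.ramificationIdx_eq_one_iff]
    exact ramificationIdx_eq_one_of_unramExt h3 P
  rw [natAbs_discr_of_unr h4]
  apply Nat.pow_le_pow_right
  · exact Int.natAbs_pos.mpr (discr_ne_zero K)
  · have h5 : Module.finrank K (fieldOf' χ) = Module.finrank K (fieldOf χ) :=
      ((IntermediateField.liftAlgEquiv (fieldOf χ)).toLinearEquiv.finrank_eq).symm
    rw [h5]
    exact finrank_fieldOf χ

theorem finite_HomC_Omega [NumberField K] : Finite (HomC 2 (Omega K ≃ₐ[K] Omega K)) := by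
  have hfin := NumberField.finite_of_discr_bdd (AlgebraicClosure K) ((discr K).natAbs ^ 2)
  have key : ∀ χ : HomC 2 (Omega K ≃ₐ[K] Omega K),
      FiniteDimensional ℚ ((fieldOf' χ).restrictScalars ℚ) := by
    intro χ
    have := finite_fieldOf' χ
    have : FiniteDimensional ℚ (fieldOf' χ) := FiniteDimensional.trans ℚ K (fieldOf' χ)
    exact this
  let Φ : HomC 2 (Omega K ≃ₐ[K] Omega K) →
      {F : IntermediateField ℚ (AlgebraicClosure K) // FiniteDimensional ℚ F} :=
    fun χ => ⟨(fieldOf' χ).restrictScalars ℚ, key χ⟩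
  have hΦ : Function.Injective Φ := by
    intro χ ψ h
    apply fieldOf'_injective
    have := congrArg Subtype.val h
    exact IntermediateField.restrictScalars_injective ℚ this
  refine Set.Finite.of_injOn (f := Φ) (s := Set.univ) (t := _) ?_ hΦ.injOn hfin |> fun h =>
    Set.finite_univ_iff.mp h
  intro χ _
  show |@discr _ _ (@NumberField.mk _ _ inferInstance (Φ χ).2)| ≤ (((discr K).natAbs ^ 2 : ℕ) : ℤ)
  have hnf : NumberField (fieldOf' χ) := by
    have := finite_fieldOf' χ
    exact NumberField.of_module_finite K (fieldOf' χ)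
  have h1 := discr_fieldOf' χ hnf
  have h2 : @discr _ _ (@NumberField.mk _ _ inferInstance (Φ χ).2) = discr (fieldOf' χ) := rfl
  rw [h2, Int.abs_eq_natAbs]
  exact_mod_cast h1

end Pool.Agent.Lib.MP_722186_nt
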