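import Pool.Agent.Lib.MP_722186_nt.OmegaIs

/-!
# `Gal(Omega K / K)` is a pro-`2` group and has finitely many continuous homomorphisms to `ZMod 2`
-/

namespace Pool.Agent.Lib.MP_722186_nt

open NumberField Topology

variable {K : Type*} [Field K]

lemma pow_fix {p : ℕ} {L F : IntermediateField K (AlgebraicClosure K)} (hFL : F ≤ L) [Normal K F]
    (hF : IsPGroup p (F ≃ₐ[K] F)) (g : L ≃ₐ[K] L) :
    ∃ k, ∀ x : L, (x : AlgebraicClosure K) ∈ F → (g ^ p ^ k) x = x := by
  let := (IntermediateField.inclusion hFL).toRingHom.toAlgebra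
  have : IsScalarTower K F L := IsScalarTower.of_algebraMap_eq (fun _ => rfl)
  obtain ⟨k, hk⟩ := hF (AlgEquiv.restrictNormalHom F g)
  refine ⟨k, fun x hx => ?_⟩
  have h3 := AlgEquiv.restrictNormal_commutes (g ^ p ^ k) F (⟨x, hx⟩ : F)
  have h4 : (g ^ p ^ k).restrictNormal F = 1 := by
    have : AlgEquiv.restrictNormalHom F (g ^ p ^ k) = 1 := by rw [map_pow, hk]
    exact this
  rw [h4] at h3
  exact h3.symm

/-- An open subgroup of the Galois group of `L ≤ Omega K` contains the subgroup fixing a good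
subextension. -/
lemma exists_good_fix_le [CharZero K] {U : Subgroup (Omega K ≃ₐ[K] Omega K)}
    (hU : IsOpen (U : Set (Omega K ≃ₐ[K] Omega K))) :
    ∃ F : IntermediateField K (AlgebraicClosure K), Good K F ∧
      ∀ g : Omega K ≃ₐ[K] Omega K, (∀ x : Omega K, (x : AlgebraicClosure K) ∈ F → g x = x) →
        g ∈ U := by
  have h1 : (U : Set (Omega K ≃ₐ[K] Omega K)) ∈ 𝓝 1 := hU.mem_nhds U.one_mem
  rw [krullTopology_mem_nhds_one_iff] at h1
  obtain ⟨E, hE, hEU⟩ := h1
  have hfin : FiniteDimensional K (IntermediateField.lift E) :=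
    Module.Finite.equiv (IntermediateField.liftAlgEquiv E).toLinearEquiv
  obtain ⟨F, hF, hEF⟩ := exists_good_ge (IntermediateField.lift_le E)
  refine ⟨F, hF, fun g hg => hEU ?_⟩
  intro x
  apply hg
  exact hEF ((IntermediateField.mem_lift (x : Omega K)).mpr x.2)

lemma isPGroup_quotient [CharZero K] (U : Subgroup (Omega K ≃ₐ[K] Omega K)) [U.Normal]
    (hU : IsOpen (U : Set (Omega K ≃ₐ[K] Omega K))) :
    IsPGroup 2 ((Omega K ≃ₐ[K] Omega K) ⧸ U) := by
  obtain ⟨F, hF, h⟩ := exists_good_fix_le hU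
  have := hF.galois
  intro g
  obtain ⟨g, rfl⟩ := QuotientGroup.mk_surjective g
  obtain ⟨k, hk⟩ := pow_fix hF.le_Omega hF.isPGroup g
  refine ⟨k, ?_⟩
  rw [← QuotientGroup.mk_pow, QuotientGroup.eq_one_iff]
  exact h _ hk

end Pool.Agent.Lib.MP_722186_nt
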