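import Pool.Agent.Lib.MP_722186_nt.Classes
import Pool.Agent.Lib.MP_722186_nt.Devis
import Pool.Agent.Lib.MP_722186_nt.Defs

/-!
# Module 7 (helper22): the bound for the number of relations
-/

namespace Pool.Agent.Lib.MP_722186_nt

open NumberField IsDedekindDomain Topology
open scoped Pointwise nonZeroDivisors

section pigeon

variable {K L : Type} [Field K] [NumberField K] [Field L] [NumberField L] [Algebra K L]

theorem exists_pair (hL : GoodExt K L) (h2 : TwoUnr K) {ι : Type} [Fintype ι]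
    (hcard : Nat.card (ClModSq K) * Nat.card (𝓞 K ⧸ Ideal.span {(2 : 𝓞 K)}) < Fintype.card ι)
    (α : ι → L) (hα : ∀ i, α i ≠ 0) (hinv : ∀ i, ∀ g : L ≃ₐ[K] L, ∃ ε : L, g (α i) = ε ^ 2 * α i) :
    ∃ i j : ι, i ≠ j ∧ ∃ (k : K) (δ : L) (e : 𝓞 L), k ≠ 0 ∧
      (∀ w : HeightOneSpectrum (𝓞 L), Even (vv w (α i * α j * algebraMap K L k))) ∧
      algebraMap (𝓞 L) L (1 + 4 * e) = δ ^ 2 * (α i * α j * algebraMap K L k) := by
  classical
  have := hL.gal
  have h2L : TwoUnr L := TwoUnr.top h2 hL.unr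
  have hfinq : Finite (𝓞 K ⧸ Ideal.span {(2 : 𝓞 K)}) :=
    Ideal.finiteQuotientOfFreeOfNeBot _ (by simp)
  have := Fintype.ofFinite (ClModSq K)
  have := Fintype.ofFinite (𝓞 K ⧸ Ideal.span {(2 : 𝓞 K)})
  rw [Nat.card_eq_fintype_card, Nat.card_eq_fintype_card] at hcard
  obtain ⟨c, hc⟩ := Fintype.exists_lt_card_fiber_of_mul_lt_card (fun i : ι => cls K (α i)) hcard
  set s : Finset ι := Finset.univ.filter (fun i => cls K (α i) = c) with hs
  have hne : s.Nonempty := by
    rw [← Finset.card_pos]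
    exact lt_of_le_of_lt (Nat.zero_le _) hc
  obtain ⟨i0, hi0⟩ := hne
  have hi0' : cls K (α i0) = c := (Finset.mem_filter.mp hi0).2
  -- choose `k`
  have hk : ∀ i, i ∈ s → ∃ k : K, k ≠ 0 ∧ ∀ w : HeightOneSpectrum (𝓞 L),
      Even (vv w (α i * α i0 * algebraMap K L k)) := by
    intro i hi
    exact exists_k hL.unr (α i) (α i0) (hα i) (hα i0) (hinv i) (hinv i0)
      (by rw [(Finset.mem_filter.mp hi).2, hi0'])
  choose! k hk0 hkev using hk
  -- normal forms
  have hn : ∀ i, i ∈ s → ∃ (δ : L) (c0 : 𝓞 K) (e : 𝓞 L), δ ≠ 0 ∧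
      algebraMap (𝓞 L) L (1 + 2 * algebraMap (𝓞 K) (𝓞 L) c0 + 4 * e)
        = δ ^ 2 * (α i * α i0 * algebraMap K L (k i)) := by
    intro i hi
    have hki : algebraMap K L (k i) ≠ 0 := by simpa using hk0 i hi
    apply exists_normal_form hL.unr h2L _ (mul_ne_zero (mul_ne_zero (hα i) (hα i0)) hki)
      (fun w _ => hkev i hi w)
    intro g
    obtain ⟨ε, hε⟩ := hinv i g
    obtain ⟨ε', hε'⟩ := hinv i0 g
    refine ⟨ε * ε', ?_⟩
    rw [map_mul, map_mul, hε, hε', AlgEquiv.commutes]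
    ring
  choose! δ c0 e hδ hne using hn
  obtain ⟨i, hi, j, hj, hij, hcij⟩ := Finset.exists_ne_map_eq_of_card_lt_of_maps_to
    (s := s) (t := (Finset.univ : Finset (𝓞 K ⧸ Ideal.span {(2 : 𝓞 K)})))
    (by rw [Finset.card_univ]; exact hc)
    (f := fun i => Ideal.Quotient.mk (Ideal.span {(2 : 𝓞 K)}) (c0 i)) (fun _ _ => Finset.mem_univ _)
  rw [Ideal.Quotient.eq, Ideal.mem_span_singleton] at hcij
  obtain ⟨d, hd⟩ := hcij
  have hd' : c0 i = c0 j + 2 * d := by rw [← hd]; ring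
  have hki : algebraMap K L (k i) ≠ 0 := by simpa using hk0 i hi
  have hkj : algebraMap K L (k j) ≠ 0 := by simpa using hk0 j hj
  have hkey : α i * α j * algebraMap K L (k i * k j) * (α i0) ^ 2
      = (α i * α i0 * algebraMap K L (k i)) * (α j * α i0 * algebraMap K L (k j)) := by
    rw [map_mul]; ring
  refine ⟨i, j, hij, k i * k j, δ i * δ j * α i0,
    (algebraMap (𝓞 K) (𝓞 L) (c0 j)) + (algebraMap (𝓞 K) (𝓞 L) (c0 j)) ^ 2
      + (algebraMap (𝓞 K) (𝓞 L) d + e i + e j) * (1 + 2 * algebraMap (𝓞 K) (𝓞 L) (c0 j))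
      + 4 * (algebraMap (𝓞 K) (𝓞 L) d + e i) * e j, mul_ne_zero (hk0 i hi) (hk0 j hj), ?_, ?_⟩
  · intro w
    have h1 : α i * α j * algebraMap K L (k i * k j) ≠ 0 := by
      rw [map_mul]
      exact mul_ne_zero (mul_ne_zero (hα i) (hα j)) (mul_ne_zero hki hkj)
    have h3 := congrArg (vv w) hkey
    rw [vv_mul w h1 (pow_ne_zero 2 (hα i0)), vv_pow,
      vv_mul w (mul_ne_zero (mul_ne_zero (hα i) (hα i0)) hki)
        (mul_ne_zero (mul_ne_zero (hα j) (hα i0)) hkj)] at h3
    have h4 : Even (vv w (α i * α i0 * algebraMap K L (k i))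
        + vv w (α j * α i0 * algebraMap K L (k j)) - ((2 : ℕ) : ℤ) * vv w (α i0)) := by
      apply Even.sub
      · exact (hkev i hi w).add (hkev j hj w)
      · exact ⟨vv w (α i0), by push_cast; ring⟩
    rw [← h3] at h4
    simpa using h4
  · have h5 := hne i hi
    have h6 := hne j hj
    have h7 : (δ i * δ j * α i0) ^ 2 * (α i * α j * algebraMap K L (k i * k j))
        = (δ i ^ 2 * (α i * α i0 * algebraMap K L (k i))) *
          (δ j ^ 2 * (α j * α i0 * algebraMap K L (k j))) := by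
      rw [map_mul]; ring
    have h9 : algebraMap (𝓞 K) (𝓞 L) (c0 i)
        = algebraMap (𝓞 K) (𝓞 L) (c0 j) + 2 * algebraMap (𝓞 K) (𝓞 L) d := by
      rw [hd', map_add, map_mul, map_ofNat]
    rw [h7, ← h5, ← h6, ← map_mul, h9]
    congr 1
    ring

end pigeon

section topo

variable {K Ω : Type} [Field K] [Field Ω] [Algebra K Ω]

/-- Agreement on a finite-dimensional subfield follows from agreement on a finite set. -/
theorem exists_finset_agree (E : IntermediateField K Ω) [FiniteDimensional K E] :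
    ∃ s : Finset Ω, ∀ g g' : Ω ≃ₐ[K] Ω, (∀ x ∈ s, g x = g' x) → ∀ x ∈ E, g x = g' x := by
  classical
  let b := Module.finBasis K E
  refine ⟨Finset.univ.image (fun i => (b i : Ω)), ?_⟩
  intro g g' h x hx
  have h1 : (x : Ω) = ∑ i, b.repr ⟨x, hx⟩ i • (b i : Ω) := by
    have h2 := b.sum_repr ⟨x, hx⟩
    have h3 := congrArg (fun y : E => (y : Ω)) h2
    refine h3.symm.trans ?_
    simp only [IntermediateField.coe_sum, IntermediateField.coe_smul]
  rw [h1, map_sum, map_sum]
  apply Finset.sum_congr rfl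
  intro i _
  rw [map_smul, map_smul, h (b i : Ω) (Finset.mem_image.mpr ⟨i, Finset.mem_univ _, rfl⟩)]

theorem isOpen_agree (E : IntermediateField K Ω) [FiniteDimensional K E] (g : Ω ≃ₐ[K] Ω) :
    IsOpen {g' : Ω ≃ₐ[K] Ω | ∀ x ∈ E, g x = g' x} := by
  have h1 := E.fixingSubgroup_isOpen
  have h2 : {g' : Ω ≃ₐ[K] Ω | ∀ x ∈ E, g x = g' x}
      = (fun g' => g⁻¹ * g') ⁻¹' (E.fixingSubgroup : Set (Ω ≃ₐ[K] Ω)) := by
    ext g'
    simp only [Set.mem_ofPred_eq, Set.mem_preimage, SetLike.mem_coe,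
      IntermediateField.mem_fixingSubgroup_iff]
    constructor
    · intro h x hx
      show g⁻¹ (g' x) = x
      rw [← h x hx]
      exact g.symm_apply_apply x
    · intro h x hx
      have h3 : g⁻¹ (g' x) = x := h x hx
      have h4 := congrArg g h3
      rw [← h4]
      exact g.apply_symm_apply (g' x)
  rw [h2]
  exact h1.preimage (continuous_const.mul continuous_id)

theorem continuous_of_agree {X : Type*} [TopologicalSpace X] (η : (Ω ≃ₐ[K] Ω) → X)
    (E : IntermediateField K Ω) [FiniteDimensional K E]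
    (h : ∀ g g' : Ω ≃ₐ[K] Ω, (∀ x ∈ E, g x = g' x) → η g = η g') : Continuous η := by
  rw [continuous_iff_continuousAt]
  intro g
  have h1 : {g' : Ω ≃ₐ[K] Ω | ∀ x ∈ E, g x = g' x} ∈ 𝓝 g :=
    (isOpen_agree E g).mem_nhds (fun x _ => rfl)
  have h2 : η =ᶠ[𝓝 g] fun _ => η g := by
    filter_upwards [h1] with g' hg'
    exact (h g g' hg').symm
  exact ContinuousAt.congr continuousAt_const h2.symm

/-- A continuous function of two variables with values in a discrete space factors through a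
finite level. -/
theorem exists_level [IsGalois K Ω] {X : Type*} [TopologicalSpace X] [DiscreteTopology X]
    (f : (Ω ≃ₐ[K] Ω) → (Ω ≃ₐ[K] Ω) → X)
    (hf : Continuous (fun q : (Ω ≃ₐ[K] Ω) × (Ω ≃ₐ[K] Ω) => f q.1 q.2)) :
    ∃ E : IntermediateField K Ω, FiniteDimensional K E ∧
      ∀ g g' h h' : Ω ≃ₐ[K] Ω, (∀ x ∈ E, g x = g' x) → (∀ x ∈ E, h x = h' x) →
        f g h = f g' h' := by
  let P : Set ((Ω ≃ₐ[K] Ω) × (Ω ≃ₐ[K] Ω)) → Prop := fun s =>
    ∃ E : IntermediateField K Ω, FiniteDimensional K E ∧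
      ∀ q ∈ s, ∀ g' h' : Ω ≃ₐ[K] Ω, (∀ x ∈ E, q.1 x = g' x) → (∀ x ∈ E, q.2 x = h' x) →
        f q.1 q.2 = f g' h'
  have hP : P Set.univ := by
    refine isCompact_univ.induction_on (p := P) ?_ ?_ ?_ ?_
    · exact ⟨⊥, inferInstance, fun q hq => absurd hq (Set.notMem_empty q)⟩
    · rintro s t hst ⟨E, hE, h⟩
      exact ⟨E, hE, fun q hq => h q (hst hq)⟩
    · rintro s t ⟨E, hE, hs⟩ ⟨E', hE', ht⟩
      refine ⟨E ⊔ E', inferInstance, ?_⟩
      rintro q (hq | hq) g' h' hg' hh'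
      · exact hs q hq g' h' (fun x hx => hg' x (le_sup_left (a := E) (b := E') hx))
          (fun x hx => hh' x (le_sup_left (a := E) (b := E') hx))
      · exact ht q hq g' h' (fun x hx => hg' x (le_sup_right (a := E) (b := E') hx))
          (fun x hx => hh' x (le_sup_right (a := E) (b := E') hx))
    · rintro q _
      have h1 : {q' : (Ω ≃ₐ[K] Ω) × (Ω ≃ₐ[K] Ω) | f q'.1 q'.2 = f q.1 q.2} ∈ 𝓝 q :=
        (hf.isOpen_preimage {f q.1 q.2} (isOpen_discrete _)).mem_nhds rfl
      rw [nhds_prod_eq, Filter.mem_prod_iff] at h1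
      obtain ⟨U, hU, V, hV, hUV⟩ := h1
      -- neighbourhoods of `q.1`, `q.2`
      have key : ∀ (g : Ω ≃ₐ[K] Ω) (U : Set (Ω ≃ₐ[K] Ω)), U ∈ 𝓝 g →
          ∃ E : IntermediateField K Ω, FiniteDimensional K E ∧
            {g' : Ω ≃ₐ[K] Ω | ∀ x ∈ E, g x = g' x} ⊆ U := by
        intro g U hU
        have h2 : (fun g' => g * g') ⁻¹' U ∈ 𝓝 (1 : Ω ≃ₐ[K] Ω) := by
          apply (continuous_const.mul continuous_id).continuousAt
          simpa using hU
        rw [krullTopology_mem_nhds_one_iff] at h2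
        obtain ⟨E, hE, hEU⟩ := h2
        refine ⟨E, hE, ?_⟩
        intro g' hg'
        have h3 : g⁻¹ * g' ∈ (E.fixingSubgroup : Set (Ω ≃ₐ[K] Ω)) := by
          rw [SetLike.mem_coe, IntermediateField.mem_fixingSubgroup_iff]
          intro x hx
          show g⁻¹ (g' x) = x
          rw [← hg' x hx]
          exact g.symm_apply_apply x
        have h4 := hEU h3
        simpa using h4
      obtain ⟨E, hE, hEU⟩ := key q.1 U hU
      obtain ⟨E', hE', hEV⟩ := key q.2 V hV
      refine ⟨{q' | (∀ x ∈ E ⊔ E', q.1 x = q'.1 x) ∧ (∀ x ∈ E ⊔ E', q.2 x = q'.2 x)}, ?_,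
        E ⊔ E', inferInstance, ?_⟩
      · apply mem_nhdsWithin_of_mem_nhds
        have h5 := (isOpen_agree (E ⊔ E') q.1).prod (isOpen_agree (E ⊔ E') q.2)
        exact h5.mem_nhds ⟨fun x _ => rfl, fun x _ => rfl⟩
      · rintro q' ⟨hq1, hq2⟩ g' h' hg' hh'
        have e1 : f q'.1 q'.2 = f q.1 q.2 := by
          apply hUV (a := (q'.1, q'.2))
          exact ⟨hEU (fun x hx => hq1 x (le_sup_left (a := E) (b := E') hx)),
            hEV (fun x hx => hq2 x (le_sup_right (a := E) (b := E') hx))⟩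
        have e2 : f g' h' = f q.1 q.2 := by
          apply hUV (a := (g', h'))
          exact ⟨hEU (fun x hx => (hq1 x (le_sup_left (a := E) (b := E') hx)).trans
              (hg' x (le_sup_left (a := E) (b := E') hx))),
            hEV (fun x hx => (hq2 x (le_sup_right (a := E) (b := E') hx)).trans
              (hh' x (le_sup_right (a := E) (b := E') hx)))⟩
        rw [e1, e2]
  obtain ⟨E, hE, h⟩ := hP
  exact ⟨E, hE, fun g g' h1 h1' hg hh => h (g, h1) (Set.mem_univ _) g' h1' hg hh⟩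

end topo

section sign

/-- The sign character of `ZMod 2`. -/
def sg {M : Type*} [Monoid M] [HasDistribNeg M] (a : ZMod 2) : M := (-1) ^ a.val

theorem sg_zero {M : Type*} [Monoid M] [HasDistribNeg M] : (sg 0 : M) = 1 := by
  simp [sg]

theorem sg_one {M : Type*} [Monoid M] [HasDistribNeg M] : (sg 1 : M) = -1 := by
  have h : (1 : ZMod 2).val = 1 := by decide
  simp [sg, h]

theorem zmod2_cases (a : ZMod 2) : a = 0 ∨ a = 1 := by
  revert a; decide

theorem sg_add {M : Type*} [Monoid M] [HasDistribNeg M] (a b : ZMod 2) :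
    (sg (a + b) : M) = sg a * sg b := by
  have h2 : (1 : ZMod 2) + 1 = 0 := by decide
  rcases zmod2_cases a with rfl | rfl <;> rcases zmod2_cases b with rfl | rfl
  · simp [sg_zero]
  · rw [zero_add, sg_zero, one_mul]
  · rw [add_zero, sg_zero, mul_one]
  · rw [h2, sg_zero, sg_one]; simp

theorem sg_eq {M : Type*} [Monoid M] [HasDistribNeg M] (a : ZMod 2) :
    (sg a : M) = 1 ∨ (sg a : M) = -1 := by
  rcases zmod2_cases a with rfl | rfl
  · left; exact sg_zero
  · right; exact sg_one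

theorem sg_inj {F : Type*} [Field F] [CharZero F] {a b : ZMod 2} (h : (sg a : F) = sg b) :
    a = b := by
  have h1 : (1 : F) ≠ -1 := by
    intro h
    have : (2 : F) = 0 := by linear_combination h
    exact two_ne_zero this
  rcases zmod2_cases a with rfl | rfl <;> rcases zmod2_cases b with rfl | rfl
  · rfl
  · rw [sg_zero, sg_one] at h
    exact absurd h h1
  · rw [sg_zero, sg_one] at h
    exact absurd h.symm h1
  · rfl

theorem sg_sum {M ι : Type*} [CommMonoid M] [HasDistribNeg M] (s : Finset ι) (a : ι → ZMod 2) :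
    (sg (∑ i ∈ s, a i) : M) = ∏ i ∈ s, sg (a i) := by
  classical
  induction s using Finset.induction_on with
  | empty => simp [sg_zero]
  | insert i s hi ih => rw [Finset.sum_insert hi, Finset.prod_insert hi, sg_add, ih]

end sign

end Pool.Agent.Lib.MP_722186_nt
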