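import Mathlib

/-!
# Module 6a (helper22): abstract dévissage for splittings of group extensions

`Γ` acts on the commutative group `A`; `E` is an extension of `Γ` by `A`, given by homomorphisms
`π : E →* Γ` and `ι : A →* E`; `φ : E → (X → ℤ)` is a crossed homomorphism.
-/

namespace Pool.Agent.Lib.MP_722186_nt

open Finset

section perm

/-- `H¹` of a finite group with values in the functions on a set with values in `ℤ` vanishes. -/
theorem perm_H1 {Γ X : Type*} [Group Γ] [MulAction Γ X] (H : Subgroup Γ) [Fintype H]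
    (c : Γ → X → ℤ) (hc : ∀ g ∈ H, ∀ h ∈ H, ∀ x, c (g * h) x = c g x + c h (g⁻¹ • x)) :
    ∃ y : X → ℤ, ∀ h ∈ H, ∀ x, c h x = y (h⁻¹ • x) - y x := by
  classical
  let n : ℤ := (Fintype.card H : ℤ)
  have hn : 0 < n := by
    have : 0 < Fintype.card H := Fintype.card_pos
    show (0 : ℤ) < (Fintype.card H : ℤ)
    exact_mod_cast this
  let S : X → ℤ := fun x => ∑ h : H, c h x
  have key : ∀ k ∈ H, ∀ x, S x = n * c k x + S (k⁻¹ • x) := by
    intro k hk x
    have e1 : S x = ∑ h : H, c ((⟨k, hk⟩ : H) * h : H) x := by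
      exact (Fintype.sum_bijective (fun h : H => (⟨k, hk⟩ : H) * h)
        (Group.mulLeft_bijective _) _ _ (fun _ => rfl)).symm
    rw [e1]
    have e2 : ∀ h : H, c ((⟨k, hk⟩ : H) * h : H) x = c k x + c h (k⁻¹ • x) := by
      intro h
      have := hc k hk h h.2 x
      simpa using this
    simp only [e2, Finset.sum_add_distrib, Finset.sum_const, Finset.card_univ, nsmul_eq_mul]
    rfl
  refine ⟨fun x => (- S x) / n, fun h hh x => ?_⟩
  have h1 := key h hh x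
  have h2 : - S (h⁻¹ • x) = - S x + c h x * n := by rw [h1]; ring
  show c h x = (- S (h⁻¹ • x)) / n - (- S x) / n
  rw [h2, Int.add_mul_ediv_right _ _ hn.ne']
  ring

end perm

section step

variable {Γ A E : Type*} [Group Γ] [CommGroup A] [MulDistribMulAction Γ A] [Group E]

/-- A partial splitting of `π` over the subgroup `H`. -/
def PSplit (π : E →* Γ) (H : Subgroup Γ) : Prop :=
  ∃ s : Γ → E, (∀ h ∈ H, π (s h) = h) ∧ (∀ h ∈ H, ∀ k ∈ H, s (h * k) = s h * s k)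

/-- The data of the extension. -/
structure ExtData (π : E →* Γ) (ι : A →* E) : Prop where
  surj : Function.Surjective π
  inj : Function.Injective ι
  ker : ∀ e, π e = 1 → ∃ a, ι a = e
  pi : ∀ a, π (ι a) = 1
  conj : ∀ e a, e * ι a * e⁻¹ = ι (π e • a)

/-- One step of the dévissage: from an index two subgroup. -/
theorem step_split (π : E →* Γ) (ι : A →* E) (D : ExtData π ι)
    {X : Type*} [MulAction Γ X] (φ : E → X → ℤ)
    (hφ : ∀ e e' x, φ (e * e') x = φ e x + φ e' ((π e)⁻¹ • x))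
    (H K : Subgroup Γ) (hKH : K ≤ H) [Finite K]
    (hidx : ∀ h ∈ H, ∀ k ∈ H, h ∉ K → k ∉ K → h * k ∈ K)
    (σ : Γ) (hσ : σ ∈ H) (hσK : σ ∉ K)
    (H90 : ∀ c : Γ → A, (∀ h ∈ K, ∀ k ∈ K, c (h * k) = c h * h • c k) →
      ∃ x : A, ∀ h ∈ K, c h = x / (h • x))
    (norm : ∀ a : A, (∀ h ∈ H, h • a = a) → ∀ y : X → ℤ, (∀ h ∈ K, ∀ x, y (h⁻¹ • x) = y x) →
      (∀ x, φ (ι a) x = y x + y (σ⁻¹ • x)) →
      ∃ b : A, (∀ h ∈ K, h • b = b) ∧ a = b * σ • b)
    (hs : PSplit π K) : PSplit π H := by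
  classical
  obtain ⟨s, hs1, hs2⟩ := hs
  have hsone : s 1 = 1 := by
    have := hs2 1 K.one_mem 1 K.one_mem
    rw [mul_one] at this
    exact (mul_eq_left.mp this.symm)
  have hsinv : ∀ h ∈ K, s h⁻¹ = (s h)⁻¹ := by
    intro h hh
    have := hs2 h hh h⁻¹ (K.inv_mem hh)
    rw [mul_inv_cancel, hsone] at this
    exact (inv_eq_of_mul_eq_one_right this.symm).symm
  -- index two facts
  have hσi : σ⁻¹ ∉ K := fun h => hσK (by simpa using K.inv_mem h)
  have hconj : ∀ τ ∈ K, σ * τ * σ⁻¹ ∈ K := by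
    intro τ hτ
    refine hidx _ (H.mul_mem hσ (hKH hτ)) _ (H.inv_mem hσ) (fun h => hσK ?_) hσi
    simpa using K.mul_mem h (K.inv_mem hτ)
  have hconj' : ∀ τ ∈ K, σ⁻¹ * τ * σ ∈ K := by
    intro τ hτ
    refine hidx _ (H.mul_mem (H.inv_mem hσ) (hKH hτ)) _ hσ (fun h => hσi ?_) hσK
    simpa using K.mul_mem h (K.inv_mem hτ)
  have hσ2 : σ * σ ∈ K := hidx _ hσ _ hσ hσK hσK
  -- step 1: choose `g` normalising `s(K)`
  obtain ⟨g0, hg0⟩ := D.surj σ
  have hex : ∀ τ : Γ, τ ∈ K → ∃ a : A, g0 * s (σ⁻¹ * τ * σ) * g0⁻¹ = ι a * s τ := by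
    intro τ hτ
    have h1 : π (g0 * s (σ⁻¹ * τ * σ) * g0⁻¹ * (s τ)⁻¹) = 1 := by
      simp only [map_mul, map_inv, hg0, hs1 _ (hconj' τ hτ), hs1 τ hτ]
      group
    obtain ⟨a, ha⟩ := D.ker _ h1
    exact ⟨a, by rw [ha]; group⟩
  obtain ⟨c, hc⟩ : ∃ c : Γ → A, ∀ τ ∈ K, g0 * s (σ⁻¹ * τ * σ) * g0⁻¹ = ι (c τ) * s τ := by
    refine ⟨fun τ => if hτ : τ ∈ K then (hex τ hτ).choose else 1, fun τ hτ => ?_⟩
    have := (hex τ hτ).choose_spec
    simp only [dif_pos hτ]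
    exact this
  have hcc : ∀ h ∈ K, ∀ k ∈ K, c (h * k) = c h * h • c k := by
    intro h hh k hk
    apply D.inj
    have e1 := hc (h * k) (K.mul_mem hh hk)
    have e2 := hc h hh
    have e3 := hc k hk
    have e4 : σ⁻¹ * (h * k) * σ = (σ⁻¹ * h * σ) * (σ⁻¹ * k * σ) := by group
    rw [e4, hs2 _ (hconj' h hh) _ (hconj' k hk), hs2 h hh k hk] at e1
    have e5 : g0 * (s (σ⁻¹ * h * σ) * s (σ⁻¹ * k * σ)) * g0⁻¹
        = (g0 * s (σ⁻¹ * h * σ) * g0⁻¹) * (g0 * s (σ⁻¹ * k * σ) * g0⁻¹) := by group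
    rw [e5, e2, e3] at e1
    have e6 : s h * ι (c k) = ι (h • c k) * s h := by
      have := D.conj (s h) (c k)
      rw [hs1 h hh] at this
      rw [← this]; group
    have e7 : ι (c h) * s h * (ι (c k) * s k) = ι (c h) * ι (h • c k) * (s h * s k) := by
      calc ι (c h) * s h * (ι (c k) * s k) = ι (c h) * (s h * ι (c k)) * s k := by group
        _ = ι (c h) * (ι (h • c k) * s h) * s k := by rw [e6]
        _ = _ := by group
    rw [e7] at e1
    have e8 := mul_right_cancel e1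
    rw [map_mul]
    exact e8.symm
  obtain ⟨x, hx⟩ := H90 c hcc
  obtain ⟨g, hgdef⟩ : ∃ g : E, g = (ι x)⁻¹ * g0 := ⟨_, rfl⟩
  have hπg : π g = σ := by simp [hgdef, hg0, D.pi]
  have hg : ∀ τ ∈ K, g * s (σ⁻¹ * τ * σ) * g⁻¹ = s τ := by
    intro τ hτ
    have e1 := hc τ hτ
    have e2 : g * s (σ⁻¹ * τ * σ) * g⁻¹
        = (ι x)⁻¹ * (g0 * s (σ⁻¹ * τ * σ) * g0⁻¹) * ι x := by rw [hgdef]; group
    rw [e2, e1, hx τ hτ]
    have e6 : s τ * ι x = ι (τ • x) * s τ := by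
      have := D.conj (s τ) x
      rw [hs1 τ hτ] at this
      rw [← this]; group
    calc (ι x)⁻¹ * (ι (x / τ • x) * s τ) * ι x
        = (ι x)⁻¹ * ι (x / τ • x) * (s τ * ι x) := by group
      _ = (ι x)⁻¹ * ι (x / τ • x) * (ι (τ • x) * s τ) := by rw [e6]
      _ = (ι x)⁻¹ * (ι (x / τ • x) * ι (τ • x)) * s τ := by group
      _ = s τ := by rw [← map_mul]; simp
  have hg' : ∀ τ ∈ K, g * s τ = s (σ * τ * σ⁻¹) * g := by
    intro τ hτ
    have := hg (σ * τ * σ⁻¹) (hconj τ hτ)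
    have e : σ⁻¹ * (σ * τ * σ⁻¹) * σ = τ := by group
    rw [e] at this
    rw [← this]; group
  -- step 2: `g * g = ι a * s (σ * σ)`
  obtain ⟨a, ha⟩ : ∃ a : A, ι a = g * g * (s (σ * σ))⁻¹ := by
    apply D.ker
    simp only [map_mul, map_inv, hπg, hs1 _ hσ2]
    group
  have hgg : g * g = ι a * s (σ * σ) := by rw [ha]; group
  have hcomm : ∀ τ ∈ K, s τ * ι a = ι (τ • a) * s τ := by
    intro τ hτ
    have := D.conj (s τ) a
    rw [hs1 τ hτ] at this
    rw [← this]; group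
  have hgι : g * ι a = ι (σ • a) * g := by
    have := D.conj g a
    rw [hπg] at this
    rw [← this]; group
  have hσa : σ • a = a := by
    apply D.inj
    have e1 : g * (g * g) = (g * g) * g := by group
    rw [hgg] at e1
    have e2 : g * (ι a * s (σ * σ)) = ι (σ • a) * (s (σ * (σ * σ) * σ⁻¹) * g) := by
      rw [← hg' _ hσ2, ← mul_assoc, hgι, mul_assoc]
    rw [e2] at e1
    have e3 : σ * (σ * σ) * σ⁻¹ = σ * σ := by group
    rw [e3] at e1
    have e4 : ι (σ • a) * (s (σ * σ) * g) = ι a * (s (σ * σ) * g) := by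
      rw [e1]; group
    exact mul_right_cancel e4
  have hKa : ∀ τ ∈ K, τ • a = a := by
    intro τ hτ
    apply D.inj
    -- `τ = σ τ'' σ⁻¹`, `τ'' = σ τ' σ⁻¹`
    have hτ1 := hconj' τ hτ
    have hτ2 := hconj' _ hτ1
    have e1 : g * g * s (σ⁻¹ * (σ⁻¹ * τ * σ) * σ) = s τ * (g * g) := by
      rw [mul_assoc, hg' _ hτ2]
      have e : σ * (σ⁻¹ * (σ⁻¹ * τ * σ) * σ) * σ⁻¹ = σ⁻¹ * τ * σ := by group
      rw [e, ← mul_assoc, hg' _ hτ1]
      have e' : σ * (σ⁻¹ * τ * σ) * σ⁻¹ = τ := by group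
      rw [e']; group
    rw [hgg] at e1
    have e2 : ι a * s (σ * σ) * s (σ⁻¹ * (σ⁻¹ * τ * σ) * σ) = ι a * (s τ * s (σ * σ)) := by
      rw [mul_assoc, ← hs2 _ hσ2 _ hτ2, ← hs2 _ hτ _ hσ2]
      congr 2
      group
    rw [e2, ← mul_assoc (s τ), hcomm τ hτ] at e1
    have e3 : ι a * (s τ * s (σ * σ)) = ι (τ • a) * (s τ * s (σ * σ)) := by
      rw [e1]; group
    exact (mul_right_cancel e3).symm
  have hHa : ∀ h ∈ H, h • a = a := by
    intro h hh
    by_cases hK : h ∈ K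
    · exact hKa h hK
    · have h1 : h * σ⁻¹ ∈ K := hidx _ hh _ (H.inv_mem hσ) hK hσi
      have h2 : h = (h * σ⁻¹) * σ := by group
      rw [h2, mul_smul, hσa, hKa _ h1]
  -- step 3: valuations
  have := Fintype.ofFinite K
  obtain ⟨y0, hy0⟩ := perm_H1 K (fun τ => φ (s τ)) (by
    intro g hg h hh x
    show φ (s (g * h)) x = _
    rw [hs2 g hg h hh, hφ, hs1 g hg])
  obtain ⟨φ', hφ'def⟩ : ∃ φ' : E → X → ℤ, ∀ e x, φ' e x = φ e x - (y0 ((π e)⁻¹ • x) - y0 x) :=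
    ⟨fun e x => φ e x - (y0 ((π e)⁻¹ • x) - y0 x), fun _ _ => rfl⟩
  have hφ' : ∀ e e' x, φ' (e * e') x = φ' e x + φ' e' ((π e)⁻¹ • x) := by
    intro e e' x
    simp only [hφ'def, hφ, map_mul, mul_inv_rev, mul_smul]
    ring
  have hφs : ∀ τ ∈ K, ∀ x, φ' (s τ) x = 0 := by
    intro τ hτ x
    simp only [hφ'def, hs1 τ hτ]
    have := hy0 τ hτ x
    rw [this]; ring
  have hφι : ∀ b x, φ' (ι b) x = φ (ι b) x := by
    intro b x
    simp only [hφ'def, D.pi]
    simp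
  obtain ⟨b, hb1, hb2⟩ := norm a hHa (φ' g) (by
    intro τ hτ x
    have e1 : φ' (s τ * g) x = φ' (g * s (σ⁻¹ * τ * σ)) x := by
      rw [hg' _ (hconj' τ hτ)]
      have e' : σ * (σ⁻¹ * τ * σ) * σ⁻¹ = τ := by group
      rw [e']
    rw [hφ', hφ', hφs τ hτ, hφs _ (hconj' τ hτ), hs1 τ hτ] at e1
    simpa using e1) (by
    intro x
    have e1 : φ' (g * g) x = φ' (ι a * s (σ * σ)) x := by rw [hgg]
    rw [hφ', hφ', hφs _ hσ2, hπg, hφι] at e1
    simpa using e1.symm)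
  -- step 4: correct `g`
  obtain ⟨g1, hg1def⟩ : ∃ g1 : E, g1 = (ι b)⁻¹ * g := ⟨_, rfl⟩
  have hπg1 : π g1 = σ := by simp [hg1def, hπg, D.pi]
  have hbs : ∀ τ ∈ K, s τ * (ι b)⁻¹ = (ι b)⁻¹ * s τ := by
    intro τ hτ
    have := D.conj (s τ) b
    rw [hs1 τ hτ, hb1 τ hτ] at this
    have e : s τ * ι b = ι b * s τ := by
      calc s τ * ι b = (s τ * ι b * (s τ)⁻¹) * s τ := by group
        _ = ι b * s τ := by rw [this]
    calc s τ * (ι b)⁻¹ = (ι b)⁻¹ * (ι b * s τ) * (ι b)⁻¹ := by group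
      _ = (ι b)⁻¹ * (s τ * ι b) * (ι b)⁻¹ := by rw [e]
      _ = _ := by group
  have hg1 : ∀ τ ∈ K, g1 * s τ = s (σ * τ * σ⁻¹) * g1 := by
    intro τ hτ
    rw [hg1def, mul_assoc, hg' τ hτ, ← mul_assoc, ← hbs _ (hconj τ hτ), mul_assoc]
  have hg1g1 : g1 * g1 = s (σ * σ) := by
    have e1 : g * (ι b)⁻¹ = (ι (σ • b))⁻¹ * g := by
      have := D.conj g b⁻¹
      rw [hπg] at this
      rw [← map_inv, ← map_inv, ← smul_inv', ← this]; group
    have e2 : g1 * g1 = (ι b)⁻¹ * (g * (ι b)⁻¹) * g := by rw [hg1def]; group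
    rw [e2, e1]
    have e3 : (ι b)⁻¹ * ((ι (σ • b))⁻¹ * g) * g = (ι b)⁻¹ * (ι (σ • b))⁻¹ * (g * g) := by group
    rw [e3, hgg, hb2, map_mul]
    have e4 : (ι b)⁻¹ * (ι (σ • b))⁻¹ * (ι b * ι (σ • b) * s (σ * σ))
        = ((ι (σ • b)) * (ι b))⁻¹ * (ι b * ι (σ • b)) * s (σ * σ) := by group
    rw [e4, ← map_mul, ← map_mul, mul_comm (σ • b) b]
    group
  -- define the splitting on `H`
  refine ⟨fun h => if h ∈ K then s h else s (h * σ⁻¹) * g1, ?_, ?_⟩
  · intro h hh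
    by_cases hK : h ∈ K
    · simp only [if_pos hK, hs1 h hK]
    · have h1 : h * σ⁻¹ ∈ K := hidx _ hh _ (H.inv_mem hσ) hK hσi
      simp only [if_neg hK, map_mul, hs1 _ h1, hπg1]
      group
  · intro h hh k hk
    by_cases hK : h ∈ K
    · by_cases kK : k ∈ K
      · simp only [if_pos hK, if_pos kK, if_pos (K.mul_mem hK kK), hs2 h hK k kK]
      · have h1 : k * σ⁻¹ ∈ K := hidx _ hk _ (H.inv_mem hσ) kK hσi
        have h2 : h * k ∉ K := fun h' => kK (by simpa using K.mul_mem (K.inv_mem hK) h')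
        simp only [if_pos hK, if_neg kK, if_neg h2]
        rw [mul_assoc h k, hs2 h hK _ h1, mul_assoc]
    · have h1 : h * σ⁻¹ ∈ K := hidx _ hh _ (H.inv_mem hσ) hK hσi
      by_cases kK : k ∈ K
      · have h2 : h * k ∉ K := fun h' => hK (by simpa using K.mul_mem h' (K.inv_mem kK))
        simp only [if_neg hK, if_pos kK, if_neg h2]
        rw [mul_assoc (s (h * σ⁻¹)), hg1 k kK, ← mul_assoc, ← hs2 _ h1 _ (hconj k kK)]
        congr 2
        group
      · have h2 : h * k ∈ K := hidx _ hh _ hk hK kK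
        have h3 : k * σ⁻¹ ∈ K := hidx _ hk _ (H.inv_mem hσ) kK hσi
        simp only [if_neg hK, if_neg kK, if_pos h2]
        have e1 : s (h * σ⁻¹) * g1 * (s (k * σ⁻¹) * g1)
            = s (h * σ⁻¹) * (g1 * s (k * σ⁻¹)) * g1 := by group
        rw [e1, hg1 _ h3]
        have e2 : s (h * σ⁻¹) * (s (σ * (k * σ⁻¹) * σ⁻¹) * g1) * g1
            = s (h * σ⁻¹) * s (σ * (k * σ⁻¹) * σ⁻¹) * (g1 * g1) := by group
        rw [e2, hg1g1, ← hs2 _ h1 _ (hconj _ h3), ← hs2 _ (K.mul_mem h1 (hconj _ h3)) _ hσ2]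
        congr 1
        group

/-- Dévissage: splitting over the whole of a finite `2`-group. -/
theorem devissage [Finite Γ] (n : ℕ) (hcard : Nat.card Γ = 2 ^ n)
    (π : E →* Γ) (ι : A →* E) (D : ExtData π ι)
    {X : Type*} [MulAction Γ X] (φ : E → X → ℤ)
    (hφ : ∀ e e' x, φ (e * e') x = φ e x + φ e' ((π e)⁻¹ • x))
    (H90 : ∀ K : Subgroup Γ, ∀ c : Γ → A, (∀ h ∈ K, ∀ k ∈ K, c (h * k) = c h * h • c k) →
      ∃ x : A, ∀ h ∈ K, c h = x / (h • x))
    (norm : ∀ H K : Subgroup Γ, K ≤ H → (K.subgroupOf H).index = 2 →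
      ∀ σ ∈ H, σ ∉ K →
      ∀ a : A, (∀ h ∈ H, h • a = a) → ∀ y : X → ℤ, (∀ h ∈ K, ∀ x, y (h⁻¹ • x) = y x) →
      (∀ x, φ (ι a) x = y x + y (σ⁻¹ • x)) →
      ∃ b : A, (∀ h ∈ K, h • b = b) ∧ a = b * σ • b) :
    PSplit π ⊤ := by
  classical
  have main : ∀ m : ℕ, ∀ H : Subgroup Γ, Nat.card H = 2 ^ m → PSplit π H := by
    intro m
    induction m with
    | zero =>
      intro H hH
      have hbot : H = ⊥ := by
        rw [pow_zero] at hH
        exact Subgroup.card_eq_one.mp hH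
      subst hbot
      refine ⟨fun _ => 1, ?_, ?_⟩
      · intro h hh
        rw [Subgroup.mem_bot] at hh
        simp [hh]
      · intro h _ k _
        simp
    | succ m ih =>
      intro H hH
      obtain ⟨K', hK'⟩ := Sylow.exists_subgroup_card_pow_prime (G := H) 2 (n := m)
        (by rw [hH]; exact pow_dvd_pow 2 (Nat.le_succ m))
      have hidx2 : K'.index = 2 := by
        have h1 := K'.card_mul_index
        rw [hK', hH, pow_succ] at h1
        exact Nat.eq_of_mul_eq_mul_left (pow_pos (by norm_num) m) h1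
      let K : Subgroup Γ := K'.map H.subtype
      have hKH : K ≤ H := by
        intro x hx
        obtain ⟨y, _, rfl⟩ := hx
        exact y.2
      have hKK : K.subgroupOf H = K' := by
        ext x
        simp only [K, Subgroup.mem_subgroupOf, Subgroup.mem_map, Subgroup.coe_subtype]
        constructor
        · rintro ⟨y, hy, hyx⟩
          have : y = x := Subtype.ext hyx
          rwa [← this]
        · intro hx
          exact ⟨x, hx, rfl⟩
      have hKcard : Nat.card K = 2 ^ m := by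
        rw [← hK']
        exact (Nat.card_congr (K'.equivMapOfInjective H.subtype
          (Subgroup.subtype_injective H)).toEquiv).symm
      have hmem : ∀ x : Γ, ∀ hx : x ∈ H, (x ∈ K ↔ (⟨x, hx⟩ : H) ∈ K') := by
        intro x hx
        rw [← hKK, Subgroup.mem_subgroupOf]
      obtain ⟨σ', hσ'⟩ : ∃ σ' : H, σ' ∉ K' := by
        by_contra hcon
        push Not at hcon
        have : K' = ⊤ := by
          ext x; simp [hcon x]
        rw [this, Subgroup.index_top] at hidx2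
        norm_num at hidx2
      refine step_split π ι D φ hφ H K hKH ?_ σ' σ'.2 ?_ (H90 K) ?_ (ih K hKcard)
      · intro h hh k hk hhK hkK
        rw [hmem _ hh] at hhK
        rw [hmem _ hk] at hkK
        rw [hmem _ (H.mul_mem hh hk)]
        have := (Subgroup.mul_mem_iff_of_index_two hidx2 (a := ⟨h, hh⟩) (b := ⟨k, hk⟩))
        have h2 : (⟨h * k, H.mul_mem hh hk⟩ : H) = ⟨h, hh⟩ * ⟨k, hk⟩ := rfl
        rw [h2, this]
        simp [hhK, hkK]
      · rw [hmem _ σ'.2]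
        exact hσ'
      · exact norm H K hKH (by rw [hKK]; exact hidx2) σ' σ'.2 (by rw [hmem _ σ'.2]; exact hσ')
  exact main n ⊤ (by rw [Subgroup.card_top]; exact hcard)

end step

end Pool.Agent.Lib.MP_722186_nt
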